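import Pool.Agent.Lib.MP_f1379f_gt.EV.STA

/-!
# Module BAD: two transversal slabs (helper68)
-/

set_option autoImplicit false

namespace Pool.Agent.Lib.MP_f1379f_gt.EV

open MeasureTheory

namespace BADM

/-- the change of coordinates -/
noncomputable def Phi (r s : E) (i j : Fin 8) : E →ₗ[ℝ] E where
  toFun y := WithLp.toLp 2 fun k => if k = i then inner ℝ y r else if k = j then inner ℝ y s
    else y k
  map_add' x y := by
    ext k
    simp only [PiLp.add_apply, inner_add_left]
    split_ifs <;> rfl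
  map_smul' c y := by
    ext k
    simp only [PiLp.smul_apply, inner_smul_left, RingHom.id_apply, smul_eq_mul, conj_trivial]
    split_ifs <;> rfl

theorem Phi_apply (r s : E) (i j : Fin 8) (y : E) (k : Fin 8) : Phi r s i j y k =
    if k = i then inner ℝ y r else if k = j then inner ℝ y s else y k := rfl

theorem Phi_det {r s : E} {i j : Fin 8} (h : r i * s j - r j * s i ≠ 0) :
    LinearMap.det (Phi r s i j) ≠ 0 := by
  have hij : i ≠ j := by
    rintro rfl
    exact h (sub_self _)
  have hinj : Function.Injective (Phi r s i j) := by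
    rw [← LinearMap.ker_eq_bot, LinearMap.ker_eq_bot']
    intro y hy
    have hk : ∀ k, Phi r s i j y k = 0 := fun k => by rw [hy]; rfl
    have h1 : inner ℝ y r = (0 : ℝ) := by
      have := hk i
      rwa [Phi_apply, if_pos rfl] at this
    have h2 : inner ℝ y s = (0 : ℝ) := by
      have := hk j
      rwa [Phi_apply, if_neg hij.symm, if_pos rfl] at this
    have h3 : ∀ k, k ≠ i → k ≠ j → y k = 0 := fun k hki hkj => by
      have := hk k
      rwa [Phi_apply, if_neg hki, if_neg hkj] at this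
    have h4 : ∀ z : E, inner ℝ y z = z i * y i + z j * y j := by
      intro z
      rw [STAM.inner_eq, ← Finset.sum_subset (Finset.subset_univ {i, j}) (fun k _ hk => by
        rw [Finset.mem_insert, Finset.mem_singleton, not_or] at hk
        rw [h3 k hk.1 hk.2, mul_zero]), Finset.sum_pair hij]
    rw [h4] at h1 h2
    have h5 : y i = 0 := by
      have : (r i * s j - r j * s i) * y i = 0 := by linear_combination s j * h1 - r j * h2
      exact (mul_eq_zero.1 this).resolve_left h
    have h6 : y j = 0 := by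
      have : (r i * s j - r j * s i) * y j = 0 := by linear_combination r i * h2 - s i * h1
      exact (mul_eq_zero.1 this).resolve_left h
    ext k
    by_cases hki : k = i
    · rw [hki, h5]; rfl
    · by_cases hkj : k = j
      · rw [hkj, h6]; rfl
      · exact h3 k hki hkj
  exact (LinearEquiv.isUnit_det' (LinearEquiv.ofInjectiveEndo _ hinj)).ne_zero

theorem pair (r s : E) (h : ∃ i j : Fin 8, r i * s j - r j * s i ≠ 0) :
    ∃ C : ℝ, 0 ≤ C ∧ ∀ δ : ℝ, 0 ≤ δ →
      volume {y : E | ‖y‖ ≤ 2 ∧ |(inner ℝ y r : ℝ) - 2| ≤ 5 * δ ∧ |(inner ℝ y s : ℝ) - 2| ≤ 5 * δ}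
        ≤ ENNReal.ofReal (C * δ ^ 2) := by
  obtain ⟨i, j, h⟩ := h
  have hij : i ≠ j := by
    rintro rfl
    exact h (sub_self _)
  refine ⟨|(LinearMap.det (Phi r s i j))⁻¹| * (100 * 4 ^ 6), by positivity, fun δ hδ => ?_⟩
  let a : Fin 8 → ℝ := fun k => if k = i ∨ k = j then 2 - 5 * δ else -2
  let b : Fin 8 → ℝ := fun k => if k = i ∨ k = j then 2 + 5 * δ else 2
  have hsub : {y : E | ‖y‖ ≤ 2 ∧ |(inner ℝ y r : ℝ) - 2| ≤ 5 * δ ∧ |(inner ℝ y s : ℝ) - 2| ≤ 5 * δ}
      ⊆ Phi r s i j ⁻¹' (WithLp.ofLp ⁻¹' (Set.Icc a b)) := by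
    rintro y ⟨h1, h2, h3⟩
    rw [abs_le] at h2 h3
    have key : ∀ k, a k ≤ Phi r s i j y k ∧ Phi r s i j y k ≤ b k := by
      intro k
      rw [Phi_apply]
      by_cases hki : k = i
      · simp only [a, b, hki, if_pos, true_or]
        constructor <;> linarith
      · by_cases hkj : k = j
        · simp only [a, b, hkj, if_pos, or_true]
          rw [if_neg hij.symm]
          constructor <;> linarith
        · simp only [a, b, hki, hkj, if_false, or_self]
          have h4 : ‖y k‖ ≤ 2 := (PiLp.norm_apply_le y k).trans h1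
          exact abs_le.1 h4
    exact ⟨fun k => (key k).1, fun k => (key k).2⟩
  refine (measure_mono hsub).trans ?_
  rw [Measure.addHaar_preimage_linearMap volume (Phi_det h)]
  have hvol : volume (WithLp.ofLp ⁻¹' (Set.Icc a b) : Set E) =
      ENNReal.ofReal (100 * 4 ^ 6 * δ ^ 2) := by
    have h1 := (EuclideanSpace.volume_preserving_symm_measurableEquiv_toLp
      (Fin 8)).measure_preimage_equiv (Set.Icc a b)
    have h2 : volume (WithLp.ofLp ⁻¹' (Set.Icc a b) : Set E) = volume (Set.Icc a b) := h1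
    rw [h2, Real.volume_Icc_pi, ← ENNReal.ofReal_prod_of_nonneg]
    · congr 1
      have h3 : ∀ k, b k - a k = if k = i ∨ k = j then 10 * δ else 4 := by
        intro k
        simp only [a, b]
        split_ifs <;> ring
      have h4 : (Finset.univ.filter fun k : Fin 8 => k = i ∨ k = j) = {i, j} := by
        ext k
        simp
      have h5 : (Finset.univ.filter fun k : Fin 8 => ¬ (k = i ∨ k = j)).card = 6 := by
        have h6 := Finset.card_filter_add_card_filter_not (s := (Finset.univ : Finset (Fin 8)))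
          (fun k : Fin 8 => k = i ∨ k = j)
        rw [h4, Finset.card_pair hij, Finset.card_univ, Fintype.card_fin] at h6
        omega
      simp only [h3]
      rw [Finset.prod_ite, Finset.prod_const, Finset.prod_const, h4, Finset.card_pair hij, h5]
      ring
    · intro k _
      simp only [a, b]
      split_ifs <;> linarith
  rw [hvol, ← ENNReal.ofReal_mul (abs_nonneg _)]
  exact (congrArg ENNReal.ofReal (by ring)).le

theorem indep {r s : E} (hr : inner ℝ r r = (4 : ℝ)) (hs : inner ℝ s s = (4 : ℝ)) (hne : r ≠ s)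
    (hne' : s ≠ -r) : ∃ i j : Fin 8, r i * s j - r j * s i ≠ 0 := by
  by_contra hcon
  push Not at hcon
  have h1 : inner ℝ r r * inner ℝ s s = (inner ℝ r s * inner ℝ r s : ℝ) := by
    rw [STAM.inner_eq r r, STAM.inner_eq s s, STAM.inner_eq r s, Finset.sum_mul_sum,
      Finset.sum_mul_sum]
    refine Finset.sum_congr rfl fun i _ => Finset.sum_congr rfl fun j _ => ?_
    linear_combination (r i * s j) * hcon i j
  rw [hr, hs] at h1
  have h2 : (inner ℝ r s - 4) * (inner ℝ r s + 4) = (0 : ℝ) := by linear_combination -h1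
  rcases mul_eq_zero.1 h2 with h | h
  · apply hne
    rw [← sub_eq_zero, ← inner_self_eq_zero (𝕜 := ℝ), inner_sub_left, inner_sub_right,
      inner_sub_right, hr, hs, real_inner_comm r s]
    linarith
  · apply hne'
    rw [eq_neg_iff_add_eq_zero, ← inner_self_eq_zero (𝕜 := ℝ), inner_add_left, inner_add_right,
      inner_add_right, hr, hs, real_inner_comm r s]
    linarith

end BADM

open BADM in
theorem specBAD (hROT : SpecROT) : SpecBAD := by
  have h : ∀ r s : E, ∃ C : ℝ, 0 ≤ C ∧ (r ∈ R → s ∈ R → r ≠ s → s ≠ -r → ∀ δ : ℝ, 0 ≤ δ →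
      volume {y : E | ‖y‖ ≤ 2 ∧ |(inner ℝ y r : ℝ) - 2| ≤ 5 * δ ∧ |(inner ℝ y s : ℝ) - 2| ≤ 5 * δ}
        ≤ ENNReal.ofReal (C * δ ^ 2)) := by
    intro r s
    by_cases hc : r ∈ R ∧ s ∈ R ∧ r ≠ s ∧ s ≠ -r
    · obtain ⟨C, hC, h⟩ := pair r s (indep (hROT.k240.kiss.nrm r hc.1) (hROT.k240.kiss.nrm s hc.2.1)
        hc.2.2.1 hc.2.2.2)
      exact ⟨C, hC, fun _ _ _ _ => h⟩
    · exact ⟨0, le_rfl, fun h1 h2 h3 h4 => absurd ⟨h1, h2, h3, h4⟩ hc⟩
  choose C hC hb using h
  have hnn : ∀ r, 0 ≤ ∑ s ∈ R, C r s := fun r => Finset.sum_nonneg fun s _ => hC r s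
  refine ⟨1 + ∑ r ∈ R, ∑ s ∈ R, C r s, by
    have := Finset.sum_nonneg (s := R) fun r _ => hnn r
    linarith, fun δ hδ _ r hr s hs h1 h2 => ?_⟩
  refine (hb r s hr hs h1 h2 δ hδ).trans (ENNReal.ofReal_le_ofReal ?_)
  apply mul_le_mul_of_nonneg_right _ (sq_nonneg δ)
  have h3 : C r s ≤ ∑ s ∈ R, C r s := Finset.single_le_sum (f := fun s => C r s)
    (fun s _ => hC r s) hs
  have h4 : ∑ s ∈ R, C r s ≤ ∑ r ∈ R, ∑ s ∈ R, C r s :=
    Finset.single_le_sum (f := fun r => ∑ s ∈ R, C r s) (fun r _ => hnn r) hr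
  linarith

end Pool.Agent.Lib.MP_f1379f_gt.EV
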