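import Pool.Agent.Lib.MP_f1379f_gt.EV.Spec

section
/-!
# Module CLO: a kissing configuration with 240 points is a root system
-/
set_option autoImplicit false

namespace Pool.Agent.Lib.MP_f1379f_gt.EV

namespace CLOM

/-- the five possible inner products -/
def V (t : ℝ) : Prop := t = 4 ∨ t = 2 ∨ t = 0 ∨ t = -2 ∨ t = -4

theorem V_neg {t : ℝ} (h : V t) : V (-t) := by
  rcases h with h | h | h | h | h <;> rw [h] <;> unfold V <;> norm_num

theorem V_sub {s t : ℝ} (hs : V s) (ht : V t) (h : (s - t) * (s - t) ≤ 16) : V (s - t) := by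
  rcases hs with rfl | rfl | rfl | rfl | rfl <;> rcases ht with rfl | rfl | rfl | rfl | rfl <;>
    first
      | (exfalso; norm_num at h; done)
      | (unfold V; norm_num; done)

theorem inner_symm (x y : E) : inner ℝ x y = (inner ℝ y x : ℝ) := real_inner_comm y x

theorem eq_of_inner {x y : E} (hx : inner ℝ x x = (4 : ℝ)) (hy : inner ℝ y y = (4 : ℝ))
    (h : inner ℝ x y = (4 : ℝ)) : x = y := by
  have h1 : inner ℝ (x - y) (x - y) = (0 : ℝ) := by
    rw [inner_sub_left, inner_sub_right, inner_sub_right, hx, hy, h, inner_symm y x, h]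
    norm_num
  exact sub_eq_zero.1 (inner_self_eq_zero.1 h1)

theorem closed (hLPB : SpecLPB) {Y : Finset E} (hY : K240 Y) {u : E}
    (hu : inner ℝ u u = (4 : ℝ)) (h : ∀ w ∈ Y, V (inner ℝ u w)) : u ∈ Y := by
  classical
  by_contra hn
  have h2 : ∀ w ∈ Y, inner ℝ u w ≤ (2 : ℝ) := by
    intro w hw
    rcases h w hw with h3 | h3 | h3 | h3 | h3
    · exact absurd ((eq_of_inner hu (hY.kiss.nrm w hw) h3) ▸ hw) hn
    · exact h3.le
    · rw [h3]; norm_num
    · rw [h3]; norm_num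
    · rw [h3]; norm_num
  have hk : Kiss (insert u Y) := by
    refine ⟨?_, ?_⟩
    · intro y hy
      rcases Finset.mem_insert.1 hy with rfl | hy
      · exact hu
      · exact hY.kiss.nrm y hy
    · intro y hy z hz hyz
      rcases Finset.mem_insert.1 hy with rfl | hy'
      · rcases Finset.mem_insert.1 hz with rfl | hz'
        · exact absurd rfl hyz
        · exact h2 z hz'
      · rcases Finset.mem_insert.1 hz with rfl | hz'
        · rw [inner_symm]
          exact h2 y hy'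
        · exact hY.kiss.sep y hy' z hz' hyz
  have h3 := hLPB _ hk
  rw [Finset.card_insert_of_notMem hn, hY.card] at h3
  omega

theorem neg (hLPB : SpecLPB) (hLPI : SpecLPI) {Y : Finset E} (hY : K240 Y) {y : E}
    (hy : y ∈ Y) : -y ∈ Y := by
  refine closed hLPB hY ?_ ?_
  · rw [inner_neg_neg]
    exact hY.kiss.nrm y hy
  · intro w hw
    rw [inner_neg_left]
    exact V_neg ((hLPI Y hY).1 y hy w hw)

theorem sub (hLPB : SpecLPB) (hLPI : SpecLPI) {Y : Finset E} (hY : K240 Y) {y z : E}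
    (hy : y ∈ Y) (hz : z ∈ Y) (h : inner ℝ y z = (2 : ℝ)) : y - z ∈ Y := by
  have hu : inner ℝ (y - z) (y - z) = (4 : ℝ) := by
    rw [inner_sub_left, inner_sub_right, inner_sub_right, hY.kiss.nrm y hy, hY.kiss.nrm z hz,
      inner_symm z y, h]
    norm_num
  refine closed hLPB hY hu ?_
  intro w hw
  have h1 := real_inner_mul_inner_self_le (y - z) w
  rw [hu, hY.kiss.nrm w hw, inner_sub_left] at h1
  rw [inner_sub_left]
  refine V_sub ((hLPI Y hY).1 y hy w hw) ((hLPI Y hY).1 z hz w hw) ?_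
  linarith

theorem add (hLPB : SpecLPB) (hLPI : SpecLPI) {Y : Finset E} (hY : K240 Y) {y z : E}
    (hy : y ∈ Y) (hz : z ∈ Y) (h : inner ℝ y z = (-2 : ℝ)) : y + z ∈ Y := by
  have h1 := sub hLPB hLPI hY hy (neg hLPB hLPI hY hz) (by rw [inner_neg_right, h]; norm_num)
  rwa [sub_neg_eq_add] at h1

end CLOM

theorem specCLO (hLPB : SpecLPB) (hLPI : SpecLPI) : SpecCLO where
  neg := fun Y hY y hy => CLOM.neg hLPB hLPI hY hy
  sub := fun Y hY y hy z hz h => CLOM.sub hLPB hLPI hY hy hz h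
  add := fun Y hY y hy z hz h => CLOM.add hLPB hLPI hY hy hz h
  refl := by
    intro Y hY y hy s hs
    rcases (hLPI Y hY).1 y hy s hs with h | h | h | h | h
    · have h1 : y = s := CLOM.eq_of_inner (hY.kiss.nrm y hy) (hY.kiss.nrm s hs) h
      have h2 : y - ((inner ℝ y s : ℝ) / 2) • s = -y := by
        rw [h, h1]
        have h3 : ((4 : ℝ) / 2) • s = s + s := by
          rw [← two_smul ℝ s]
          norm_num
        rw [h3]
        abel
      rw [h2]
      exact CLOM.neg hLPB hLPI hY hy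
    · have h2 : y - ((inner ℝ y s : ℝ) / 2) • s = y - s := by
        rw [h]
        norm_num
      rw [h2]
      exact CLOM.sub hLPB hLPI hY hy hs h
    · have h2 : y - ((inner ℝ y s : ℝ) / 2) • s = y := by
        rw [h]
        norm_num
      rw [h2]
      exact hy
    · have h2 : y - ((inner ℝ y s : ℝ) / 2) • s = y + s := by
        rw [h]
        norm_num
      rw [h2]
      exact CLOM.add hLPB hLPI hY hy hs h
    · have h1 : y = -s := by
        apply CLOM.eq_of_inner (hY.kiss.nrm y hy)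
        · rw [inner_neg_neg]
          exact hY.kiss.nrm s hs
        · rw [inner_neg_right, h]
          norm_num
      have h2 : y - ((inner ℝ y s : ℝ) / 2) • s = s := by
        rw [h, h1]
        have h3 : ((-4 : ℝ) / 2) • s = -(s + s) := by
          rw [← two_smul ℝ s, ← neg_smul]
          norm_num
        rw [h3]
        abel
      rw [h2]
      exact hs

end Pool.Agent.Lib.MP_f1379f_gt.EV
end

section
/-!
# ROT: the shell of E8 is a kissing configuration with 240 points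
-/
set_option autoImplicit false

namespace Pool.Agent.Lib.MP_f1379f_gt.EV

namespace ROTM

lemma par : ∀ b : Fin 8 → Bool, InL (fun i => if b i then 1 else 0) →
    (∀ i, b i = false) ∨ (∃ w ∈ words, ∀ i, b i = true ↔ i ∈ w) ∨ ∀ i, b i = true := by
  decide +kernel

lemma parity (n : Fin 8 → ℤ) (h : InL n) :
    (∀ i, n i % 2 = 0) ∨ (∃ w ∈ words, ∀ i, n i % 2 = 1 ↔ i ∈ w) ∨ ∀ i, n i % 2 = 1 := by
  have h1 := par (fun i => decide (n i % 2 = 1)) (by
    have e : (fun i => if decide (n i % 2 = 1) = true then (1 : ℤ) else 0) = fun i => n i % 2 := by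
      funext i
      rcases Int.emod_two_eq_zero_or_one (n i) with h | h <;> simp [h]
    rw [e]
    unfold InL at h ⊢
    rw [Fin.sum_univ_eight] at h ⊢
    beta_reduce
    omega)
  rcases h1 with h1 | ⟨w, hw, h1⟩ | h1
  · left
    intro i
    have := h1 i
    simp only [decide_eq_false_iff_not] at this
    omega
  · right; left
    refine ⟨w, hw, fun i => ?_⟩
    have := h1 i
    simpa using this
  · right; right
    intro i
    simpa using h1 i

lemma wcard : ∀ w ∈ words, w.card = 4 := by decide +kernel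

lemma sq_odd {a : ℤ} (h : a % 2 = 1) : 1 ≤ a ^ 2 := by
  have : a ≠ 0 := by rintro rfl; simp at h
  have := Int.one_le_abs this
  nlinarith [sq_abs a, abs_nonneg a]

lemma sum_ge (n : Fin 8 → ℤ) (w : Finset (Fin 8)) (h : ∀ i ∈ w, 1 ≤ n i ^ 2) :
    (w.card : ℤ) ≤ ∑ i, n i ^ 2 := by
  calc (w.card : ℤ) = ∑ i ∈ w, (1 : ℤ) := by simp
    _ ≤ ∑ i ∈ w, n i ^ 2 := Finset.sum_le_sum h
    _ ≤ ∑ i, n i ^ 2 := Finset.sum_le_sum_of_subset_of_nonneg (Finset.subset_univ _)
        (fun i _ _ => sq_nonneg _)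

lemma min4 (n : Fin 8 → ℤ) (h : InL n) (h0 : n ≠ 0) : 4 ≤ ∑ i, n i ^ 2 := by
  rcases parity n h with h1 | ⟨w, hw, h1⟩ | h1
  · obtain ⟨i, hi⟩ := Function.ne_iff.1 h0
    have h2 : 4 ≤ n i ^ 2 := by
      have h3 : n i % 2 = 0 := h1 i
      have h4 : n i ≠ 0 := hi
      have h5 : 2 ≤ |n i| := by
        rcases abs_cases (n i) with ⟨h, _⟩ | ⟨h, _⟩ <;> omega
      nlinarith [sq_abs (n i)]
    exact h2.trans (Finset.single_le_sum (f := fun i => n i ^ 2) (fun i _ => sq_nonneg _)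
      (Finset.mem_univ i))
  · have := sum_ge n w (fun i hi => sq_odd ((h1 i).2 hi))
    rw [wcard w hw] at this
    exact_mod_cast this
  · have := sum_ge n Finset.univ (fun i _ => sq_odd (h1 i))
    rw [Finset.card_univ, Fintype.card_fin] at this
    push_cast at this
    omega

lemma memRZ (n : Fin 8 → ℤ) : n ∈ RZ ↔ InL n ∧ ∑ i, n i ^ 2 = 4 := by
  unfold RZ
  rw [Finset.mem_filter, Fintype.mem_piFinset]
  constructor
  · exact fun h => h.2
  · intro h
    refine ⟨fun i => ?_, h⟩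
    have h1 : n i ^ 2 ≤ 4 := by
      rw [← h.2]
      exact Finset.single_le_sum (f := fun i => n i ^ 2) (fun i _ => sq_nonneg _)
        (Finset.mem_univ i)
    have h2 : n i ≤ 2 := by nlinarith
    have h3 : -2 ≤ n i := by nlinarith
    simp only [Finset.mem_insert, Finset.mem_singleton]
    omega

lemma pm {a : ℤ} (h : a = 1 ∨ a = -1) : a ^ 2 = 1 ∧ a % 2 = 1 := by
  rcases h with rfl | rfl <;> norm_num

lemma cases (n : Fin 8 → ℤ) : n ∈ RZ ↔
    ((∃ i, (n i = 2 ∨ n i = -2) ∧ ∀ j, j ≠ i → n j = 0) ∨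
      ∃ w ∈ words, (∀ i ∈ w, n i = 1 ∨ n i = -1) ∧ ∀ i, i ∉ w → n i = 0) := by
  rw [memRZ]
  constructor
  · rintro ⟨h, h4⟩
    have hsmall : ∀ w : Finset (Fin 8), ∑ i ∈ w, n i ^ 2 ≤ 4 := by
      intro w
      rw [← h4]
      exact Finset.sum_le_sum_of_subset_of_nonneg (Finset.subset_univ _)
        (fun i _ _ => sq_nonneg _)
    rcases parity n h with h1 | ⟨w, hw, h1⟩ | h1
    · left
      have h0 : n ≠ 0 := by
        rintro rfl
        simp at h4
      obtain ⟨i, hi⟩ := Function.ne_iff.1 h0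
      have h5 : ∀ j, n j ≠ 0 → 4 ≤ n j ^ 2 := by
        intro j hj
        have h3 : n j % 2 = 0 := h1 j
        have h5 : 2 ≤ |n j| := by
          rcases abs_cases (n j) with ⟨h, _⟩ | ⟨h, _⟩ <;> omega
        nlinarith [sq_abs (n j)]
      have h6 : n i ^ 2 = 4 := by
        have := hsmall {i}
        rw [Finset.sum_singleton] at this
        exact le_antisymm this (h5 i hi)
      refine ⟨i, ?_, ?_⟩
      · have h7 : (n i - 2) * (n i + 2) = 0 := by linear_combination h6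
        rcases mul_eq_zero.1 h7 with h8 | h8
        · left; omega
        · right; omega
      · intro j hj
        by_contra hj0
        have h7 := h5 j hj0
        have h8 := hsmall {j, i}
        rw [Finset.sum_pair hj] at h8
        omega
    · right
      have h5 : ∀ i ∈ w, n i ^ 2 = 1 := by
        intro i hi
        have h6 := sum_ge n (w.erase i) (fun j hj => sq_odd ((h1 j).2 (Finset.mem_of_mem_erase hj)))
        have h7 : ∑ j ∈ w, n j ^ 2 = n i ^ 2 + ∑ j ∈ w.erase i, n j ^ 2 :=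
          (Finset.add_sum_erase w (fun j => n j ^ 2) hi).symm
        have h8 : ((w.erase i).card : ℤ) ≤ ∑ j ∈ w.erase i, n j ^ 2 := by
          calc ((w.erase i).card : ℤ) = ∑ j ∈ w.erase i, (1 : ℤ) := by simp
            _ ≤ _ := Finset.sum_le_sum
              (fun j hj => sq_odd ((h1 j).2 (Finset.mem_of_mem_erase hj)))
        rw [Finset.card_erase_of_mem hi, wcard w hw] at h8
        have h9 := hsmall w
        have h10 := sq_odd ((h1 i).2 hi)
        push_cast at h8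
        omega
      refine ⟨w, hw, fun i hi => ?_, fun i hi => ?_⟩
      · have h7 : (n i - 1) * (n i + 1) = 0 := by linear_combination h5 i hi
        rcases mul_eq_zero.1 h7 with h8 | h8
        · left; omega
        · right; omega
      · have h6 := hsmall (insert i w)
        rw [Finset.sum_insert hi, Finset.sum_congr rfl h5, Finset.sum_const, wcard w hw] at h6
        simpa using h6
    · exfalso
      have := sum_ge n Finset.univ (fun i _ => sq_odd (h1 i))
      rw [Finset.card_univ, Fintype.card_fin, h4] at this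
      norm_num at this
  · rintro (⟨i, hi, hj⟩ | ⟨w, hw, h1, h0⟩)
    · constructor
      · have hev : ∀ j, n j % 2 = 0 := by
          intro j
          by_cases h : j = i
          · subst h; rcases hi with h | h <;> omega
          · rw [hj j h]; rfl
        have := hev 0; have := hev 1; have := hev 2; have := hev 3
        have := hev 4; have := hev 5; have := hev 6; have := hev 7
        unfold InL
        rw [Fin.sum_univ_eight]
        omega
      · rw [Finset.sum_eq_single i (fun j _ hne => by rw [hj j hne]; ring)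
          (fun h => absurd (Finset.mem_univ _) h)]
        rcases hi with h | h <;> rw [h] <;> norm_num
    · have h1' : ∀ i ∈ w, n i ^ 2 = 1 ∧ n i % 2 = 1 := fun i hi => pm (h1 i hi)
      have hp : ∀ i, n i % 2 = if i ∈ w then 1 else 0 := by
        intro i
        split_ifs with h
        · exact (h1' i h).2
        · rw [h0 i h]; rfl
      have hs : ∑ i, n i ^ 2 = 4 := by
        rw [← Finset.sum_subset (Finset.subset_univ w)
          (fun i _ hi => by rw [h0 i hi]; ring), Finset.sum_congr rfl (fun i hi => (h1' i hi).1),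
          Finset.sum_const, wcard w hw]
        rfl
      refine ⟨?_, hs⟩
      have key : ∀ w ∈ words, InL (fun i => if i ∈ w then 1 else 0) := by decide +kernel
      have k := key w hw
      unfold InL at k ⊢
      rw [Fin.sum_univ_eight] at k ⊢
      simp only [← hp] at k
      omega

/-- the vectors `2 e_i` and `-2 e_i` -/
def S1 : Finset (Fin 8 → ℤ) :=
  (Finset.univ : Finset (Fin 8 × Bool)).image fun p => Pi.single p.1 (if p.2 then 2 else -2)

/-- the sign vectors supported on the blocks of `C` -/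
def S2 (C : Finset (Finset (Fin 8))) : Finset (Fin 8 → ℤ) :=
  C.biUnion fun w => Fintype.piFinset fun i => if i ∈ w then ({1, -1} : Finset ℤ) else {0}

lemma memS1 (n : Fin 8 → ℤ) : n ∈ S1 ↔ ∃ i, (n i = 2 ∨ n i = -2) ∧ ∀ j, j ≠ i → n j = 0 := by
  simp only [S1, Finset.mem_image, Finset.mem_univ, true_and]
  constructor
  · rintro ⟨⟨i, b⟩, rfl⟩
    refine ⟨i, ?_, fun j hj => by simp [hj]⟩
    cases b <;> simp
  · rintro ⟨i, hi, hj⟩
    rcases hi with h | h
    · refine ⟨(i, true), ?_⟩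
      funext j
      by_cases hji : j = i
      · subst hji; simp [h]
      · simp [hji, hj j hji]
    · refine ⟨(i, false), ?_⟩
      funext j
      by_cases hji : j = i
      · subst hji; simp [h]
      · simp [hji, hj j hji]

lemma memS2 (C : Finset (Finset (Fin 8))) (n : Fin 8 → ℤ) : n ∈ S2 C ↔
    ∃ w ∈ C, (∀ i ∈ w, n i = 1 ∨ n i = -1) ∧ ∀ i, i ∉ w → n i = 0 := by
  simp only [S2, Finset.mem_biUnion, Fintype.mem_piFinset]
  apply exists_congr
  intro w
  apply and_congr_right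
  intro _
  constructor
  · intro h
    refine ⟨fun i hi => ?_, fun i hi => ?_⟩
    · have := h i; rw [if_pos hi] at this; simpa using this
    · have := h i; rw [if_neg hi] at this; simpa using this
  · rintro ⟨h1, h2⟩ i
    split_ifs with h
    · simpa using h1 i h
    · simpa using h2 i h

lemma cardS (C : Finset (Finset (Fin 8))) (h4 : ∀ c ∈ C, c.card = 4) :
    (S1 ∪ S2 C).card = 16 + 16 * C.card := by
  have hd : Disjoint S1 (S2 C) := by
    rw [Finset.disjoint_left]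
    intro n h1 h2
    rw [memS1] at h1
    rw [memS2] at h2
    obtain ⟨i, hi, -⟩ := h1
    obtain ⟨w, -, k1, k2⟩ := h2
    by_cases h : i ∈ w
    · rcases k1 i h with h | h <;> omega
    · have := k2 i h; omega
  have hc1 : S1.card = 16 := by
    unfold S1
    rw [Finset.card_image_of_injective]
    · rfl
    · rintro ⟨i, b⟩ ⟨j, c⟩ h
      have h1 := congrFun h i
      have h2 : i = j := by
        by_contra hne
        simp [hne] at h1
        cases b <;> simp at h1
      subst h2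
      simp at h1
      cases b <;> cases c <;> simp_all
  have hc2 : (S2 C).card = 16 * C.card := by
    unfold S2
    rw [Finset.card_biUnion]
    · have : ∀ w ∈ C, (Fintype.piFinset fun i =>
          if i ∈ w then ({1, -1} : Finset ℤ) else {0}).card = 16 := by
        intro w hw
        rw [Fintype.card_piFinset]
        have e : ∀ i : Fin 8, (if i ∈ w then ({1, -1} : Finset ℤ) else {0}).card =
            if i ∈ w then 2 else 1 := by
          intro i; split_ifs <;> rfl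
        rw [Finset.prod_congr rfl (fun i _ => e i), Finset.prod_ite_mem, Finset.univ_inter,
          Finset.prod_const, h4 w hw]
        rfl
      rw [Finset.sum_congr rfl this, Finset.sum_const, smul_eq_mul, mul_comm]
    · intro w _ w' _ hne
      rw [Function.onFun, Finset.disjoint_left]
      intro n h1 h2
      rw [Fintype.mem_piFinset] at h1 h2
      apply hne
      ext i
      have k1 := h1 i
      have k2 := h2 i
      by_cases hi : i ∈ w <;> by_cases hi' : i ∈ w' <;> simp_all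
  rw [Finset.card_union_of_disjoint hd, hc1, hc2]

lemma cardRZ : RZ.card = 240 := by
  have hS : RZ = S1 ∪ S2 words := by
    ext n
    rw [cases, Finset.mem_union, memS1, memS2]
  rw [hS, cardS words wcard]
  rfl

lemma inner_vec (m n : Fin 8 → ℤ) : inner ℝ (vec m) (vec n) = ((∑ i, m i * n i : ℤ) : ℝ) := by
  unfold vec
  rw [EuclideanSpace.inner_eq_star_dotProduct]
  simp [dotProduct, mul_comm]

lemma vec_inj : Function.Injective vec := by
  intro m n h
  funext i
  have h1 := congrArg (fun x : E => x i) h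
  simpa [vec] using h1

end ROTM

open ROTM in
theorem specROT : SpecROT where
  mem x := by
    classical
    unfold R shell E8
    simp only [Finset.mem_image, Set.mem_ofPred_eq, memRZ]
    have key : ∀ n : Fin 8 → ℤ, ‖vec n‖ = 2 ↔ ∑ i, n i ^ 2 = 4 := by
      intro n
      have h1 : ‖vec n‖ ^ 2 = ((∑ i, n i ^ 2 : ℤ) : ℝ) := by
        rw [← real_inner_self_eq_norm_sq, inner_vec]
        simp [sq]
      constructor
      · intro h
        rw [h] at h1
        have : ((∑ i, n i ^ 2 : ℤ) : ℝ) = ((4 : ℤ) : ℝ) := by rw [← h1]; norm_num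
        exact_mod_cast this
      · intro h
        rw [h] at h1
        have h2 := norm_nonneg (vec n)
        have h3 : (‖vec n‖ - 2) * (‖vec n‖ + 2) = 0 := by
          have : ‖vec n‖ ^ 2 = 4 := by rw [h1]; norm_num
          linear_combination this
        rcases mul_eq_zero.1 h3 with h4 | h4 <;> linarith
    constructor
    · rintro ⟨n, ⟨h1, h2⟩, rfl⟩
      exact ⟨⟨n, h1, rfl⟩, (key n).2 h2⟩
    · rintro ⟨⟨n, h1, rfl⟩, h2⟩
      exact ⟨n, ⟨h1, (key n).1 h2⟩, rfl⟩
  k240 := by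
    classical
    refine ⟨⟨?_, ?_⟩, ?_⟩
    · intro y hy
      unfold R at hy
      rw [Finset.mem_image] at hy
      obtain ⟨n, hn, rfl⟩ := hy
      rw [memRZ] at hn
      rw [inner_vec]
      have : (∑ i, n i * n i : ℤ) = 4 := by
        rw [← hn.2]; exact Finset.sum_congr rfl fun i _ => by ring
      rw [this]; norm_num
    · intro y hy z hz hne
      unfold R at hy hz
      rw [Finset.mem_image] at hy hz
      obtain ⟨m, hm, rfl⟩ := hy
      obtain ⟨n, hn, rfl⟩ := hz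
      rw [memRZ] at hm hn
      rw [inner_vec]
      have h1 : InL (m - n) := by
        have h1 := hm.1
        have h2 := hn.1
        unfold InL at h1 h2 ⊢
        simp only [Fin.sum_univ_eight, Pi.sub_apply] at h1 h2 ⊢
        omega
      have h2 := min4 (m - n) h1 (fun h => hne (by rw [sub_eq_zero.1 h]))
      have h3 : ∑ i, (m - n) i ^ 2 = ∑ i, m i ^ 2 + ∑ i, n i ^ 2 - 2 * ∑ i, m i * n i := by
        rw [Finset.mul_sum, ← Finset.sum_add_distrib, ← Finset.sum_sub_distrib]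
        exact Finset.sum_congr rfl fun i _ => by rw [Pi.sub_apply]; ring
      rw [h3, hm.2, hn.2] at h2
      have h4 : (∑ i, m i * n i : ℤ) ≤ 2 := by omega
      exact_mod_cast h4
    · unfold R
      rw [Finset.card_image_of_injective _ vec_inj, cardRZ]
  cases := cases

end Pool.Agent.Lib.MP_f1379f_gt.EV
end

section
/-!
# MP_f1379f_gt, module CMP: stability of the kissing configuration, by compactness
-/
set_option autoImplicit false

namespace Pool.Agent.Lib.MP_f1379f_gt.EV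

open Filter Topology

namespace CMPM

lemma inner_le_two {y z : E} (hy : ‖y‖ = 2) (hz : ‖z‖ = 2) (h : 2 ≤ dist y z) :
    inner ℝ y z ≤ (2 : ℝ) := by
  rw [dist_eq_norm] at h
  have h1 := norm_sub_sq_real y z
  rw [hy, hz] at h1
  nlinarith [norm_nonneg (y - z)]

end CMPM

open CMPM in
theorem specCMP (hCLS : SpecCLS) : SpecCMP := by
  classical
  intro η hη
  by_contra hcon
  push Not at hcon
  have hn : ∀ n : ℕ, (0 : ℝ) < 1 / ((n : ℝ) + 1) := fun n => by positivity
  choose y hy1 hy2 hy3 using fun n : ℕ => hcon (1 / ((n : ℝ) + 1)) (hn n)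
  have hball : ∀ n, y n ∈ Metric.closedBall (0 : Fin 240 → E) 3 := by
    intro n
    rw [mem_closedBall_zero_iff, pi_norm_le_iff_of_nonneg (by norm_num)]
    intro i
    refine ((hy1 n i).2).trans ?_
    have : 1 / ((n : ℝ) + 1) ≤ 1 := by
      rw [div_le_one (by positivity)]
      have : (0 : ℝ) ≤ n := Nat.cast_nonneg n
      linarith
    linarith
  obtain ⟨a, -, φ, hφ, hlim⟩ := (isCompact_closedBall (0 : Fin 240 → E) 3).tendsto_subseq hball
  have hlim' : ∀ i, Tendsto (fun n => y (φ n) i) atTop (𝓝 (a i)) := fun i =>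
    (continuous_apply i).continuousAt.tendsto.comp hlim
  have hnorm : ∀ i, ‖a i‖ = 2 := by
    intro i
    have h1 : Tendsto (fun n => ‖y (φ n) i‖) atTop (𝓝 ‖a i‖) := (hlim' i).norm
    apply le_antisymm
    · have h2 : Tendsto (fun n : ℕ => (2 : ℝ) + 1 / (((φ n : ℕ) : ℝ) + 1)) atTop (𝓝 (2 + 0)) :=
        tendsto_const_nhds.add (tendsto_one_div_add_atTop_nhds_zero_nat.comp hφ.tendsto_atTop)
      have h3 := le_of_tendsto_of_tendsto' h1 h2 (fun n => (hy1 (φ n) i).2)
      linarith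
    · exact ge_of_tendsto' h1 (fun n => (hy1 (φ n) i).1)
  have hdist : ∀ i j, i ≠ j → 2 ≤ dist (a i) (a j) := by
    intro i j hij
    exact ge_of_tendsto' ((hlim' i).dist (hlim' j)) (fun n => hy2 (φ n) i j hij)
  have hinj : Function.Injective a := by
    intro i j hij
    by_contra hne
    have := hdist i j hne
    rw [hij, dist_self] at this
    linarith
  have hK : K240 (Finset.univ.image a) := by
    refine ⟨⟨?_, ?_⟩, ?_⟩
    · intro z hz
      obtain ⟨i, -, rfl⟩ := Finset.mem_image.1 hz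
      rw [real_inner_self_eq_norm_sq, hnorm i]
      norm_num
    · intro z hz w hw hne
      obtain ⟨i, -, rfl⟩ := Finset.mem_image.1 hz
      obtain ⟨j, -, rfl⟩ := Finset.mem_image.1 hw
      exact inner_le_two (hnorm i) (hnorm j) (hdist i j (fun h => hne (by rw [h])))
    · rw [Finset.card_image_of_injective _ hinj, Finset.card_univ, Fintype.card_fin]
  obtain ⟨A, hA⟩ := hCLS _ hK
  have hev : ∀ᶠ n in atTop, dist ((y ∘ φ) n) a < η := hlim (Metric.ball_mem_nhds a hη)
  obtain ⟨n, hn⟩ := hev.exists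
  obtain ⟨r, hr, hbad⟩ := hy3 (φ n) A.symm
  have h1 : A r ∈ Finset.univ.image a := (hA _).2 ⟨r, hr, rfl⟩
  obtain ⟨i, -, hi⟩ := Finset.mem_image.1 h1
  have h2 := hbad i
  have h3 : ‖A.symm (y (φ n) i) - r‖ = ‖y (φ n) i - a i‖ := by
    rw [hi, ← A.symm.norm_map (y (φ n) i - A r), map_sub, A.symm_apply_apply]
  rw [h3, ← dist_eq_norm] at h2
  have h4 : dist (y (φ n) i) (a i) ≤ dist ((y ∘ φ) n) a := dist_le_pi_dist _ _ i
  linarith

end Pool.Agent.Lib.MP_f1379f_gt.EV
end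

section
/-!
# Module CNT: counting in a kissing configuration with 240 points
-/
set_option autoImplicit false

namespace Pool.Agent.Lib.MP_f1379f_gt.EV

namespace CNTM

/-- the five possible inner products -/
def V (t : ℝ) : Prop := t = 4 ∨ t = 2 ∨ t = 0 ∨ t = -2 ∨ t = -4

theorem inner_symm (x y : E) : inner ℝ x y = (inner ℝ y x : ℝ) := real_inner_comm y x

theorem eq_of_inner {x y : E} (hx : inner ℝ x x = (4 : ℝ)) (hy : inner ℝ y y = (4 : ℝ))
    (h : inner ℝ x y = (4 : ℝ)) : x = y := by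
  have h1 : inner ℝ (x - y) (x - y) = (0 : ℝ) := by
    rw [inner_sub_left, inner_sub_right, inner_sub_right, hx, hy, h, inner_symm y x, h]
    norm_num
  exact sub_eq_zero.1 (inner_self_eq_zero.1 h1)

theorem sum_neg (hCLO : SpecCLO) {Y : Finset E} (hY : K240 Y) (h : E → ℝ) :
    ∑ y ∈ Y, h (-y) = ∑ y ∈ Y, h y := by
  refine Finset.sum_nbij' (fun y => -y) (fun y => -y) ?_ ?_ ?_ ?_ ?_
  · intro y hy
    exact hCLO.neg Y hY y hy
  · intro y hy
    exact hCLO.neg Y hY y hy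
  · intro y _
    exact neg_neg y
  · intro y _
    exact neg_neg y
  · intro y _
    rfl

theorem m2 (hPOL : SpecPOL) {Y : Finset E} (hY : K240 Y) {f : E} (hf : f ∈ Y) :
    ∑ y ∈ Y, inner ℝ f y ^ 2 = (480 : ℝ) := by
  have h := hPOL.m11 Y hY f f
  rw [hY.kiss.nrm f hf] at h
  have h1 : ∑ y ∈ Y, inner ℝ f y ^ 2 = ∑ y ∈ Y, (inner ℝ f y * inner ℝ f y : ℝ) :=
    Finset.sum_congr rfl fun y _ => pow_two _
  rw [h1, h]
  norm_num

theorem m4 (hPOL : SpecPOL) {Y : Finset E} (hY : K240 Y) {f : E} (hf : f ∈ Y) :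
    ∑ y ∈ Y, inner ℝ f y ^ 4 = (2304 : ℝ) := by
  have h := hPOL.m22 Y hY f f
  rw [hY.kiss.nrm f hf] at h
  have h1 : ∑ y ∈ Y, inner ℝ f y ^ 4 = ∑ y ∈ Y, (inner ℝ f y ^ 2 * inner ℝ f y ^ 2 : ℝ) :=
    Finset.sum_congr rfl fun y _ => by ring
  rw [h1, h]
  norm_num

theorem c56 (hPOL : SpecPOL) (hLPI : SpecLPI) (hCLO : SpecCLO) {Y : Finset E} (hY : K240 Y)
    {f : E} (hf : f ∈ Y) : (Y.filter fun y => inner ℝ f y = (2 : ℝ)).card = 56 := by
  have h1 : ∑ y ∈ Y, (if inner ℝ f y = (2 : ℝ) then (1 : ℝ) else 0) +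
      ∑ y ∈ Y, (if inner ℝ f y = (-2 : ℝ) then (1 : ℝ) else 0) = 112 := by
    have h2 : ∑ y ∈ Y, (if inner ℝ f y = (2 : ℝ) then (1 : ℝ) else 0) +
        ∑ y ∈ Y, (if inner ℝ f y = (-2 : ℝ) then (1 : ℝ) else 0) =
        ∑ y ∈ Y, (1 / 3 * inner ℝ f y ^ 2 - 1 / 48 * inner ℝ f y ^ 4 : ℝ) := by
      rw [← Finset.sum_add_distrib]
      refine Finset.sum_congr rfl fun y hy => ?_
      rcases (hLPI Y hY).1 f hf y hy with h | h | h | h | h <;> rw [h] <;> norm_num
    rw [h2, Finset.sum_sub_distrib, ← Finset.mul_sum, ← Finset.mul_sum, m2 hPOL hY hf,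
      m4 hPOL hY hf]
    norm_num
  have h3 : ∑ y ∈ Y, (if inner ℝ f y = (-2 : ℝ) then (1 : ℝ) else 0) =
      ∑ y ∈ Y, (if inner ℝ f y = (2 : ℝ) then (1 : ℝ) else 0) := by
    rw [← sum_neg hCLO hY]
    refine Finset.sum_congr rfl fun y _ => ?_
    have h4 : (inner ℝ f (-y) = (-2 : ℝ)) ↔ (inner ℝ f y = (2 : ℝ)) := by
      rw [inner_neg_right, neg_inj]
    simp only [h4]
  rw [h3, ← two_mul, Finset.sum_boole] at h1
  have h5 : ((Y.filter fun y => inner ℝ f y = (2 : ℝ)).card : ℝ) = 56 := by linarith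
  exact_mod_cast h5

theorem nbr (hPOL : SpecPOL) (hLPI : SpecLPI) (hCLO : SpecCLO) {Y : Finset E} (hY : K240 Y)
    {f : E} (hf : f ∈ Y) :
    ∑ y ∈ Y.filter (fun y => inner ℝ f y = (2 : ℝ)), y = (28 : ℝ) • f := by
  refine ext_inner_left ℝ fun z => ?_
  rw [inner_sum, inner_smul_right, Finset.sum_filter]
  have h1 : ∑ y ∈ Y, (if inner ℝ f y = (2 : ℝ) then (inner ℝ z y : ℝ) else 0) -
      ∑ y ∈ Y, (if inner ℝ f y = (-2 : ℝ) then (inner ℝ z y : ℝ) else 0) =
      56 * (inner ℝ z f : ℝ) := by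
    have h2 : ∑ y ∈ Y, (if inner ℝ f y = (2 : ℝ) then (inner ℝ z y : ℝ) else 0) -
        ∑ y ∈ Y, (if inner ℝ f y = (-2 : ℝ) then (inner ℝ z y : ℝ) else 0) =
        ∑ y ∈ Y, (2 / 3 * (inner ℝ f y * inner ℝ z y) -
          1 / 24 * (inner ℝ f y ^ 2 * (inner ℝ f y * inner ℝ z y)) : ℝ) := by
      rw [← Finset.sum_sub_distrib]
      refine Finset.sum_congr rfl fun y hy => ?_
      rcases (hLPI Y hY).1 f hf y hy with h | h | h | h | h <;> rw [h] <;> norm_num <;> ring
    rw [h2, Finset.sum_sub_distrib, ← Finset.mul_sum, ← Finset.mul_sum, hPOL.m11 Y hY,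
      hPOL.m211 Y hY, hY.kiss.nrm f hf, inner_symm f z]
    ring
  have h3 : ∑ y ∈ Y, (if inner ℝ f y = (-2 : ℝ) then (inner ℝ z y : ℝ) else 0) =
      -∑ y ∈ Y, (if inner ℝ f y = (2 : ℝ) then (inner ℝ z y : ℝ) else 0) := by
    rw [← sum_neg hCLO hY, ← Finset.sum_neg_distrib]
    refine Finset.sum_congr rfl fun y _ => ?_
    have h4 : (inner ℝ f (-y) = (-2 : ℝ)) ↔ (inner ℝ f y = (2 : ℝ)) := by
      rw [inner_neg_right, neg_inj]
    simp only [h4]
    rw [inner_neg_right]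
    split_ifs
    · rfl
    · norm_num
  rw [h3] at h1
  linarith

theorem S (hPOL : SpecPOL) (hLPI : SpecLPI) (hCLO : SpecCLO) {Y : Finset E} (hY : K240 Y)
    {f g : E} (hf : f ∈ Y) (hg : g ∈ Y) (hfg : inner ℝ f g = (0 : ℝ)) (z : E) :
    ∑ t ∈ Y.filter (fun t => inner ℝ t f = (2 : ℝ) ∧ inner ℝ t g = (2 : ℝ)), inner ℝ z t ^ 2 =
      4 * (inner ℝ z z : ℝ) + 2 * (inner ℝ z f ^ 2 + inner ℝ z g ^ 2)
        + 6 * (inner ℝ z f * inner ℝ z g) := by
  rw [Finset.sum_filter]
  have h1 : 32 * ∑ t ∈ Y, (if inner ℝ t f = (2 : ℝ) ∧ inner ℝ t g = (2 : ℝ)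
        then (inner ℝ z t ^ 2 : ℝ) else 0) +
      32 * ∑ t ∈ Y, (if inner ℝ t f = (-2 : ℝ) ∧ inner ℝ t g = (-2 : ℝ)
        then (inner ℝ z t ^ 2 : ℝ) else 0) =
      256 * (inner ℝ z z : ℝ) + 128 * (inner ℝ z f ^ 2 + inner ℝ z g ^ 2)
        + 384 * (inner ℝ z f * inner ℝ z g) := by
    have h2 : 32 * ∑ t ∈ Y, (if inner ℝ t f = (2 : ℝ) ∧ inner ℝ t g = (2 : ℝ)
          then (inner ℝ z t ^ 2 : ℝ) else 0) +
        32 * ∑ t ∈ Y, (if inner ℝ t f = (-2 : ℝ) ∧ inner ℝ t g = (-2 : ℝ)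
          then (inner ℝ z t ^ 2 : ℝ) else 0) =
        ∑ t ∈ Y, (inner ℝ z t ^ 2 * (inner ℝ f t ^ 2 * inner ℝ g t ^ 2) +
          4 * (inner ℝ z t ^ 2 * (inner ℝ f t * inner ℝ g t)) : ℝ) := by
      rw [Finset.mul_sum, Finset.mul_sum, ← Finset.sum_add_distrib]
      refine Finset.sum_congr rfl fun t ht => ?_
      rw [inner_symm t f, inner_symm t g]
      have hft := (hLPI Y hY).1 f hf t ht
      have hgt := (hLPI Y hY).1 g hg t ht
      have hne1 : inner ℝ f t = (4 : ℝ) → inner ℝ g t = (0 : ℝ) := by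
        intro h
        rw [← eq_of_inner (hY.kiss.nrm f hf) (hY.kiss.nrm t ht) h, inner_symm]
        exact hfg
      have hne2 : inner ℝ g t = (4 : ℝ) → inner ℝ f t = (0 : ℝ) := by
        intro h
        rw [← eq_of_inner (hY.kiss.nrm g hg) (hY.kiss.nrm t ht) h]
        exact hfg
      have hne3 : inner ℝ f t = (-4 : ℝ) → inner ℝ g t = (0 : ℝ) := by
        intro h
        have h5 : f = -t := eq_of_inner (hY.kiss.nrm f hf)
          (by rw [inner_neg_neg]; exact hY.kiss.nrm t ht) (by rw [inner_neg_right, h]; norm_num)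
        have h6 : t = -f := by rw [h5, neg_neg]
        rw [h6, inner_neg_right, inner_symm, hfg, neg_zero]
      have hne4 : inner ℝ g t = (-4 : ℝ) → inner ℝ f t = (0 : ℝ) := by
        intro h
        have h5 : g = -t := eq_of_inner (hY.kiss.nrm g hg)
          (by rw [inner_neg_neg]; exact hY.kiss.nrm t ht) (by rw [inner_neg_right, h]; norm_num)
        have h6 : t = -g := by rw [h5, neg_neg]
        rw [h6, inner_neg_right, hfg, neg_zero]
      rcases hft with h | h | h | h | h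
      · rw [h, hne1 h]
        norm_num
      · rcases hgt with h' | h' | h' | h' | h'
        · rw [hne2 h'] at h
          norm_num at h
        · rw [h, h']
          norm_num
          ring
        · rw [h, h']
          norm_num
        · rw [h, h']
          norm_num
          ring
        · rw [hne4 h'] at h
          norm_num at h
      · rw [h]
        norm_num
      · rcases hgt with h' | h' | h' | h' | h'
        · rw [hne2 h'] at h
          norm_num at h
        · rw [h, h']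
          norm_num
          ring
        · rw [h, h']
          norm_num
        · rw [h, h']
          norm_num
          ring
        · rw [hne4 h'] at h
          norm_num at h
      · rw [h, hne3 h]
        norm_num
    rw [h2, Finset.sum_add_distrib, ← Finset.mul_sum, hPOL.m222 Y hY, hPOL.m211 Y hY,
      hY.kiss.nrm f hf, hY.kiss.nrm g hg, hfg]
    ring
  have h3 : ∑ t ∈ Y, (if inner ℝ t f = (-2 : ℝ) ∧ inner ℝ t g = (-2 : ℝ)
        then (inner ℝ z t ^ 2 : ℝ) else 0) =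
      ∑ t ∈ Y, (if inner ℝ t f = (2 : ℝ) ∧ inner ℝ t g = (2 : ℝ)
        then (inner ℝ z t ^ 2 : ℝ) else 0) := by
    rw [← sum_neg hCLO hY]
    refine Finset.sum_congr rfl fun y _ => ?_
    have h4 : (inner ℝ (-y) f = (-2 : ℝ)) ↔ (inner ℝ y f = (2 : ℝ)) := by
      rw [inner_neg_left, neg_inj]
    have h5 : (inner ℝ (-y) g = (-2 : ℝ)) ↔ (inner ℝ y g = (2 : ℝ)) := by
      rw [inner_neg_left, neg_inj]
    simp only [h4, h5]
    rw [inner_neg_right, neg_sq]
  rw [h3] at h1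
  linarith

theorem com (hPOL : SpecPOL) (hLPI : SpecLPI) (hCLO : SpecCLO) {Y : Finset E} (hY : K240 Y)
    {f g : E} (hf : f ∈ Y) (hg : g ∈ Y) (hfg : inner ℝ f g = (0 : ℝ)) :
    ∃ h ∈ Y, inner ℝ h f = (2 : ℝ) ∧ inner ℝ h g = (2 : ℝ) := by
  have h1 := S hPOL hLPI hCLO hY hf hg hfg f
  rw [hY.kiss.nrm f hf, hfg] at h1
  by_contra hn
  push Not at hn
  have h2 : Y.filter (fun t => inner ℝ t f = (2 : ℝ) ∧ inner ℝ t g = (2 : ℝ)) = ∅ := by
    apply Finset.filter_eq_empty_iff.2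
    intro t ht h3
    exact hn t ht h3.1 h3.2
  rw [h2, Finset.sum_empty] at h1
  norm_num at h1

theorem spn (hPOL : SpecPOL) (hLPI : SpecLPI) (hCLO : SpecCLO) {Y : Finset E} (hY : K240 Y)
    {f : E} (hf : f ∈ Y) (z : E)
    (hz : ∀ y ∈ Y, inner ℝ f y = (2 : ℝ) → inner ℝ z y = (0 : ℝ)) : z = 0 := by
  have h1 := hPOL.m22 Y hY z f
  have h2 := hPOL.m42 Y hY f z
  have h3 : ∑ y ∈ Y, (inner ℝ z y ^ 2 * inner ℝ f y ^ 2 : ℝ) =
      1 / 16 * ∑ y ∈ Y, (inner ℝ f y ^ 4 * inner ℝ z y ^ 2 : ℝ) := by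
    rw [Finset.mul_sum]
    refine Finset.sum_congr rfl fun y hy => ?_
    rcases (hLPI Y hY).1 f hf y hy with h | h | h | h | h
    · rw [h]; ring
    · rw [hz y hy h]; ring
    · rw [h]; ring
    · have h4 : inner ℝ z (-y) = (0 : ℝ) :=
        hz (-y) (hCLO.neg Y hY y hy) (by rw [inner_neg_right, h]; norm_num)
      rw [inner_neg_right, neg_eq_zero] at h4
      rw [h4]; ring
    · rw [h]; ring
  rw [h1, h2, hY.kiss.nrm f hf, inner_symm f z] at h3
  have h5 : 0 ≤ (inner ℝ z f : ℝ) ^ 2 := sq_nonneg _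
  have h6 : 0 ≤ (inner ℝ z z : ℝ) := real_inner_self_nonneg
  have h7 : (inner ℝ z z : ℝ) = 0 := by nlinarith
  exact inner_self_eq_zero.1 h7

theorem orp (hPOL : SpecPOL) (hLPI : SpecLPI) {Y : Finset E} (hY : K240 Y)
    {f : E} (hf : f ∈ Y) (z : E) (hzf : inner ℝ z f = (0 : ℝ))
    (hz : ∀ y ∈ Y, inner ℝ f y = (0 : ℝ) → inner ℝ z y = (0 : ℝ)) : z = 0 := by
  have h0 := hPOL.m11 Y hY z z
  have h1 := hPOL.m22 Y hY z f
  have h2 := hPOL.m42 Y hY f z
  have h3 : ∑ y ∈ Y, (inner ℝ z y * inner ℝ z y : ℝ) =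
      5 / 16 * ∑ y ∈ Y, (inner ℝ z y ^ 2 * inner ℝ f y ^ 2 : ℝ) -
      1 / 64 * ∑ y ∈ Y, (inner ℝ f y ^ 4 * inner ℝ z y ^ 2 : ℝ) := by
    rw [Finset.mul_sum, Finset.mul_sum, ← Finset.sum_sub_distrib]
    refine Finset.sum_congr rfl fun y hy => ?_
    rcases (hLPI Y hY).1 f hf y hy with h | h | h | h | h
    · rw [h]; ring
    · rw [h]; ring
    · rw [hz y hy h]; ring
    · rw [h]; ring
    · rw [h]; ring
  rw [h0, h1, h2, hY.kiss.nrm f hf, inner_symm f z, hzf] at h3
  have h7 : (inner ℝ z z : ℝ) = 0 := by linarith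
  exact inner_self_eq_zero.1 h7

theorem con (hPOL : SpecPOL) (hLPI : SpecLPI) (hCLO : SpecCLO) {Y : Finset E} (hY : K240 Y)
    (P : E → Prop) (hP : ∀ f ∈ Y, ∀ g ∈ Y, inner ℝ f g = (2 : ℝ) → P f → P g) :
    ∀ f ∈ Y, ∀ g ∈ Y, P f → P g := by
  have hm2 : ∀ f ∈ Y, ∀ g ∈ Y, inner ℝ f g = (-2 : ℝ) → P f → P g := by
    intro f hf g hg h hPf
    have he := hCLO.add Y hY f hf g hg h
    have h1 : inner ℝ f (f + g) = (2 : ℝ) := by
      rw [inner_add_right, hY.kiss.nrm f hf, h]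
      norm_num
    have h2 : inner ℝ (f + g) g = (2 : ℝ) := by
      rw [inner_add_left, hY.kiss.nrm g hg, h]
      norm_num
    exact hP _ he g hg h2 (hP f hf _ he h1 hPf)
  intro f hf g hg hPf
  rcases (hLPI Y hY).1 f hf g hg with h | h | h | h | h
  · rw [← eq_of_inner (hY.kiss.nrm f hf) (hY.kiss.nrm g hg) h]
    exact hPf
  · exact hP f hf g hg h hPf
  · obtain ⟨k, hk, h1, h2⟩ := com hPOL hLPI hCLO hY hf hg h
    exact hP k hk g hg h2 (hP f hf k hk (by rw [inner_symm]; exact h1) hPf)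
  · exact hm2 f hf g hg h hPf
  · have h5 : f = -g := eq_of_inner (hY.kiss.nrm f hf)
      (by rw [inner_neg_neg]; exact hY.kiss.nrm g hg) (by rw [inner_neg_right, h]; norm_num)
    have h6 : 0 < (Y.filter fun y => inner ℝ f y = (2 : ℝ)).card := by
      rw [c56 hPOL hLPI hCLO hY hf]
      norm_num
    obtain ⟨k, hk⟩ := Finset.card_pos.1 h6
    rw [Finset.mem_filter] at hk
    have h7 : inner ℝ k g = (-2 : ℝ) := by
      have h8 : g = -f := by rw [h5, neg_neg]
      rw [h8, inner_neg_right, inner_symm, hk.2]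
    exact hm2 k hk.1 g hg h7 (hP f hf k hk.1 hk.2 hPf)

end CNTM

theorem specCNT (hPOL : SpecPOL) (hLPI : SpecLPI) (hCLO : SpecCLO) : SpecCNT where
  c56 := fun Y hY f hf => CNTM.c56 hPOL hLPI hCLO hY hf
  nbr := fun Y hY f hf => CNTM.nbr hPOL hLPI hCLO hY hf
  S := fun Y hY f hf g hg h z => CNTM.S hPOL hLPI hCLO hY hf hg h z
  com := fun Y hY f hf g hg h => CNTM.com hPOL hLPI hCLO hY hf hg h
  spn := fun Y hY f hf z hz => CNTM.spn hPOL hLPI hCLO hY hf z hz
  orp := fun Y hY f hf z h hz => CNTM.orp hPOL hLPI hY hf z h hz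
  con := fun Y hY P hP => CNTM.con hPOL hLPI hCLO hY P hP

end Pool.Agent.Lib.MP_f1379f_gt.EV
end

section
/-!
# CON: cones and exponentials
-/
set_option autoImplicit false

namespace Pool.Agent.Lib.MP_f1379f_gt.EV

open MeasureTheory
open scoped Pointwise

namespace CONM

/-- scaling -/
theorem scale {C : Set E} {u : E → ℝ} (hC : ∀ y ∈ C, ∀ t : ℝ, 0 < t → t • y ∈ C)
    (hu : ∀ y ∈ C, ∀ t : ℝ, 0 < t → u (t • y) = t * u y) {t : ℝ} (ht : 0 < t) :
    volume (C ∩ {y | u y ≤ t}) = ENNReal.ofReal (t ^ 8) * volume (C ∩ {y | u y ≤ 1}) := by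
  have h : C ∩ {y | u y ≤ t} = t • (C ∩ {y | u y ≤ 1}) := by
    ext y
    rw [Set.mem_smul_set_iff_inv_smul_mem₀ ht.ne']
    constructor
    · rintro ⟨h1, h2⟩
      refine ⟨hC y h1 _ (inv_pos.2 ht), ?_⟩
      show u (t⁻¹ • y) ≤ 1
      rw [hu y h1 _ (inv_pos.2 ht), inv_mul_le_iff₀ ht, mul_one]
      exact h2
    · rintro ⟨h1, h2⟩
      have h3 := hC _ h1 t ht
      rw [smul_inv_smul₀ ht.ne'] at h3
      refine ⟨h3, ?_⟩
      have h4 := hu _ h1 t ht
      rw [smul_inv_smul₀ ht.ne'] at h4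
      show u y ≤ t
      rw [h4]
      exact mul_le_of_le_one_right ht.le h2
  rw [h, Measure.addHaar_smul, abs_of_pos (pow_pos ht _), finrank_euclideanSpace_fin]

theorem null {C : Set E} {u : E → ℝ} {κ : ℝ} (hκ : 0 < κ) (hk : ∀ y ∈ C, κ * ‖y‖ ≤ u y) {t : ℝ}
    (ht : t ≤ 0) : volume (C ∩ {y | u y ≤ t}) = 0 := by
  apply measure_mono_null (t := {(0 : E)})
  · rintro y ⟨h1, h2⟩
    have h3 := hk y h1
    have h4 : u y ≤ 0 := le_trans h2 ht
    have h5 : ‖y‖ ≤ 0 := by
      by_contra h6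
      push Not at h6
      have := mul_pos hκ h6
      linarith
    exact norm_le_zero_iff.1 h5
  · exact measure_singleton _

theorem fin {C : Set E} {u : E → ℝ} {κ : ℝ} (hκ : 0 < κ) (hk : ∀ y ∈ C, κ * ‖y‖ ≤ u y) :
    volume (C ∩ {y | u y ≤ 1}) < ⊤ := by
  refine lt_of_le_of_lt (measure_mono ?_) (measure_closedBall_lt_top (x := (0 : E)) (r := κ⁻¹))
  rintro y ⟨h1, h2⟩
  rw [mem_closedBall_zero_iff, ← mul_one κ⁻¹, le_inv_mul_iff₀ hκ]
  exact (hk y h1).trans h2

/-- Tonelli -/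
theorem tonelli {C : Set E} {u : E → ℝ} {κ : ℝ} (hum : Measurable u)
    (hC : ∀ y ∈ C, ∀ t : ℝ, 0 < t → t • y ∈ C)
    (hu : ∀ y ∈ C, ∀ t : ℝ, 0 < t → u (t • y) = t * u y) (hκ : 0 < κ)
    (hk : ∀ y ∈ C, κ * ‖y‖ ≤ u y) {g : ℝ → ENNReal} (hg : Measurable g) :
    ∫⁻ y in C, ∫⁻ t in Set.Ici (u y), g t =
      (∫⁻ t in Set.Ioi (0 : ℝ), g t * ENNReal.ofReal (t ^ 8)) * volume (C ∩ {y | u y ≤ 1}) := by
  have h1 : ∀ y, ∫⁻ t in Set.Ici (u y), g t = ∫⁻ t, (if u y ≤ t then g t else 0) := by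
    intro y
    rw [← lintegral_indicator measurableSet_Ici]
    rfl
  simp_rw [h1]
  rw [lintegral_lintegral_swap]
  · have h2 : ∀ t, ∫⁻ y in C, (if u y ≤ t then g t else 0) = g t * volume (C ∩ {y | u y ≤ t}) := by
      intro t
      have h3 : (fun y => if u y ≤ t then g t else 0) =
          Set.indicator {y | u y ≤ t} (fun _ => g t) := rfl
      have h4 : MeasurableSet {y | u y ≤ t} := hum measurableSet_Iic
      rw [h3, lintegral_indicator h4, setLIntegral_const, Measure.restrict_apply h4,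
        Set.inter_comm]
    have h5 : ∀ t, g t * volume (C ∩ {y | u y ≤ t}) = Set.indicator (Set.Ioi (0 : ℝ))
        (fun t => g t * ENNReal.ofReal (t ^ 8) * volume (C ∩ {y | u y ≤ 1})) t := by
      intro t
      by_cases ht : 0 < t
      · rw [Set.indicator_of_mem (by exact ht), scale hC hu ht, mul_assoc]
      · rw [Set.indicator_of_notMem (by exact ht), null hκ hk (not_lt.1 ht), mul_zero]
    simp_rw [h2, h5]
    rw [lintegral_indicator measurableSet_Ioi, lintegral_mul_const _ (by fun_prop)]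
  · apply Measurable.aemeasurable
    exact Measurable.ite (measurableSet_le (hum.comp measurable_fst) measurable_snd)
      (hg.comp measurable_snd) measurable_const

/-- the Gamma integral -/
theorem gam (n : ℕ) : ∫⁻ t in Set.Ioi (0 : ℝ), ENNReal.ofReal (Real.exp (-t) * t ^ n) =
    ENNReal.ofReal (n.factorial : ℝ) := by
  have h1 : IntegrableOn (fun x : ℝ => Real.exp (-x) * x ^ n) (Set.Ioi 0) := by
    have h2 := Real.GammaIntegral_convergent (s := (n : ℝ) + 1) (by positivity)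
    simpa using h2
  have h3 : ∫ t in Set.Ioi (0 : ℝ), Real.exp (-t) * t ^ n = (n.factorial : ℝ) := by
    rw [← Real.Gamma_nat_eq_factorial, Real.Gamma_eq_integral (by positivity)]
    simp
  rw [← h3, ofReal_integral_eq_lintegral_ofReal h1]
  filter_upwards [ae_restrict_mem measurableSet_Ioi] with t ht
  have : (0 : ℝ) < t := ht
  positivity

theorem tail0 (u : ℝ) : ∫⁻ t in Set.Ici u, ENNReal.ofReal (Real.exp (-t)) =
    ENNReal.ofReal (Real.exp (-u)) := by
  rw [restrict_Ioi_eq_restrict_Ici.symm]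
  rw [← integral_exp_neg_Ioi u, ofReal_integral_eq_lintegral_ofReal (integrableOn_exp_neg_Ioi u)]
  exact Filter.Eventually.of_forall fun t => (Real.exp_pos _).le

theorem tail1 {u : ℝ} (hu : 0 ≤ u) : ∫⁻ t in Set.Ici u, ENNReal.ofReal (Real.exp (-t) * t) =
    ENNReal.ofReal ((u + 1) * Real.exp (-u)) := by
  rw [restrict_Ioi_eq_restrict_Ici.symm]
  have hd : ∀ x ∈ Set.Ici u, HasDerivAt (fun t : ℝ => -((t + 1) * Real.exp (-t)))
      (Real.exp (-x) * x) x := by
    intro x _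
    have h1 : HasDerivAt (fun t : ℝ => Real.exp (-t)) (-Real.exp (-x)) x := by
      simpa using (hasDerivAt_neg x).exp
    have h2 : HasDerivAt (fun t : ℝ => t + 1) 1 x := (hasDerivAt_id x).add_const 1
    refine ((h2.mul h1).neg).congr_deriv ?_
    ring
  have hp : ∀ x ∈ Set.Ioi u, 0 ≤ Real.exp (-x) * x := by
    intro x hx
    have : (0 : ℝ) < x := lt_of_le_of_lt hu hx
    positivity
  have hl : Filter.Tendsto (fun t : ℝ => -((t + 1) * Real.exp (-t))) Filter.atTop (nhds 0) := by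
    have h1 := Real.tendsto_pow_mul_exp_neg_atTop_nhds_zero 1
    have h0 := Real.tendsto_pow_mul_exp_neg_atTop_nhds_zero 0
    have h2 := (h1.add h0).neg
    simp only [pow_one, pow_zero, add_zero, neg_zero] at h2
    refine h2.congr fun t => ?_
    ring
  have h1 := integrableOn_Ioi_deriv_of_nonneg' hd hp hl
  have h2 := integral_Ioi_of_hasDerivAt_of_nonneg' hd hp hl
  rw [zero_sub, neg_neg] at h2
  rw [← h2, ofReal_integral_eq_lintegral_ofReal h1]
  filter_upwards [ae_restrict_mem measurableSet_Ioi] with t ht using hp t ht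

section main

variable {C : Set E} {u : E → ℝ} {κ : ℝ}

theorem expo (hum : Measurable u)
    (hC : ∀ y ∈ C, ∀ t : ℝ, 0 < t → t • y ∈ C)
    (hu : ∀ y ∈ C, ∀ t : ℝ, 0 < t → u (t • y) = t * u y) (hκ : 0 < κ)
    (hk : ∀ y ∈ C, κ * ‖y‖ ≤ u y) :
    ∫⁻ y in C, ENNReal.ofReal (Real.exp (-u y)) =
      ENNReal.ofReal 40320 * volume (C ∩ {y | u y ≤ 1}) := by
  have h1 := tonelli hum hC hu hκ hk (g := fun t => ENNReal.ofReal (Real.exp (-t)))
    (by fun_prop)
  simp_rw [tail0] at h1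
  rw [h1]
  congr 1
  have h2 := gam 8
  have h3 : ((8 : ℕ).factorial : ℝ) = 40320 := by norm_num [Nat.factorial]
  rw [← h3, ← h2]
  refine lintegral_congr fun t => ?_
  rw [← ENNReal.ofReal_mul (Real.exp_pos _).le]

theorem expo1 (hCm : MeasurableSet C) (hum : Measurable u)
    (hC : ∀ y ∈ C, ∀ t : ℝ, 0 < t → t • y ∈ C)
    (hu : ∀ y ∈ C, ∀ t : ℝ, 0 < t → u (t • y) = t * u y) (hκ : 0 < κ)
    (hk : ∀ y ∈ C, κ * ‖y‖ ≤ u y) :
    ∫⁻ y in C, ENNReal.ofReal ((u y + 1) * Real.exp (-u y)) =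
      ENNReal.ofReal 362880 * volume (C ∩ {y | u y ≤ 1}) := by
  have h1 := tonelli hum hC hu hκ hk (g := fun t => ENNReal.ofReal (Real.exp (-t) * t))
    (by fun_prop)
  have h4 : ∫⁻ y in C, ENNReal.ofReal ((u y + 1) * Real.exp (-u y)) =
      ∫⁻ y in C, ∫⁻ t in Set.Ici (u y), ENNReal.ofReal (Real.exp (-t) * t) := by
    refine setLIntegral_congr_fun hCm fun y hy => ?_
    exact (tail1 (le_trans (by positivity) (hk y hy))).symm
  rw [h4, h1]
  congr 1
  have h2 := gam 9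
  have h3 : ((9 : ℕ).factorial : ℝ) = 362880 := by norm_num [Nat.factorial]
  rw [← h3, ← h2]
  refine setLIntegral_congr_fun measurableSet_Ioi fun t ht => ?_
  have : (0 : ℝ) < t := ht
  show ENNReal.ofReal _ * ENNReal.ofReal _ = _
  rw [← ENNReal.ofReal_mul (by positivity)]
  congr 1
  ring

theorem int0 (hum : Measurable u)
    (hC : ∀ y ∈ C, ∀ t : ℝ, 0 < t → t • y ∈ C)
    (hu : ∀ y ∈ C, ∀ t : ℝ, 0 < t → u (t • y) = t * u y) (hκ : 0 < κ)
    (hk : ∀ y ∈ C, κ * ‖y‖ ≤ u y) :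
    IntegrableOn (fun y : E => Real.exp (-u y)) C volume ∧
    ∫ y in C, Real.exp (-u y) = 40320 * (volume (C ∩ {y | u y ≤ 1})).toReal := by
  have hm : Measurable (fun y : E => Real.exp (-u y)) := by fun_prop
  have hn : 0 ≤ᵐ[volume.restrict C] (fun y : E => Real.exp (-u y)) :=
    Filter.Eventually.of_forall fun y => (Real.exp_pos _).le
  have h1 := expo hum hC hu hκ hk
  constructor
  · refine ⟨hm.aestronglyMeasurable, ?_⟩
    rw [hasFiniteIntegral_iff_ofReal hn, h1]
    exact ENNReal.mul_lt_top ENNReal.ofReal_lt_top (fin hκ hk)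
  · rw [integral_eq_lintegral_of_nonneg_ae hn hm.aestronglyMeasurable, h1, ENNReal.toReal_mul,
      ENNReal.toReal_ofReal (by norm_num)]

theorem int1 (hCm : MeasurableSet C) (hum : Measurable u)
    (hC : ∀ y ∈ C, ∀ t : ℝ, 0 < t → t • y ∈ C)
    (hu : ∀ y ∈ C, ∀ t : ℝ, 0 < t → u (t • y) = t * u y) (hκ : 0 < κ)
    (hk : ∀ y ∈ C, κ * ‖y‖ ≤ u y) :
    IntegrableOn (fun y : E => (u y + 1) * Real.exp (-u y)) C volume ∧
    ∫ y in C, (u y + 1) * Real.exp (-u y) = 362880 * (volume (C ∩ {y | u y ≤ 1})).toReal := by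
  have hm : Measurable (fun y : E => (u y + 1) * Real.exp (-u y)) := by fun_prop
  have hn : 0 ≤ᵐ[volume.restrict C] (fun y : E => (u y + 1) * Real.exp (-u y)) := by
    filter_upwards [ae_restrict_mem hCm] with y hy
    have h0 : 0 ≤ u y := le_trans (by positivity) (hk y hy)
    show 0 ≤ (u y + 1) * Real.exp (-u y)
    positivity
  have h1 := expo1 hCm hum hC hu hκ hk
  constructor
  · refine ⟨hm.aestronglyMeasurable, ?_⟩
    rw [hasFiniteIntegral_iff_ofReal hn, h1]
    exact ENNReal.mul_lt_top ENNReal.ofReal_lt_top (fin hκ hk)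
  · rw [integral_eq_lintegral_of_nonneg_ae hn hm.aestronglyMeasurable, h1, ENNReal.toReal_mul,
      ENNReal.toReal_ofReal (by norm_num)]

end main

theorem meas_inner (a : E) : Measurable fun y : E => (inner ℝ a y : ℝ) :=
  (continuous_const.inner continuous_id).measurable

theorem smul_inner (a : E) (C : Set E) : ∀ y ∈ C, ∀ t : ℝ, 0 < t →
    (inner ℝ a (t • y) : ℝ) = t * inner ℝ a y := fun y _ t _ => real_inner_smul_right a y t

/-- integrability of linear functions times exponentials -/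
theorem intb (C : Set E) (a0 b : E) (κ : ℝ) (hCm : MeasurableSet C) (hκ : 0 < κ)
    (hk : ∀ y ∈ C, κ * ‖y‖ ≤ (inner ℝ a0 y : ℝ)) :
    IntegrableOn (fun y : E => inner ℝ b y * Real.exp (-(inner ℝ a0 y : ℝ))) C volume := by
  have h1 : IntegrableOn (fun y : E => (κ * ‖y‖ + 1) * Real.exp (-(κ * ‖y‖))) C volume :=
    ((int1 (u := fun y : E => κ * ‖y‖) (C := Set.univ) (κ := κ) MeasurableSet.univ (by fun_prop)
      (fun _ _ _ _ => Set.mem_univ _) (fun y _ t ht => by
        rw [norm_smul, Real.norm_of_nonneg ht.le]; ring) hκ (fun _ _ => le_rfl)).1).mono_set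
      (Set.subset_univ C)
  refine (h1.const_mul (‖b‖ / κ)).mono' ?_ ?_
  · exact ((meas_inner b).mul ((meas_inner a0).neg.exp)).aestronglyMeasurable
  · filter_upwards [ae_restrict_mem hCm] with y hy
    rw [norm_mul, Real.norm_of_nonneg (Real.exp_pos _).le]
    have h2 : ‖(inner ℝ b y : ℝ)‖ ≤ ‖b‖ * ‖y‖ := norm_inner_le_norm b y
    have h3 : Real.exp (-(inner ℝ a0 y : ℝ)) ≤ Real.exp (-(κ * ‖y‖)) :=
      Real.exp_le_exp.2 (neg_le_neg (hk y hy))
    calc ‖(inner ℝ b y : ℝ)‖ * Real.exp (-(inner ℝ a0 y : ℝ))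
        ≤ (‖b‖ * ‖y‖) * Real.exp (-(κ * ‖y‖)) :=
          mul_le_mul h2 h3 (Real.exp_pos _).le (by positivity)
      _ ≤ ‖b‖ / κ * ((κ * ‖y‖ + 1) * Real.exp (-(κ * ‖y‖))) := by
          rw [← mul_assoc]
          apply mul_le_mul_of_nonneg_right _ (Real.exp_pos _).le
          rw [mul_add, mul_one, ← mul_assoc, div_mul_cancel₀ _ hκ.ne']
          have : 0 ≤ ‖b‖ / κ := by positivity
          linarith

end CONM

open CONM in
/-- **CON** -/
theorem specCON : SpecCON where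
  tan := by
    intro C a0 a κ hCm hC hκ hk0 hk
    obtain ⟨i0, e0⟩ := int0 (meas_inner a0) hC (smul_inner a0 C) hκ hk0
    obtain ⟨i1, e1⟩ := int0 (meas_inner a) hC (smul_inner a C) hκ hk
    have i2 := intb C a0 (a - a0) κ hCm hκ hk0
    have h1 : ∫ y in C, (Real.exp (-(inner ℝ a0 y : ℝ)) -
        inner ℝ (a - a0) y * Real.exp (-(inner ℝ a0 y : ℝ))) ≤
        ∫ y in C, Real.exp (-(inner ℝ a y : ℝ)) := by
      refine integral_mono (i0.sub i2) i1 fun y => ?_
      show Real.exp (-(inner ℝ a0 y : ℝ)) - inner ℝ (a - a0) y * Real.exp (-(inner ℝ a0 y : ℝ)) ≤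
        Real.exp (-(inner ℝ a y : ℝ))
      have h2 : -(inner ℝ a y : ℝ) = -(inner ℝ a0 y : ℝ) + (-(inner ℝ (a - a0) y : ℝ)) := by
        rw [inner_sub_left]
        ring
      rw [h2, Real.exp_add]
      have h3 := Real.add_one_le_exp (-(inner ℝ (a - a0) y : ℝ))
      have h4 := Real.exp_pos (-(inner ℝ a0 y : ℝ))
      nlinarith
    rw [integral_sub i0 i2, e0, e1] at h1
    linarith
  mom := by
    intro C a0 κ hCm hC hκ hk0
    obtain ⟨i0, e0⟩ := int0 (meas_inner a0) hC (smul_inner a0 C) hκ hk0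
    obtain ⟨i1, e1⟩ := int1 hCm (meas_inner a0) hC (smul_inner a0 C) hκ hk0
    have h1 : ∫ y in C, inner ℝ a0 y * Real.exp (-(inner ℝ a0 y : ℝ)) =
        ∫ y in C, ((inner ℝ a0 y + 1) * Real.exp (-(inner ℝ a0 y : ℝ)) -
          Real.exp (-(inner ℝ a0 y : ℝ))) := by
      refine integral_congr_ae (Filter.Eventually.of_forall fun y => ?_)
      show inner ℝ a0 y * Real.exp (-(inner ℝ a0 y : ℝ)) =
        (inner ℝ a0 y + 1) * Real.exp (-(inner ℝ a0 y : ℝ)) - Real.exp (-(inner ℝ a0 y : ℝ))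
      ring
    rw [h1, integral_sub i1 i0, e0, e1]
    ring
  int := intb

end Pool.Agent.Lib.MP_f1379f_gt.EV
end

section
/-!
# COV: the cell of the 240 vectors has circumradius √2
-/
set_option autoImplicit false

namespace Pool.Agent.Lib.MP_f1379f_gt.EV.COVM

open Finset

theorem inner_vec (z : E) (n : Fin 8 → ℤ) : (inner ℝ z (vec n) : ℝ) = ∑ i, z i * (n i : ℝ) := by
  unfold vec
  rw [PiLp.inner_apply]
  refine sum_congr rfl fun i _ => ?_
  simp [mul_comm]

theorem inner_self' (z : E) : (inner ℝ z z : ℝ) = ∑ i, z i ^ 2 := by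
  rw [PiLp.inner_apply]
  refine sum_congr rfl fun i _ => ?_
  simp [pow_two]

/-- the integer vector of a vector in the coordinates of `D8` -/
def dd (c : Fin 8 → ℤ) : Fin 8 → ℤ :=
  ![(c 0 + c 1) / 2, (c 0 - c 1) / 2, (c 2 + c 3) / 2, (c 2 - c 3) / 2,
    (c 4 + c 5) / 2, (c 4 - c 5) / 2, (c 6 + c 7) / 2, (c 6 - c 7) / 2]

/-- the coordinates of `D8` -/
def yv (z : E) : Fin 8 → ℝ :=
  ![z 0 + z 1, z 0 - z 1, z 2 + z 3, z 2 - z 3, z 4 + z 5, z 4 - z 5, z 6 + z 7, z 6 - z 7]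

/-- a vector of the dual description -/
def Good (c : Fin 8 → ℤ) : Prop :=
  (2 ∣ c 0 + c 1 ∧ 2 ∣ c 2 + c 3 ∧ 2 ∣ c 4 + c 5 ∧ 2 ∣ c 6 + c 7) ∧
    (∀ i, dd c i = -2 ∨ dd c i = -1 ∨ dd c i = 0 ∨ dd c i = 1 ∨ dd c i = 2) ∧ InL (dd c) ∧
    ∑ i, dd c i ^ 2 = 4

instance (c : Fin 8 → ℤ) : Decidable (Good c) := by unfold Good; infer_instance

theorem Good.mem {c : Fin 8 → ℤ} (h : Good c) : vec (dd c) ∈ R := by
  classical
  obtain ⟨-, h1, h2, h3⟩ := h
  unfold R RZ
  refine mem_image_of_mem _ ?_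
  rw [mem_filter, Fintype.mem_piFinset]
  refine ⟨fun i => ?_, h2, h3⟩
  simp only [mem_insert, mem_singleton]
  exact h1 i

theorem Good.inner {c : Fin 8 → ℤ} (h : Good c) (z : E) :
    (inner ℝ z (vec (dd c)) : ℝ) = 1 / 2 * ∑ i, (c i : ℝ) * yv z i := by
  obtain ⟨⟨⟨a, ha⟩, ⟨b, hb⟩, ⟨e, he⟩, ⟨f, hf⟩⟩, -⟩ := h
  rw [inner_vec]
  have e1 : c 1 = 2 * a - c 0 := by omega
  have e3 : c 3 = 2 * b - c 2 := by omega
  have e5 : c 5 = 2 * e - c 4 := by omega
  have e7 : c 7 = 2 * f - c 6 := by omega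
  have d0 : (c 0 + c 1) / 2 = a := by omega
  have d1 : (c 0 - c 1) / 2 = c 0 - a := by omega
  have d2 : (c 2 + c 3) / 2 = b := by omega
  have d3 : (c 2 - c 3) / 2 = c 2 - b := by omega
  have d4 : (c 4 + c 5) / 2 = e := by omega
  have d5 : (c 4 - c 5) / 2 = c 4 - e := by omega
  have d6 : (c 6 + c 7) / 2 = f := by omega
  have d7 : (c 6 - c 7) / 2 = c 6 - f := by omega
  have hd : dd c = ![a, c 0 - a, b, c 2 - b, e, c 4 - e, f, c 6 - f] := by
    unfold dd
    rw [d0, d1, d2, d3, d4, d5, d6, d7]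
  rw [hd]
  simp only [Fin.sum_univ_eight, yv, Matrix.cons_val]
  rw [e1, e3, e5, e7]
  push_cast
  ring

theorem yv_sq (z : E) : ∑ i, yv z i ^ 2 = 2 * ∑ i, z i ^ 2 := by
  simp only [Fin.sum_univ_eight, yv, Matrix.cons_val]
  ring

/-- roots with two coordinates -/
def c2 (i j : Fin 8) (s t : Bool) : Fin 8 → ℤ := fun k =>
  (if k = i then (if s then -2 else 2) else 0) + (if k = j then (if t then -2 else 2) else 0)

/-- roots with eight coordinates -/
def c8 (s : Fin 8 → Bool) : Fin 8 → ℤ := fun k => if s k then -1 else 1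

/-- the parity of the number of minus signs -/
def par (s : Fin 8 → Bool) : Bool :=
  xor (xor (xor (s 0) (s 1)) (xor (s 2) (s 3))) (xor (xor (s 4) (s 5)) (xor (s 6) (s 7)))

set_option maxRecDepth 100000 in
theorem c2_good : ∀ i j : Fin 8, i ≠ j → ∀ s t : Bool, Good (c2 i j s t) := by
  decide +kernel

set_option maxRecDepth 100000 in
theorem c8_good : ∀ s : Fin 8 → Bool, par s = false → Good (c8 s) := by
  decide +kernel

theorem par_update (s : Fin 8 → Bool) (k : Fin 8) : par (Function.update s k (!s k)) = !par s := by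
  unfold par
  fin_cases k <;> simp [Function.update]

theorem exists2 (z : E) {i j : Fin 8} (h : i ≠ j) :
    ∃ r ∈ R, (inner ℝ z r : ℝ) = |yv z i| + |yv z j| := by
  refine ⟨_, (c2_good i j h (decide (yv z i < 0)) (decide (yv z j < 0))).mem, ?_⟩
  rw [Good.inner (c2_good i j h _ _)]
  have h1 : ∀ k, ((c2 i j (decide (yv z i < 0)) (decide (yv z j < 0)) k : ℤ) : ℝ) * yv z k =
      (if k = i then 2 * |yv z i| else 0) + (if k = j then 2 * |yv z j| else 0) := by
    intro k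
    have key : ∀ t : ℝ, ((if (decide (t < 0)) = true then (-2 : ℤ) else 2 : ℤ) : ℝ) * t = 2 * |t| := by
      intro t
      by_cases ht : t < 0
      · simp only [ht, decide_true, if_true]
        rw [abs_of_neg ht]
        push_cast
        ring
      · simp only [ht, decide_false, Bool.false_eq_true, if_false]
        rw [abs_of_nonneg (not_lt.1 ht)]
        push_cast
        ring
    unfold c2
    by_cases hi : k = i
    · have hj : k ≠ j := fun hj => h (hi.symm.trans hj)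
      rw [if_pos hi, if_neg hj, if_pos hi, if_neg hj, add_zero, add_zero, hi]
      exact key _
    · by_cases hj : k = j
      · rw [if_neg hi, if_pos hj, if_neg hi, if_pos hj, zero_add, zero_add, hj]
        exact key _
      · rw [if_neg hi, if_neg hj, if_neg hi, if_neg hj]
        simp
  rw [sum_congr rfl fun k _ => h1 k, sum_add_distrib, sum_ite_eq' univ i, sum_ite_eq' univ j,
    if_pos (mem_univ _), if_pos (mem_univ _)]
  ring

theorem exists8 (z : E) (k : Fin 8) :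
    ∃ r ∈ R, 1 / 2 * ∑ i, |yv z i| - |yv z k| ≤ (inner ℝ z r : ℝ) := by
  obtain ⟨s, hs⟩ : ∃ s : Fin 8 → Bool, s = fun i => decide (yv z i < 0) := ⟨_, rfl⟩
  have h1 : ∀ i, ((c8 s i : ℤ) : ℝ) * yv z i = |yv z i| := by
    intro i
    unfold c8
    rw [hs]
    by_cases ht : yv z i < 0
    · simp only [ht, decide_true, if_true]
      rw [abs_of_neg ht]
      push_cast
      ring
    · simp only [ht, decide_false, Bool.false_eq_true, if_false]
      rw [abs_of_nonneg (not_lt.1 ht)]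
      push_cast
      ring
  rcases hp : par s with _ | _
  · refine ⟨_, (c8_good s hp).mem, ?_⟩
    rw [Good.inner (c8_good s hp), sum_congr rfl fun i _ => h1 i]
    have := abs_nonneg (yv z k)
    linarith
  · obtain ⟨t, ht⟩ : ∃ t, t = Function.update s k (!s k) := ⟨_, rfl⟩
    have hpt : par t = false := by
      rw [ht, par_update, hp]
      rfl
    refine ⟨_, (c8_good t hpt).mem, ?_⟩
    rw [Good.inner (c8_good t hpt)]
    have h2 : ∀ i, ((c8 t i : ℤ) : ℝ) * yv z i = |yv z i| + if i = k then -2 * |yv z k| else 0 := by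
      intro i
      by_cases hi : i = k
      · rw [if_pos hi, ← hi]
        have h3 : ((c8 t i : ℤ) : ℝ) = -((c8 s i : ℤ) : ℝ) := by
          unfold c8
          rw [ht, hi, Function.update_self]
          cases s k <;> simp
        rw [h3, neg_mul, h1]
        ring
      · rw [if_neg hi, add_zero, ← h1]
        unfold c8
        rw [ht, Function.update_of_ne hi]
    rw [sum_congr rfl fun i _ => h2 i, sum_add_distrib, sum_ite_eq' univ k, if_pos (mem_univ _)]
    linarith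

/-- the inequality -/
theorem ineq {p q m A N T : ℝ} (hpq : q ≤ p) (hqm : m ≤ q) (hm : 0 ≤ m) (hN : p + q ≤ N)
    (hN2 : 1 / 2 * (p + A) - m ≤ N) (hT : T ≤ (q + m) * A - 7 * (q * m)) : p ^ 2 + T ≤ N ^ 2 := by
  have h1 : (q + m) * A ≤ (q + m) * (2 * N + 2 * m - p) :=
    mul_le_mul_of_nonneg_left (by linarith) (by linarith)
  have h2 : 0 ≤ (N - (p + q)) * (N + (p + q) - 2 * (q + m)) :=
    mul_nonneg (by linarith) (by linarith)
  have h3 : 0 ≤ (q - m) * (p - q + 2 * m) := mul_nonneg (by linarith) (by linarith)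
  nlinarith

end Pool.Agent.Lib.MP_f1379f_gt.EV.COVM

namespace Pool.Agent.Lib.MP_f1379f_gt.EV

open Finset COVM

theorem specCOV : SpecCOV := by
  intro z
  obtain ⟨a, ha⟩ : ∃ a : Fin 8 → ℝ, a = fun i => |yv z i| := ⟨_, rfl⟩
  have ha0 : ∀ i, 0 ≤ a i := fun i => by rw [ha]; exact abs_nonneg _
  obtain ⟨i, -, hi⟩ := exists_max_image univ a ⟨0, mem_univ _⟩
  obtain ⟨k, -, hk⟩ := exists_min_image univ a ⟨0, mem_univ _⟩
  obtain ⟨j, hj, hjm⟩ := exists_max_image (univ.erase i) a (by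
    rw [← card_pos, card_erase_of_mem (mem_univ _)]
    simp)
  have hji : j ≠ i := ne_of_mem_erase hj
  obtain ⟨r1, hr1, e1⟩ := exists2 z hji.symm
  obtain ⟨r2, hr2, e2⟩ := exists8 z k
  have hsum : ∑ l, |yv z l| = a i + ∑ l ∈ univ.erase i, a l := by
    rw [add_sum_erase univ a (mem_univ i), ha]
  have e1' : (inner ℝ z r1 : ℝ) = a i + a j := by rw [e1, ha]
  have e2' : 1 / 2 * (a i + ∑ l ∈ univ.erase i, a l) - a k ≤ (inner ℝ z r2 : ℝ) := by
    rw [← hsum]
    refine le_trans (le_of_eq ?_) e2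
    rw [ha]
  have hT : ∑ l ∈ univ.erase i, a l ^ 2 ≤
      (a j + a k) * ∑ l ∈ univ.erase i, a l - 7 * (a j * a k) := by
    have h1 : 0 ≤ ∑ l ∈ univ.erase i, (a l - a k) * (a j - a l) :=
      sum_nonneg fun l hl => mul_nonneg (sub_nonneg.2 (hk l (mem_univ _))) (sub_nonneg.2 (hjm l hl))
    have h2 : ∑ l ∈ univ.erase i, (a l - a k) * (a j - a l) =
        (a j + a k) * ∑ l ∈ univ.erase i, a l - ∑ l ∈ univ.erase i, a l ^ 2 - 7 * (a j * a k) := by
      have h3 : ∀ l ∈ univ.erase i, (a l - a k) * (a j - a l) =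
          (a j + a k) * a l - a l ^ 2 - a j * a k := fun l _ => by ring
      rw [sum_congr rfl h3, sum_sub_distrib, sum_sub_distrib, ← mul_sum, sum_const,
        card_erase_of_mem (mem_univ _)]
      simp
    linarith
  have hsq : 2 * (inner ℝ z z : ℝ) = a i ^ 2 + ∑ l ∈ univ.erase i, a l ^ 2 := by
    rw [inner_self', ← yv_sq, add_sum_erase univ (fun l => a l ^ 2) (mem_univ i), ha]
    refine sum_congr rfl fun l _ => ?_
    rw [sq_abs]
  have hjk : a k ≤ a j := hk j (mem_univ _)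
  have hij : a j ≤ a i := hi j (mem_univ _)
  rw [hsq]
  rcases le_total (inner ℝ z r2 : ℝ) (inner ℝ z r1) with h | h
  · refine ⟨r1, hr1, ?_, ?_⟩
    · rw [e1']
      exact add_nonneg (ha0 _) (ha0 _)
    · exact ineq hij hjk (ha0 k) e1'.ge (e2'.trans h) hT
  · refine ⟨r2, hr2, ?_, ?_⟩
    · refine le_trans ?_ h
      rw [e1']
      exact add_nonneg (ha0 _) (ha0 _)
    · exact ineq hij hjk (ha0 k) (e1'.ge.trans h) e2' hT

end Pool.Agent.Lib.MP_f1379f_gt.EV
end

section
/-!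
# Module FIN: final assembly (helper68)
-/
set_option autoImplicit false

namespace Pool.Agent.Lib.MP_f1379f_gt.EV

open MeasureTheory

namespace FINM

/-- the motion `y ↦ A (y - p)` -/
noncomputable def mot (A : E ≃ₗᵢ[ℝ] E) (p : E) : E ≃ᵐ E :=
  (MeasurableEquiv.subRight p).trans A.toMeasurableEquiv

theorem mot_apply (A : E ≃ₗᵢ[ℝ] E) (p y : E) : mot A p y = A (y - p) := rfl

theorem mot_dist (A : E ≃ₗᵢ[ℝ] E) (p y z : E) : dist (mot A p y) (mot A p z) = dist y z := by
  rw [mot_apply, mot_apply, A.dist_map, dist_sub_right]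

theorem mot_self (A : E ≃ₗᵢ[ℝ] E) (p : E) : mot A p p = 0 := by
  rw [mot_apply, sub_self, map_zero]

theorem mot_mp (A : E ≃ₗᵢ[ℝ] E) (p : E) : MeasurePreserving (mot A p) volume volume :=
  A.measurePreserving.comp (measurePreserving_sub_right volume p)

theorem packing (A : E ≃ₗᵢ[ℝ] E) (p : E) {X : Set E} (hX : Packing X) :
    Packing (mot A p '' X) := by
  rintro _ ⟨x, hx, rfl⟩ _ ⟨y, hy, rfl⟩ hne
  rw [mot_dist]
  exact hX x hx y hy fun h => hne (by rw [h])

theorem vol (A : E ≃ₗᵢ[ℝ] E) (p : E) (X : Set E) :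
    volume (cell (mot A p '' X) 0) = volume (cell X p) := by
  rw [← (mot_mp A p).measure_preimage_equiv (cell (mot A p '' X) 0)]
  congr 1
  ext y
  show (∀ x ∈ mot A p '' X, dist (mot A p y) 0 ≤ dist (mot A p y) x) ↔
    ∀ x ∈ X, dist y p ≤ dist y x
  rw [Set.forall_mem_image]
  refine forall₂_congr fun x _ => ?_
  rw [mot_dist, ← mot_self A p, mot_dist]

theorem inner_le {y r : E} (hr : inner ℝ r r = (4 : ℝ)) (h : dist y 0 ≤ dist y r) :
    inner ℝ y r ≤ (2 : ℝ) := by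
  rw [dist_zero_right, dist_eq_norm] at h
  have h1 : ‖y‖ ^ 2 ≤ ‖y - r‖ ^ 2 := pow_le_pow_left₀ (norm_nonneg _) h 2
  rw [norm_sub_sq_real, ← real_inner_self_eq_norm_sq r, hr] at h1
  linarith

end FINM

open FINM

theorem specFIN (hROT : SpecROT) (hCMP : SpecCMP) (hLOC : SpecLOC) (hVOL : SpecVOL) : SpecFIN where
  main := by
    obtain ⟨ε0, c, hε0, hc, hloc⟩ := hLOC
    obtain ⟨ε, hε, hcmp⟩ := hCMP ε0 hε0
    refine ⟨ε, c, hε, hc, fun X hX p hp hcard => ?_⟩
    obtain ⟨t, ht, htc⟩ := Set.exists_subset_encard_eq hcard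
    have htn : Nat.card t = 240 := by
      rw [Nat.card_coe_set_eq, Set.ncard, htc]
      rfl
    have hfin : Finite t := Nat.finite_of_card_ne_zero (by rw [htn]; norm_num)
    let f : Fin 240 ≃ t := (Finite.equivFinOfCardEq htn).symm
    have hft : ∀ i, (f i : E) ∈ X ∧ (f i : E) ≠ p ∧ dist (f i : E) p ≤ 2 + ε :=
      fun i => ht (f i).2
    obtain ⟨A, hA⟩ := hcmp (fun i => (f i : E) - p) (fun i => by
      show 2 ≤ ‖(f i : E) - p‖ ∧ ‖(f i : E) - p‖ ≤ 2 + ε
      rw [← dist_eq_norm]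
      exact ⟨hX _ (hft i).1 _ hp (hft i).2.1, (hft i).2.2⟩) (fun i j hij => by
      show 2 ≤ dist ((f i : E) - p) ((f j : E) - p)
      rw [dist_sub_right]
      exact hX _ (hft i).1 _ (hft j).1 fun h => hij (f.injective (Subtype.ext h)))
    have hA' : ∀ r : E, ∃ i, r ∈ R → ‖A ((f i : E) - p) - r‖ ≤ ε0 := fun r => by
      by_cases hr : r ∈ R
      · obtain ⟨i, hi⟩ := hA r hr
        exact ⟨i, fun _ => hi⟩
      · exact ⟨0, fun h => absurd h hr⟩
    choose i hi using hA'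
    obtain ⟨B, hB⟩ := hloc (mot A p '' X) (fun r => mot A p (f (i r))) (packing A p hX)
      ⟨p, hp, mot_self A p⟩ (fun r hr => ⟨⟨_, (hft (i r)).1, rfl⟩, hi r hr⟩)
    refine ⟨(A.trans B).symm, fun r hr => ⟨f (i r), (hft (i r)).1, ?_⟩⟩
    have h1 := hB r ((hROT.mem r).2 hr)
    rw [vol] at h1
    refine le_trans (le_of_eq ?_) h1
    congr 3
    have h2 : dist ((f (i r) : E)) (p + (A.trans B).symm r) =
        dist ((A.trans B) ((f (i r) : E) - p)) ((A.trans B) ((A.trans B).symm r)) := by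
      rw [LinearIsometryEquiv.dist_map, ← dist_sub_right _ _ p, add_sub_cancel_left]
    rw [h2, LinearIsometryEquiv.apply_symm_apply, dist_eq_norm]
    rfl
  eq := by
    intro X hX p hp A hA
    obtain ⟨ε, c, hε, hc, hloc⟩ := hLOC
    have hR : ∀ r ∈ R, r ∈ mot A.symm p '' X := by
      intro r hr
      refine ⟨p + A r, hA r ((hROT.mem r).1 hr), ?_⟩
      rw [mot_apply, add_sub_cancel_left, LinearIsometryEquiv.symm_apply_apply]
    obtain ⟨B, hB⟩ := hloc (mot A.symm p '' X) (fun r => r) (packing _ p hX)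
      ⟨p, hp, mot_self _ p⟩ (fun r hr => ⟨hR r hr, by rw [sub_self, norm_zero]; exact hε.le⟩)
    rw [← vol A.symm p X]
    apply le_antisymm
    · rw [← hVOL]
      apply measure_mono
      intro y hy r hr
      exact inner_le (hROT.k240.kiss.nrm r hr) (hy r (hR r hr))
    · have hne : R.Nonempty := by
        rw [← Finset.card_pos, hROT.k240.card]
        norm_num
      obtain ⟨r, hr⟩ := hne
      refine le_trans ?_ (hB r hr)
      have h16 : (16 : ENNReal) = ENNReal.ofReal 16 := by norm_num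
      rw [h16]
      apply ENNReal.ofReal_le_ofReal
      have := mul_nonneg hc.le (norm_nonneg (B r - r))
      linarith

end Pool.Agent.Lib.MP_f1379f_gt.EV
end

section
/-!
# HAM: the extended Hamming code is unique
-/
set_option autoImplicit false

namespace Pool.Agent.Lib.MP_f1379f_gt.EV

namespace HAMM

variable {C : Finset (Finset (Fin 8))}

lemma three (hI : ∀ c ∈ C, ∀ d ∈ C, c ≠ d → (c ∩ d).card = 0 ∨ (c ∩ d).card = 2)
    {c d : Finset (Fin 8)} (hc : c ∈ C) (hd : d ∈ C) {x y z : Fin 8} (hxy : x ≠ y) (hxz : x ≠ z)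
    (hyz : y ≠ z) (h1 : x ∈ c) (h2 : y ∈ c) (h3 : z ∈ c) (k1 : x ∈ d) (k2 : y ∈ d) (k3 : z ∈ d) :
    c = d := by
  by_contra hne
  have h4 : ({x, y, z} : Finset (Fin 8)) ⊆ c ∩ d := by
    intro w hw
    simp only [Finset.mem_insert, Finset.mem_singleton] at hw
    rcases hw with rfl | rfl | rfl <;> simp [*]
  have h5 := Finset.card_le_card h4
  have h6 : ({x, y, z} : Finset (Fin 8)).card = 3 := Finset.card_eq_three.2
    ⟨x, y, z, hxy, hxz, hyz, rfl⟩
  rcases hI c hc d hd hne with h | h <;> omega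

lemma exblock (hC4 : ∀ c ∈ C, c.card = 4) (hC : C.card = 14)
    (hI : ∀ c ∈ C, ∀ d ∈ C, c ≠ d → (c ∩ d).card = 0 ∨ (c ∩ d).card = 2)
    {x y z : Fin 8} (hxy : x ≠ y) (hxz : x ≠ z) (hyz : y ≠ z) :
    ∃ w, w ≠ x ∧ w ≠ y ∧ w ≠ z ∧ ({x, y, z, w} : Finset (Fin 8)) ∈ C := by
  have hdis : (C : Set (Finset (Fin 8))).PairwiseDisjoint (fun c => c.powersetCard 3) := by
    intro c hc d hd hne
    rw [Function.onFun, Finset.disjoint_left]
    intro t ht ht'
    rw [Finset.mem_powersetCard] at ht ht'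
    obtain ⟨x, y, z, h1, h2, h3, rfl⟩ := Finset.card_eq_three.1 ht.2
    exact hne (three hI hc hd h1 h2 h3 (ht.1 (by simp)) (ht.1 (by simp)) (ht.1 (by simp))
      (ht'.1 (by simp)) (ht'.1 (by simp)) (ht'.1 (by simp)))
  have hcard : (C.biUnion fun c => c.powersetCard 3).card = 56 := by
    rw [Finset.card_biUnion hdis]
    rw [Finset.sum_congr rfl (fun c hc => by rw [Finset.card_powersetCard, hC4 c hc])]
    rw [Finset.sum_const, hC]
    rfl
  have huniv : (C.biUnion fun c => c.powersetCard 3) =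
      (Finset.univ : Finset (Fin 8)).powersetCard 3 := by
    apply Finset.eq_of_subset_of_card_le
    · intro t ht
      rw [Finset.mem_biUnion] at ht
      obtain ⟨c, -, ht⟩ := ht
      rw [Finset.mem_powersetCard] at ht ⊢
      exact ⟨Finset.subset_univ _, ht.2⟩
    · rw [hcard, Finset.card_powersetCard, Finset.card_univ, Fintype.card_fin]
      decide
  have h1 : ({x, y, z} : Finset (Fin 8)) ∈ C.biUnion fun c => c.powersetCard 3 := by
    rw [huniv, Finset.mem_powersetCard]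
    exact ⟨Finset.subset_univ _, Finset.card_eq_three.2 ⟨x, y, z, hxy, hxz, hyz, rfl⟩⟩
  rw [Finset.mem_biUnion] at h1
  obtain ⟨c, hc, hs⟩ := h1
  rw [Finset.mem_powersetCard] at hs
  have h2 : (c \ {x, y, z}).card = 1 := by
    rw [Finset.card_sdiff_of_subset hs.1, hs.2, hC4 c hc]
  obtain ⟨w, hw⟩ := Finset.card_eq_one.1 h2
  have hwm : w ∈ c \ {x, y, z} := by rw [hw]; simp
  rw [Finset.mem_sdiff] at hwm
  have h3 : ({x, y, z, w} : Finset (Fin 8)) = c := by
    rw [← Finset.sdiff_union_of_subset hs.1, hw]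
    ext u
    simp only [Finset.mem_insert, Finset.mem_singleton, Finset.mem_union]
    tauto
  refine ⟨w, ?_, ?_, ?_, by rw [h3]; exact hc⟩
  · rintro rfl; exact hwm.2 (by simp)
  · rintro rfl; exact hwm.2 (by simp)
  · rintro rfl; exact hwm.2 (by simp)

end HAMM

open HAMM in
theorem specHAM : SpecHAM := by
  intro C hC4 hC hI hS
  obtain ⟨d, da, db, dc, hB1⟩ := exblock hC4 hC hI (x := 0) (y := 1) (z := 2)
    (by decide) (by decide) (by decide)
  obtain ⟨e, he⟩ : ∃ e : Fin 8, e ∉ ({0, 1, 2, d} : Finset (Fin 8)) := by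
    by_contra h
    push Not at h
    have h1 : (Finset.univ : Finset (Fin 8)) ⊆ {0, 1, 2, d} := fun x _ => h x
    have h2 := Finset.card_le_card h1
    have h3 : ({0, 1, 2, d} : Finset (Fin 8)).card ≤ 4 := Finset.card_le_four
    rw [Finset.card_univ, Fintype.card_fin] at h2
    omega
  have ea : e ≠ 0 := fun h => he (by simp [h])
  have eb : e ≠ 1 := fun h => he (by simp [h])
  have ec : e ≠ 2 := fun h => he (by simp [h])
  have ed : e ≠ d := fun h => he (by simp [h])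
  obtain ⟨f, fa, fb, fe, hB2⟩ := exblock hC4 hC hI (x := 0) (y := 1) (z := e)
    (by decide) (Ne.symm ea) (Ne.symm eb)
  have contr : ∀ (B : Finset (Fin 8)), B ∈ C → e ∈ B → ∀ x y z : Fin 8, x ≠ y → x ≠ z → y ≠ z →
      x ∈ ({0, 1, 2, d} : Finset (Fin 8)) → y ∈ ({0, 1, 2, d} : Finset (Fin 8)) →
      z ∈ ({0, 1, 2, d} : Finset (Fin 8)) → x ∈ B → y ∈ B → z ∈ B → False := by
    intro B hB heB x y z h1 h2 h3 k1 k2 k3 l1 l2 l3
    have := three hI hB hB1 h1 h2 h3 l1 l2 l3 k1 k2 k3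
    rw [this] at heB
    exact he heB
  have fc : f ≠ 2 := by
    rintro rfl
    exact contr _ hB2 (by simp) 0 1 2 (by decide) (by decide) (by decide) (by simp) (by simp)
      (by simp) (by simp) (by simp) (by simp)
  have fd : f ≠ d := by
    rintro rfl
    exact contr _ hB2 (by simp) 0 1 f (by decide) (Ne.symm da) (Ne.symm db) (by simp) (by simp)
      (by simp) (by simp) (by simp) (by simp)
  obtain ⟨g, ga, gc, ge, hB3⟩ := exblock hC4 hC hI (x := 0) (y := 2) (z := e)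
    (by decide) (Ne.symm ea) (Ne.symm ec)
  have gb : g ≠ 1 := by
    rintro rfl
    exact contr _ hB3 (by simp) 0 1 2 (by decide) (by decide) (by decide) (by simp) (by simp)
      (by simp) (by simp) (by simp) (by simp)
  have gd : g ≠ d := by
    rintro rfl
    exact contr _ hB3 (by simp) 0 2 g (by decide) (Ne.symm da) (Ne.symm dc) (by simp) (by simp)
      (by simp) (by simp) (by simp) (by simp)
  have gf : g ≠ f := by
    rintro rfl
    have h := three hI hB3 hB2 (x := 0) (y := e) (z := g) (Ne.symm ea) (Ne.symm ga) (Ne.symm ge)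
      (by simp) (by simp) (by simp) (by simp) (by simp) (by simp)
    have h1 : (1 : Fin 8) ∈ ({0, 2, e, g} : Finset (Fin 8)) := by rw [h]; simp
    simp only [Finset.mem_insert, Finset.mem_singleton] at h1
    rcases h1 with h1 | h1 | h1 | h1
    · exact absurd h1 (by decide)
    · exact absurd h1 (by decide)
    · exact eb h1.symm
    · exact gb h1.symm
  obtain ⟨h, hb, hc, hhe, hB4⟩ := exblock hC4 hC hI (x := 1) (y := 2) (z := e)
    (by decide) (Ne.symm eb) (Ne.symm ec)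
  have ha : h ≠ 0 := by
    rintro rfl
    exact contr _ hB4 (by simp) 0 1 2 (by decide) (by decide) (by decide) (by simp) (by simp)
      (by simp) (by simp) (by simp) (by simp)
  have hd : h ≠ d := by
    rintro rfl
    exact contr _ hB4 (by simp) 1 2 h (by decide) (Ne.symm db) (Ne.symm dc) (by simp) (by simp)
      (by simp) (by simp) (by simp) (by simp)
  have hf : h ≠ f := by
    rintro rfl
    have h' := three hI hB4 hB2 (x := 1) (y := e) (z := h) (Ne.symm eb) (Ne.symm hb) (Ne.symm hhe)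
      (by simp) (by simp) (by simp) (by simp) (by simp) (by simp)
    have h1 : (0 : Fin 8) ∈ ({1, 2, e, h} : Finset (Fin 8)) := by rw [h']; simp
    simp only [Finset.mem_insert, Finset.mem_singleton] at h1
    rcases h1 with h1 | h1 | h1 | h1
    · exact absurd h1 (by decide)
    · exact absurd h1 (by decide)
    · exact ea h1.symm
    · exact ha h1.symm
  have hg : h ≠ g := by
    rintro rfl
    have h' := three hI hB4 hB3 (x := 2) (y := e) (z := h) (Ne.symm ec) (Ne.symm hc) (Ne.symm hhe)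
      (by simp) (by simp) (by simp) (by simp) (by simp) (by simp)
    have h1 : (0 : Fin 8) ∈ ({1, 2, e, h} : Finset (Fin 8)) := by rw [h']; simp
    simp only [Finset.mem_insert, Finset.mem_singleton] at h1
    rcases h1 with h1 | h1 | h1 | h1
    · exact absurd h1 (by decide)
    · exact absurd h1 (by decide)
    · exact ea h1.symm
    · exact ha h1.symm
  have hinj : Function.Injective (![0, 1, 2, d, e, f, g, h] : Fin 8 → Fin 8) := by
    intro i j hij
    fin_cases i <;> fin_cases j <;>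
      first
      | rfl
      | (exfalso; revert hij; simp [da, db, dc, ea, eb, ec, ed, fa, fb, fc, fd, fe, ga, gb, gc,
          gd, ge, gf, ha, hb, hc, hd, hhe, hf, hg, Ne.symm da, Ne.symm db, Ne.symm dc, Ne.symm ea,
          Ne.symm eb, Ne.symm ec, Ne.symm ed, Ne.symm fa, Ne.symm fb, Ne.symm fc, Ne.symm fd,
          Ne.symm fe, Ne.symm ga, Ne.symm gb, Ne.symm gc, Ne.symm gd, Ne.symm ge, Ne.symm gf,
          Ne.symm ha, Ne.symm hb, Ne.symm hc, Ne.symm hd, Ne.symm hhe, Ne.symm hf, Ne.symm hg])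
  let π : Equiv.Perm (Fin 8) := Equiv.ofBijective _ (Finite.injective_iff_bijective.1 hinj)
  refine ⟨π, ?_⟩
  have hm : ∀ w : Finset (Fin 8), w.map π.toEmbedding =
      w.image (![0, 1, 2, d, e, f, g, h] : Fin 8 → Fin 8) := by
    intro w; rw [Finset.map_eq_image]; rfl
  have cl : ∀ c d : Finset (Fin 8), c.map π.toEmbedding ∈ C → d.map π.toEmbedding ∈ C →
      (c ∩ d).card = 2 → (symmDiff c d).map π.toEmbedding ∈ C := by
    intro c d h1 h2 h3
    have h4 := hS _ h1 _ h2 (by rw [← Finset.map_inter, Finset.card_map]; exact h3)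
    have h5 : (symmDiff c d).map π.toEmbedding =
        symmDiff (c.map π.toEmbedding) (d.map π.toEmbedding) := by
      rw [Finset.map_eq_image, Finset.map_eq_image, Finset.map_eq_image]
      exact Finset.image_symmDiff _ _ π.injective
    rw [h5]; exact h4
  have w1 : ({0, 1, 2, 3} : Finset (Fin 8)).map π.toEmbedding ∈ C := by
    rw [hm]; simpa using hB1
  have w2 : ({0, 1, 4, 5} : Finset (Fin 8)).map π.toEmbedding ∈ C := by
    rw [hm]; simpa using hB2
  have w3 : ({0, 2, 4, 6} : Finset (Fin 8)).map π.toEmbedding ∈ C := by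
    rw [hm]; simpa using hB3
  have w4 : ({1, 2, 4, 7} : Finset (Fin 8)).map π.toEmbedding ∈ C := by
    rw [hm]; simpa using hB4
  have cl' : ∀ c d s : Finset (Fin 8), c.map π.toEmbedding ∈ C → d.map π.toEmbedding ∈ C →
      (c ∩ d).card = 2 → symmDiff c d = s → s.map π.toEmbedding ∈ C := by
    intro c d s h1 h2 h3 h4
    rw [← h4]; exact cl c d h1 h2 h3
  have w5 := cl' {0, 1, 2, 3} {0, 1, 4, 5} {2, 3, 4, 5} w1 w2 (by decide) (by decide)
  have w6 := cl' {0, 1, 2, 3} {0, 2, 4, 6} {1, 3, 4, 6} w1 w3 (by decide) (by decide)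
  have w7 := cl' {0, 1, 4, 5} {0, 2, 4, 6} {1, 2, 5, 6} w2 w3 (by decide) (by decide)
  have w8 := cl' {0, 1, 2, 3} {1, 2, 4, 7} {0, 3, 4, 7} w1 w4 (by decide) (by decide)
  have w9 := cl' {0, 1, 4, 5} {1, 2, 4, 7} {0, 2, 5, 7} w2 w4 (by decide) (by decide)
  have w10 := cl' {0, 2, 4, 6} {1, 2, 4, 7} {0, 1, 6, 7} w3 w4 (by decide) (by decide)
  have w11 := cl' {2, 3, 4, 5} {0, 2, 4, 6} {0, 3, 5, 6} w5 w3 (by decide) (by decide)
  have w12 := cl' {2, 3, 4, 5} {1, 2, 4, 7} {1, 3, 5, 7} w5 w4 (by decide) (by decide)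
  have w13 := cl' {1, 2, 5, 6} {1, 2, 4, 7} {4, 5, 6, 7} w7 w4 (by decide) (by decide)
  have w14 := cl' {1, 3, 4, 6} {1, 2, 4, 7} {2, 3, 6, 7} w6 w4 (by decide) (by decide)
  intro w hw
  simp only [words, Finset.mem_insert, Finset.mem_singleton] at hw
  rcases hw with rfl | rfl | rfl | rfl | rfl | rfl | rfl | rfl | rfl | rfl | rfl | rfl | rfl | rfl
  all_goals assumption

end Pool.Agent.Lib.MP_f1379f_gt.EV
end

section
/-!
# VOL: the E8 cell has volume 16
-/
set_option autoImplicit false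

namespace Pool.Agent.Lib.MP_f1379f_gt.EV

open MeasureTheory

namespace VOLM

/-- hyperplanes have measure zero -/
lemma null_hyper {x : E} (hx : x ≠ 0) (c : ℝ) : volume {y : E | (inner ℝ y x : ℝ) = c} = 0 := by
  have hxx : (inner ℝ x x : ℝ) ≠ 0 := inner_self_ne_zero.2 hx
  set p : E := (c / inner ℝ x x) • x with hp
  have hpx : (inner ℝ p x : ℝ) = c := by
    rw [hp, real_inner_smul_left, div_mul_cancel₀ _ hxx]
  have h1 : {y : E | (inner ℝ y x : ℝ) = c} =
      (AffineSubspace.mk' p (LinearMap.ker (innerSL ℝ x).toLinearMap) : Set E) := by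
    ext y
    rw [SetLike.mem_coe, AffineSubspace.mem_mk', LinearMap.mem_ker]
    simp only [Set.mem_ofPred_eq, vsub_eq_sub, ContinuousLinearMap.coe_coe, innerSL_apply_apply,
      inner_sub_right]
    rw [real_inner_comm y x, real_inner_comm p x, hpx, sub_eq_zero]
  rw [h1]
  refine Measure.addHaar_affineSubspace volume _ fun h => ?_
  have h2 : p + x ∈ AffineSubspace.mk' p (LinearMap.ker (innerSL ℝ x).toLinearMap) := by
    rw [h]; exact AffineSubspace.mem_top ℝ E _
  rw [AffineSubspace.mem_mk', LinearMap.mem_ker] at h2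
  simp only [vsub_eq_sub, ContinuousLinearMap.coe_coe, innerSL_apply_apply,
    add_sub_cancel_left] at h2
  exact hxx h2

/-- coordinates in the basis of the lattice -/
noncomputable def toC (y : E) : Fin 8 → ℝ :=
  ![y 0, y 1, y 2, (y 3 - y 0 - y 1 - y 2) / 2, y 4, (y 5 - y 0 - y 1 - y 4) / 2,
    (y 6 - y 0 - y 2 - y 4) / 2, (y 7 - y 1 - y 2 - y 4) / 2]

/-- the point with given coordinates -/
noncomputable def frC (c : Fin 8 → ℝ) : E :=
  WithLp.toLp 2 ![c 0, c 1, c 2, 2 * c 3 + c 0 + c 1 + c 2, c 4, 2 * c 5 + c 0 + c 1 + c 4,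
    2 * c 6 + c 0 + c 2 + c 4, 2 * c 7 + c 1 + c 2 + c 4]

/-- the coordinates as a linear equivalence -/
noncomputable def eqv : E ≃ₗ[ℝ] (Fin 8 → ℝ) where
  toFun := toC
  invFun := frC
  map_add' x y := by
    ext i
    fin_cases i <;> simp [toC] <;> ring
  map_smul' a x := by
    ext i
    fin_cases i <;> simp [toC] <;> ring
  left_inv y := by
    ext i
    fin_cases i <;> simp [toC, frC] <;> ring
  right_inv c := by
    ext i
    fin_cases i <;> simp [toC, frC] <;> ring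

/-- the basis of the lattice -/
noncomputable def bs : Module.Basis (Fin 8) ℝ E := Module.Basis.ofEquivFun eqv

lemma bs_repr (x : E) (i : Fin 8) : bs.repr x i = toC x i := by
  rw [bs, Module.Basis.ofEquivFun_repr_apply]
  rfl

lemma mem_L (x : E) : x ∈ Submodule.span ℤ (Set.range bs) ↔ ∃ n : Fin 8 → ℤ, InL n ∧ x = vec n := by
  rw [Module.Basis.mem_span_iff_repr_mem]
  constructor
  · intro h
    choose m hm using h
    have hm' : ∀ i, toC x i = (m i : ℝ) := fun i => by rw [← bs_repr, ← hm i]; simp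
    have h0 := hm' 0
    have h1 := hm' 1
    have h2 := hm' 2
    have h3 := hm' 3
    have h4 := hm' 4
    have h5 := hm' 5
    have h6 := hm' 6
    have h7 := hm' 7
    simp only [toC, Matrix.cons_val] at h0 h1 h2 h3 h4 h5 h6 h7
    refine ⟨![m 0, m 1, m 2, 2 * m 3 + m 0 + m 1 + m 2, m 4, 2 * m 5 + m 0 + m 1 + m 4,
      2 * m 6 + m 0 + m 2 + m 4, 2 * m 7 + m 1 + m 2 + m 4], ?_, ?_⟩
    · unfold InL
      simp only [Fin.sum_univ_eight, Matrix.cons_val]
      refine ⟨⟨m 3 + m 0 + m 1 + m 2, by ring⟩, ⟨m 5 + m 0 + m 1 + m 4, by ring⟩,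
        ⟨m 6 + m 0 + m 2 + m 4, by ring⟩,
        ⟨m 3 + m 5 + m 6 + m 7 + 2 * m 0 + 2 * m 1 + 2 * m 2 + 2 * m 4, by ring⟩⟩
    · ext i
      fin_cases i <;> simp [vec] <;> linarith
  · rintro ⟨n, hn, rfl⟩ i
    obtain ⟨⟨a, ha⟩, ⟨b, hb⟩, ⟨c, hc⟩, ⟨d, hd⟩⟩ := hn
    rw [Fin.sum_univ_eight] at hd
    have ha' : (n 0 + n 1 + n 2 + n 3 : ℝ) = 2 * a := by exact_mod_cast ha
    have hb' : (n 0 + n 1 + n 4 + n 5 : ℝ) = 2 * b := by exact_mod_cast hb
    have hc' : (n 0 + n 2 + n 4 + n 6 : ℝ) = 2 * c := by exact_mod_cast hc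
    have hd' : (n 0 + n 1 + n 2 + n 3 + n 4 + n 5 + n 6 + n 7 : ℝ) = 2 * d := by exact_mod_cast hd
    rw [bs_repr]
    simp only [eq_intCast, Set.mem_range]
    fin_cases i
    · exact ⟨n 0, by simp [toC, vec]⟩
    · exact ⟨n 1, by simp [toC, vec]⟩
    · exact ⟨n 2, by simp [toC, vec]⟩
    · exact ⟨a - n 0 - n 1 - n 2, by simp [toC, vec]; linarith⟩
    · exact ⟨n 4, by simp [toC, vec]⟩
    · exact ⟨b - n 0 - n 1 - n 4, by simp [toC, vec]; linarith⟩
    · exact ⟨c - n 0 - n 2 - n 4, by simp [toC, vec]; linarith⟩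
    · exact ⟨d - a - b - c + n 0, by simp [toC, vec]; linarith⟩

lemma inner_vec (n m : Fin 8 → ℤ) : (inner ℝ (vec n) (vec m) : ℝ) = ∑ i, (n i : ℝ) * m i := by
  simp only [vec, PiLp.inner_apply, RCLike.inner_apply, conj_trivial]
  exact Finset.sum_congr rfl fun i _ => mul_comm _ _

lemma four_dvd (n : Fin 8 → ℤ) (h : InL n) : 4 ∣ ∑ i, n i ^ 2 := by
  obtain ⟨h1, h2, h3, h4⟩ := h
  rw [Fin.sum_univ_eight] at h4 ⊢
  have key : ∀ m : ℤ, ∃ k : ℤ, m ^ 2 = 4 * k + m % 2 := by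
    intro m
    obtain ⟨j, hj⟩ : ∃ j, m = 2 * j + m % 2 := ⟨m / 2, by omega⟩
    rcases Int.emod_two_eq_zero_or_one m with h0 | h0
    · exact ⟨j ^ 2, by rw [h0] at hj ⊢; rw [hj]; ring⟩
    · exact ⟨j ^ 2 + j, by rw [h0] at hj ⊢; rw [hj]; ring⟩
  choose k hk using key
  rw [hk (n 0), hk (n 1), hk (n 2), hk (n 3), hk (n 4), hk (n 5), hk (n 6), hk (n 7)]
  rcases Int.emod_two_eq_zero_or_one (n 0) with a0 | a0 <;>
  rcases Int.emod_two_eq_zero_or_one (n 1) with a1 | a1 <;>
  rcases Int.emod_two_eq_zero_or_one (n 2) with a2 | a2 <;>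
  rcases Int.emod_two_eq_zero_or_one (n 4) with a4 | a4 <;>
  omega

lemma mem_R_of (n : Fin 8 → ℤ) (h : InL n) (h4 : ∑ i, n i ^ 2 = 4) : vec n ∈ R := by
  unfold R
  refine Finset.mem_image_of_mem _ ?_
  unfold RZ
  rw [Finset.mem_filter, Fintype.mem_piFinset]
  refine ⟨fun i => ?_, h, h4⟩
  have h5 : n i ^ 2 ≤ 4 := by
    rw [← h4]
    exact Finset.single_le_sum (f := fun i => n i ^ 2) (fun i _ => sq_nonneg _) (Finset.mem_univ i)
  have h6 : -2 ≤ n i ∧ n i ≤ 2 := by constructor <;> nlinarith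
  obtain ⟨h7, h8⟩ := h6
  simp only [Finset.mem_insert, Finset.mem_singleton]
  omega

lemma of_mem_R {r : E} (hr : r ∈ R) : ∃ n : Fin 8 → ℤ, InL n ∧ ∑ i, n i ^ 2 = 4 ∧ r = vec n := by
  unfold R at hr
  obtain ⟨n, hn, rfl⟩ := Finset.mem_image.1 hr
  unfold RZ at hn
  rw [Finset.mem_filter] at hn
  exact ⟨n, hn.2.1, hn.2.2, rfl⟩

lemma inner_R {r : E} (hr : r ∈ R) : (inner ℝ r r : ℝ) = 4 := by
  obtain ⟨n, -, h4, rfl⟩ := of_mem_R hr
  rw [inner_vec]
  have : (∑ i, (n i : ℝ) * n i) = ((∑ i, n i ^ 2 : ℤ) : ℝ) := by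
    push_cast
    exact Finset.sum_congr rfl fun i _ => by ring
  rw [this, h4]
  norm_num

/-- the cell -/
def V : Set E := {y : E | ∀ r ∈ R, inner ℝ y r ≤ (2 : ℝ)}

lemma norm_V (hCOV : SpecCOV) {y : E} (hy : y ∈ V) : (inner ℝ y y : ℝ) ≤ 2 := by
  obtain ⟨r, hr, h1, h2⟩ := hCOV y
  have h3 := hy r hr
  nlinarith

/-- a point of the cell is at least as close to 0 as to every lattice point -/
lemma inner_V (hCOV : SpecCOV) {y x : E} (hy : y ∈ V)
    (hx : x ∈ Submodule.span ℤ (Set.range bs)) : (inner ℝ y x : ℝ) ≤ inner ℝ x x / 2 := by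
  by_cases h0 : x = 0
  · subst h0; simp
  obtain ⟨n, hn, rfl⟩ := (mem_L x).1 hx
  have h1 := four_dvd n hn
  have h2 : (inner ℝ (vec n) (vec n) : ℝ) = ((∑ i, n i ^ 2 : ℤ) : ℝ) := by
    rw [inner_vec]
    push_cast
    exact Finset.sum_congr rfl fun i _ => by ring
  have h3 : 0 < ∑ i, n i ^ 2 := by
    have h4 : (0 : ℝ) < inner ℝ (vec n) (vec n) := real_inner_self_pos.2 h0
    rw [h2] at h4
    exact_mod_cast h4
  by_cases h4 : ∑ i, n i ^ 2 = 4
  · have h5 := hy _ (mem_R_of n hn h4)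
    rw [h2, h4]
    push_cast
    linarith
  · have h5 : 8 ≤ ∑ i, n i ^ 2 := by omega
    have h6 : (8 : ℝ) ≤ inner ℝ (vec n) (vec n) := by rw [h2]; exact_mod_cast h5
    have h7 := norm_V hCOV hy
    have h8 := real_inner_mul_inner_self_le y (vec n)
    nlinarith

lemma negL {x : E} (hx : x ∈ Submodule.span ℤ (Set.range bs)) :
    -x ∈ Submodule.span ℤ (Set.range bs) := Submodule.neg_mem _ hx

lemma exists_near (y : E) : ∃ x ∈ Submodule.span ℤ (Set.range bs),
    ∀ z ∈ Submodule.span ℤ (Set.range bs), dist y x ≤ dist y z := by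
  have hfin : (Metric.closedBall y (dist y 0) ∩ (Submodule.span ℤ (Set.range bs) : Set E)).Finite :=
    ZSpan.setFinite_inter bs Metric.isBounded_closedBall
  have hne : (Metric.closedBall y (dist y 0) ∩
      (Submodule.span ℤ (Set.range bs) : Set E)).Nonempty := by
    refine ⟨0, ?_, Submodule.zero_mem _⟩
    rw [Metric.mem_closedBall, dist_comm]
  obtain ⟨x, hx, hmin⟩ := Set.exists_min_image _ (fun z => dist y z) hfin hne
  refine ⟨x, hx.2, fun z hz => ?_⟩
  by_cases h : dist y z ≤ dist y 0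
  · refine hmin z ⟨?_, hz⟩
    rw [Metric.mem_closedBall, dist_comm]
    exact h
  · push Not at h
    have h1 := hmin 0 ⟨by rw [Metric.mem_closedBall, dist_comm], Submodule.zero_mem _⟩
    exact h1.trans h.le

lemma det_bs : |(EuclideanSpace.basisFun (Fin 8) ℝ).toBasis.det bs| = 16 := by
  rw [Module.Basis.det_apply]
  set M : Matrix (Fin 8) (Fin 8) ℝ :=
    Matrix.of ![![1, 0, 0, 0, 0, 0, 0, 0], ![0, 1, 0, 0, 0, 0, 0, 0], ![0, 0, 1, 0, 0, 0, 0, 0],
      ![1, 1, 1, 2, 0, 0, 0, 0], ![0, 0, 0, 0, 1, 0, 0, 0], ![1, 1, 0, 0, 1, 2, 0, 0],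
      ![1, 0, 1, 0, 1, 0, 2, 0], ![0, 1, 1, 0, 1, 0, 0, 2]] with hM
  have h1 : (EuclideanSpace.basisFun (Fin 8) ℝ).toBasis.toMatrix bs = M := by
    ext i j
    rw [Module.Basis.toMatrix_apply]
    have h2 : bs j = frC (Pi.single j 1) := by
      rw [bs, Module.Basis.coe_ofEquivFun]
      rfl
    rw [h2]
    simp only [OrthonormalBasis.coe_toBasis_repr_apply, EuclideanSpace.basisFun_repr, frC, hM,
      Matrix.of_apply]
    fin_cases i <;> fin_cases j <;> simp [Pi.single_apply]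
  rw [h1, Matrix.det_of_isLowerTriangular M ?_]
  · simp [hM, Fin.prod_univ_eight]
    norm_num
  · intro i j hij
    have hij' : i < j := OrderDual.toDual_lt_toDual.1 hij
    revert hij'
    rw [hM]
    fin_cases i <;> fin_cases j <;> simp

lemma vol_fd : volume (ZSpan.fundamentalDomain bs) = 16 := by
  rw [ZSpan.measure_fundamentalDomain bs volume (EuclideanSpace.basisFun (Fin 8) ℝ).toBasis, det_bs,
    measure_congr (ZSpan.fundamentalDomain_ae_parallelepiped _ volume)]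
  rw [OrthonormalBasis.coe_toBasis, OrthonormalBasis.volume_parallelepiped, mul_one]
  norm_num

lemma meas_V : MeasurableSet V := by
  have : V = ⋂ r ∈ R, {y : E | inner ℝ y r ≤ (2 : ℝ)} := by
    ext y; simp [V]
  rw [this]
  refine Finset.measurableSet_biInter _ fun r _ => ?_
  exact measurableSet_le (by fun_prop) measurable_const

end VOLM

open VOLM in
theorem specVOL (hCOV : SpecCOV) : SpecVOL := by
  have hV : IsAddFundamentalDomain (Submodule.span ℤ (Set.range bs)).toAddSubgroup V volume := by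
    refine IsAddFundamentalDomain.mk'' meas_V.nullMeasurableSet (Filter.Eventually.of_forall ?_)
      ?_ ?_
    · intro y
      obtain ⟨x, hx, hmin⟩ := exists_near y
      refine ⟨⟨-x, negL hx⟩, ?_⟩
      intro r hr
      obtain ⟨n, hn, -, hrn⟩ := of_mem_R hr
      have hrL : r ∈ Submodule.span ℤ (Set.range bs) := (mem_L r).2 ⟨n, hn, hrn⟩
      have h1 := hmin (x + r) (Submodule.add_mem _ hx hrL)
      rw [dist_eq_norm, dist_eq_norm] at h1
      have h2 : ‖y - x‖ ^ 2 ≤ ‖y - (x + r)‖ ^ 2 := pow_le_pow_left₀ (norm_nonneg _) h1 2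
      have e : y - (x + r) = (y - x) - r := by abel
      rw [e, norm_sub_sq_real (y - x) r] at h2
      have h3 : ‖r‖ ^ 2 = 4 := by rw [← real_inner_self_eq_norm_sq, inner_R hr]
      rw [h3] at h2
      have e2 : ((⟨-x, negL hx⟩ : (Submodule.span ℤ (Set.range bs)).toAddSubgroup) +ᵥ y : E) =
          y - x := by
        rw [AddSubgroup.vadd_def, vadd_eq_add, sub_eq_neg_add]
      rw [e2]
      linarith
    · rintro ⟨x, hx⟩ hx0
      have hx0' : x ≠ 0 := fun h => hx0 (Subtype.ext h)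
      refine measure_mono_null ?_ (null_hyper hx0' (inner ℝ x x / 2))
      rintro y ⟨⟨z, hz, rfl⟩, hy⟩
      have e2 : ((⟨x, hx⟩ : (Submodule.span ℤ (Set.range bs)).toAddSubgroup) +ᵥ z : E) =
          x + z := rfl
      simp only [e2] at hy ⊢
      have h1 := inner_V hCOV hy hx
      have h2 := inner_V hCOV hz (negL hx)
      rw [inner_neg_right, inner_neg_neg] at h2
      simp only [Set.mem_ofPred_eq]
      rw [inner_add_left] at h1 ⊢
      linarith
    · intro g
      exact (measurePreserving_vadd g volume).quasiMeasurePreserving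
  have hc : Countable (Submodule.span ℤ (Set.range bs)).toAddSubgroup :=
    inferInstanceAs (Countable (Submodule.span ℤ (Set.range bs)))
  have h1 := hV.measure_eq (ZSpan.isAddFundamentalDomain' bs volume)
  have h2 : volume V = 16 := by rw [h1, vol_fd]
  exact h2

end Pool.Agent.Lib.MP_f1379f_gt.EV
end

section
/-!
# LOC: the local theorem
-/
set_option autoImplicit false
set_option linter.constructorNameAsVariable false

namespace Pool.Agent.Lib.MP_f1379f_gt.EV

open MeasureTheory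

namespace LOCM

/-- isometric images of cells -/
lemma vol_cell_image (B : E ≃ₗᵢ[ℝ] E) (X : Set E) :
    volume (cell (B '' X) 0) = volume (cell X 0) := by
  have h : cell (B '' X) 0 = B.symm ⁻¹' (cell X 0) := by
    ext y
    simp only [cell, Set.mem_ofPred_eq, Set.mem_preimage, Set.forall_mem_image]
    have h0 : dist (B.symm y) 0 = dist y 0 := by
      rw [dist_zero_right, dist_zero_right, B.symm.norm_map]
    have h1 : ∀ x : E, dist (B.symm y) x = dist y (B x) := by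
      intro x
      rw [← B.dist_map (B.symm y) x, B.apply_symm_apply]
    simp only [h0, h1]
  rw [h]
  exact (B.symm.measurePreserving).measure_preimage_emb
    (B.symm.toHomeomorph.measurableEmbedding) _

lemma packing_image (B : E ≃ₗᵢ[ℝ] E) {X : Set E} (hX : Packing X) : Packing (B '' X) := by
  rintro _ ⟨x, hx, rfl⟩ _ ⟨y, hy, rfl⟩ hxy
  rw [B.dist_map]
  exact hX x hx y hy fun h => hxy (by rw [h])

lemma swap (Y : Finset E) (F : E → E → ℝ) :
    ∑ r ∈ Y, ∑ s ∈ Y.filter (fun s => inner ℝ r s = (2 : ℝ)), F s r =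
      ∑ r ∈ Y, ∑ s ∈ Y.filter (fun s => inner ℝ r s = (2 : ℝ)), F r s := by
  refine Finset.sum_comm' ?_
  intro x y
  simp only [Finset.mem_filter]
  rw [real_inner_comm]
  tauto

lemma pair_sum (Y : Finset E) (w : E → E)
    (h56 : ∀ f ∈ Y, ((Y.filter fun y => inner ℝ f y = (2 : ℝ)).card : ℝ) = 56)
    (hnbr : ∀ f ∈ Y, ∑ y ∈ Y.filter (fun y => inner ℝ f y = (2 : ℝ)), y = (28 : ℝ) • f) :
    ∑ r ∈ Y, ∑ s ∈ Y.filter (fun s => inner ℝ r s = (2 : ℝ)), (inner ℝ (r - s) (w r - w s) : ℝ) =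
      56 * ∑ r ∈ Y, (inner ℝ r (w r) : ℝ) := by
  have h1 : ∀ r s : E, (inner ℝ (r - s) (w r - w s) : ℝ) =
      inner ℝ (r - s) (w r) + inner ℝ (s - r) (w s) := by
    intro r s
    rw [inner_sub_right, ← neg_sub r s, inner_neg_left]
    ring
  simp_rw [h1, Finset.sum_add_distrib]
  rw [swap Y (fun r s => (inner ℝ (r - s) (w r) : ℝ)), ← two_mul, Finset.mul_sum, Finset.mul_sum]
  refine Finset.sum_congr rfl fun r hr => ?_
  rw [← sum_inner, Finset.sum_sub_distrib, hnbr r hr, Finset.sum_const, ← Nat.cast_smul_eq_nsmul ℝ,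
    h56 r hr, inner_sub_left, real_inner_smul_left, real_inner_smul_left]
  ring

/-- each pair is controlled by the sum -/
lemma pair_bound (Y : Finset E) (w : E → E) (a : ℝ)
    (h240 : (Y.card : ℝ) = 240)
    (h56 : ∀ f ∈ Y, ((Y.filter fun y => inner ℝ f y = (2 : ℝ)).card : ℝ) = 56)
    (hnbr : ∀ f ∈ Y, ∑ y ∈ Y.filter (fun y => inner ℝ f y = (2 : ℝ)), y = (28 : ℝ) • f)
    (hq : ∀ r ∈ Y, ∀ s ∈ Y, inner ℝ r s = (2 : ℝ) → -a ≤ (inner ℝ (r - s) (w r - w s) : ℝ))
    (r s : E) (hr : r ∈ Y) (hs : s ∈ Y) (hrs : inner ℝ r s = (2 : ℝ)) :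
    (inner ℝ (r - s) (w r - w s) : ℝ) + a ≤
      56 * ∑ r ∈ Y, (inner ℝ r (w r) : ℝ) + 13440 * a := by
  have h1 := pair_sum Y w h56 hnbr
  have h2 : ∑ r ∈ Y, ∑ s ∈ Y.filter (fun s => inner ℝ r s = (2 : ℝ)),
      ((inner ℝ (r - s) (w r - w s) : ℝ) + a) =
      56 * ∑ r ∈ Y, (inner ℝ r (w r) : ℝ) + 13440 * a := by
    simp_rw [Finset.sum_add_distrib]
    rw [h1]
    congr 1
    rw [Finset.sum_congr rfl (g := fun _ => 56 * a) (fun r hr => by
      rw [Finset.sum_const, nsmul_eq_mul, h56 r hr]), Finset.sum_const, nsmul_eq_mul, h240]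
    ring
  rw [← h2]
  have h3 : ∀ r ∈ Y, ∀ s ∈ Y.filter (fun s => inner ℝ r s = (2 : ℝ)),
      0 ≤ (inner ℝ (r - s) (w r - w s) : ℝ) + a := by
    intro r hr s hs
    rw [Finset.mem_filter] at hs
    linarith [hq r hr s hs.1 hs.2]
  refine le_trans ?_ (Finset.single_le_sum (f := fun r => ∑ s ∈ Y.filter
    (fun s => inner ℝ r s = (2 : ℝ)), ((inner ℝ (r - s) (w r - w s) : ℝ) + a))
    (fun i hi => Finset.sum_nonneg (h3 i hi)) hr)
  exact Finset.single_le_sum (f := fun s => (inner ℝ (r - s) (w r - w s) : ℝ) + a)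
    (fun i hi => h3 r hr i hi) (Finset.mem_filter.2 ⟨hs, hrs⟩)

lemma inner_pair (r s a b : E) : (inner ℝ a s + inner ℝ r b : ℝ) =
    inner ℝ r a + inner ℝ s b - inner ℝ (r - s) (a - b) := by
  rw [inner_sub_left, inner_sub_right, inner_sub_right, real_inner_comm a s]
  ring

lemma eta_nonneg (T δ : ℝ) (hT : 0 ≤ T) : 0 ≤ 58 * T + 27000 * δ ^ 2 := by positivity

lemma arith (C C' T δ : ℝ) (hC : 0 < C) (hδ : 0 ≤ δ)
    (h1 : δ ≤ C * (58 * T + 27000 * δ ^ 2)) (h2 : 54000 * C * δ ≤ 1)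
    (h3 : 1740 * C * (16 + C') * δ ≤ 1) :
    16 + 1 / (1740 * C) * δ ≤ 16 + 2 / 15 * (T - 120 * δ ^ 2) - C' * δ ^ 2 := by
  have h4 : 54000 * C * δ * δ ≤ 1 * δ := mul_le_mul_of_nonneg_right h2 hδ
  have h5 : 1740 * C * (16 + C') * δ * δ ≤ 1 * δ := mul_le_mul_of_nonneg_right h3 hδ
  have h6 : δ ≤ 116 * (C * T) := by nlinarith
  have h7 : 1 / (1740 * C) * δ ≤ 2 / 15 * T - (16 + C') * δ ^ 2 := by
    rw [one_div, inv_mul_le_iff₀ (by positivity)]
    nlinarith
  linarith

end LOCM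

open LOCM VOLM in
theorem specLOC (hROT : SpecROT) (hCNT : SpecCNT) (hSTA : SpecSTA) (hNRM : SpecNRM)
    (hVLB : SpecVLB) : SpecLOC := by
  obtain ⟨C, hC, hS⟩ := hSTA
  obtain ⟨C', δ0, hC', hδ0, hV⟩ := hVLB
  set m : ℝ := min (min δ0 (1 / 2)) (min (1 / (54000 * C)) (1 / (1740 * C * (16 + C')))) with hm
  have hm0 : 0 < m := by
    rw [hm]
    refine lt_min (lt_min hδ0 (by norm_num)) (lt_min (by positivity) (by positivity))
  refine ⟨m / 16, 1 / (1740 * C), by positivity, by positivity, ?_⟩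
  intro X x hX h0X hx
  obtain ⟨B, hB1, hB2⟩ := hNRM x
  refine ⟨B, ?_⟩
  have h240 : (R.card : ℝ) = 240 := by rw [hROT.k240.card]; norm_num
  have hne : R.Nonempty := by
    rw [← Finset.card_pos]
    have : (0 : ℝ) < R.card := by rw [h240]; norm_num
    exact_mod_cast this
  obtain ⟨r0, hr0, hmax⟩ := Finset.exists_max_image R (fun r => ‖B (x r) - r‖) hne
  set w : E → E := fun r => B (x r) - r with hw
  have hwr : ∀ r, w r = B (x r) - r := fun r => rfl
  set δ : ℝ := ‖B (x r0) - r0‖ with hδ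
  have hδn : 0 ≤ δ := norm_nonneg _
  have hwδ : ∀ r ∈ R, ‖w r‖ ≤ δ := hmax
  -- δ ≤ m
  have hδm : δ ≤ m := by
    have h1 : δ ^ 2 ≤ ∑ r ∈ R, ‖B (x r) - r‖ ^ 2 :=
      Finset.single_le_sum (f := fun r => ‖B (x r) - r‖ ^ 2) (fun i _ => sq_nonneg _) hr0
    have h2 : ∑ r ∈ R, ‖x r - r‖ ^ 2 ≤ ∑ r ∈ R, (m / 16) ^ 2 :=
      Finset.sum_le_sum fun r hr => pow_le_pow_left₀ (norm_nonneg _) (hx r hr).2 2
    rw [Finset.sum_const, nsmul_eq_mul, h240] at h2
    have h3 : δ ^ 2 ≤ m ^ 2 := by nlinarith [sq_nonneg m]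
    exact (sq_le_sq₀ hδn hm0.le).1 h3
  have hδ1 : δ ≤ δ0 := hδm.trans ((min_le_left _ _).trans (min_le_left _ _))
  have hδ2 : δ ≤ 1 / 2 := hδm.trans ((min_le_left _ _).trans (min_le_right _ _))
  have hδ3 : 54000 * C * δ ≤ 1 := by
    have h1 : δ ≤ 1 / (54000 * C) := hδm.trans ((min_le_right _ _).trans (min_le_left _ _))
    rwa [le_div_iff₀ (by positivity), mul_comm] at h1
  have hδ4 : 1740 * C * (16 + C') * δ ≤ 1 := by
    have h1 : δ ≤ 1 / (1740 * C * (16 + C')) :=
      hδm.trans ((min_le_right _ _).trans (min_le_right _ _))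
    rwa [le_div_iff₀ (by positivity), mul_comm] at h1
  -- the rotated packing
  have hX' : Packing (B '' X) := packing_image B hX
  have h0X' : (0 : E) ∈ B '' X := ⟨0, h0X, map_zero B⟩
  have hx' : ∀ r ∈ R, B (x r) ∈ B '' X ∧ ‖B (x r) - r‖ ≤ δ := fun r hr =>
    ⟨⟨x r, (hx r hr).1, rfl⟩, hmax r hr⟩
  have hnr : ∀ r ∈ R, ‖r‖ = 2 := by
    intro r hr
    have h1 : ‖r‖ ^ 2 = 4 := by rw [← real_inner_self_eq_norm_sq, inner_R hr]
    nlinarith [norm_nonneg r]
  -- the radial parts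
  have hρ : ∀ r ∈ R, -(δ ^ 2 / 2) ≤ (inner ℝ r (w r) : ℝ) := by
    intro r hr
    have h1 : B (x r) ≠ 0 := by
      intro h
      have h2 := hwδ r hr
      rw [hwr, h, zero_sub, norm_neg, hnr r hr] at h2
      linarith
    have h2 := hX' (B (x r)) (hx' r hr).1 0 h0X' h1
    rw [dist_zero_right] at h2
    have h3 : ‖B (x r)‖ ^ 2 = 4 + 2 * inner ℝ r (w r) + ‖w r‖ ^ 2 := by
      have : B (x r) = r + w r := by rw [hwr]; abel
      rw [this, norm_add_sq_real, hnr r hr]
      ring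
    have h4 : ‖w r‖ ^ 2 ≤ δ ^ 2 := pow_le_pow_left₀ (norm_nonneg _) (hwδ r hr) 2
    nlinarith
  have hq : ∀ r ∈ R, ∀ s ∈ R, inner ℝ r s = (2 : ℝ) →
      -(2 * δ ^ 2) ≤ (inner ℝ (r - s) (w r - w s) : ℝ) := by
    intro r hr s hs hrs
    have h1 : ‖r - s‖ ^ 2 = 4 := by
      rw [norm_sub_sq_real, hnr r hr, hnr s hs, hrs]; norm_num
    have h2 : ‖w r - w s‖ ≤ 2 * δ := by
      refine (norm_sub_le _ _).trans ?_
      linarith [hwδ r hr, hwδ s hs]
    have h3 : B (x r) ≠ B (x s) := by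
      intro h
      have h4 : r - s = -(w r - w s) := by
        rw [hwr, hwr, h]; abel
      have h5 : ‖r - s‖ ≤ 1 := by
        rw [h4, norm_neg]
        linarith
      nlinarith [norm_nonneg (r - s)]
    have h4 := hX' (B (x r)) (hx' r hr).1 (B (x s)) (hx' s hs).1 h3
    rw [dist_eq_norm] at h4
    have h5 : ‖B (x r) - B (x s)‖ ^ 2 = 4 + 2 * inner ℝ (r - s) (w r - w s) + ‖w r - w s‖ ^ 2 := by
      have : B (x r) - B (x s) = (r - s) + (w r - w s) := by rw [hwr, hwr]; abel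
      rw [this, norm_add_sq_real, h1]
    have h6 : ‖w r - w s‖ ^ 2 ≤ (2 * δ) ^ 2 := pow_le_pow_left₀ (norm_nonneg _) h2 2
    nlinarith
  -- T
  set T : ℝ := ∑ r ∈ R, ((inner ℝ r (w r) : ℝ) + δ ^ 2 / 2) with hT
  have hT1 : T = ∑ r ∈ R, (inner ℝ r (w r) : ℝ) + 120 * δ ^ 2 := by
    rw [hT, Finset.sum_add_distrib, Finset.sum_const, nsmul_eq_mul, h240]
    ring
  have hTr : ∀ r ∈ R, (inner ℝ r (w r) : ℝ) + δ ^ 2 / 2 ≤ T := fun r hr =>
    Finset.single_le_sum (f := fun r => (inner ℝ r (w r) : ℝ) + δ ^ 2 / 2)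
      (fun i hi => by linarith [hρ i hi]) hr
  have hT0 : 0 ≤ T := by
    refine Finset.sum_nonneg fun r hr => ?_
    linarith [hρ r hr]
  have hδs : 0 ≤ δ ^ 2 := sq_nonneg δ
  have h56 : ∀ f ∈ R, ((R.filter fun y => inner ℝ f y = (2 : ℝ)).card : ℝ) = 56 := by
    intro f hf
    rw [hCNT.c56 R hROT.k240 f hf]
    norm_num
  have hqb : ∀ r ∈ R, ∀ s ∈ R, inner ℝ r s = (2 : ℝ) →
      (inner ℝ (r - s) (w r - w s) : ℝ) ≤ 56 * T + 20160 * δ ^ 2 := by
    intro r hr s hs hrs
    have h1 := pair_bound R w (2 * δ ^ 2) h240 h56 (hCNT.nbr R hROT.k240) hq r s hr hs hrs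
    rw [hT1]
    linarith
  have hη : 0 ≤ 58 * T + 27000 * δ ^ 2 := eta_nonneg T δ hT0
  have hSr := hS w (58 * T + 27000 * δ ^ 2) hη ?_ ?_ hB2 r0 hr0
  · have h1 := arith C C' T δ hC hδn hSr hδ3 hδ4
    intro r hr
    have h2 := hV δ (B '' X) (fun r => B (x r)) hδn hδ1 hX' h0X' hx'
    rw [vol_cell_image] at h2
    refine le_trans (ENNReal.ofReal_le_ofReal ?_) h2
    have h3 : ∑ r ∈ R, (inner ℝ r (B (x r) - r) : ℝ) = T - 120 * δ ^ 2 := by
      rw [hT1]; ring
    rw [h3]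
    refine le_trans ?_ h1
    have h4 : 1 / (1740 * C) * ‖B (x r) - r‖ ≤ 1 / (1740 * C) * δ :=
      mul_le_mul_of_nonneg_left (hmax r hr) (by positivity)
    linarith
  · intro r hr
    rw [real_inner_comm, abs_le]
    constructor <;> linarith [hρ r hr, hTr r hr]
  · intro r hr s hs hrs
    have h1 : (inner ℝ (w r) s + inner ℝ r (w s) : ℝ) =
        inner ℝ r (w r) + inner ℝ s (w s) - inner ℝ (r - s) (w r - w s) :=
      inner_pair r s (w r) (w s)
    rw [h1, abs_le]
    constructor <;> linarith [hρ r hr, hTr r hr, hρ s hs, hTr s hs, hq r hr s hs hrs,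
      hqb r hr s hs hrs]

end Pool.Agent.Lib.MP_f1379f_gt.EV
end

section
/-!
# Module MOM: power moments
-/
set_option autoImplicit false

namespace Pool.Agent.Lib.MP_f1379f_gt.EV

open MeasureTheory

namespace MOMM

/-- Expansion of the quadratic form. -/
theorem expand (Y : Finset E) (x : E) (τ : ℝ) (G : E → E → ℝ) (hG : ∀ a b, G a b = G b a) :
    ∃ c : E → ℝ, ∃ s : Finset E, (∀ a, a ∈ s ↔ a = x ∨ a ∈ Y) ∧
      ∑ a ∈ s, ∑ b ∈ s, c a * c b * G a b =
        (∑ a ∈ Y, ∑ b ∈ Y, G a b) + 2 * τ * (∑ b ∈ Y, G x b) + τ ^ 2 * G x x := by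
  classical
  refine ⟨fun a => (if a ∈ Y then 1 else 0) + τ * (if a = x then 1 else 0), insert x Y,
    fun a => Finset.mem_insert, ?_⟩
  have hY : ∀ F : E → ℝ, ∑ a ∈ insert x Y, (if a ∈ Y then (1 : ℝ) else 0) * F a =
      ∑ a ∈ Y, F a := by
    intro F
    have h1 : ∀ a ∈ insert x Y, (if a ∈ Y then (1 : ℝ) else 0) * F a =
        if a ∈ Y then F a else 0 := by
      intro a _
      split_ifs <;> ring
    rw [Finset.sum_congr rfl h1, Finset.sum_ite_mem]
    congr 1
    exact Finset.inter_eq_right.2 (Finset.subset_insert x Y)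
  have hx : ∀ F : E → ℝ, ∑ a ∈ insert x Y, (if a = x then (1 : ℝ) else 0) * F a = F x := by
    intro F
    have h1 : ∀ a ∈ insert x Y, (if a = x then (1 : ℝ) else 0) * F a =
        if a = x then F a else 0 := by
      intro a _
      split_ifs <;> ring
    rw [Finset.sum_congr rfl h1, Finset.sum_ite_eq']
    simp
  have hc : ∀ F : E → ℝ, ∑ a ∈ insert x Y, ((if a ∈ Y then (1 : ℝ) else 0) +
      τ * (if a = x then 1 else 0)) * F a = (∑ a ∈ Y, F a) + τ * F x := by
    intro F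
    rw [← hY F, ← hx F, Finset.mul_sum, ← Finset.sum_add_distrib]
    exact Finset.sum_congr rfl fun a _ => by ring
  have h1 : ∀ a ∈ insert x Y, ∑ b ∈ insert x Y,
      ((if a ∈ Y then (1 : ℝ) else 0) + τ * (if a = x then 1 else 0)) *
        ((if b ∈ Y then (1 : ℝ) else 0) + τ * (if b = x then 1 else 0)) * G a b =
      ((if a ∈ Y then (1 : ℝ) else 0) + τ * (if a = x then 1 else 0)) *
        ((∑ b ∈ Y, G a b) + τ * G a x) := by
    intro a _
    rw [← hc (G a), Finset.mul_sum]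
    exact Finset.sum_congr rfl fun b _ => by ring
  rw [Finset.sum_congr rfl h1, hc fun a => (∑ b ∈ Y, G a b) + τ * G a x,
    Finset.sum_add_distrib, ← Finset.mul_sum]
  have h2 : ∑ a ∈ Y, G a x = ∑ b ∈ Y, G x b := Finset.sum_congr rfl fun a _ => hG a x
  rw [h2]
  ring

theorem gp_one_le {k : ℕ} (hk : k ≤ 6) : gp k 1 ≤ 1 := by
  interval_cases k <;> simp only [gp] <;> norm_num

theorem zero_of {T G : ℝ} (hG : G ≤ 1) (h : ∀ τ : ℝ, 0 ≤ 2 * τ * T + τ ^ 2 * G) : T = 0 := by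
  have h1 := h (-T)
  have h2 : T ^ 2 ≤ 0 := by nlinarith [sq_nonneg T]
  have h3 := sq_nonneg T
  exact pow_eq_zero_iff two_ne_zero |>.1 (le_antisymm h2 h3)

/-- The zonal sums at a point of the sphere vanish. -/
theorem zonal (hGEG : SpecGEG) (hLPI : SpecLPI) {Y : Finset E} (hK : K240 Y) {x : E}
    (hx : inner ℝ x x = (4 : ℝ)) {k : ℕ} (hk1 : 1 ≤ k) (hk : k ≤ 6) :
    ∑ y ∈ Y, gp k (inner ℝ x y / 4) = 0 := by
  refine zero_of (gp_one_le hk) fun τ => ?_
  obtain ⟨c, s, hs, he⟩ := expand Y x τ (fun a b => gp k (inner ℝ a b / 4))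
    (fun a b => by rw [real_inner_comm])
  have h1 := hGEG k hk s c (fun a ha => by
    rcases (hs a).1 ha with h | h
    · rw [h]
      exact hx
    · exact hK.kiss.nrm a h)
  rw [he, (hLPI Y hK).2 k hk1 hk, hx] at h1
  have h4 : (4 : ℝ) / 4 = 1 := by norm_num
  rw [h4] at h1
  linarith

/-- The moments at a point of the sphere. -/
theorem sphere (hGEG : SpecGEG) (hLPI : SpecLPI) {Y : Finset E} (hK : K240 Y) {x : E}
    (hx : inner ℝ x x = (4 : ℝ)) :
    ∑ y ∈ Y, inner ℝ x y = (0 : ℝ) ∧ ∑ y ∈ Y, inner ℝ x y ^ 2 = (480 : ℝ) ∧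
    ∑ y ∈ Y, inner ℝ x y ^ 3 = (0 : ℝ) ∧ ∑ y ∈ Y, inner ℝ x y ^ 4 = (2304 : ℝ) ∧
    ∑ y ∈ Y, inner ℝ x y ^ 5 = (0 : ℝ) ∧ ∑ y ∈ Y, inner ℝ x y ^ 6 = (15360 : ℝ) := by
  have z1 := zonal hGEG hLPI hK hx (k := 1) (by norm_num) (by norm_num)
  have z2 := zonal hGEG hLPI hK hx (k := 2) (by norm_num) (by norm_num)
  have z3 := zonal hGEG hLPI hK hx (k := 3) (by norm_num) (by norm_num)
  have z4 := zonal hGEG hLPI hK hx (k := 4) (by norm_num) (by norm_num)
  have z5 := zonal hGEG hLPI hK hx (k := 5) (by norm_num) (by norm_num)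
  have z6 := zonal hGEG hLPI hK hx (k := 6) (by norm_num) (by norm_num)
  have hc : ∀ r : ℝ, ∑ y ∈ Y, r = 240 * r := by
    intro r
    rw [Finset.sum_const, hK.card, nsmul_eq_mul]
    norm_num
  simp only [gp, div_pow, Finset.sum_sub_distrib, Finset.sum_add_distrib, hc, ← Finset.mul_sum,
    ← Finset.sum_div] at z1 z2 z3 z4 z5 z6
  refine ⟨?_, ?_, ?_, ?_, ?_, ?_⟩ <;> linarith

end MOMM

open MOMM

theorem specMOM (hGEG : SpecGEG) (hLPI : SpecLPI) : SpecMOM := by
  intro Y hK x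
  by_cases hx0 : x = 0
  · subst hx0
    simp
  · have hxx : 0 < ‖x‖ := norm_pos_iff.2 hx0
    have hin : inner ℝ x x = ‖x‖ ^ 2 := real_inner_self_eq_norm_sq x
    set l := ‖x‖ / 2 with hl
    have hl0 : 0 < l := by positivity
    obtain ⟨z, hz⟩ : ∃ z : E, x = l • z := ⟨l⁻¹ • x, by
      rw [smul_smul, mul_inv_cancel₀ hl0.ne', one_smul]⟩
    have hzz : inner ℝ z z = (4 : ℝ) := by
      have h1 : inner ℝ x x = l ^ 2 * (inner ℝ z z : ℝ) := by
        rw [hz, real_inner_smul_left, real_inner_smul_right]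
        ring
      have h2 : ‖x‖ = 2 * l := by
        rw [hl]
        ring
      rw [hin, h2] at h1
      have h3 : l ^ 2 * (inner ℝ z z : ℝ) = l ^ 2 * 4 := by linarith
      exact mul_left_cancel₀ (by positivity) h3
    obtain ⟨m1, m2, m3, m4, m5, m6⟩ := sphere hGEG hLPI hK hzz
    have hp : ∀ y : E, (inner ℝ x y : ℝ) = l * inner ℝ z y := by
      intro y
      rw [hz, real_inner_smul_left]
    have hxl : (inner ℝ x x : ℝ) = 4 * l ^ 2 := by
      rw [hin, hl]
      ring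
    simp only [hp, mul_pow, ← Finset.mul_sum, m1, m2, m3, m4, m5, m6]
    have hxl' : (inner ℝ z x : ℝ) = 4 * l := by
      rw [hz, real_inner_smul_right, hzz]
      ring
    rw [hxl']
    refine ⟨?_, ?_, ?_, ?_, ?_, ?_⟩ <;> ring

end Pool.Agent.Lib.MP_f1379f_gt.EV
end

section
/-!
# Module POL: polarised moments
-/
set_option autoImplicit false

namespace Pool.Agent.Lib.MP_f1379f_gt.EV

open MeasureTheory

namespace POLM

theorem in_add (a b y : E) : (inner ℝ (a + b) y : ℝ) = inner ℝ a y + inner ℝ b y :=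
  inner_add_left a b y

theorem in_sub (a b y : E) : (inner ℝ (a - b) y : ℝ) = inner ℝ a y - inner ℝ b y :=
  inner_sub_left a b y

theorem in_self_add (a b : E) : (inner ℝ (a + b) (a + b) : ℝ) =
    inner ℝ a a + 2 * inner ℝ a b + inner ℝ b b := real_inner_add_add_self a b

theorem in_self_sub (a b : E) : (inner ℝ (a - b) (a - b) : ℝ) =
    inner ℝ a a - 2 * inner ℝ a b + inner ℝ b b := real_inner_sub_sub_self a b

theorem m11 (hMOM : SpecMOM) (Y : Finset E) (hK : K240 Y) (a b : E) :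
    ∑ y ∈ Y, inner ℝ a y * inner ℝ b y = 120 * (inner ℝ a b : ℝ) := by
  have h1 := (hMOM Y hK (a + b)).2.1
  have h2 := (hMOM Y hK a).2.1
  have h3 := (hMOM Y hK b).2.1
  have e : ∑ y ∈ Y, (inner ℝ (a + b) y : ℝ) ^ 2 = (∑ y ∈ Y, (inner ℝ a y : ℝ) ^ 2) +
      2 * (∑ y ∈ Y, (inner ℝ a y : ℝ) * inner ℝ b y) + ∑ y ∈ Y, (inner ℝ b y : ℝ) ^ 2 := by
    rw [Finset.mul_sum, ← Finset.sum_add_distrib, ← Finset.sum_add_distrib]
    exact Finset.sum_congr rfl fun y _ => by rw [in_add]; ring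
  rw [in_self_add] at h1
  linarith

theorem m22 (hMOM : SpecMOM) (Y : Finset E) (hK : K240 Y) (a b : E) :
    ∑ y ∈ Y, inner ℝ a y ^ 2 * inner ℝ b y ^ 2 =
      48 * ((inner ℝ a a : ℝ) * inner ℝ b b + 2 * inner ℝ a b ^ 2) := by
  have h1 := (hMOM Y hK (a + b)).2.2.2.1
  have h2 := (hMOM Y hK (a - b)).2.2.2.1
  have h3 := (hMOM Y hK a).2.2.2.1
  have h4 := (hMOM Y hK b).2.2.2.1
  have e : (∑ y ∈ Y, (inner ℝ (a + b) y : ℝ) ^ 4) + ∑ y ∈ Y, (inner ℝ (a - b) y : ℝ) ^ 4 =
      2 * (∑ y ∈ Y, (inner ℝ a y : ℝ) ^ 4) +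
      12 * (∑ y ∈ Y, (inner ℝ a y : ℝ) ^ 2 * inner ℝ b y ^ 2) +
        2 * ∑ y ∈ Y, (inner ℝ b y : ℝ) ^ 4 := by
    rw [Finset.mul_sum, Finset.mul_sum, Finset.mul_sum, ← Finset.sum_add_distrib,
      ← Finset.sum_add_distrib, ← Finset.sum_add_distrib]
    exact Finset.sum_congr rfl fun y _ => by rw [in_add, in_sub]; ring
  rw [h1, h2, h3, h4, in_self_add, in_self_sub] at e
  linear_combination -e / 12

theorem m211 (hMOM : SpecMOM) (Y : Finset E) (hK : K240 Y) (a b c : E) :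
    ∑ y ∈ Y, inner ℝ a y ^ 2 * (inner ℝ b y * inner ℝ c y) =
      48 * ((inner ℝ a a : ℝ) * inner ℝ b c + 2 * (inner ℝ a b * inner ℝ a c)) := by
  have h1 := m22 hMOM Y hK a (b + c)
  have h2 := m22 hMOM Y hK a (b - c)
  have e : (∑ y ∈ Y, (inner ℝ a y : ℝ) ^ 2 * inner ℝ (b + c) y ^ 2) =
      (∑ y ∈ Y, (inner ℝ a y : ℝ) ^ 2 * inner ℝ (b - c) y ^ 2) +
      4 * (∑ y ∈ Y, (inner ℝ a y : ℝ) ^ 2 * (inner ℝ b y * inner ℝ c y)) := by
    rw [Finset.mul_sum, ← Finset.sum_add_distrib]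
    exact Finset.sum_congr rfl fun y _ => by rw [in_add, in_sub]; ring
  rw [h1, h2, in_self_add, in_self_sub, inner_add_right, inner_sub_right] at e
  linear_combination -e / 4

theorem m42 (hMOM : SpecMOM) (Y : Finset E) (hK : K240 Y) (a b : E) :
    ∑ y ∈ Y, inner ℝ a y ^ 4 * inner ℝ b y ^ 2 =
      48 * ((inner ℝ a a : ℝ) ^ 2 * inner ℝ b b + 4 * (inner ℝ a a * inner ℝ a b ^ 2)) := by
  have h1 := (hMOM Y hK (a + b)).2.2.2.2.2
  have h2 := (hMOM Y hK (a - b)).2.2.2.2.2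
  have h3 := (hMOM Y hK (a + (2 : ℝ) • b)).2.2.2.2.2
  have h4 := (hMOM Y hK (a - (2 : ℝ) • b)).2.2.2.2.2
  have h5 := (hMOM Y hK a).2.2.2.2.2
  have h6 := (hMOM Y hK b).2.2.2.2.2
  have e : 16 * ((∑ y ∈ Y, (inner ℝ (a + b) y : ℝ) ^ 6) +
      ∑ y ∈ Y, (inner ℝ (a - b) y : ℝ) ^ 6) =
      ((∑ y ∈ Y, (inner ℝ (a + (2 : ℝ) • b) y : ℝ) ^ 6) +
        ∑ y ∈ Y, (inner ℝ (a - (2 : ℝ) • b) y : ℝ) ^ 6) +
      30 * (∑ y ∈ Y, (inner ℝ a y : ℝ) ^ 6) +
      360 * (∑ y ∈ Y, (inner ℝ a y : ℝ) ^ 4 * inner ℝ b y ^ 2) -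
        96 * ∑ y ∈ Y, (inner ℝ b y : ℝ) ^ 6 := by
    rw [← Finset.sum_add_distrib, ← Finset.sum_add_distrib, Finset.mul_sum, Finset.mul_sum,
      Finset.mul_sum, Finset.mul_sum, ← Finset.sum_add_distrib, ← Finset.sum_add_distrib,
      ← Finset.sum_sub_distrib]
    exact Finset.sum_congr rfl fun y _ => by
      rw [in_add, in_sub, in_add, in_sub, real_inner_smul_left]
      ring
  rw [h1, h2, h3, h4, h5, h6, in_self_add, in_self_sub, in_self_add, in_self_sub,
    real_inner_smul_left, real_inner_smul_right, real_inner_smul_right] at e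
  linear_combination -e / 360

theorem m222 (hMOM : SpecMOM) (Y : Finset E) (hK : K240 Y) (a b c : E) :
    ∑ y ∈ Y, inner ℝ a y ^ 2 * (inner ℝ b y ^ 2 * inner ℝ c y ^ 2) =
      16 * ((inner ℝ a a : ℝ) * inner ℝ b b * inner ℝ c c
        + 2 * (inner ℝ a a * inner ℝ b c ^ 2 + inner ℝ b b * inner ℝ a c ^ 2
          + inner ℝ c c * inner ℝ a b ^ 2)
        + 8 * (inner ℝ a b * inner ℝ b c * inner ℝ a c)) := by
  have h1 := m42 hMOM Y hK (b + c) a
  have h2 := m42 hMOM Y hK (b - c) a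
  have h3 := m42 hMOM Y hK b a
  have h4 := m42 hMOM Y hK c a
  have e : (∑ y ∈ Y, (inner ℝ (b + c) y : ℝ) ^ 4 * inner ℝ a y ^ 2) +
      (∑ y ∈ Y, (inner ℝ (b - c) y : ℝ) ^ 4 * inner ℝ a y ^ 2) =
      2 * (∑ y ∈ Y, (inner ℝ b y : ℝ) ^ 4 * inner ℝ a y ^ 2) +
      12 * (∑ y ∈ Y, (inner ℝ a y : ℝ) ^ 2 * (inner ℝ b y ^ 2 * inner ℝ c y ^ 2)) +
      2 * (∑ y ∈ Y, (inner ℝ c y : ℝ) ^ 4 * inner ℝ a y ^ 2) := by
    rw [Finset.mul_sum, Finset.mul_sum, Finset.mul_sum, ← Finset.sum_add_distrib,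
      ← Finset.sum_add_distrib, ← Finset.sum_add_distrib]
    exact Finset.sum_congr rfl fun y _ => by rw [in_add, in_sub]; ring
  rw [h1, h2, h3, h4, in_self_add, in_self_sub, in_add, in_sub, real_inner_comm a b,
    real_inner_comm a c] at e
  linear_combination -e / 12

end POLM

theorem specPOL (hMOM : SpecMOM) : SpecPOL where
  m11 := POLM.m11 hMOM
  m22 := POLM.m22 hMOM
  m211 := POLM.m211 hMOM
  m42 := POLM.m42 hMOM
  m222 := POLM.m222 hMOM

end Pool.Agent.Lib.MP_f1379f_gt.EV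
end

section
/-!
# Module PVL: volume of a displaced pyramid (helper68)
-/
set_option autoImplicit false

namespace Pool.Agent.Lib.MP_f1379f_gt.EV

open MeasureTheory

namespace PVLM

theorem isClosed_cone (r : E) : IsClosed (cone r) := by
  have h : cone r = ⋂ s ∈ R, {y : E | inner ℝ y s ≤ (inner ℝ y r : ℝ)} := by
    ext y
    simp [cone]
  rw [h]
  refine isClosed_biInter fun s _ => isClosed_le ?_ ?_
  · exact continuous_id.inner continuous_const
  · exact continuous_id.inner continuous_const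

theorem smul_cone {r y : E} (hy : y ∈ cone r) {t : ℝ} (ht : 0 < t) : t • y ∈ cone r := by
  intro s hs
  rw [inner_smul_left, inner_smul_left]
  exact mul_le_mul_of_nonneg_left (hy s hs) ht.le

end PVLM

open PVLM in
theorem specPVL (hROT : SpecROT) (hCON : SpecCON) (hSYM : SpecSYM) : SpecPVL := by
  intro r hr a ha
  set a0 : E := (1 / 2 : ℝ) • r with ha0
  have hrr : inner ℝ r r = (4 : ℝ) := hROT.k240.kiss.nrm r hr
  have hm : MeasurableSet (cone r) := (isClosed_cone r).measurableSet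
  have hin0 : ∀ y, inner ℝ a0 y = (1 / 2 : ℝ) * inner ℝ r y := fun y => by
    rw [ha0, inner_smul_left]
    simp
  have h0 : ∀ y ∈ cone r, 1 / 4 * ‖y‖ ≤ (inner ℝ a0 y : ℝ) := by
    intro y hy
    have := (hSYM.cov r hr y hy).1
    rw [hin0]
    have := norm_nonneg y
    linarith
  have h1 : ∀ y ∈ cone r, 1 / 4 * ‖y‖ ≤ (inner ℝ a y : ℝ) := by
    intro y hy
    have h2 := (hSYM.cov r hr y hy).1
    have h3 : inner ℝ a y = (inner ℝ a0 y : ℝ) + inner ℝ (a - a0) y := by
      rw [← inner_add_left]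
      congr 1
      abel
    have h4 : |(inner ℝ (a - a0) y : ℝ)| ≤ 1 / 4 * ‖y‖ :=
      (abs_real_inner_le_norm _ _).trans (mul_le_mul_of_nonneg_right ha (norm_nonneg y))
    have h5 := (abs_le.1 h4).1
    rw [h3, hin0]
    linarith
  have hset : {y : E | inner ℝ a0 y ≤ (1 : ℝ)} = {y : E | inner ℝ r y ≤ (2 : ℝ)} := by
    ext y
    show inner ℝ a0 y ≤ (1 : ℝ) ↔ inner ℝ r y ≤ (2 : ℝ)
    rw [hin0]
    constructor <;> intro h <;> linarith
  have hvol : (volume (cone r ∩ {y : E | inner ℝ a0 y ≤ (1 : ℝ)})).toReal = 1 / 15 := by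
    rw [hset, hSYM.vol r hr, ENNReal.toReal_ofReal (by norm_num)]
  have htan := hCON.tan (cone r) a0 a (1 / 4) hm (fun y hy t ht => smul_cone hy ht) (by norm_num)
    h0 h1
  have hmom := hCON.mom (cone r) a0 (1 / 4) hm (fun y hy t ht => smul_cone hy ht) (by norm_num) h0
  rw [hvol] at htan hmom
  set lam : ℝ := inner ℝ r (a - a0) / 4 with hlam
  set b : E := a - a0 - lam • r with hb
  have hbr : inner ℝ b r = (0 : ℝ) := by
    rw [hb, inner_sub_left, inner_smul_left, hrr, real_inner_comm r (a - a0), hlam]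
    simp
  have hint : ∫ y in cone r, inner ℝ (a - a0) y * Real.exp (-(inner ℝ a0 y : ℝ)) =
      2 * lam * (8 * 40320 * (1 / 15)) := by
    have e : ∀ y : E, inner ℝ (a - a0) y * Real.exp (-(inner ℝ a0 y : ℝ)) =
        2 * lam * (inner ℝ a0 y * Real.exp (-(inner ℝ a0 y : ℝ))) +
          inner ℝ b y * Real.exp (-(inner ℝ a0 y : ℝ)) := by
      intro y
      have e1 : a - a0 = lam • r + b := by rw [hb]; abel
      have e2 : inner ℝ (a - a0) y = (lam * inner ℝ r y + inner ℝ b y : ℝ) := by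
        rw [e1, inner_add_left, inner_smul_left]
        simp
      rw [e2, hin0]
      ring
    simp only [e]
    rw [integral_add ((hCON.int (cone r) a0 a0 (1 / 4) hm (by norm_num) h0).const_mul (2 * lam))
      (hCON.int (cone r) a0 b (1 / 4) hm (by norm_num) h0), integral_const_mul, hmom,
      hSYM.mom r hr b hbr, add_zero]
  rw [hint] at htan
  apply ENNReal.ofReal_le_of_le_toReal
  refine le_trans (le_of_eq ?_) htan
  rw [hlam]
  ring

end Pool.Agent.Lib.MP_f1379f_gt.EV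
end

section
/-!
# RGA: infinitesimal isometries on pairs with inner product -2, and oddness
-/
set_option autoImplicit false

namespace Pool.Agent.Lib.MP_f1379f_gt.EV

/-- **RGA.** -/
theorem specRGA (hCLO : SpecCLO) (hCNT : SpecCNT) : SpecRGA := by
  intro Y hY w hρ hc
  have hneg2 : ∀ r ∈ Y, ∀ s ∈ Y, inner ℝ r s = (-2 : ℝ) →
      inner ℝ (w r) s + inner ℝ r (w s) = (0 : ℝ) := by
    intro f hf g hg hfg
    have he : f + g ∈ Y := hCLO.add Y hY f hf g hg hfg
    have hff := hY.kiss.nrm f hf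
    have hgg := hY.kiss.nrm g hg
    have hgf : inner ℝ g f = (-2 : ℝ) := by rw [real_inner_comm]; exact hfg
    have h1 := hc (f + g) he f hf (by rw [inner_add_left, hff, hgf]; norm_num)
    have h2 := hc (f + g) he g hg (by rw [inner_add_left, hgg, hfg]; norm_num)
    have h3 := hρ _ he
    have h4 := hρ _ hf
    have h5 := hρ _ hg
    rw [real_inner_comm] at h4 h5
    rw [inner_add_left] at h1 h2
    rw [inner_add_right] at h3
    rw [real_inner_comm g (w f)]
    linarith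
  refine ⟨hneg2, ?_⟩
  intro g hg
  have hmg : -g ∈ Y := hCLO.neg Y hY g hg
  have hz : w g + w (-g) = 0 := by
    apply hCNT.spn Y hY g hg
    intro f hf hgf
    have hfg : inner ℝ f g = (2 : ℝ) := by rw [real_inner_comm]; exact hgf
    have h1 := hc f hf g hg hfg
    have h2 := hneg2 f hf (-g) hmg (by rw [inner_neg_right, hfg])
    rw [inner_neg_right] at h2
    rw [real_inner_comm, inner_add_right]
    linarith
  exact (neg_eq_of_add_eq_zero_right hz).symm

end Pool.Agent.Lib.MP_f1379f_gt.EV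
end

section
/-!
# RGB: parallelograms
-/
set_option autoImplicit false

namespace Pool.Agent.Lib.MP_f1379f_gt.EV

/-- **RGB.** -/
theorem specRGB (hCLO : SpecCLO) (hCNT : SpecCNT) (hRGA : SpecRGA) : SpecRGB := by
  intro Y hY w hρ hc f hf g hg h hh hfg hhf hhg
  obtain ⟨hneg2, -⟩ := hRGA Y hY w hρ hc
  set k : E := f + g - h with hk
  have hff := hY.kiss.nrm f hf
  have hgg := hY.kiss.nrm g hg
  have hhh := hY.kiss.nrm h hh
  have hgf : inner ℝ g f = (0 : ℝ) := by rw [real_inner_comm]; exact hfg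
  have hfh : inner ℝ f h = (2 : ℝ) := by rw [real_inner_comm]; exact hhf
  have hgh : inner ℝ g h = (2 : ℝ) := by rw [real_inner_comm]; exact hhg
  have hfmh : f - h ∈ Y := hCLO.sub Y hY f hf h hh hfh
  have hhmg : h - g ∈ Y := hCLO.sub Y hY h hh g hg hhg
  have hkY : k ∈ Y := by
    have := hCLO.add Y hY g hg (f - h) hfmh (by rw [inner_sub_right, hgf, hgh]; norm_num)
    have e : g + (f - h) = k := by rw [hk]; abel
    rwa [e] at this
  -- the general computation
  set D : E := w f + w g - w h - w k with hD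
  have hB : ∀ r ∈ Y, ∀ t ∈ Y, (inner ℝ r t = (2 : ℝ) ∨ inner ℝ r t = (-2 : ℝ)) →
      inner ℝ (w r) t = -(inner ℝ r (w t) : ℝ) := by
    intro r hr t ht h'
    rcases h' with h' | h'
    · linarith [hc r hr t ht h']
    · linarith [hneg2 r hr t ht h']
  have hDt : ∀ t ∈ Y, (inner ℝ f t = (2 : ℝ) ∨ inner ℝ f t = (-2 : ℝ)) →
      (inner ℝ g t = (2 : ℝ) ∨ inner ℝ g t = (-2 : ℝ)) →
      (inner ℝ h t = (2 : ℝ) ∨ inner ℝ h t = (-2 : ℝ)) →
      (inner ℝ k t = (2 : ℝ) ∨ inner ℝ k t = (-2 : ℝ)) → inner ℝ D t = (0 : ℝ) := by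
    intro t ht h1 h2 h3 h4
    rw [hD, inner_sub_left, inner_sub_left, inner_add_left, hB f hf t ht h1, hB g hg t ht h2,
      hB h hh t ht h3, hB k hkY t ht h4]
    rw [hk, inner_sub_left, inner_add_left]
    ring
  have hkf : ∀ t : E, inner ℝ k t = (inner ℝ f t + inner ℝ g t - inner ℝ h t : ℝ) := by
    intro t
    rw [hk, inner_sub_left, inner_add_left]
  have e1 : inner ℝ D (f - h) = (0 : ℝ) := by
    apply hDt _ hfmh
    · left; rw [inner_sub_right, hff, hfh]; norm_num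
    · right; rw [inner_sub_right, hgf, hgh]; norm_num
    · right; rw [inner_sub_right, hhf, hhh]; norm_num
    · left; rw [hkf, inner_sub_right, inner_sub_right, inner_sub_right, hff, hfh, hgf, hgh, hhf,
        hhh]; norm_num
  have e2 : inner ℝ D (h - g) = (0 : ℝ) := by
    apply hDt _ hhmg
    · left; rw [inner_sub_right, hfh, hfg]; norm_num
    · right; rw [inner_sub_right, hgh, hgg]; norm_num
    · left; rw [inner_sub_right, hhh, hhg]; norm_num
    · right; rw [hkf, inner_sub_right, inner_sub_right, inner_sub_right, hfh, hfg, hgh, hgg, hhh,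
        hhg]; norm_num
  rw [inner_sub_right] at e1 e2
  have hDk : inner ℝ D k = (inner ℝ D h : ℝ) := by
    rw [hk, inner_sub_right, inner_add_right]
    linarith
  -- the sum formula
  have hS := hCNT.S Y hY f hf g hg hfg D
  have hne : h ≠ k := by
    intro e
    have : inner ℝ k h = (4 : ℝ) := by rw [← e]; exact hhh
    rw [hkf, hfh, hgh, hhh] at this
    norm_num at this
  have hpair : ({h, k} : Finset E) ⊆
      Y.filter (fun t => inner ℝ t f = (2 : ℝ) ∧ inner ℝ t g = (2 : ℝ)) := by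
    intro t ht
    rw [Finset.mem_insert, Finset.mem_singleton] at ht
    rw [Finset.mem_filter]
    rcases ht with rfl | rfl
    · exact ⟨hh, hhf, hhg⟩
    · refine ⟨hkY, ?_, ?_⟩
      · rw [hkf, hff, hgf, hhf]; norm_num
      · rw [hkf, hfg, hgg, hhg]; norm_num
  rw [← Finset.sum_subset hpair, Finset.sum_pair hne, hDk] at hS
  · have h0 : 0 ≤ (inner ℝ D D : ℝ) := real_inner_self_nonneg
    have hDf : inner ℝ D f = (inner ℝ D h : ℝ) := by linarith
    have hDg : inner ℝ D g = (inner ℝ D h : ℝ) := by linarith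
    rw [hDf, hDg] at hS
    have hz : (inner ℝ D D : ℝ) = 0 := by nlinarith [sq_nonneg (inner ℝ D h : ℝ)]
    have hD0 : D = 0 := inner_self_eq_zero.1 hz
    have e3 : w f + w g - (w h + w k) = 0 := by
      rw [← hD0, hD]; abel
    exact sub_eq_zero.1 e3
  · intro t ht htn
    rw [Finset.mem_filter] at ht
    obtain ⟨htY, htf, htg⟩ := ht
    rw [Finset.mem_insert, Finset.mem_singleton, not_or] at htn
    have hft : inner ℝ f t = (2 : ℝ) := by rw [real_inner_comm]; exact htf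
    have hgt : inner ℝ g t = (2 : ℝ) := by rw [real_inner_comm]; exact htg
    have h1 : inner ℝ h t ≤ (2 : ℝ) := hY.kiss.sep h hh t htY (Ne.symm htn.1)
    have h2 : inner ℝ k t ≤ (2 : ℝ) := hY.kiss.sep k hkY t htY (Ne.symm htn.2)
    have h3 := hkf t
    rw [hft, hgt] at h3
    have h4 : inner ℝ h t = (2 : ℝ) := by linarith
    have h5 : inner ℝ k t = (2 : ℝ) := by linarith
    rw [hDt t htY (Or.inl hft) (Or.inl hgt) (Or.inl h4) (Or.inl h5)]
    norm_num

end Pool.Agent.Lib.MP_f1379f_gt.EV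
end

section
/-!
# SYM: symmetry of the 240 pyramids
-/
set_option autoImplicit false

namespace Pool.Agent.Lib.MP_f1379f_gt.EV

open MeasureTheory

namespace SYMM

/-- the reflection in a vector of norm 2 -/
theorem refl_ex {s : E} (hs : inner ℝ s s = (4 : ℝ)) :
    ∃ σ : E ≃ₗᵢ[ℝ] E, ∀ y, σ y = y - ((inner ℝ y s : ℝ) / 2) • s := by
  refine ⟨Submodule.reflection (Submodule.span ℝ {s})ᗮ, fun y => ?_⟩
  have hn : ‖s‖ ^ 2 = 4 := by rw [← real_inner_self_eq_norm_sq]; exact hs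
  rw [Submodule.reflection_orthogonal_apply, Submodule.reflection_singleton_apply]
  rw [real_inner_comm y s]
  simp only [RCLike.ofReal_real_eq_id, id_eq]
  rw [hn]
  module

section refl

variable {σ : E ≃ₗᵢ[ℝ] E} {s : E}

theorem invol (hs : inner ℝ s s = (4 : ℝ)) (hσ : ∀ y, σ y = y - ((inner ℝ y s : ℝ) / 2) • s)
    (y : E) : σ (σ y) = y := by
  rw [hσ (σ y), hσ y, inner_sub_left, real_inner_smul_left, hs, sub_sub, ← add_smul]
  have : (inner ℝ y s : ℝ) / 2 + (inner ℝ y s - inner ℝ y s / 2 * 4) / 2 = 0 := by ring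
  rw [this, zero_smul, sub_zero]

theorem cone_pre (hs : inner ℝ s s = (4 : ℝ)) (hσ : ∀ y, σ y = y - ((inner ℝ y s : ℝ) / 2) • s)
    (hR : ∀ t ∈ R, σ t ∈ R) (r : E) : σ ⁻¹' (cone (σ r)) = cone r := by
  ext y
  constructor
  · intro h t ht
    have h1 := h (σ t) (hR t ht)
    rwa [σ.inner_map_map, σ.inner_map_map] at h1
  · intro h t ht
    have h1 := h (σ t) (hR t ht)
    have h2 : (inner ℝ (σ y) t : ℝ) = inner ℝ y (σ t) := by
      rw [← σ.inner_map_map y (σ t), invol hs hσ]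
    show (inner ℝ (σ y) t : ℝ) ≤ inner ℝ (σ y) (σ r)
    rw [h2, σ.inner_map_map]
    exact h1

theorem meas_cone (r : E) : MeasurableSet (cone r) := by
  have h : cone r = ⋂ t ∈ R, {y : E | (inner ℝ y t : ℝ) ≤ inner ℝ y r} := by
    ext y
    simp [cone]
  rw [h]
  refine MeasurableSet.biInter R.countable_toSet fun t _ => ?_
  exact measurableSet_le (continuous_id.inner continuous_const).measurable
    (continuous_id.inner continuous_const).measurable

theorem meas_pyr (r : E) : MeasurableSet (cone r ∩ {y : E | inner ℝ r y ≤ (2 : ℝ)}) :=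
  (meas_cone r).inter (measurableSet_le (continuous_const.inner continuous_id).measurable
    measurable_const)

end refl

theorem vol_eq (hCLO : SpecCLO) (hROT : SpecROT) {r r' : E} (hr : r ∈ R) (hr' : r' ∈ R)
    (h : inner ℝ r r' = (2 : ℝ)) :
    volume (cone r ∩ {y : E | inner ℝ r y ≤ (2 : ℝ)}) =
      volume (cone r' ∩ {y : E | inner ℝ r' y ≤ (2 : ℝ)}) := by
  have hK := hROT.k240
  have hsR : r - r' ∈ R := hCLO.sub R hK r hr r' hr' h
  have hs := hK.kiss.nrm _ hsR
  obtain ⟨σ, hσ⟩ := refl_ex hs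
  have hR : ∀ t ∈ R, σ t ∈ R := by
    intro t ht
    rw [hσ]
    exact hCLO.refl R hK t ht _ hsR
  have hrr : σ r = r' := by
    rw [hσ, inner_sub_right, h, hK.kiss.nrm r hr]
    norm_num
  have hpre : σ ⁻¹' (cone r' ∩ {y : E | inner ℝ r' y ≤ (2 : ℝ)}) =
      cone r ∩ {y : E | inner ℝ r y ≤ (2 : ℝ)} := by
    rw [← hrr, Set.preimage_inter, cone_pre hs hσ hR]
    congr 1
    ext y
    show (inner ℝ (σ r) (σ y) : ℝ) ≤ 2 ↔ _
    rw [σ.inner_map_map]
    rfl
  rw [← hpre]
  exact (LinearIsometryEquiv.measurePreserving σ).measure_preimage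
    (meas_pyr r').nullMeasurableSet

theorem all_eq (hCLO : SpecCLO) (hCNT : SpecCNT) (hROT : SpecROT) {r r' : E} (hr : r ∈ R)
    (hr' : r' ∈ R) :
    volume (cone r ∩ {y : E | inner ℝ r y ≤ (2 : ℝ)}) =
      volume (cone r' ∩ {y : E | inner ℝ r' y ≤ (2 : ℝ)}) := by
  have h := hCNT.con R hROT.k240 (fun f => volume (cone f ∩ {y : E | inner ℝ f y ≤ (2 : ℝ)}) =
    volume (cone r' ∩ {y : E | inner ℝ r' y ≤ (2 : ℝ)}))
    (fun f hf g hg hfg h1 => by rw [← vol_eq hCLO hROT hf hg hfg]; exact h1) r' hr' r hr rfl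
  exact h

theorem union_eq (hR : R.Nonempty) : (⋃ r ∈ R, (cone r ∩ {y : E | inner ℝ r y ≤ (2 : ℝ)})) =
    {y : E | ∀ r ∈ R, inner ℝ y r ≤ (2 : ℝ)} := by
  ext y
  simp only [Set.mem_iUnion]
  constructor
  · rintro ⟨r, hr, h1, h2⟩ s hs
    have h3 : (inner ℝ r y : ℝ) ≤ 2 := h2
    rw [real_inner_comm] at h3
    exact (h1 s hs).trans h3
  · intro h
    obtain ⟨r, hr, hmax⟩ := R.exists_max_image (fun t => (inner ℝ y t : ℝ)) hR
    refine ⟨r, hr, fun s hs => hmax s hs, ?_⟩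
    show (inner ℝ r y : ℝ) ≤ 2
    rw [real_inner_comm]
    exact h r hr

theorem disj {r s : E} (hr : r ∈ R) (hs : s ∈ R) (h : r ≠ s) :
    AEDisjoint volume (cone r ∩ {y : E | inner ℝ r y ≤ (2 : ℝ)})
      (cone s ∩ {y : E | inner ℝ s y ≤ (2 : ℝ)}) := by
  have hsub : (cone r ∩ {y : E | inner ℝ r y ≤ (2 : ℝ)}) ∩
      (cone s ∩ {y : E | inner ℝ s y ≤ (2 : ℝ)}) ⊆
      ((Submodule.span ℝ {r - s})ᗮ : Submodule ℝ E) := by
    rintro y ⟨⟨h1, -⟩, ⟨h2, -⟩⟩
    have h3 : (inner ℝ y r : ℝ) = inner ℝ y s := le_antisymm (h2 r hr) (h1 s hs)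
    show y ∈ (Submodule.span ℝ {r - s})ᗮ
    rw [Submodule.mem_orthogonal_singleton_iff_inner_left, inner_sub_right, h3, sub_self]
  refine measure_mono_null hsub (Measure.addHaar_submodule volume _ ?_)
  intro htop
  have h1 : r - s ∈ (Submodule.span ℝ {r - s})ᗮ := by rw [htop]; trivial
  rw [Submodule.mem_orthogonal_singleton_iff_inner_left, inner_self_eq_zero] at h1
  exact h (sub_eq_zero.1 h1)

theorem cov (hCOV : SpecCOV) {r y : E} (hy : y ∈ cone r) :
    ‖y‖ ≤ (inner ℝ r y : ℝ) ∧ 2 * ‖y‖ ^ 2 ≤ (inner ℝ r y : ℝ) ^ 2 := by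
  obtain ⟨s, hs, h0, h2⟩ := hCOV y
  have h1 : (inner ℝ y s : ℝ) ≤ inner ℝ r y := by
    rw [real_inner_comm y r]
    exact hy s hs
  rw [real_inner_self_eq_norm_sq] at h2
  have h3 : (inner ℝ y s : ℝ) ^ 2 ≤ (inner ℝ r y : ℝ) ^ 2 := pow_le_pow_left₀ h0 h1 2
  have h4 : 2 * ‖y‖ ^ 2 ≤ (inner ℝ r y : ℝ) ^ 2 := h2.trans h3
  refine ⟨?_, h4⟩
  apply le_of_sq_le_sq _ (h0.trans h1)
  nlinarith [sq_nonneg ‖y‖]

end SYMM

open SYMM in
/-- **SYM** -/
theorem specSYM (hCOV : SpecCOV) (hCLO : SpecCLO) (hCNT : SpecCNT) (hROT : SpecROT)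
    (hVOL : SpecVOL) (hCON : SpecCON) : SpecSYM where
  cov := fun r _ y hy => cov hCOV hy
  vol := by
    intro r hr
    have hK := hROT.k240
    have h1 : volume (⋃ r ∈ R, (cone r ∩ {y : E | inner ℝ r y ≤ (2 : ℝ)})) =
        ∑ r ∈ R, volume (cone r ∩ {y : E | inner ℝ r y ≤ (2 : ℝ)}) :=
      measure_biUnion_finset₀ (fun a ha b hb hab => disj ha hb hab)
        fun b _ => (meas_pyr b).nullMeasurableSet
    rw [union_eq ⟨r, hr⟩, hVOL, Finset.sum_congr rfl (fun s hs => all_eq hCLO hCNT hROT hs hr),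
      Finset.sum_const, hK.card, nsmul_eq_mul] at h1
    have h2 : volume (cone r ∩ {y : E | inner ℝ r y ≤ (2 : ℝ)}) = 16 / 240 := by
      rw [ENNReal.eq_div_iff (by norm_num) (by norm_num)]
      exact h1.symm
    rw [h2]
    have h3 : ENNReal.ofReal (1 / 15) = ENNReal.ofReal (16 / 240) := by norm_num
    rw [h3, ENNReal.ofReal_div_of_pos (by norm_num)]
    norm_num
  mom := by
    intro r hr b hb
    have hK := hROT.k240
    have hint : ∀ b : E, IntegrableOn (fun y : E => inner ℝ b y *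
        Real.exp (-(inner ℝ ((1 / 2 : ℝ) • r) y : ℝ))) (cone r) volume := fun b =>
      hCON.int (cone r) ((1 / 2 : ℝ) • r) b (1 / 2) (meas_cone r) (by norm_num) (fun y hy => by
        rw [real_inner_smul_left]
        have := (SYMM.cov hCOV hy).1
        linarith)
    -- the linear functional
    let L : E →ₗ[ℝ] ℝ :=
      { toFun := fun b => ∫ y in cone r, inner ℝ b y *
          Real.exp (-(inner ℝ ((1 / 2 : ℝ) • r) y : ℝ))
        map_add' := by
          intro b c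
          rw [← integral_add (hint b) (hint c)]
          refine integral_congr_ae (Filter.Eventually.of_forall fun y => ?_)
          show inner ℝ (b + c) y * _ = inner ℝ b y * _ + inner ℝ c y * _
          rw [inner_add_left]
          ring
        map_smul' := by
          intro t b
          rw [RingHom.id_apply, smul_eq_mul, ← integral_const_mul]
          refine integral_congr_ae (Filter.Eventually.of_forall fun y => ?_)
          show inner ℝ (t • b) y * _ = t * (inner ℝ b y * _)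
          rw [real_inner_smul_left]
          ring }
    have hL0 : ∀ s ∈ R, inner ℝ s r = (0 : ℝ) → L s = 0 := by
      intro s hs hsr
      have hss := hK.kiss.nrm s hs
      obtain ⟨σ, hσ⟩ := refl_ex hss
      have hR : ∀ t ∈ R, σ t ∈ R := by
        intro t ht
        rw [hσ]
        exact hCLO.refl R hK t ht s hs
      have hrr : σ r = r := by
        rw [hσ, real_inner_comm, hsr, zero_div, zero_smul, sub_zero]
      have hs' : σ s = -s := by
        rw [hσ, hss]
        have : s - ((4 : ℝ) / 2) • s = (1 - (4 : ℝ) / 2) • s := by rw [sub_smul, one_smul]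
        rw [this]
        norm_num
      have hpre : σ ⁻¹' (cone r) = cone r := by
        conv_lhs => rw [← hrr]
        exact cone_pre hss hσ hR r
      have h1 := (LinearIsometryEquiv.measurePreserving σ).setIntegral_preimage_emb
        σ.toHomeomorph.measurableEmbedding (fun y : E => inner ℝ s y *
          Real.exp (-(inner ℝ ((1 / 2 : ℝ) • r) y : ℝ))) (cone r)
      rw [hpre] at h1
      have h2 : ∀ y : E, (inner ℝ s (σ y) : ℝ) = - inner ℝ s y := by
        intro y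
        have h4 : (inner ℝ s (σ y) : ℝ) = inner ℝ (σ (σ s)) (σ y) := by rw [invol hss hσ s]
        rw [h4, σ.inner_map_map, hs', inner_neg_left]
      have h3 : ∀ y : E, (inner ℝ ((1 / 2 : ℝ) • r) (σ y) : ℝ) = inner ℝ ((1 / 2 : ℝ) • r) y := by
        intro y
        rw [real_inner_smul_left, real_inner_smul_left]
        conv_lhs => rw [← hrr]
        rw [σ.inner_map_map]
      simp only [h2, h3, neg_mul, integral_neg] at h1
      show (∫ y in cone r, inner ℝ s y * Real.exp (-(inner ℝ ((1 / 2 : ℝ) • r) y : ℝ))) = 0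
      linarith
    obtain ⟨M, hM⟩ : ∃ M : E, ∀ b : E, L b = inner ℝ M b := by
      refine ⟨(InnerProductSpace.toDual ℝ E).symm (LinearMap.toContinuousLinearMap L), fun b => ?_⟩
      rw [InnerProductSpace.toDual_symm_apply]
      rfl
    have hrr := hK.kiss.nrm r hr
    have hz := hCNT.orp R hK r hr (M - ((inner ℝ M r : ℝ) / 4) • r) (by
      rw [inner_sub_left, real_inner_smul_left, hrr]
      ring) (fun y hy hry => by
        rw [inner_sub_left, real_inner_smul_left, hry, mul_zero, sub_zero, ← hM]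
        exact hL0 y hy (by rw [real_inner_comm]; exact hry))
    have hb' : inner ℝ r b = (0 : ℝ) := by
      rw [real_inner_comm]
      exact hb
    have h1 : L b = 0 := by
      rw [hM, sub_eq_zero.1 hz, real_inner_smul_left, hb', mul_zero]
    exact h1

end Pool.Agent.Lib.MP_f1379f_gt.EV
end

section
/-!
# VLB: lower bound for the volume of the displaced cell
-/
set_option autoImplicit false
set_option linter.constructorNameAsVariable false

namespace Pool.Agent.Lib.MP_f1379f_gt.EV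

open MeasureTheory

namespace VLBM

lemma meas_cone (r : E) : MeasurableSet (cone r) := by
  have : cone r = ⋂ s ∈ R, {y : E | (inner ℝ y s : ℝ) ≤ inner ℝ y r} := by
    ext y; simp [cone]
  rw [this]
  refine Finset.measurableSet_biInter _ fun s _ => ?_
  exact measurableSet_le (by fun_prop) (by fun_prop)

/-- the data at one neighbour -/
lemma norm_facts {r v x : E} {δ : ℝ} (hr : (inner ℝ r r : ℝ) = 4) (hx : x = r + v)
    (hv : ‖v‖ ≤ δ) (hx2 : 2 ≤ ‖x‖) :
    (inner ℝ x x : ℝ) = 4 + 2 * inner ℝ r v + ‖v‖ ^ 2 ∧ |(inner ℝ r v : ℝ)| ≤ 2 * δ ∧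
      ‖x‖ ≤ 2 + δ ∧ (4 : ℝ) ≤ inner ℝ x x ∧ ‖r‖ = 2 := by
  have hr2 : ‖r‖ = 2 := by
    have h1 : ‖r‖ ^ 2 = 4 := by rw [← real_inner_self_eq_norm_sq, hr]
    nlinarith [norm_nonneg r]
  refine ⟨?_, ?_, ?_, ?_, hr2⟩
  · rw [hx, inner_add_left, inner_add_right, inner_add_right, hr, real_inner_comm r v,
      real_inner_self_eq_norm_sq]
    ring
  · refine (abs_real_inner_le_norm r v).trans ?_
    rw [hr2]
    linarith
  · rw [hx]
    refine (norm_add_le _ _).trans ?_
    rw [hr2]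
    linarith
  · rw [real_inner_self_eq_norm_sq]
    nlinarith

lemma ofReal_sum_le {ι : Type} (s : Finset ι) (f : ι → ℝ) :
    ENNReal.ofReal (∑ i ∈ s, f i) ≤ ∑ i ∈ s, ENNReal.ofReal (f i) := by
  classical
  induction s using Finset.induction_on with
  | empty => simp
  | insert a s ha ih =>
    rw [Finset.sum_insert ha, Finset.sum_insert ha]
    exact ENNReal.ofReal_add_le.trans (add_le_add le_rfl ih)

lemma ofReal_two (CB CZ δ : ℝ) (hCB : 0 < CB) (hCZ : 0 < CZ) :
    ENNReal.ofReal (57600 * CB * δ ^ 2) + ENNReal.ofReal (CZ * δ ^ 2) =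
      ENNReal.ofReal ((57600 * CB + CZ) * δ ^ 2) := by
  rw [← ENNReal.ofReal_add (by positivity) (by positivity)]
  congr 1
  ring

lemma ofReal_three (CB CZ δ : ℝ) (hCB : 0 < CB) (hCZ : 0 < CZ) :
    0 ≤ (57600 * CB + CZ) * δ ^ 2 := by positivity

end VLBM

open VLBM VOLM in
theorem specVLB (hROT : SpecROT) (hSYM : SpecSYM) (hPVL : SpecPVL) (hBAD : SpecBAD)
    (hZBL : SpecZBL) : SpecVLB := by
  obtain ⟨CB, hCB, hB⟩ := hBAD
  obtain ⟨CZ, δZ, hCZ, hδZ, hZ⟩ := hZBL
  refine ⟨80 + 57600 * CB + CZ, min δZ (1 / 10), by positivity, by positivity, ?_⟩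
  intro δ X x hδ0 hδ hX h0X hx
  have hδ1 : δ ≤ 1 / 10 := hδ.trans (min_le_right _ _)
  have hδZ' : δ ≤ δZ := hδ.trans (min_le_left _ _)
  -- the neighbours
  have hx2 : ∀ r ∈ R, 2 ≤ ‖x r‖ := by
    intro r hr
    have h1 : x r ≠ 0 := by
      intro h
      have h2 := (hx r hr).2
      rw [h, zero_sub, norm_neg] at h2
      have h3 : ‖r‖ ^ 2 = 4 := by rw [← real_inner_self_eq_norm_sq, inner_R hr]
      nlinarith [norm_nonneg r]
    have h2 := hX (x r) (hx r hr).1 0 h0X h1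
    rwa [dist_zero_right] at h2
  have hfacts : ∀ r ∈ R, (inner ℝ (x r) (x r) : ℝ) =
      4 + 2 * inner ℝ r (x r - r) + ‖x r - r‖ ^ 2 ∧ |(inner ℝ r (x r - r) : ℝ)| ≤ 2 * δ ∧
      ‖x r‖ ≤ 2 + δ ∧ (4 : ℝ) ≤ inner ℝ (x r) (x r) ∧ ‖r‖ = 2 := fun r hr =>
    norm_facts (inner_R hr) (by abel) (hx r hr).2 (hx2 r hr)
  -- the pyramids
  set P : E → Set E := fun r => cone r ∩ {y : E | inner ℝ (x r) y ≤ (inner ℝ (x r) (x r) : ℝ) / 2}
    with hP
  have hPvol : ∀ r ∈ R, ENNReal.ofReal ((1 / 15) * (1 + 2 * inner ℝ r (x r - r) - 5 * δ ^ 2)) ≤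
      volume (P r) := by
    intro r hr
    obtain ⟨f1, f2, f3, f4, f5⟩ := hfacts r hr
    set N : ℝ := inner ℝ (x r) (x r) with hN
    set ρ : ℝ := inner ℝ r (x r - r) with hρ
    have hv := (hx r hr).2
    have hv0 := norm_nonneg (x r - r)
    have hN0 : (0 : ℝ) < N := by linarith
    have hNn : N = ‖x r‖ ^ 2 := by rw [hN, real_inner_self_eq_norm_sq]
    set a : E := (2 / N) • x r with ha
    have ha1 : ‖a - (1 / 2 : ℝ) • r‖ ≤ 1 / 4 := by
      have e : a - (1 / 2 : ℝ) • r = (2 / N - 1 / 2) • x r + (1 / 2 : ℝ) • (x r - r) := by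
        rw [ha]; module
      rw [e]
      refine (norm_add_le _ _).trans ?_
      rw [norm_smul, norm_smul, Real.norm_eq_abs, Real.norm_eq_abs, abs_of_pos (by norm_num : (0:ℝ) < 1 / 2)]
      have h1 : |2 / N - 1 / 2| = (N - 4) / (2 * N) := by
        rw [abs_sub_comm, abs_of_nonneg]
        · field_simp
          ring
        · rw [sub_nonneg, div_le_div_iff₀ hN0 (by norm_num)]
          linarith
      have h2 : (N - 4) / (2 * N) ≤ (4 * δ + δ ^ 2) / 8 := by
        rw [div_le_div_iff₀ (by positivity) (by norm_num)]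
        have h3 : N ≤ (2 + δ) ^ 2 := by
          rw [hNn]
          exact pow_le_pow_left₀ (norm_nonneg _) f3 2
        have h4 : 0 ≤ 4 * δ + δ ^ 2 := by positivity
        nlinarith
      rw [h1]
      have h5 : (N - 4) / (2 * N) * ‖x r‖ ≤ (4 * δ + δ ^ 2) / 8 * (2 + δ) :=
        mul_le_mul h2 f3 (norm_nonneg _) (by positivity)
      have h6 : (4 * δ + δ ^ 2) / 8 * (2 + δ) ≤ 11 / 100 := by
        have h7 : δ ^ 2 ≤ 1 / 100 := by nlinarith
        have h8 : (4 * δ + δ ^ 2) / 8 ≤ 41 / 800 := by linarith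
        have h9 : (4 * δ + δ ^ 2) / 8 * (2 + δ) ≤ 41 / 800 * (2 + 1 / 10) :=
          mul_le_mul h8 (by linarith) (by linarith) (by norm_num)
        linarith
      linarith
    have h1 := hPVL r hr a ha1
    have h2 : cone r ∩ {y : E | (inner ℝ a y : ℝ) ≤ 1} = P r := by
      rw [hP]
      ext y
      simp only [Set.mem_inter_iff, Set.mem_ofPred_eq, ha, real_inner_smul_left]
      refine and_congr_right fun _ => ?_
      rw [div_mul_eq_mul_div, div_le_one hN0]
      constructor <;> intro h <;> linarith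
    rw [h2] at h1
    refine le_trans (ENNReal.ofReal_le_ofReal ?_) h1
    have h3 : (inner ℝ r (a - (1 / 2 : ℝ) • r) : ℝ) = 2 * (4 + ρ) / N - 2 := by
      have h4 : (inner ℝ r (x r) : ℝ) = 4 + ρ := by
        rw [hρ, inner_sub_right, inner_R hr]; ring
      rw [inner_sub_right, ha, real_inner_smul_right, real_inner_smul_right, inner_R hr, h4]
      ring
    rw [h3]
    have h5 : -(4 * (2 * (4 + ρ) / N - 2)) = 8 * (ρ + ‖x r - r‖ ^ 2) / N := by
      rw [f1]
      have : (4 + 2 * ρ + ‖x r - r‖ ^ 2) ≠ 0 := by rw [← f1]; exact hN0.ne'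
      field_simp
      ring
    have h6 : 2 * ρ - 5 * δ ^ 2 ≤ 8 * (ρ + ‖x r - r‖ ^ 2) / N := by
      rw [le_div_iff₀ hN0]
      have h7 := abs_le.1 f2
      have h8 : ‖x r - r‖ ^ 2 ≤ δ ^ 2 := pow_le_pow_left₀ hv0 hv 2
      have h9 : ρ ^ 2 ≤ 4 * δ ^ 2 := by nlinarith
      have h10 : 0 ≤ ‖x r - r‖ ^ 2 := sq_nonneg _
      -- 2 ρ N = 8 ρ + 4 ρ^2 + 2 ρ V,   V = |v|^2
      have h11 : 2 * ρ * ‖x r - r‖ ^ 2 ≤ 4 * δ * δ ^ 2 := by
        have : ρ * ‖x r - r‖ ^ 2 ≤ 2 * δ * δ ^ 2 :=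
          mul_le_mul h7.2 h8 h10 (by positivity)
        linarith
      have h12 : 4 * δ * δ ^ 2 ≤ 4 * δ ^ 2 := by nlinarith [sq_nonneg δ]
      have h13 : 5 * δ ^ 2 * 4 ≤ 5 * δ ^ 2 * N := mul_le_mul_of_nonneg_left f4 (by positivity)
      have h14 : (2 * ρ - 5 * δ ^ 2) * N = 8 * ρ + 4 * ρ ^ 2 + 2 * ρ * ‖x r - r‖ ^ 2 -
          5 * δ ^ 2 * N := by
        conv_lhs => rw [sub_mul, f1]
        rw [f1]
        ring
      rw [h14]
      linarith
    linarith
  -- the bad sets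
  set Bd : E → E → Set E := fun r s => {y : E | ‖y‖ ≤ 2 ∧ |(inner ℝ y r : ℝ) - 2| ≤ 5 * δ ∧
    |(inner ℝ y s : ℝ) - 2| ≤ 5 * δ} with hBd
  set S : Finset (E × E) := (R ×ˢ R).filter fun q => q.1 ≠ q.2 ∧ q.2 ≠ -q.1 with hS
  have hcover : (⋃ r ∈ R, P r) ⊆ cell X 0 ∪ ((⋃ q ∈ S, Bd q.1 q.2) ∪ (cell1 x \ cell X 0)) := by
    intro y hy
    rw [Set.mem_iUnion₂] at hy
    obtain ⟨r, hr, hyc, hyr⟩ := hy
    by_cases h1 : y ∈ cell X 0
    · exact Or.inl h1
    right
    by_cases h2 : y ∈ cell1 x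
    · exact Or.inr ⟨h2, h1⟩
    left
    unfold cell1 at h2
    simp only [Set.mem_ofPred_eq, not_forall, not_le] at h2
    obtain ⟨s, hs, hys⟩ := h2
    obtain ⟨f1, f2, f3, f4, f5⟩ := hfacts r hr
    obtain ⟨g1, g2, g3, g4, g5⟩ := hfacts s hs
    simp only [Set.mem_ofPred_eq] at hyr
    obtain ⟨c1, c2⟩ := hSYM.cov r hr y hyc
    have hyr' : (inner ℝ r y : ℝ) ≤ inner ℝ (x r) y + δ * ‖y‖ := by
      have h3 : (inner ℝ r y : ℝ) = inner ℝ (x r) y - inner ℝ (x r - r) y := by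
        rw [inner_sub_left]; ring
      have h4 : |(inner ℝ (x r - r) y : ℝ)| ≤ δ * ‖y‖ :=
        (abs_real_inner_le_norm _ _).trans
          (mul_le_mul_of_nonneg_right (hx r hr).2 (norm_nonneg _))
      have h5 := abs_le.1 h4
      rw [h3]
      linarith [h5.1]
    have hN : (inner ℝ (x r) (x r) : ℝ) ≤ (2 + δ) ^ 2 := by
      rw [real_inner_self_eq_norm_sq]
      exact pow_le_pow_left₀ (norm_nonneg _) f3 2
    have hy0 := norm_nonneg y
    have hy2 : ‖y‖ ≤ 2 := by
      by_contra hcon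
      push Not at hcon
      have h3 : (inner ℝ r y : ℝ) ≤ 6 / 5 * ‖y‖ + 1 / 100 * ‖y‖ := by nlinarith
      have h4 : (inner ℝ r y : ℝ) ^ 2 ≤ (121 / 100 * ‖y‖) ^ 2 :=
        pow_le_pow_left₀ (hy0.trans c1) (by linarith) 2
      nlinarith
    have hry : (inner ℝ y r : ℝ) ≤ 2 + 5 * δ := by
      rw [real_inner_comm]
      nlinarith
    have hsy : 2 - 2 * δ ≤ (inner ℝ y s : ℝ) := by
      have h3 : (inner ℝ y s : ℝ) = inner ℝ y (x s) - inner ℝ y (x s - s) := by
        rw [inner_sub_right]; ring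
      have h4 : |(inner ℝ y (x s - s) : ℝ)| ≤ ‖y‖ * δ :=
        (abs_real_inner_le_norm _ _).trans (mul_le_mul_of_nonneg_left (hx s hs).2 hy0)
      have h5 := abs_le.1 h4
      rw [h3]
      nlinarith [h5.2]
    have hrs : (inner ℝ y s : ℝ) ≤ inner ℝ y r := hyc s hs
    refine Set.mem_biUnion (x := (r, s)) ?_ ?_
    · rw [hS, Finset.mem_coe, Finset.mem_filter, Finset.mem_product]
      refine ⟨⟨hr, hs⟩, ?_, ?_⟩
      · intro h3
        simp only at h3
        subst h3
        have h4 : (inner ℝ y (x r) : ℝ) = inner ℝ (x r) y := real_inner_comm _ _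
        linarith
      · simp only
        intro h3
        have h4 : (inner ℝ y s : ℝ) = -inner ℝ r y := by
          rw [h3, inner_neg_right, real_inner_comm]
        linarith
    · simp only [hBd, Set.mem_ofPred_eq, abs_le]
      refine ⟨hy2, ⟨?_, ?_⟩, ?_, ?_⟩ <;> linarith
  -- measures
  have hdisj : volume (⋃ r ∈ R, P r) = ∑ r ∈ R, volume (P r) := by
    refine measure_biUnion_finset₀ ?_ ?_
    · intro r hr s hs hrs
      have h1 : r - s ≠ 0 := sub_ne_zero.2 hrs
      refine measure_mono_null ?_ (null_hyper h1 0)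
      rintro y ⟨⟨hy1, -⟩, hy2, -⟩
      have h2 := hy1 s hs
      have h3 := hy2 r hr
      simp only [Set.mem_ofPred_eq, inner_sub_right]
      linarith
    · intro r _
      refine MeasurableSet.nullMeasurableSet ?_
      exact (meas_cone r).inter (measurableSet_le (by fun_prop) measurable_const)
  have hBdvol : volume (⋃ q ∈ S, Bd q.1 q.2) ≤ ENNReal.ofReal (57600 * CB * δ ^ 2) := by
    refine (measure_biUnion_finset_le _ _).trans ?_
    refine (Finset.sum_le_sum (g := fun _ => ENNReal.ofReal (CB * δ ^ 2)) fun q hq => ?_).trans ?_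
    · rw [hS, Finset.mem_filter, Finset.mem_product] at hq
      exact hB δ hδ0 (by linarith) q.1 hq.1.1 q.2 hq.1.2 hq.2.1 hq.2.2
    · rw [Finset.sum_const, nsmul_eq_mul]
      have h1 : S.card ≤ 57600 := by
        refine (Finset.card_filter_le _ _).trans ?_
        rw [Finset.card_product, hROT.k240.card]
      calc (S.card : ENNReal) * ENNReal.ofReal (CB * δ ^ 2)
          ≤ (57600 : ENNReal) * ENNReal.ofReal (CB * δ ^ 2) := by
            gcongr
            exact_mod_cast h1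
        _ = ENNReal.ofReal (57600 * CB * δ ^ 2) := by
            rw [show (57600 : ENNReal) = ENNReal.ofReal 57600 by simp, ← ENNReal.ofReal_mul (by norm_num)]
            congr 1
            ring
  have hZvol := hZ δ X x hδ0 hδZ' hX h0X hx
  have h1 : ENNReal.ofReal (16 + 2 / 15 * ∑ r ∈ R, (inner ℝ r (x r - r) : ℝ) - 80 * δ ^ 2) ≤
      volume (cell X 0) + ENNReal.ofReal ((57600 * CB + CZ) * δ ^ 2) := by
    have e1 : 16 + 2 / 15 * ∑ r ∈ R, (inner ℝ r (x r - r) : ℝ) - 80 * δ ^ 2 =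
        ∑ r ∈ R, (1 / 15) * (1 + 2 * inner ℝ r (x r - r) - 5 * δ ^ 2) := by
      rw [← Finset.mul_sum, Finset.sum_sub_distrib, Finset.sum_add_distrib, ← Finset.mul_sum,
        Finset.sum_const, Finset.sum_const, hROT.k240.card]
      simp only [nsmul_eq_mul]
      push_cast
      ring
    rw [e1]
    calc ENNReal.ofReal (∑ r ∈ R, (1 / 15) * (1 + 2 * inner ℝ r (x r - r) - 5 * δ ^ 2))
        ≤ ∑ r ∈ R, ENNReal.ofReal ((1 / 15) * (1 + 2 * inner ℝ r (x r - r) - 5 * δ ^ 2)) :=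
          ofReal_sum_le _ _
      _ ≤ ∑ r ∈ R, volume (P r) := Finset.sum_le_sum hPvol
      _ = volume (⋃ r ∈ R, P r) := hdisj.symm
      _ ≤ volume (cell X 0 ∪ ((⋃ q ∈ S, Bd q.1 q.2) ∪ (cell1 x \ cell X 0))) :=
          measure_mono hcover
      _ ≤ volume (cell X 0) + (volume (⋃ q ∈ S, Bd q.1 q.2) + volume (cell1 x \ cell X 0)) :=
          (measure_union_le _ _).trans (add_le_add le_rfl (measure_union_le _ _))
      _ ≤ volume (cell X 0) + (ENNReal.ofReal (57600 * CB * δ ^ 2) +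
            ENNReal.ofReal (CZ * δ ^ 2)) := by
          gcongr
      _ = volume (cell X 0) + ENNReal.ofReal ((57600 * CB + CZ) * δ ^ 2) := by
          rw [ofReal_two CB CZ δ hCB hCZ]
  have h2 : 16 + 2 / 15 * ∑ r ∈ R, (inner ℝ r (x r - r) : ℝ) - (80 + 57600 * CB + CZ) * δ ^ 2 =
      (16 + 2 / 15 * ∑ r ∈ R, (inner ℝ r (x r - r) : ℝ) - 80 * δ ^ 2) -
        (57600 * CB + CZ) * δ ^ 2 := by ring
  rw [h2, ENNReal.ofReal_sub _ (ofReal_three CB CZ δ hCB hCZ), tsub_le_iff_right]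
  exact h1

end Pool.Agent.Lib.MP_f1379f_gt.EV
end
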