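import Pool.Agent.Lib.MP_f1379f_gt.EV.Spec
import Pool.Agent.Lib.MP_f1379f_gt.EV.VLB

/-!
# CLS: uniqueness of the kissing configuration
-/

set_option autoImplicit false

namespace Pool.Agent.Lib.MP_f1379f_gt.EV

namespace CLSM

open ROTM

/-- The vector with coordinates `n` in the basis `u`. -/
noncomputable def U (u : Fin 8 → E) (n : Fin 8 → ℤ) : E := ∑ i, (n i : ℝ) • u i

lemma inner_U {u : Fin 8 → E} (hu : Orthonormal ℝ u) (n : Fin 8 → ℤ) (i : Fin 8) :
    inner ℝ (u i) (U u n) = (n i : ℝ) := by
  unfold U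
  rw [hu.inner_right_sum _ (Finset.mem_univ i)]

lemma inner_UU {u : Fin 8 → E} (hu : Orthonormal ℝ u) (m n : Fin 8 → ℤ) :
    inner ℝ (U u m) (U u n) = ((∑ i, m i * n i : ℤ) : ℝ) := by
  conv_lhs => rw [U]
  rw [sum_inner]
  push_cast
  apply Finset.sum_congr rfl
  intro i _
  rw [real_inner_smul_left, inner_U hu]

lemma U_inj {u : Fin 8 → E} (hu : Orthonormal ℝ u) : Function.Injective (U u) := by
  intro m n h
  funext i
  have h1 := inner_U hu m i
  rw [h, inner_U hu] at h1
  exact_mod_cast h1.symm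

lemma U_sub (u : Fin 8 → E) (m n : Fin 8 → ℤ) : U u (m - n) = U u m - U u n := by
  unfold U
  rw [← Finset.sum_sub_distrib]
  apply Finset.sum_congr rfl
  intro i _
  rw [Pi.sub_apply, Int.cast_sub, sub_smul]

lemma frame {x : Fin 8 → E} (h4 : ∀ i, inner ℝ (x i) (x i) = (4 : ℝ))
    (h0 : ∀ i j, i ≠ j → inner ℝ (x i) (x j) = (0 : ℝ)) :
    Orthonormal ℝ (fun i => (1 / 2 : ℝ) • x i) := by
  rw [orthonormal_iff_ite]
  intro i j
  rw [real_inner_smul_left, real_inner_smul_right]
  split_ifs with h
  · subst h; rw [h4]; norm_num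
  · rw [h0 i j h]; norm_num

lemma obasis {u : Fin 8 → E} (hu : Orthonormal ℝ u) :
    ∃ b : OrthonormalBasis (Fin 8) ℝ E, ∀ i, b i = u i := by
  have h1 : Orthonormal ℝ ((Set.univ : Set (Fin 8)).domRestrict u) := by
    have := hu.comp (fun i : (Set.univ : Set (Fin 8)) => (i : Fin 8)) Subtype.val_injective
    exact this
  obtain ⟨b, hb⟩ := h1.exists_orthonormalBasis_extension_of_card_eq (by simp)
  exact ⟨b, fun i => hb i (Set.mem_univ i)⟩

/-- the support -/
def supp (n : Fin 8 → ℤ) : Finset (Fin 8) := Finset.univ.filter fun i => n i ≠ 0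

lemma coord (hLPI : SpecLPI) {Y : Finset E} (hY : K240 Y) {x : Fin 8 → E} (hx : ∀ i, x i ∈ Y)
    (hu : Orthonormal ℝ (fun i => (1 / 2 : ℝ) • x i)) {y : E} (hy : y ∈ Y) :
    ∃ n : Fin 8 → ℤ, U (fun i => (1 / 2 : ℝ) • x i) n = y := by
  obtain ⟨b, hb⟩ := obasis hu
  have h1 : ∀ i, ∃ n : ℤ, inner ℝ ((1 / 2 : ℝ) • x i) y = (n : ℝ) := by
    intro i
    rw [real_inner_smul_left]
    rcases (hLPI Y hY).1 (x i) (hx i) y hy with h | h | h | h | h <;> rw [h]
    · exact ⟨2, by norm_num⟩
    · exact ⟨1, by norm_num⟩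
    · exact ⟨0, by norm_num⟩
    · exact ⟨-1, by norm_num⟩
    · exact ⟨-2, by norm_num⟩
  choose n hn using h1
  refine ⟨n, ?_⟩
  rw [← b.sum_repr' y]
  unfold U
  apply Finset.sum_congr rfl
  intro i _
  rw [hb, hn]

lemma flip {Y : Finset E} (hCLO : SpecCLO) (hY : K240 Y) {x : Fin 8 → E} (hx : ∀ i, x i ∈ Y)
    (hu : Orthonormal ℝ (fun i => (1 / 2 : ℝ) • x i)) (n : Fin 8 → ℤ)
    (hn : U (fun i => (1 / 2 : ℝ) • x i) n ∈ Y) (i : Fin 8) :
    U (fun i => (1 / 2 : ℝ) • x i) (Function.update n i (- n i)) ∈ Y := by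
  have h1 := hCLO.refl Y hY _ hn (x i) (hx i)
  have h2 : U (fun i => (1 / 2 : ℝ) • x i) (Function.update n i (- n i)) =
      U (fun i => (1 / 2 : ℝ) • x i) n -
        ((inner ℝ (U (fun i => (1 / 2 : ℝ) • x i) n) (x i) : ℝ) / 2) • x i := by
    have h3 : (inner ℝ (U (fun i => (1 / 2 : ℝ) • x i) n) (x i) : ℝ) = 2 * n i := by
      have h4 := inner_U hu n i
      simp only [real_inner_smul_left] at h4
      rw [real_inner_comm]
      linarith
    have h5 : Function.update n i (- n i) = n - Pi.single i (2 * n i) := by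
      funext j
      by_cases hj : j = i
      · subst hj; simp; ring
      · simp [hj]
    rw [h5, U_sub, h3]
    congr 1
    unfold U
    rw [Finset.sum_eq_single i (fun j _ hj => by simp [hj])
      (fun h => absurd (Finset.mem_univ _) h)]
    simp only [Pi.single_eq_same, smul_smul]
    congr 1
    push_cast
    ring
  rw [h2]; exact h1

lemma signs {Y : Finset E} (hCLO : SpecCLO) (hY : K240 Y) {x : Fin 8 → E} (hx : ∀ i, x i ∈ Y)
    (hu : Orthonormal ℝ (fun i => (1 / 2 : ℝ) • x i)) (n m : Fin 8 → ℤ)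
    (hn : U (fun i => (1 / 2 : ℝ) • x i) n ∈ Y) (hm : ∀ i, m i = n i ∨ m i = - n i) :
    U (fun i => (1 / 2 : ℝ) • x i) m ∈ Y := by
  have key : ∀ s : Finset (Fin 8), U (fun i => (1 / 2 : ℝ) • x i)
      (fun i => if i ∈ s then m i else n i) ∈ Y := by
    intro s
    induction s using Finset.induction_on with
    | empty => simpa using hn
    | insert a s ha ih =>
      rcases hm a with h | h
      · have e : (fun i => if i ∈ insert a s then m i else n i) =
            fun i => if i ∈ s then m i else n i := by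
          funext i
          by_cases hi : i = a
          · subst hi; simp [ha, h]
          · simp [hi]
        rw [e]; exact ih
      · have e : (fun i => if i ∈ insert a s then m i else n i) =
            Function.update (fun i => if i ∈ s then m i else n i) a
              (- (fun i => if i ∈ s then m i else n i) a) := by
          funext i
          by_cases hi : i = a
          · subst hi; simp [ha, h]
          · simp [hi]
        rw [e]; exact flip hCLO hY hx hu _ ih a
  have := key Finset.univ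
  simpa using this

end CLSM

open CLSM ROTM in
theorem specCLS (hLPI : SpecLPI) (hCLO : SpecCLO) (hFRM : SpecFRM) (hHAM : SpecHAM) :
    SpecCLS := by
  classical
  intro Y hY
  obtain ⟨x, hx, hx0⟩ := hFRM Y hY
  have hu := frame (fun i => hY.kiss.nrm _ (hx i)) hx0
  set u : Fin 8 → E := fun i => (1 / 2 : ℝ) • x i with hud
  choose! co hco using fun (y : E) (hy : y ∈ Y) => coord hLPI hY hx hu hy
  let N : Finset (Fin 8 → ℤ) := Y.image co
  have hN : ∀ n, n ∈ N ↔ U u n ∈ Y := by
    intro n
    simp only [N, Finset.mem_image]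
    constructor
    · rintro ⟨y, hy, rfl⟩
      rw [hco y hy]; exact hy
    · intro h
      exact ⟨_, h, U_inj hu (hco _ h)⟩
  have hNc : N.card = 240 := by
    rw [← hY.card]
    apply Finset.card_image_of_injOn
    intro y hy z hz h
    rw [← hco y hy, ← hco z hz, h]
  have hsq : ∀ n ∈ N, ∑ i, n i ^ 2 = 4 := by
    intro n hn
    have h1 := hY.kiss.nrm _ ((hN n).1 hn)
    rw [inner_UU hu] at h1
    have h2 : (∑ i, n i * n i : ℤ) = 4 := by exact_mod_cast h1
    rw [← h2]; exact Finset.sum_congr rfl fun i _ => by ring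
  -- the vectors `2 e_i`
  have hS1 : ∀ n ∈ S1, n ∈ N := by
    intro n hn
    rw [memS1] at hn
    obtain ⟨i, hi, hj⟩ := hn
    rw [hN]
    have h1 : U u n = ((n i : ℝ) / 2) • x i := by
      unfold U
      rw [Finset.sum_eq_single i (fun j _ hne => by rw [hj j hne]; simp)
        (fun h => absurd (Finset.mem_univ _) h), hud, smul_smul]
      congr 1; ring
    rcases hi with h | h
    · rw [h1, h]
      have : (((2 : ℤ) : ℝ) / 2) = 1 := by norm_num
      rw [this, one_smul]; exact hx i
    · rw [h1, h]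
      have : (((-2 : ℤ) : ℝ) / 2) = -1 := by norm_num
      rw [this, neg_smul, one_smul]; exact hCLO.neg Y hY _ (hx i)
  -- the blocks
  let C : Finset (Finset (Fin 8)) := (N.filter fun n => (supp n).card = 4).image supp
  have hsN : ∀ n ∈ N, ∀ m : Fin 8 → ℤ, (∀ i, m i = n i ∨ m i = - n i) → m ∈ N := by
    intro n hn m hm
    rw [hN] at hn ⊢
    exact signs hCLO hY hx hu n m hn hm
  have hsize : ∀ n ∈ N, ∀ i, |n i| ≤ 2 := by
    intro n hn i
    have h1 : n i ^ 2 ≤ 4 := by
      rw [← hsq n hn]
      exact Finset.single_le_sum (f := fun i => n i ^ 2) (fun i _ => sq_nonneg _)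
        (Finset.mem_univ i)
    rw [abs_le]
    constructor <;> nlinarith
  have hcase : ∀ n ∈ N, n ∉ S1 → ∀ i, n i ≠ 0 → n i = 1 ∨ n i = -1 := by
    intro n hn hn1 i hi
    by_contra hne
    push Not at hne
    apply hn1
    rw [memS1]
    have h1 := abs_le.1 (hsize n hn i)
    refine ⟨i, by omega, fun j hj => ?_⟩
    by_contra hj0
    have h2 : n j ^ 2 + n i ^ 2 ≤ 4 := by
      rw [← hsq n hn, ← Finset.sum_pair (f := fun i => n i ^ 2) hj]
      exact Finset.sum_le_sum_of_subset_of_nonneg (Finset.subset_univ _)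
        (fun i _ _ => sq_nonneg _)
    have h3 : 0 < n j ^ 2 := by positivity
    have h4 : n i ^ 2 = 4 := by
      have h5 : n i = 2 ∨ n i = -2 := by omega
      rcases h5 with h | h <;> rw [h] <;> norm_num
    omega
  have hsupp : ∀ n ∈ N, n ∉ S1 → (supp n).card = 4 := by
    intro n hn hn1
    have h1 := hsq n hn
    have h2 : ∑ i, n i ^ 2 = ((supp n).card : ℤ) := by
      unfold supp
      rw [Finset.card_filter]
      push_cast
      apply Finset.sum_congr rfl
      intro i _
      by_cases hi : n i = 0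
      · simp [hi]
      · rw [if_pos hi]
        rcases hcase n hn hn1 i hi with h | h <;> rw [h] <;> norm_num
    rw [h1] at h2
    exact_mod_cast h2.symm
  have hns1 : ∀ n, (supp n).card = 4 → n ∉ S1 := by
    intro n h4 h
    rw [memS1] at h
    obtain ⟨i, -, hj⟩ := h
    have h1 : supp n ⊆ {i} := by
      intro j hj'
      simp only [supp, Finset.mem_filter, Finset.mem_univ, true_and] at hj'
      rw [Finset.mem_singleton]
      by_contra hne
      exact hj' (hj j hne)
    have := Finset.card_le_card h1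
    rw [h4, Finset.card_singleton] at this
    omega
  have hC4 : ∀ c ∈ C, c.card = 4 := by
    intro c hc
    simp only [C, Finset.mem_image, Finset.mem_filter] at hc
    obtain ⟨n, ⟨_, h⟩, rfl⟩ := hc
    exact h
  -- all sign vectors on blocks
  have hCN : ∀ c ∈ C, ∀ m : Fin 8 → ℤ, (∀ i ∈ c, m i = 1 ∨ m i = -1) → (∀ i, i ∉ c → m i = 0) →
      m ∈ N := by
    intro c hc m h1 h2
    simp only [C, Finset.mem_image, Finset.mem_filter] at hc
    obtain ⟨n, ⟨hn, h4⟩, rfl⟩ := hc
    apply hsN n hn
    intro i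
    by_cases hi : n i = 0
    · left
      rw [hi]
      apply h2
      simp [supp, hi]
    · have h5 := hcase n hn (hns1 n h4) i hi
      have h6 := h1 i (by simp [supp, hi])
      rcases h5 with h | h <;> rcases h6 with h' | h' <;> rw [h, h'] <;> simp
  have hNS : N = S1 ∪ S2 C := by
    ext n
    rw [Finset.mem_union]
    constructor
    · intro hn
      by_cases h1 : n ∈ S1
      · exact Or.inl h1
      · right
        rw [memS2]
        refine ⟨supp n, ?_, fun i hi => ?_, fun i hi => ?_⟩
        · simp only [C, Finset.mem_image, Finset.mem_filter]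
          exact ⟨n, ⟨hn, hsupp n hn h1⟩, rfl⟩
        · simp only [supp, Finset.mem_filter, Finset.mem_univ, true_and] at hi
          exact hcase n hn h1 i hi
        · simpa [supp] using hi
    · rintro (h | h)
      · exact hS1 n h
      · rw [memS2] at h
        obtain ⟨c, hc, h1, h2⟩ := h
        exact hCN c hc n h1 h2
  have hC : C.card = 14 := by
    have h1 := cardS C hC4
    rw [← hNS, hNc] at h1
    omega
  let ind : Finset (Fin 8) → Fin 8 → ℤ := fun c i => if i ∈ c then 1 else 0
  have hind : ∀ c ∈ C, ind c ∈ N := by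
    intro c hc
    apply hCN c hc
    · intro i hi; left; simp [ind, hi]
    · intro i hi; simp [ind, hi]
  have hinn : ∀ c d : Finset (Fin 8), ∑ i, ind c i * ind d i = ((c ∩ d).card : ℤ) := by
    intro c d
    simp only [ind]
    have e : ∀ i : Fin 8, (if i ∈ c then (1 : ℤ) else 0) * (if i ∈ d then 1 else 0) =
        if i ∈ c ∩ d then 1 else 0 := by
      intro i
      by_cases h1 : i ∈ c <;> by_cases h2 : i ∈ d <;> simp [h1, h2]
    rw [Finset.sum_congr rfl (fun i _ => e i), Finset.sum_ite_mem, Finset.univ_inter,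
      Finset.sum_const]
    simp
  have hI : ∀ c ∈ C, ∀ d ∈ C, c ≠ d → (c ∩ d).card = 0 ∨ (c ∩ d).card = 2 := by
    intro c hc d hd hne
    have h1 := (hLPI Y hY).1 _ ((hN _).1 (hind c hc)) _ ((hN _).1 (hind d hd))
    rw [inner_UU hu, hinn] at h1
    have h2 : ((c ∩ d).card : ℤ) = 4 ∨ ((c ∩ d).card : ℤ) = 2 ∨ ((c ∩ d).card : ℤ) = 0 ∨
        ((c ∩ d).card : ℤ) = -2 ∨ ((c ∩ d).card : ℤ) = -4 := by
      rcases h1 with h | h | h | h | h
      · left; exact_mod_cast h
      · right; left; exact_mod_cast h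
      · right; right; left; exact_mod_cast h
      · right; right; right; left; exact_mod_cast h
      · right; right; right; right; exact_mod_cast h
    have h3 : (c ∩ d).card ≠ 4 := by
      intro h
      apply hne
      have h5 : c ∩ d = c := Finset.eq_of_subset_of_card_le Finset.inter_subset_left
        (by rw [h, hC4 c hc])
      have h6 : c ∩ d = d := Finset.eq_of_subset_of_card_le Finset.inter_subset_right
        (by rw [h, hC4 d hd])
      rw [← h5, h6]
    omega
  have hSy : ∀ c ∈ C, ∀ d ∈ C, (c ∩ d).card = 2 → symmDiff c d ∈ C := by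
    intro c hc d hd h2
    have h1 : inner ℝ (U u (ind c)) (U u (ind d)) = (2 : ℝ) := by
      rw [inner_UU hu, hinn, h2]; norm_num
    have h3 := hCLO.sub Y hY _ ((hN _).1 (hind c hc)) _ ((hN _).1 (hind d hd)) h1
    rw [← U_sub, ← hN] at h3
    have h4 : supp (ind c - ind d) = symmDiff c d := by
      ext i
      simp only [supp, Finset.mem_filter, Finset.mem_univ, true_and, Finset.mem_symmDiff,
        Pi.sub_apply, ind]
      by_cases h1 : i ∈ c <;> by_cases h2 : i ∈ d <;> simp [h1, h2]
    have h5 : (symmDiff c d).card = 4 := by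
      have e : symmDiff c d = (c \ d) ∪ (d \ c) := rfl
      have h6 := Finset.card_sdiff_add_card_inter c d
      have h7 := Finset.card_sdiff_add_card_inter d c
      rw [Finset.inter_comm d c] at h7
      rw [e, Finset.card_union_of_disjoint (by
        rw [Finset.disjoint_left]; intro i h1 h2
        rw [Finset.mem_sdiff] at h1 h2
        exact h1.2 h2.1)]
      rw [hC4 c hc] at h6
      rw [hC4 d hd] at h7
      omega
    simp only [C, Finset.mem_image, Finset.mem_filter]
    exact ⟨_, ⟨h3, by rw [h4, h5]⟩, h4⟩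
  obtain ⟨π, hπ⟩ := hHAM C hC4 hC hI hSy
  -- the isometry
  obtain ⟨b, hb⟩ := obasis hu
  let A : E ≃ₗᵢ[ℝ] E := (EuclideanSpace.basisFun (Fin 8) ℝ).equiv b π
  have hA : ∀ n : Fin 8 → ℤ, A (vec n) = U u (fun i => n (π.symm i)) := by
    intro n
    have h1 : vec n = ∑ i, (n i : ℝ) • EuclideanSpace.basisFun (Fin 8) ℝ i := by
      ext j
      simp [vec, Finset.sum_apply, Pi.single_apply]
    rw [h1, map_sum]
    unfold U
    rw [← Equiv.sum_comp π (fun i => ((n (π.symm i) : ℤ) : ℝ) • u i)]
    apply Finset.sum_congr rfl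
    intro i _
    rw [map_smul]
    simp only [A, OrthonormalBasis.equiv_apply_basis, hb, Equiv.symm_apply_apply]
  have hAR : ∀ r ∈ R, A r ∈ Y := by
    intro r hr
    unfold R at hr
    rw [Finset.mem_image] at hr
    obtain ⟨n, hn, rfl⟩ := hr
    rw [hA, ← hN]
    rw [cases] at hn
    rcases hn with ⟨i, hi, hj⟩ | ⟨w, hw, h1, h2⟩
    · apply hS1
      rw [memS1]
      refine ⟨π i, by simpa using hi, fun j hne => ?_⟩
      apply hj
      intro h
      apply hne
      rw [← h]; simp
    · apply hCN _ (hπ w hw)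
      · intro i hi
        rw [Finset.mem_map] at hi
        obtain ⟨k, hk, rfl⟩ := hi
        simpa using h1 k hk
      · intro i hi
        apply h2
        intro h
        apply hi
        rw [Finset.mem_map]
        exact ⟨_, h, by simp⟩
  have himg : R.image A = Y := by
    apply Finset.eq_of_subset_of_card_le
    · intro y hy
      rw [Finset.mem_image] at hy
      obtain ⟨r, hr, rfl⟩ := hy
      exact hAR r hr
    · rw [hY.card, Finset.card_image_of_injective _ A.injective, specROT.k240.card]
  refine ⟨A, fun y => ?_⟩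
  rw [← himg, Finset.mem_image]

end Pool.Agent.Lib.MP_f1379f_gt.EV
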