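import Pool.Agent.Lib.MP_f1379f_gt.EV.Spec

/-!
# Module FRM: a K240 contains an orthogonal frame
-/

set_option autoImplicit false

namespace Pool.Agent.Lib.MP_f1379f_gt.EV

namespace FRMM

open Finset
open scoped Classical

/-- Pairwise orthogonal subset of `Y`. -/
structure Orth (Y F : Finset E) : Prop where
  sub : F ⊆ Y
  nrm : ∀ x ∈ F, inner ℝ x x = (4 : ℝ)
  ort : ∀ x ∈ F, ∀ x' ∈ F, x ≠ x' → inner ℝ x x' = (0 : ℝ)

/-- The squared norm of the projection. -/
noncomputable def M (F : Finset E) (y : E) : ℝ := ∑ x ∈ F, (inner ℝ x y : ℝ) ^ 2 / 4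

/-- The projection. -/
noncomputable def pj (F : Finset E) (y : E) : E := ∑ x ∈ F, ((inner ℝ x y : ℝ) / 4) • x

variable {Y F : Finset E}

lemma inner_comb (h : Orth Y F) (c : E → ℝ) {x : E} (hx : x ∈ F) :
    (inner ℝ x (∑ x' ∈ F, c x' • x') : ℝ) = 4 * c x := by
  rw [inner_sum, Finset.sum_eq_single x]
  · rw [inner_smul_right, h.nrm x hx]
    ring
  · intro x' hx' hne
    rw [inner_smul_right, h.ort x hx x' hx' hne.symm, mul_zero]
  · intro h0
    exact absurd hx h0

lemma inner_pj (h : Orth Y F) (y : E) {x : E} (hx : x ∈ F) :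
    (inner ℝ x (pj F y) : ℝ) = inner ℝ x y := by
  unfold pj
  rw [inner_comb h (fun x => (inner ℝ x y : ℝ) / 4) hx]
  ring

lemma inner_pj_right (z y : E) :
    (inner ℝ z (pj F y) : ℝ) = ∑ x ∈ F, (inner ℝ x y : ℝ) / 4 * inner ℝ x z := by
  unfold pj
  rw [inner_sum]
  apply Finset.sum_congr rfl
  intro x _
  rw [inner_smul_right, real_inner_comm x z]

lemma inner_y_pj (y : E) : (inner ℝ y (pj F y) : ℝ) = M F y := by
  rw [inner_pj_right]
  unfold M
  apply Finset.sum_congr rfl
  intro x _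
  ring

lemma inner_pj_pj (h : Orth Y F) (y : E) : (inner ℝ (pj F y) (pj F y) : ℝ) = M F y := by
  rw [inner_pj_right]
  unfold M
  apply Finset.sum_congr rfl
  intro x hx
  rw [inner_pj h y hx]
  ring

lemma diff_sq (h : Orth Y F) (y : E) :
    (inner ℝ (y - pj F y) (y - pj F y) : ℝ) = inner ℝ y y - M F y := by
  rw [inner_sub_left, inner_sub_right, inner_sub_right, inner_y_pj, inner_pj_pj h,
    real_inner_comm y (pj F y), inner_y_pj]
  ring

lemma bessel (h : Orth Y F) (y : E) : M F y ≤ inner ℝ y y := by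
  have h1 : (0 : ℝ) ≤ inner ℝ (y - pj F y) (y - pj F y) := real_inner_self_nonneg
  rw [diff_sq h] at h1
  linarith

lemma eq_pj (h : Orth Y F) {y : E} (hy : M F y = inner ℝ y y) : y = pj F y := by
  have h1 : (inner ℝ (y - pj F y) (y - pj F y) : ℝ) = 0 := by
    rw [diff_sq h, hy, sub_self]
  have h2 := inner_self_eq_zero.1 h1
  exact sub_eq_zero.1 h2

/-- Two vectors in the span with the same products are equal. -/
lemma ext_pj (h : Orth Y F) {y z : E} (hy : M F y = inner ℝ y y) (hz : M F z = inner ℝ z z)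
    (he : ∀ x ∈ F, (inner ℝ x y : ℝ) = inner ℝ x z) : y = z := by
  rw [eq_pj h hy, eq_pj h hz]
  unfold pj
  apply Finset.sum_congr rfl
  intro x hx
  rw [he x hx]

/-! ### The values of `M` -/

lemma Mnat (hL : SpecLPI) (hK : K240 Y) (h : Orth Y F) {y : E} (hy : y ∈ Y) :
    ∃ n : ℕ, n ≤ 4 ∧ M F y = n := by
  have h1 : ∀ x ∈ F, ∃ n : ℕ, (inner ℝ x y : ℝ) ^ 2 / 4 = n := by
    intro x hx
    rcases (hL Y hK).1 x (h.sub hx) y hy with h0 | h0 | h0 | h0 | h0 <;> rw [h0]
    · exact ⟨4, by norm_num⟩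
    · exact ⟨1, by norm_num⟩
    · exact ⟨0, by norm_num⟩
    · exact ⟨1, by norm_num⟩
    · exact ⟨4, by norm_num⟩
  choose! g hg using h1
  have h2 : M F y = ((∑ x ∈ F, g x : ℕ) : ℝ) := by
    unfold M
    push_cast
    exact Finset.sum_congr rfl hg
  refine ⟨∑ x ∈ F, g x, ?_, h2⟩
  have h3 := bessel h y
  rw [hK.kiss.nrm y hy, h2] at h3
  exact_mod_cast h3

lemma M_zero_iff (y : E) : M F y = 0 ↔ ∀ x ∈ F, (inner ℝ x y : ℝ) = 0 := by
  unfold M
  rw [Finset.sum_eq_zero_iff_of_nonneg (fun x _ => by positivity)]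
  constructor
  · intro h x hx
    have := h x hx
    have h2 : (inner ℝ x y : ℝ) ^ 2 = 0 := by linarith
    exact pow_eq_zero_iff (by norm_num) |>.1 h2
  · intro h x hx
    rw [h x hx]
    norm_num

lemma sumP (hL : SpecLPI) (hK : K240 Y) (h : Orth Y F) :
    ∑ y ∈ Y, -((M F y - 1) * (M F y - 2) * (M F y - 3)) / 6 =
      ((Y.filter fun y => M F y = 0).card : ℝ) - ((Y.filter fun y => M F y = 4).card : ℝ) := by
  have h1 : ∀ y ∈ Y, -((M F y - 1) * (M F y - 2) * (M F y - 3)) / 6 =
      (if M F y = 0 then (1 : ℝ) else 0) - (if M F y = 4 then (1 : ℝ) else 0) := by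
    intro y hy
    obtain ⟨n, hn, hM⟩ := Mnat hL hK h hy
    rw [hM]
    interval_cases n <;> norm_num
  rw [Finset.sum_congr rfl h1, Finset.sum_sub_distrib]
  simp

/-! ### Moments -/

lemma sum_sq (h : Orth Y F) {x : E} (hx : x ∈ F) :
    ∑ x' ∈ F, (inner ℝ x x' : ℝ) ^ 2 = 16 := by
  rw [Finset.sum_eq_single x]
  · rw [h.nrm x hx]
    norm_num
  · intro x' hx' hne
    rw [h.ort x hx x' hx' hne.symm]
    norm_num
  · intro h0
    exact absurd hx h0

lemma m1 (hM : SpecMOM) (hK : K240 Y) (h : Orth Y F) :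
    ∑ y ∈ Y, M F y = 120 * (F.card : ℝ) := by
  unfold M
  rw [Finset.sum_comm]
  have : ∀ x ∈ F, ∑ y ∈ Y, (inner ℝ x y : ℝ) ^ 2 / 4 = 120 := by
    intro x hx
    rw [← Finset.sum_div, (hM Y hK x).2.1, h.nrm x hx]
    norm_num
  rw [Finset.sum_congr rfl this, Finset.sum_const, nsmul_eq_mul]
  ring

lemma m2 (hP : SpecPOL) (hK : K240 Y) (h : Orth Y F) :
    ∑ y ∈ Y, M F y ^ 2 = 48 * (F.card : ℝ) ^ 2 + 96 * (F.card : ℝ) := by
  have h1 : ∀ y ∈ Y, M F y ^ 2 =
      ∑ a ∈ F, ∑ b ∈ F, (inner ℝ a y : ℝ) ^ 2 * inner ℝ b y ^ 2 / 16 := by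
    intro y _
    rw [pow_two]
    unfold M
    rw [Finset.sum_mul_sum]
    refine Finset.sum_congr rfl fun a _ => Finset.sum_congr rfl fun b _ => ?_
    ring
  rw [Finset.sum_congr rfl h1, Finset.sum_comm]
  have h2 : ∀ a ∈ F, ∑ y ∈ Y, ∑ b ∈ F, (inner ℝ a y : ℝ) ^ 2 * inner ℝ b y ^ 2 / 16 =
      48 * (F.card : ℝ) + 96 := by
    intro a ha
    rw [Finset.sum_comm]
    have h3 : ∀ b ∈ F, ∑ y ∈ Y, (inner ℝ a y : ℝ) ^ 2 * inner ℝ b y ^ 2 / 16 =
        48 + 6 * (inner ℝ a b : ℝ) ^ 2 := by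
      intro b hb
      rw [← Finset.sum_div, hP.m22 Y hK a b, h.nrm a ha, h.nrm b hb]
      ring
    rw [Finset.sum_congr rfl h3, Finset.sum_add_distrib, ← Finset.mul_sum, sum_sq h ha,
      Finset.sum_const, nsmul_eq_mul]
    ring
  rw [Finset.sum_congr rfl h2, Finset.sum_const, nsmul_eq_mul]
  ring

lemma m3 (hP : SpecPOL) (hK : K240 Y) (h : Orth Y F) :
    ∑ y ∈ Y, M F y ^ 3 = 16 * (F.card : ℝ) ^ 3 + 96 * (F.card : ℝ) ^ 2 + 128 * (F.card : ℝ) := by
  have h1 : ∀ y ∈ Y, M F y ^ 3 =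
      ∑ a ∈ F, ∑ b ∈ F, ∑ c ∈ F,
        (inner ℝ a y : ℝ) ^ 2 * (inner ℝ b y ^ 2 * inner ℝ c y ^ 2) / 64 := by
    intro y _
    rw [pow_three]
    unfold M
    rw [Finset.sum_mul_sum, Finset.sum_mul_sum]
    refine Finset.sum_congr rfl fun a _ => ?_
    refine Finset.sum_congr rfl fun b _ => ?_
    rw [Finset.mul_sum]
    refine Finset.sum_congr rfl fun c _ => ?_
    ring
  rw [Finset.sum_congr rfl h1, Finset.sum_comm]
  have h2 : ∀ a ∈ F, ∑ y ∈ Y, ∑ b ∈ F, ∑ c ∈ F,
      (inner ℝ a y : ℝ) ^ 2 * (inner ℝ b y ^ 2 * inner ℝ c y ^ 2) / 64 =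
      16 * (F.card : ℝ) ^ 2 + 96 * (F.card : ℝ) + 128 := by
    intro a ha
    rw [Finset.sum_comm]
    have h3 : ∀ b ∈ F, ∑ y ∈ Y, ∑ c ∈ F,
        (inner ℝ a y : ℝ) ^ 2 * (inner ℝ b y ^ 2 * inner ℝ c y ^ 2) / 64 =
        16 * (F.card : ℝ) + 64 + (2 * (F.card : ℝ) + 8) * (inner ℝ a b : ℝ) ^ 2 := by
      intro b hb
      rw [Finset.sum_comm]
      have h4 : ∀ c ∈ F, ∑ y ∈ Y,
          (inner ℝ a y : ℝ) ^ 2 * (inner ℝ b y ^ 2 * inner ℝ c y ^ 2) / 64 =
          16 + 2 * (inner ℝ b c : ℝ) ^ 2 + 2 * (inner ℝ a c : ℝ) ^ 2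
            + 2 * (inner ℝ a b : ℝ) ^ 2
            + 2 * (inner ℝ a b : ℝ) * (inner ℝ b c * inner ℝ a c) := by
        intro c hc
        rw [← Finset.sum_div, hP.m222 Y hK a b c, h.nrm a ha, h.nrm b hb, h.nrm c hc]
        ring
      rw [Finset.sum_congr rfl h4]
      have h5 : ∑ c ∈ F, 2 * (inner ℝ a b : ℝ) * (inner ℝ b c * inner ℝ a c) =
          8 * (inner ℝ a b : ℝ) ^ 2 := by
        rw [Finset.sum_eq_single b]
        · rw [h.nrm b hb]
          ring
        · intro c hc hne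
          rw [h.ort b hb c hc hne.symm]
          ring
        · intro h0
          exact absurd hb h0
      rw [Finset.sum_add_distrib, Finset.sum_add_distrib, Finset.sum_add_distrib,
        Finset.sum_add_distrib, ← Finset.mul_sum, ← Finset.mul_sum, sum_sq h ha, sum_sq h hb, h5,
        Finset.sum_const, Finset.sum_const, nsmul_eq_mul, nsmul_eq_mul]
      ring
    rw [Finset.sum_congr rfl h3, Finset.sum_add_distrib, ← Finset.mul_sum, sum_sq h ha,
      Finset.sum_const, nsmul_eq_mul]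
    ring
  rw [Finset.sum_congr rfl h2, Finset.sum_const, nsmul_eq_mul]
  ring

lemma count (hM : SpecMOM) (hP : SpecPOL) (hL : SpecLPI) (hK : K240 Y) (h : Orth Y F) :
    ((Y.filter fun y => M F y = 0).card : ℝ) - ((Y.filter fun y => M F y = 4).card : ℝ) =
      240 - 436 / 3 * (F.card : ℝ) + 32 * (F.card : ℝ) ^ 2 - 8 / 3 * (F.card : ℝ) ^ 3 := by
  rw [← sumP hL hK h]
  have h1 : ∀ y ∈ Y, -((M F y - 1) * (M F y - 2) * (M F y - 3)) / 6 =
      1 - 11 / 6 * M F y + M F y ^ 2 - 1 / 6 * M F y ^ 3 := by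
    intro y _
    ring
  rw [Finset.sum_congr rfl h1, Finset.sum_sub_distrib, Finset.sum_add_distrib,
    Finset.sum_sub_distrib, ← Finset.mul_sum, ← Finset.mul_sum, m1 hM hK h, m2 hP hK h,
    m3 hP hK h, Finset.sum_const, hK.card]
  norm_num
  ring

/-! ### Sign changes -/

/-- The vector `y` with the signs changed at `S`. -/
noncomputable def fl (y : E) (S : Finset E) : E := y - ∑ x ∈ S, ((inner ℝ y x : ℝ) / 2) • x

lemma inner_fl (h : Orth Y F) {S : Finset E} (hS : S ⊆ F) (y : E) {x : E} (hx : x ∈ F) :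
    (inner ℝ x (fl y S) : ℝ) = if x ∈ S then -(inner ℝ x y : ℝ) else inner ℝ x y := by
  unfold fl
  rw [inner_sub_right, inner_sum]
  split_ifs with hxS
  · rw [Finset.sum_eq_single x]
    · rw [inner_smul_right, h.nrm x hx, real_inner_comm x y]
      ring
    · intro x' hx' hne
      rw [inner_smul_right, h.ort x hx x' (hS hx') hne.symm, mul_zero]
    · intro h0
      exact absurd hxS h0
  · rw [Finset.sum_eq_zero]
    · ring
    · intro x' hx'
      rw [inner_smul_right, h.ort x hx x' (hS hx') (fun h0 => hxS (h0 ▸ hx')), mul_zero]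

lemma fl_mem (hC : SpecCLO) (hK : K240 Y) (h : Orth Y F) {y : E} (hy : y ∈ Y) :
    ∀ S : Finset E, S ⊆ F → fl y S ∈ Y := by
  intro S
  induction S using Finset.induction_on with
  | empty =>
    intro _
    simpa [fl] using hy
  | insert a S ha ih =>
    intro hS
    have hS' : S ⊆ F := (Finset.subset_insert a S).trans hS
    have haF : a ∈ F := hS (Finset.mem_insert_self a S)
    have h1 := hC.refl Y hK (fl y S) (ih hS') a (h.sub haF)
    have h2 : (inner ℝ (fl y S) a : ℝ) = inner ℝ y a := by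
      rw [real_inner_comm a (fl y S), inner_fl h hS' y haF, if_neg ha, real_inner_comm y a]
    have h3 : fl y (insert a S) = fl y S - ((inner ℝ (fl y S) a : ℝ) / 2) • a := by
      rw [h2]
      unfold fl
      rw [Finset.sum_insert ha]
      abel
    rw [h3]
    exact h1

/-- The support. -/
noncomputable def sup (F : Finset E) (y : E) : Finset E := F.filter fun x => (inner ℝ x y : ℝ) ≠ 0

/-- The vectors in the span which are not `±x`. -/
noncomputable def B (Y F : Finset E) : Finset E :=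
  Y.filter fun y => M F y = 4 ∧ ∀ x ∈ F, (inner ℝ x y : ℝ) ≠ 4 ∧ (inner ℝ x y : ℝ) ≠ -4

lemma vals (hL : SpecLPI) (hK : K240 Y) (h : Orth Y F) {y : E} (hy : y ∈ B Y F) {x : E}
    (hx : x ∈ F) : (inner ℝ x y : ℝ) = 2 ∨ (inner ℝ x y : ℝ) = 0 ∨ (inner ℝ x y : ℝ) = -2 := by
  have hy' := Finset.mem_filter.1 hy
  have h1 := hy'.2.2 x hx
  rcases (hL Y hK).1 x (h.sub hx) y hy'.1 with h0 | h0 | h0 | h0 | h0
  · exact absurd h0 h1.1
  · exact Or.inl h0
  · exact Or.inr (Or.inl h0)
  · exact Or.inr (Or.inr h0)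
  · exact absurd h0 h1.2

lemma card_sup (hL : SpecLPI) (hK : K240 Y) (h : Orth Y F) {y : E} (hy : y ∈ B Y F) :
    (sup F y).card = 4 := by
  have h1 : M F y = ((sup F y).card : ℝ) := by
    unfold M sup
    rw [Finset.card_filter]
    push_cast
    apply Finset.sum_congr rfl
    intro x hx
    rcases vals hL hK h hy hx with h0 | h0 | h0 <;> rw [h0] <;> norm_num
  rw [(Finset.mem_filter.1 hy).2.1] at h1
  exact_mod_cast h1.symm

lemma fl_memB (hC : SpecCLO) (hL : SpecLPI) (hK : K240 Y) (h : Orth Y F) {y : E}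
    (hy : y ∈ B Y F) {S : Finset E} (hS : S ⊆ F) : fl y S ∈ B Y F := by
  have hy' := Finset.mem_filter.1 hy
  refine Finset.mem_filter.2 ⟨fl_mem hC hK h hy'.1 S hS, ?_, ?_⟩
  · rw [← hy'.2.1]
    unfold M
    apply Finset.sum_congr rfl
    intro x hx
    rw [inner_fl h hS y hx]
    split_ifs <;> ring
  · intro x hx
    rw [inner_fl h hS y hx]
    rcases vals hL hK h hy hx with h0 | h0 | h0 <;> rw [h0] <;> split_ifs <;> norm_num

lemma sup_fl (h : Orth Y F) (y : E) {S : Finset E} (hS : S ⊆ F) : sup F (fl y S) = sup F y := by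
  unfold sup
  apply Finset.filter_congr
  intro x hx
  rw [inner_fl h hS y hx]
  split_ifs
  · exact neg_ne_zero
  · exact Iff.rfl

lemma fiber (hC : SpecCLO) (hL : SpecLPI) (hK : K240 Y) (h : Orth Y F) {y : E}
    (hy : y ∈ B Y F) : ((B Y F).filter fun z => sup F z = sup F y).card = 16 := by
  have h1 : ((B Y F).filter fun z => sup F z = sup F y).card = (sup F y).powerset.card := by
    symm
    apply Finset.card_bij (fun S _ => fl y S)
    · intro S hS
      have hSF : S ⊆ F := (Finset.mem_powerset.1 hS).trans (Finset.filter_subset _ _)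
      exact Finset.mem_filter.2 ⟨fl_memB hC hL hK h hy hSF, sup_fl h y hSF⟩
    · intro S hS T hT he
      have hSF : S ⊆ F := (Finset.mem_powerset.1 hS).trans (Finset.filter_subset _ _)
      have hTF : T ⊆ F := (Finset.mem_powerset.1 hT).trans (Finset.filter_subset _ _)
      have key : ∀ x ∈ sup F y, (x ∈ S ↔ x ∈ T) := by
        intro x hx
        have hx' := Finset.mem_filter.1 hx
        have h2 := inner_fl h hSF y hx'.1
        have h3 := inner_fl h hTF y hx'.1
        rw [he] at h2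
        rw [h2] at h3
        have h4 := hx'.2
        by_cases h5 : x ∈ S <;> by_cases h6 : x ∈ T <;> simp only [h5, h6, if_true, if_false] at h3 ⊢
        · exact absurd (by linarith : (inner ℝ x y : ℝ) = 0) h4
        · exact absurd (by linarith : (inner ℝ x y : ℝ) = 0) h4
      ext x
      constructor
      · intro hx
        exact (key x (Finset.mem_powerset.1 hS hx)).1 hx
      · intro hx
        exact (key x (Finset.mem_powerset.1 hT hx)).2 hx
    · intro z hz
      have hz' := Finset.mem_filter.1 hz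
      refine ⟨(sup F y).filter fun x => (inner ℝ x z : ℝ) ≠ inner ℝ x y, ?_, ?_⟩
      · exact Finset.mem_powerset.2 (Finset.filter_subset _ _)
      · have hSF : ((sup F y).filter fun x => (inner ℝ x z : ℝ) ≠ inner ℝ x y) ⊆ F :=
          (Finset.filter_subset _ _).trans (Finset.filter_subset _ _)
        have hfB := Finset.mem_filter.1 (fl_memB hC hL hK h hy hSF)
        have hzB := Finset.mem_filter.1 hz'.1
        apply ext_pj h
        · rw [hfB.2.1, hK.kiss.nrm _ hfB.1]
        · rw [hzB.2.1, hK.kiss.nrm _ hzB.1]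
        · intro x hx
          rw [inner_fl h hSF y hx]
          have h2 := vals hL hK h hy hx
          have h3 := vals hL hK h hz'.1 hx
          have h4 : (inner ℝ x z : ℝ) ≠ 0 ↔ (inner ℝ x y : ℝ) ≠ 0 := by
            have h5 : x ∈ sup F z ↔ x ∈ sup F y := by rw [hz'.2]
            unfold sup at h5
            rw [Finset.mem_filter, Finset.mem_filter] at h5
            simpa [hx] using h5
          by_cases h6 : (inner ℝ x z : ℝ) = inner ℝ x y
          · rw [if_neg (by rw [Finset.mem_filter]; exact fun h7 => h7.2 h6), h6]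
          · by_cases h8 : (inner ℝ x y : ℝ) = 0
            · exfalso
              have h9 : (inner ℝ x z : ℝ) = 0 := by
                by_contra h10
                exact (h4.1 h10) h8
              exact h6 (h9.trans h8.symm)
            · have h10 : x ∈ sup F y := Finset.mem_filter.2 ⟨hx, h8⟩
              rw [if_pos (by rw [Finset.mem_filter]; exact ⟨h10, h6⟩)]
              have h9 : (inner ℝ x z : ℝ) ≠ 0 := h4.2 h8
              rcases h2 with h2 | h2 | h2 <;> rcases h3 with h3 | h3 | h3 <;>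
                first
                | exact absurd (h3.trans h2.symm) h6
                | exact absurd h2 h8
                | exact absurd h3 h9
                | (rw [h2, h3]; try norm_num)
  rw [h1, Finset.card_powerset, card_sup hL hK h hy]
  norm_num

lemma dvdB (hC : SpecCLO) (hL : SpecLPI) (hK : K240 Y) (h : Orth Y F) : 16 ∣ (B Y F).card := by
  rw [Finset.card_eq_sum_card_image (sup F) (B Y F)]
  apply Finset.dvd_sum
  intro c hc
  obtain ⟨y, hy, rfl⟩ := Finset.mem_image.1 hc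
  rw [fiber hC hL hK h hy]

lemma M_self (h : Orth Y F) {x : E} (hx : x ∈ F) : M F x = 4 := by
  unfold M
  rw [Finset.sum_eq_single x]
  · rw [h.nrm x hx]
    norm_num
  · intro x' hx' hne
    rw [h.ort x' hx' x hx hne]
    norm_num
  · intro h0
    exact absurd hx h0

lemma M_neg (y : E) : M F (-y) = M F y := by
  unfold M
  apply Finset.sum_congr rfl
  intro x _
  rw [inner_neg_right]
  ring

lemma eq_of_four (hK : K240 Y) {x y : E} (hx : x ∈ Y) (hy : y ∈ Y)
    (h : (inner ℝ x y : ℝ) = 4) : y = x := by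
  have h1 : (inner ℝ (y - x) (y - x) : ℝ) = 0 := by
    rw [inner_sub_left, inner_sub_right, inner_sub_right, hK.kiss.nrm y hy, hK.kiss.nrm x hx,
      real_inner_comm x y, h]
    norm_num
  exact sub_eq_zero.1 (inner_self_eq_zero.1 h1)

lemma N4 (hC : SpecCLO) (hL : SpecLPI) (hK : K240 Y) (h : Orth Y F) :
    ∃ m : ℕ, (Y.filter fun y => M F y = 4).card = 2 * F.card + 16 * m := by
  obtain ⟨m, hm⟩ := dvdB hC hL hK h
  refine ⟨m, ?_⟩
  have h1 : (Y.filter fun y => M F y = 4) = (F ∪ F.image fun x => -x) ∪ B Y F := by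
    ext y
    rw [Finset.mem_filter, Finset.mem_union, Finset.mem_union, Finset.mem_image]
    constructor
    · rintro ⟨hy, hM⟩
      by_cases h2 : ∀ x ∈ F, (inner ℝ x y : ℝ) ≠ 4 ∧ (inner ℝ x y : ℝ) ≠ -4
      · exact Or.inr (Finset.mem_filter.2 ⟨hy, hM, h2⟩)
      · left
        push Not at h2
        obtain ⟨x, hx, h3⟩ := h2
        by_cases h4 : (inner ℝ x y : ℝ) = 4
        · left
          rw [eq_of_four hK (h.sub hx) hy h4]
          exact hx
        · right
          refine ⟨x, hx, ?_⟩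
          have h5 := h3 h4
          have h6 : -y = x := by
            apply eq_of_four hK (h.sub hx) (hC.neg Y hK y hy)
            rw [inner_neg_right, h5]
            norm_num
          rw [← h6, neg_neg]
    · rintro ((hy | ⟨x, hx, rfl⟩) | hy)
      · exact ⟨h.sub hy, M_self h hy⟩
      · exact ⟨hC.neg Y hK x (h.sub hx), by rw [M_neg, M_self h hx]⟩
      · exact ⟨(Finset.mem_filter.1 hy).1, (Finset.mem_filter.1 hy).2.1⟩
  have h2 : Disjoint F (F.image fun x => -x) := by
    rw [Finset.disjoint_left]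
    intro x hx hx'
    obtain ⟨z, hz, rfl⟩ := Finset.mem_image.1 hx'
    have h3 := h.nrm z hz
    by_cases h4 : z = -z
    · have h5 : (inner ℝ z (-z) : ℝ) = 4 := by rw [← h4]; exact h3
      rw [inner_neg_right, h3] at h5
      norm_num at h5
    · have h5 := h.ort z hz (-z) hx h4
      rw [inner_neg_right, h3] at h5
      norm_num at h5
  have h3 : Disjoint (F ∪ F.image fun x => -x) (B Y F) := by
    rw [Finset.disjoint_left]
    intro y hy hB
    have hB' := (Finset.mem_filter.1 hB).2.2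
    rcases Finset.mem_union.1 hy with hy | hy
    · exact (hB' y hy).1 (h.nrm y hy)
    · obtain ⟨x, hx, rfl⟩ := Finset.mem_image.1 hy
      apply (hB' x hx).2
      rw [inner_neg_right, h.nrm x hx]
  rw [h1, Finset.card_union_of_disjoint h3, Finset.card_union_of_disjoint h2, hm,
    Finset.card_image_of_injective _ neg_injective]
  ring

lemma step (hM : SpecMOM) (hP : SpecPOL) (hC : SpecCLO) (hL : SpecLPI) (hK : K240 Y)
    (h : Orth Y F) (hk : F.card ≤ 7) : ∃ y ∈ Y, ∀ x ∈ F, (inner ℝ x y : ℝ) = 0 := by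
  by_contra hcon
  push Not at hcon
  have h0 : (Y.filter fun y => M F y = 0) = ∅ := by
    rw [Finset.filter_eq_empty_iff]
    intro y hy h1
    obtain ⟨x, hx, h2⟩ := hcon y hy
    exact h2 ((M_zero_iff y).1 h1 x hx)
  obtain ⟨m, hm⟩ := N4 hC hL hK h
  have h1 := count hM hP hL hK h
  rw [h0, hm, Finset.card_empty] at h1
  generalize F.card = k at h1 hk
  push_cast at h1
  interval_cases k
  · have h2 : (240 : ℝ) + 16 * (m : ℝ) = 0 := by norm_num at h1; linarith
    have h3 : 240 + 16 * m = 0 := by exact_mod_cast h2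
    omega
  · have h2 : (126 : ℝ) + 16 * (m : ℝ) = 0 := by norm_num at h1; linarith
    have h3 : 126 + 16 * m = 0 := by exact_mod_cast h2
    omega
  · have h2 : (60 : ℝ) + 16 * (m : ℝ) = 0 := by norm_num at h1; linarith
    have h3 : 60 + 16 * m = 0 := by exact_mod_cast h2
    omega
  · have h2 : (26 : ℝ) + 16 * (m : ℝ) = 0 := by norm_num at h1; linarith
    have h3 : 26 + 16 * m = 0 := by exact_mod_cast h2
    omega
  · have h2 : (8 : ℝ) + 16 * (m : ℝ) = 0 := by norm_num at h1; linarith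
    have h3 : 8 + 16 * m = 0 := by exact_mod_cast h2
    omega
  · have h2 : 16 * (m : ℝ) = 10 := by norm_num at h1; linarith
    have h3 : 16 * m = 10 := by exact_mod_cast h2
    omega
  · have h2 : 16 * (m : ℝ) = 44 := by norm_num at h1; linarith
    have h3 : 16 * m = 44 := by exact_mod_cast h2
    omega
  · have h2 : 16 * (m : ℝ) = 110 := by norm_num at h1; linarith
    have h3 : 16 * m = 110 := by exact_mod_cast h2
    omega

lemma frames (hM : SpecMOM) (hP : SpecPOL) (hC : SpecCLO) (hL : SpecLPI) (hK : K240 Y) :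
    ∀ k : ℕ, k ≤ 8 → ∃ F : Finset E, Orth Y F ∧ F.card = k := by
  intro k
  induction k with
  | zero => exact fun _ => ⟨∅, ⟨Finset.empty_subset _, by simp, by simp⟩, rfl⟩
  | succ k ih =>
    intro hk
    obtain ⟨F, hF, hc⟩ := ih (by omega)
    obtain ⟨y, hy, h0⟩ := step hM hP hC hL hK hF (by omega)
    have hyF : y ∉ F := by
      intro h1
      have h2 := h0 y h1
      rw [hF.nrm y h1] at h2
      norm_num at h2
    refine ⟨insert y F, ⟨?_, ?_, ?_⟩, ?_⟩
    · exact Finset.insert_subset hy hF.sub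
    · intro x hx
      rcases Finset.mem_insert.1 hx with rfl | hx
      · exact hK.kiss.nrm _ hy
      · exact hF.nrm x hx
    · intro x hx x' hx' hne
      rcases Finset.mem_insert.1 hx with h1 | h1 <;> rcases Finset.mem_insert.1 hx' with h2 | h2
      · exact absurd (h1.trans h2.symm) hne
      · rw [h1, real_inner_comm x' y]
        exact h0 x' h2
      · rw [h2]
        exact h0 x h1
      · exact hF.ort x h1 x' h2 hne
    · rw [Finset.card_insert_of_notMem hyF, hc]

end FRMM

open FRMM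

theorem specFRM (hMOM : SpecMOM) (hPOL : SpecPOL) (hCLO : SpecCLO) (hLPI : SpecLPI) : SpecFRM := by
  intro Y hK
  obtain ⟨F, hF, hc⟩ := frames hMOM hPOL hCLO hLPI hK 8 le_rfl
  have e := (Finset.equivFinOfCardEq hc).symm
  refine ⟨fun i => (e i : E), fun i => hF.sub (e i).2, fun i j hij => ?_⟩
  exact hF.ort _ (e i).2 _ (e j).2 fun h => hij (e.injective (Subtype.ext h))

end Pool.Agent.Lib.MP_f1379f_gt.EV
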