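import Pool.Agent.Lib.MP_f1379f_gt.EV.Spec

/-!
# Module GEG: positive definiteness of the zonal polynomials in dimension 8
-/

set_option autoImplicit false

namespace Pool.Agent.Lib.MP_f1379f_gt.EV

namespace GEGM

open MvPolynomial

/-- The polynomial ring. -/
abbrev Q := MvPolynomial (Fin 8) ℝ

/-- `α!` -/
noncomputable def fac (α : Fin 8 →₀ ℕ) : ℝ := ∏ i, ((α i).factorial : ℝ)

lemma fac_nonneg (α : Fin 8 →₀ ℕ) : 0 ≤ fac α :=
  Finset.prod_nonneg fun _ _ => Nat.cast_nonneg _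

lemma fac_single (i : Fin 8) (β : Fin 8 →₀ ℕ) :
    fac (Finsupp.single i 1 + β) = ((β i : ℝ) + 1) * fac β := by
  unfold fac
  rw [← Finset.mul_prod_erase Finset.univ _ (Finset.mem_univ i),
    ← Finset.mul_prod_erase Finset.univ (fun j => ((β j).factorial : ℝ)) (Finset.mem_univ i)]
  have h1 : ∏ x ∈ Finset.univ.erase i, ((((Finsupp.single i 1 + β : Fin 8 →₀ ℕ) x).factorial : ℕ) : ℝ)
      = ∏ x ∈ Finset.univ.erase i, ((β x).factorial : ℝ) := by
    apply Finset.prod_congr rfl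
    intro j hj
    have hj : j ≠ i := Finset.ne_of_mem_erase hj
    simp [Finsupp.add_apply, hj.symm]
  rw [h1]
  have h2 : (((Finsupp.single i 1 + β : Fin 8 →₀ ℕ) i).factorial : ℝ) =
      ((β i : ℝ) + 1) * ((β i).factorial : ℝ) := by
    rw [Finsupp.add_apply, Finsupp.single_eq_same, add_comm, Nat.factorial_succ]
    push_cast
    ring
  rw [h2]
  ring

/-- The Fischer product. -/
noncomputable def fi (p q : Q) : ℝ := ∑ α ∈ p.support, fac α * (coeff α p * coeff α q)

lemma fi_eq {p : Q} (q : Q) {S : Finset (Fin 8 →₀ ℕ)} (h : p.support ⊆ S) :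
    fi p q = ∑ α ∈ S, fac α * (coeff α p * coeff α q) := by
  unfold fi
  apply Finset.sum_subset h
  intro α _ hα
  rw [notMem_support_iff.1 hα]
  ring

lemma fi_comm (p q : Q) : fi p q = fi q p := by
  rw [fi_eq q (Finset.subset_union_left (s₂ := q.support)),
    fi_eq p (Finset.subset_union_right (s₁ := p.support))]
  apply Finset.sum_congr rfl
  intro α _
  ring

lemma fi_add (p p' q : Q) : fi (p + p') q = fi p q + fi p' q := by
  have h : (p + p').support ⊆ p.support ∪ p'.support := support_add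
  rw [fi_eq q h, fi_eq q (Finset.subset_union_left (s₂ := p'.support)),
    fi_eq q (Finset.subset_union_right (s₁ := p.support)), ← Finset.sum_add_distrib]
  apply Finset.sum_congr rfl
  intro α _
  rw [coeff_add]
  ring

lemma fi_C_mul (a : ℝ) (p q : Q) : fi (C a * p) q = a * fi p q := by
  have h : (C a * p).support ⊆ p.support := by
    intro α hα
    rw [mem_support_iff] at hα ⊢
    intro h0
    apply hα
    rw [coeff_C_mul, h0, mul_zero]
  rw [fi_eq q h, fi, Finset.mul_sum]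
  apply Finset.sum_congr rfl
  intro α _
  rw [coeff_C_mul]
  ring

lemma fi_zero (q : Q) : fi 0 q = 0 := by simp [fi]

lemma fi_zero_right (p : Q) : fi p 0 = 0 := by simp [fi]

lemma fi_sum {ι : Type*} (s : Finset ι) (f : ι → Q) (q : Q) :
    fi (∑ i ∈ s, f i) q = ∑ i ∈ s, fi (f i) q := by
  classical
  induction s using Finset.induction_on with
  | empty => simp [fi_zero]
  | insert a s ha ih => rw [Finset.sum_insert ha, Finset.sum_insert ha, fi_add, ih]

lemma fi_nonneg (p : Q) : 0 ≤ fi p p :=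
  Finset.sum_nonneg fun α _ => mul_nonneg (fac_nonneg α) (mul_self_nonneg _)

lemma fi_X_mul (i : Fin 8) (p q : Q) : fi (X i * p) q = fi p (pderiv i q) := by
  unfold fi
  rw [support_X_mul, Finset.sum_map]
  apply Finset.sum_congr rfl
  intro β _
  rw [addLeftEmbedding_apply, coeff_X_mul, fac_single, coeff_pderiv, add_comm β]
  ring

/-- The linear form with coefficients `x`. -/
noncomputable def L (x : E) : Q := ∑ i, C (x i) * X i

/-- The squared norm. -/
noncomputable def rho : Q := ∑ i : Fin 8, X i * X i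

/-- The Laplacian. -/
noncomputable def lap (q : Q) : Q := ∑ i : Fin 8, pderiv i (pderiv i q)

lemma lap_add (p q : Q) : lap (p + q) = lap p + lap q := by
  simp only [lap, map_add, Finset.sum_add_distrib]

lemma lap_C_mul (a : ℝ) (q : Q) : lap (C a * q) = C a * lap q := by
  simp only [lap, pderiv_C_mul, Finset.mul_sum]

lemma fi_L_mul (x : E) (p q : Q) : fi (L x * p) q = ∑ i, x i * fi p (pderiv i q) := by
  unfold L
  rw [Finset.sum_mul, fi_sum]
  apply Finset.sum_congr rfl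
  intro i _
  rw [mul_assoc, fi_C_mul, fi_X_mul]

lemma fi_rho_mul (p q : Q) : fi (rho * p) q = fi p (lap q) := by
  unfold rho lap
  rw [Finset.sum_mul, fi_sum, fi_comm p, fi_sum]
  apply Finset.sum_congr rfl
  intro i _
  rw [mul_assoc, fi_X_mul, fi_X_mul, fi_comm]

lemma fi_L_pow (x : E) (k : ℕ) : ∀ q : Q, q.IsHomogeneous k →
    fi (L x ^ k) q = (k.factorial : ℝ) * eval (fun i => x i) q := by
  induction k with
  | zero =>
    intro q hq
    rw [← totalDegree_zero_iff_isHomogeneous, totalDegree_eq_zero_iff_eq_C] at hq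
    rw [hq, pow_zero, eval_C]
    have h1 : (1 : Q).support ⊆ {0} := by
      intro α hα
      rw [mem_support_iff, coeff_one] at hα
      simp only [ne_eq, ite_eq_right_iff, one_ne_zero, imp_false, not_not] at hα
      simp [hα]
    rw [fi_eq _ h1]
    simp [fac]
  | succ k ih =>
    intro q hq
    rw [pow_succ', fi_L_mul]
    have h1 : ∀ i : Fin 8, fi (L x ^ k) (pderiv i q) =
        (k.factorial : ℝ) * eval (fun i => x i) (pderiv i q) := by
      intro i
      apply ih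
      have := hq.pderiv (i := i)
      simpa using this
    have h2 := congrArg (eval (fun i => x i)) hq.sum_X_mul_pderiv
    rw [map_sum] at h2
    simp only [map_mul, eval_X, nsmul_eq_mul, map_natCast] at h2
    calc ∑ i, x i * fi (L x ^ k) (pderiv i q)
        = (k.factorial : ℝ) * ∑ i, x i * eval (fun i => x i) (pderiv i q) := by
          rw [Finset.mul_sum]
          apply Finset.sum_congr rfl
          intro i _
          rw [h1]
          ring
      _ = ((k + 1).factorial : ℝ) * eval (fun i => x i) q := by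
          rw [h2, Nat.factorial_succ]
          push_cast
          ring

lemma L_hom (x : E) : (L x).IsHomogeneous 1 :=
  IsHomogeneous.sum _ _ _ fun _ _ => isHomogeneous_C_mul_X _ _

lemma rho_hom : rho.IsHomogeneous 2 :=
  IsHomogeneous.sum _ _ _ fun _ _ => (isHomogeneous_X _ _).mul (isHomogeneous_X _ _)

lemma pderiv_L (x : E) (i : Fin 8) : pderiv i (L x) = C (x i) := by
  unfold L
  rw [map_sum, Finset.sum_eq_single i]
  · rw [pderiv_C_mul, pderiv_X_self, mul_one]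
  · intro j _ hj
    rw [pderiv_C_mul, pderiv_X_of_ne hj, mul_zero]
  · simp

lemma pderiv_rho (i : Fin 8) : pderiv i rho = C 2 * X i := by
  unfold rho
  rw [map_sum, Finset.sum_eq_single i]
  · rw [pderiv_mul, pderiv_X_self, show (C 2 : Q) = 2 from map_ofNat C 2]
    ring
  · intro j _ hj
    rw [pderiv_mul, pderiv_X_of_ne hj]
    ring
  · simp

lemma lap_L_pow (x : E) (m : ℕ) :
    lap (L x ^ (m + 2)) = C (((m : ℝ) + 2) * (m + 1) * ∑ i, x i * x i) * L x ^ m := by
  unfold lap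
  have h : ∀ i : Fin 8, pderiv i (pderiv i (L x ^ (m + 2))) =
      C (((m : ℝ) + 2) * (m + 1) * (x i * x i)) * L x ^ m := by
    intro i
    rw [pderiv_pow, pderiv_L, pderiv_mul, pderiv_C, pderiv_mul, pderiv_pow, pderiv_L]
    have e1 : m + 2 - 1 = m + 1 := rfl
    rw [e1, show m + 1 - 1 = m from rfl]
    have e2 : pderiv i (((m + 2 : ℕ) : Q)) = 0 := by
      rw [show ((m + 2 : ℕ) : Q) = C ((m + 2 : ℕ) : ℝ) from (map_natCast C _).symm, pderiv_C]
    rw [e2]
    simp only [map_mul, map_add, map_natCast, map_one, map_ofNat]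
    push_cast
    ring
  rw [Finset.sum_congr rfl fun i _ => h i, ← Finset.sum_mul, ← map_sum, Finset.mul_sum]

lemma lap_L (x : E) : lap (L x) = 0 := by
  unfold lap
  apply Finset.sum_eq_zero
  intro i _
  rw [pderiv_L, pderiv_C]

lemma lap_one : lap 1 = 0 := by
  unfold lap
  apply Finset.sum_eq_zero
  intro i _
  rw [pderiv_one, map_zero]

lemma lap_rho_mul (q : Q) (d : ℕ) (hq : q.IsHomogeneous d) :
    lap (rho * q) = rho * lap q + C (16 + 4 * (d : ℝ)) * q := by
  have h : ∀ i : Fin 8, pderiv i (pderiv i (rho * q)) =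
      rho * pderiv i (pderiv i q) + (C 2 * q + C 4 * (X i * pderiv i q)) := by
    intro i
    rw [pderiv_mul, map_add, pderiv_mul, pderiv_mul, pderiv_rho, pderiv_C_mul, pderiv_X_self]
    have e2 : (C 2 : Q) = 2 := map_ofNat C 2
    have e4 : (C 4 : Q) = 4 := map_ofNat C 4
    rw [e2, e4]
    ring
  unfold lap
  rw [Finset.sum_congr rfl fun i _ => h i, Finset.sum_add_distrib, ← Finset.mul_sum,
    Finset.sum_add_distrib, ← Finset.mul_sum, ← Finset.mul_sum, hq.sum_X_mul_pderiv,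
    Finset.sum_const, Finset.card_univ, Fintype.card_fin]
  have e2 : (C 2 : Q) = 2 := map_ofNat C 2
  have e4 : (C 4 : Q) = 4 := map_ofNat C 4
  have e16 : (C 16 : Q) = 16 := map_ofNat C 16
  simp only [nsmul_eq_mul, map_add, map_mul, map_natCast, e2, e4, e16]
  push_cast
  ring

lemma eval_L (x y : E) : eval (fun i => x i) (L y) = inner ℝ x y := by
  unfold L
  rw [map_sum, PiLp.inner_apply]
  apply Finset.sum_congr rfl
  intro i _
  simp

lemma eval_rho (x : E) : eval (fun i => x i) rho = inner ℝ x x := by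
  unfold rho
  rw [map_sum, PiLp.inner_apply]
  apply Finset.sum_congr rfl
  intro i _
  simp [pow_two]

lemma sq_inner (x : E) : ∑ i, x i * x i = (inner ℝ x x : ℝ) := by
  rw [PiLp.inner_apply]
  apply Finset.sum_congr rfl
  intro i _
  simp [pow_two]

/-- The general step. -/
lemma pd (k : ℕ) (g : ℝ → ℝ) (h r : E → Q)
    (hom : ∀ x : E, inner ℝ x x = (4 : ℝ) → (h x).IsHomogeneous k)
    (har : ∀ x : E, inner ℝ x x = (4 : ℝ) → lap (h x) = 0)
    (hr : ∀ x : E, h x = L x ^ k + rho * r x)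
    (hev : ∀ x y : E, inner ℝ x x = (4 : ℝ) → inner ℝ y y = (4 : ℝ) →
      eval (fun i => x i) (h y) = 4 ^ k * g (inner ℝ x y / 4))
    (s : Finset E) (c : E → ℝ) (hs : ∀ x ∈ s, inner ℝ x x = (4 : ℝ)) :
    0 ≤ ∑ x ∈ s, ∑ y ∈ s, c x * c y * g (inner ℝ x y / 4) := by
  have h1 : ∀ x ∈ s, ∀ y ∈ s, fi (h x) (h y) =
      ((k.factorial : ℝ) * 4 ^ k) * g (inner ℝ x y / 4) := by
    intro x hx y hy
    conv_lhs => rw [hr x]
    rw [fi_add, fi_rho_mul, har y (hs y hy), fi_zero_right, add_zero,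
      fi_L_pow x k _ (hom y (hs y hy)), hev x y (hs x hx) (hs y hy)]
    ring
  have h2 : fi (∑ x ∈ s, C (c x) * h x) (∑ y ∈ s, C (c y) * h y) =
      ((k.factorial : ℝ) * 4 ^ k) * ∑ x ∈ s, ∑ y ∈ s, c x * c y * g (inner ℝ x y / 4) := by
    rw [fi_sum, Finset.mul_sum]
    apply Finset.sum_congr rfl
    intro x hx
    rw [fi_C_mul, fi_comm, fi_sum, Finset.mul_sum, Finset.mul_sum]
    apply Finset.sum_congr rfl
    intro y hy
    rw [fi_C_mul, fi_comm, h1 x hx y hy]
    ring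
  have h3 := fi_nonneg (∑ x ∈ s, C (c x) * h x)
  rw [h2] at h3
  have h4 : (0 : ℝ) < (k.factorial : ℝ) * 4 ^ k := by positivity
  exact nonneg_of_mul_nonneg_right h3 h4

lemma lap_L2 {x : E} (hx : inner ℝ x x = (4 : ℝ)) (m : ℕ) :
    lap (L x ^ (m + 2)) = C (4 * (((m : ℝ) + 2) * (m + 1))) * L x ^ m := by
  rw [lap_L_pow, sq_inner, hx]
  congr 2
  ring

lemma hom_rL (x : E) (j m : ℕ) : (rho ^ j * L x ^ m).IsHomogeneous (2 * j + m) := by
  have h := (rho_hom.pow j).mul ((L_hom x).pow m)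
  rwa [one_mul] at h

lemma lap_mul_rho {q : Q} {d : ℕ} {c : ℝ} (q' : Q) (hq : q.IsHomogeneous d)
    (hc : 16 + 4 * (d : ℝ) = c) (h : lap q = q') : lap (rho * q) = rho * q' + C c * q := by
  rw [lap_rho_mul q d hq, h, hc]

lemma l2 {x : E} (hx : inner ℝ x x = (4 : ℝ)) : lap (L x ^ 2) = C 8 := by
  rw [lap_L2 hx 0, pow_zero, mul_one]
  congr 1
  norm_num

lemma l3 {x : E} (hx : inner ℝ x x = (4 : ℝ)) : lap (L x ^ 3) = C 24 * L x := by
  rw [lap_L2 hx 1, pow_one]
  congr 2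
  norm_num

lemma l4 {x : E} (hx : inner ℝ x x = (4 : ℝ)) : lap (L x ^ 4) = C 48 * L x ^ 2 := by
  rw [lap_L2 hx 2]
  congr 2
  norm_num

lemma l5 {x : E} (hx : inner ℝ x x = (4 : ℝ)) : lap (L x ^ 5) = C 80 * L x ^ 3 := by
  rw [lap_L2 hx 3]
  congr 2
  norm_num

lemma l6 {x : E} (hx : inner ℝ x x = (4 : ℝ)) : lap (L x ^ 6) = C 120 * L x ^ 4 := by
  rw [lap_L2 hx 4]
  congr 2
  norm_num

lemma r1 : lap rho = C 16 := by
  have h := lap_mul_rho 0 (isHomogeneous_one (Fin 8) ℝ) (c := 16) (by norm_num) lap_one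
  rwa [mul_one, mul_zero, zero_add, mul_one] at h

lemma r1L (x : E) : lap (rho * L x) = C 20 * L x := by
  have h := lap_mul_rho 0 (L_hom x) (c := 20) (by norm_num) (lap_L x)
  rwa [mul_zero, zero_add] at h

lemma homL (x : E) (m : ℕ) : (L x ^ m).IsHomogeneous m := by
  have h := (L_hom x).pow m
  rwa [one_mul] at h

lemma r1L2 {x : E} (hx : inner ℝ x x = (4 : ℝ)) :
    lap (rho * L x ^ 2) = rho * C 8 + C 24 * L x ^ 2 :=
  lap_mul_rho _ (homL x 2) (by norm_num) (l2 hx)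

lemma r1L3 {x : E} (hx : inner ℝ x x = (4 : ℝ)) :
    lap (rho * L x ^ 3) = rho * (C 24 * L x) + C 28 * L x ^ 3 :=
  lap_mul_rho _ (homL x 3) (by norm_num) (l3 hx)

lemma r1L4 {x : E} (hx : inner ℝ x x = (4 : ℝ)) :
    lap (rho * L x ^ 4) = rho * (C 48 * L x ^ 2) + C 32 * L x ^ 4 :=
  lap_mul_rho _ (homL x 4) (by norm_num) (l4 hx)

lemma r2 : lap (rho * rho) = rho * C 16 + C 24 * rho :=
  lap_mul_rho _ rho_hom (by norm_num) r1

lemma r2L (x : E) : lap (rho * (rho * L x)) = rho * (C 20 * L x) + C 28 * (rho * L x) :=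
  lap_mul_rho _ (rho_hom.mul (L_hom x)) (by norm_num) (r1L x)

lemma r2L2 {x : E} (hx : inner ℝ x x = (4 : ℝ)) :
    lap (rho * (rho * L x ^ 2)) =
      rho * (rho * C 8 + C 24 * L x ^ 2) + C 32 * (rho * L x ^ 2) :=
  lap_mul_rho _ (rho_hom.mul (homL x 2)) (by norm_num) (r1L2 hx)

lemma r3 : lap (rho * (rho * rho)) = rho * (rho * C 16 + C 24 * rho) + C 32 * (rho * rho) :=
  lap_mul_rho _ (rho_hom.mul rho_hom) (by norm_num) r2

lemma eL (x y : E) : eval (fun i => x i) (L y) = inner ℝ x y := eval_L x y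

lemma eR {x : E} (hx : inner ℝ x x = (4 : ℝ)) : eval (fun i => x i) rho = 4 := by
  rw [eval_rho, hx]

lemma g1 (s : Finset E) (c : E → ℝ) (hs : ∀ x ∈ s, inner ℝ x x = (4 : ℝ)) :
    0 ≤ ∑ x ∈ s, ∑ y ∈ s, c x * c y * gp 1 (inner ℝ x y / 4) := by
  refine pd 1 (gp 1) (fun x => L x) (fun _ => 0) (fun x _ => L_hom x) (fun x _ => lap_L x)
    (fun x => by ring) ?_ s c hs
  intro x y _ _
  rw [eL, gp]
  ring

lemma g2 (s : Finset E) (c : E → ℝ) (hs : ∀ x ∈ s, inner ℝ x x = (4 : ℝ)) :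
    0 ≤ ∑ x ∈ s, ∑ y ∈ s, c x * c y * gp 2 (inner ℝ x y / 4) := by
  refine pd 2 (gp 2) (fun x => L x ^ 2 + C (-1 / 2) * rho) (fun _ => C (-1 / 2))
    (fun x _ => (homL x 2).add (rho_hom.C_mul _)) (fun x hx => ?_)
    (fun x => by ring) ?_ s c hs
  · rw [lap_add, lap_C_mul, l2 hx, r1, ← C_mul, ← C_add]
    norm_num
  · intro x y hx _
    rw [map_add, map_mul, map_pow, eL, eval_C, eR hx, gp]
    ring

lemma g3 (s : Finset E) (c : E → ℝ) (hs : ∀ x ∈ s, inner ℝ x x = (4 : ℝ)) :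
    0 ≤ ∑ x ∈ s, ∑ y ∈ s, c x * c y * gp 3 (inner ℝ x y / 4) := by
  refine pd 3 (gp 3) (fun x => L x ^ 3 + C (-6 / 5) * (rho * L x)) (fun x => C (-6 / 5) * L x)
    (fun x _ => (homL x 3).add ((rho_hom.mul (L_hom x)).C_mul _)) (fun x hx => ?_)
    (fun x => by ring) ?_ s c hs
  · rw [lap_add, lap_C_mul, l3 hx, r1L, ← mul_assoc, ← C_mul, ← add_mul, ← C_add]
    norm_num
  · intro x y hx _
    rw [map_add, map_mul, map_mul, map_pow, eL, eval_C, eR hx, gp]
    ring

lemma g4 (s : Finset E) (c : E → ℝ) (hs : ∀ x ∈ s, inner ℝ x x = (4 : ℝ)) :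
    0 ≤ ∑ x ∈ s, ∑ y ∈ s, c x * c y * gp 4 (inner ℝ x y / 4) := by
  refine pd 4 (gp 4) (fun x => L x ^ 4 + (C (-2) * (rho * L x ^ 2) + C (2 / 5) * (rho * rho)))
    (fun x => C (-2) * L x ^ 2 + C (2 / 5) * rho)
    (fun x _ => (homL x 4).add (((rho_hom.mul (homL x 2)).C_mul _).add
      ((rho_hom.mul rho_hom).C_mul _))) (fun x hx => ?_)
    (fun x => by ring) ?_ s c hs
  · rw [lap_add, lap_add, lap_C_mul, lap_C_mul, l4 hx, r1L2 hx, r2]
    have e1 : (C 48 : Q) + C (-2) * C 24 = 0 := by rw [← C_mul, ← C_add]; norm_num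
    have e2 : (C (-2) : Q) * C 8 + C (2 / 5) * C 16 + C (2 / 5) * C 24 = 0 := by
      rw [← C_mul, ← C_mul, ← C_mul, ← C_add, ← C_add]; norm_num
    linear_combination (L x ^ 2) * e1 + rho * e2
  · intro x y hx _
    simp only [map_add, map_mul, map_pow, eL, eval_C, eR hx, gp]
    ring

lemma g5 (s : Finset E) (c : E → ℝ) (hs : ∀ x ∈ s, inner ℝ x x = (4 : ℝ)) :
    0 ≤ ∑ x ∈ s, ∑ y ∈ s, c x * c y * gp 5 (inner ℝ x y / 4) := by
  refine pd 5 (gp 5) (fun x => L x ^ 5 + (C (-20 / 7) * (rho * L x ^ 3)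
      + C (10 / 7) * (rho * (rho * L x))))
    (fun x => C (-20 / 7) * L x ^ 3 + C (10 / 7) * (rho * L x))
    (fun x _ => (homL x 5).add (((rho_hom.mul (homL x 3)).C_mul _).add
      ((rho_hom.mul (rho_hom.mul (L_hom x))).C_mul _))) (fun x hx => ?_)
    (fun x => by ring) ?_ s c hs
  · rw [lap_add, lap_add, lap_C_mul, lap_C_mul, l5 hx, r1L3 hx, r2L]
    have e1 : (C 80 : Q) + C (-20 / 7) * C 28 = 0 := by rw [← C_mul, ← C_add]; norm_num
    have e2 : (C (-20 / 7) : Q) * C 24 + C (10 / 7) * C 20 + C (10 / 7) * C 28 = 0 := by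
      rw [← C_mul, ← C_mul, ← C_mul, ← C_add, ← C_add]; norm_num
    linear_combination (L x ^ 3) * e1 + (rho * L x) * e2
  · intro x y hx _
    simp only [map_add, map_mul, map_pow, eL, eval_C, eR hx, gp]
    ring

lemma g6 (s : Finset E) (c : E → ℝ) (hs : ∀ x ∈ s, inner ℝ x x = (4 : ℝ)) :
    0 ≤ ∑ x ∈ s, ∑ y ∈ s, c x * c y * gp 6 (inner ℝ x y / 4) := by
  refine pd 6 (gp 6) (fun x => L x ^ 6 + (C (-15 / 4) * (rho * L x ^ 4)
      + (C (45 / 14) * (rho * (rho * L x ^ 2)) + C (-5 / 14) * (rho * (rho * rho)))))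
    (fun x => C (-15 / 4) * L x ^ 4 + (C (45 / 14) * (rho * L x ^ 2)
      + C (-5 / 14) * (rho * rho)))
    (fun x _ => (homL x 6).add (((rho_hom.mul (homL x 4)).C_mul _).add
      (((rho_hom.mul (rho_hom.mul (homL x 2))).C_mul _).add
        ((rho_hom.mul (rho_hom.mul rho_hom)).C_mul _)))) (fun x hx => ?_)
    (fun x => by ring) ?_ s c hs
  · rw [lap_add, lap_add, lap_add, lap_C_mul, lap_C_mul, lap_C_mul, l6 hx, r1L4 hx, r2L2 hx, r3]
    have e1 : (C 120 : Q) + C (-15 / 4) * C 32 = 0 := by rw [← C_mul, ← C_add]; norm_num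
    have e2 : (C (-15 / 4) : Q) * C 48 + C (45 / 14) * C 24 + C (45 / 14) * C 32 = 0 := by
      rw [← C_mul, ← C_mul, ← C_mul, ← C_add, ← C_add]; norm_num
    have e3 : (C (45 / 14) : Q) * C 8 + C (-5 / 14) * C 16 + C (-5 / 14) * C 24
        + C (-5 / 14) * C 32 = 0 := by
      rw [← C_mul, ← C_mul, ← C_mul, ← C_mul, ← C_add, ← C_add, ← C_add]; norm_num
    linear_combination (L x ^ 4) * e1 + (rho * L x ^ 2) * e2 + (rho * rho) * e3
  · intro x y hx _
    simp only [map_add, map_mul, map_pow, eL, eval_C, eR hx, gp]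
    ring

lemma g0 (s : Finset E) (c : E → ℝ) :
    0 ≤ ∑ x ∈ s, ∑ y ∈ s, c x * c y * gp 0 (inner ℝ x y / 4) := by
  have h : ∑ x ∈ s, ∑ y ∈ s, c x * c y * gp 0 (inner ℝ x y / 4) =
      (∑ x ∈ s, c x) * ∑ y ∈ s, c y := by
    rw [Finset.sum_mul_sum]
    apply Finset.sum_congr rfl
    intro x _
    apply Finset.sum_congr rfl
    intro y _
    simp [gp]
  rw [h]
  exact mul_self_nonneg _

end GEGM

open GEGM

theorem specGEG : SpecGEG := by
  intro k hk s c hs
  interval_cases k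
  · exact g0 s c
  · exact g1 s c hs
  · exact g2 s c hs
  · exact g3 s c hs
  · exact g4 s c hs
  · exact g5 s c hs
  · exact g6 s c hs

end Pool.Agent.Lib.MP_f1379f_gt.EV
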