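import Pool.Agent.Lib.MP_f1379f_gt.EV.STA

/-!
# Module NRM: the optimal rotation (helper68)
-/

set_option autoImplicit false

namespace Pool.Agent.Lib.MP_f1379f_gt.EV

open MeasureTheory

namespace NRMM

/-- the isometries as continuous linear maps -/
def S : Set (E →L[ℝ] E) := {B | ∀ y, ‖B y‖ = ‖y‖}

theorem isCompact_S : IsCompact S := by
  apply (isCompact_closedBall (0 : E →L[ℝ] E) 1).of_isClosed_subset
  · have h : S = ⋂ y, {B : E →L[ℝ] E | ‖B y‖ = ‖y‖} := by
      ext B
      simp [S]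
    rw [h]
    refine isClosed_iInter fun y => isClosed_eq ?_ continuous_const
    exact (ContinuousLinearMap.apply ℝ E y).continuous.norm
  · intro B hB
    rw [mem_closedBall_zero_iff]
    exact B.opNorm_le_bound zero_le_one fun y => by rw [hB y, one_mul]

/-- the rotation in the plane of `e`, `f` -/
noncomputable def T (e f : E) (c s : ℝ) : E →L[ℝ] E :=
  ContinuousLinearMap.id ℝ E + ((c - 1) • innerSL ℝ e - s • innerSL ℝ f).smulRight e +
    (s • innerSL ℝ e + (c - 1) • innerSL ℝ f).smulRight f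

theorem T_apply (e f : E) (c s : ℝ) (y : E) : T e f c s y =
    y + ((c - 1) * inner ℝ e y - s * inner ℝ f y) • e +
      (s * inner ℝ e y + (c - 1) * inner ℝ f y) • f := by
  simp [T]

variable {e f : E} (hee : inner ℝ e e = (1 : ℝ)) (hff : inner ℝ f f = (1 : ℝ))
  (hef : inner ℝ e f = (0 : ℝ))

include hee hff hef

theorem T_norm {c s : ℝ} (hcs : c ^ 2 + s ^ 2 = 1) (y : E) : ‖T e f c s y‖ = ‖y‖ := by
  have h : ‖T e f c s y‖ ^ 2 = ‖y‖ ^ 2 := by
    rw [← real_inner_self_eq_norm_sq, ← real_inner_self_eq_norm_sq, T_apply]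
    have hfe : inner ℝ f e = (0 : ℝ) := by rw [real_inner_comm]; exact hef
    simp only [inner_add_left, inner_add_right, inner_smul_left, inner_smul_right, hee, hff, hef,
      hfe, real_inner_comm e y, real_inner_comm f y, conj_trivial]
    linear_combination (inner ℝ e y ^ 2 + inner ℝ f y ^ 2 : ℝ) * hcs
  exact (pow_left_inj₀ (norm_nonneg _) (norm_nonneg _) two_ne_zero).1 h

omit hee hff hef in
theorem T_inner (c s : ℝ) (y r : E) : inner ℝ (T e f c s y) r =
    (inner ℝ y r + (c - 1) * (inner ℝ e y * inner ℝ e r + inner ℝ f y * inner ℝ f r) +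
      s * (inner ℝ e y * inner ℝ f r - inner ℝ f y * inner ℝ e r) : ℝ) := by
  rw [T_apply, inner_add_left, inner_add_left, inner_smul_left, inner_smul_left]
  simp only [conj_trivial]
  ring

omit hee hff hef in
theorem circle {α β : ℝ} (h : ∀ c s : ℝ, c ^ 2 + s ^ 2 = 1 → (c - 1) * α + s * β ≤ 0) : β = 0 := by
  by_contra hβ
  have h0 : 0 < α ^ 2 + β ^ 2 := by positivity
  set ρ := Real.sqrt (α ^ 2 + β ^ 2) with hρ
  have hρ0 : 0 < ρ := Real.sqrt_pos.2 h0
  have hρ2 : ρ ^ 2 = α ^ 2 + β ^ 2 := Real.sq_sqrt h0.le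
  have h1 := h (α / ρ) (β / ρ) (by
    rw [div_pow, div_pow, ← add_div, hρ2]
    exact div_self h0.ne')
  have h2 : (α / ρ - 1) * α + β / ρ * β = ρ - α := by
    field_simp
    linear_combination -hρ2
  rw [h2] at h1
  have h3 : ρ ^ 2 ≤ α ^ 2 := by nlinarith
  have h4 : 0 < β ^ 2 := by positivity
  linarith

/-- the optimality condition -/
theorem opt (R0 : Finset E) (y : E → E)
    (h : ∀ T' : E →L[ℝ] E, (∀ z, ‖T' z‖ = ‖z‖) →
      ∑ r ∈ R0, ‖y r - r‖ ^ 2 ≤ ∑ r ∈ R0, ‖T' (y r) - r‖ ^ 2) :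
    ∑ r ∈ R0, (inner ℝ e (y r) * inner ℝ f r - inner ℝ f (y r) * inner ℝ e r : ℝ) = 0 := by
  apply circle (α := ∑ r ∈ R0, (inner ℝ e (y r) * inner ℝ e r + inner ℝ f (y r) * inner ℝ f r : ℝ))
  intro c s hcs
  have h1 := h (T e f c s) (T_norm hee hff hef hcs)
  have h2 : ∀ r ∈ R0, ‖T e f c s (y r) - r‖ ^ 2 = ‖y r - r‖ ^ 2 -
      2 * ((c - 1) * (inner ℝ e (y r) * inner ℝ e r + inner ℝ f (y r) * inner ℝ f r) +
      s * (inner ℝ e (y r) * inner ℝ f r - inner ℝ f (y r) * inner ℝ e r)) := by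
    intro r _
    rw [norm_sub_sq_real, norm_sub_sq_real, T_norm hee hff hef hcs, T_inner]
    ring
  rw [Finset.sum_congr rfl h2, Finset.sum_sub_distrib, ← Finset.mul_sum, Finset.sum_add_distrib,
    ← Finset.mul_sum, ← Finset.mul_sum] at h1
  linarith

end NRMM

open NRMM in
theorem specNRM : SpecNRM := by
  intro x
  have hcont : ContinuousOn (fun B : E →L[ℝ] E => ∑ r ∈ R, ‖B (x r) - r‖ ^ 2) S := by
    refine Continuous.continuousOn ?_
    refine continuous_finsetSum _ fun r _ => ?_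
    exact (((ContinuousLinearMap.apply ℝ E (x r)).continuous.sub continuous_const).norm).pow 2
  have hid : ContinuousLinearMap.id ℝ E ∈ S := fun y => rfl
  obtain ⟨B0, hB0, hmin⟩ := isCompact_S.exists_isMinOn ⟨_, hid⟩ hcont
  let B : E ≃ₗᵢ[ℝ] E := LinearIsometry.toLinearIsometryEquiv
    ⟨(B0 : E →ₗ[ℝ] E), fun y => hB0 y⟩ rfl
  have hB : ∀ y, B y = B0 y := fun y => rfl
  refine ⟨B, ?_, ?_⟩
  · have := hmin hid
    simp only [hB]
    exact this
  · rw [STAM.noRot_iff]
    intro i j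
    by_cases hij : i = j
    · rw [hij]
    have hopt := opt (e := EuclideanSpace.single i (1 : ℝ)) (f := EuclideanSpace.single j (1 : ℝ))
      (by simp) (by simp) (by simp [EuclideanSpace.inner_single_left, hij]) R
      (fun r => B (x r)) (fun T' hT' => by
        have := hmin (show T'.comp B0 ∈ S from fun y => by
          rw [ContinuousLinearMap.comp_apply, hT', hB0])
        simpa [hB] using this)
    simp only [EuclideanSpace.inner_single_left, map_one, one_mul] at hopt
    rw [Finset.sum_sub_distrib, sub_eq_zero] at hopt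
    have e : ∀ i j : Fin 8, ∑ r ∈ R, (B (x r) - r) i * r j =
        ∑ r ∈ R, (B (x r)) i * r j - ∑ r ∈ R, r i * r j := by
      intro i j
      rw [← Finset.sum_sub_distrib]
      refine Finset.sum_congr rfl fun r _ => ?_
      rw [PiLp.sub_apply]
      ring
    have e2 : ∑ r ∈ R, r i * r j = ∑ r ∈ R, r j * r i :=
      Finset.sum_congr rfl fun r _ => mul_comm (r i) (r j)
    rw [e, e, hopt, e2]

end Pool.Agent.Lib.MP_f1379f_gt.EV
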