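import Pool.Agent.Lib.MP_f1379f_gt.EV.Spec

/-!
# RIG: infinitesimal rigidity of a 240-point kissing configuration
-/

set_option autoImplicit false

namespace Pool.Agent.Lib.MP_f1379f_gt.EV

namespace RIGM

/-- the symmetrised product -/
noncomputable def B (w : E → E) (r s : E) : ℝ := inner ℝ (w r) s + inner ℝ r (w s)

/-- orthogonal pairs -/
lemma orth (hCLO : SpecCLO) (hCNT : SpecCNT) (hRGA : SpecRGA) (hRGB : SpecRGB)
    {Y : Finset E} (hY : K240 Y) {w : E → E} (hρ : ∀ r ∈ Y, inner ℝ (w r) r = (0 : ℝ))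
    (hc : ∀ r ∈ Y, ∀ s ∈ Y, inner ℝ r s = (2 : ℝ) →
      inner ℝ (w r) s + inner ℝ r (w s) = (0 : ℝ)) {f g : E} (hf : f ∈ Y) (hg : g ∈ Y)
    (hfg : inner ℝ f g = (0 : ℝ)) : B w f g = 0 := by
  obtain ⟨-, hodd⟩ := hRGA Y hY w hρ hc
  obtain ⟨h, hh, hhf, hhg⟩ := hCNT.com Y hY f hf g hg hfg
  have hff := hY.kiss.nrm f hf
  have hgg := hY.kiss.nrm g hg
  have hhh := hY.kiss.nrm h hh
  have hgf : inner ℝ g f = (0 : ℝ) := by rw [real_inner_comm]; exact hfg
  have hfh : inner ℝ f h = (2 : ℝ) := by rw [real_inner_comm]; exact hhf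
  have hgh : inner ℝ g h = (2 : ℝ) := by rw [real_inner_comm]; exact hhg
  have hfmh : f - h ∈ Y := hCLO.sub Y hY f hf h hh hfh
  have hhmg : h - g ∈ Y := hCLO.sub Y hY h hh g hg hhg
  have hhmf : h - f ∈ Y := hCLO.sub Y hY h hh f hf hhf
  have hmg : -g ∈ Y := hCLO.neg Y hY g hg
  have hkY : f + g - h ∈ Y := by
    have := hCLO.add Y hY g hg (f - h) hfmh (by rw [inner_sub_right, hgf, hgh]; norm_num)
    have e : g + (f - h) = f + g - h := by abel
    rwa [e] at this
  have hmk : -(f + g - h) ∈ Y := hCLO.neg Y hY _ hkY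
  -- `B a b = B c d` for a parallelogram `a + b = c + d`
  have hpar : ∀ a ∈ Y, ∀ b ∈ Y, ∀ c ∈ Y, inner ℝ a b = (0 : ℝ) → inner ℝ c a = (2 : ℝ) →
      inner ℝ c b = (2 : ℝ) → a + b - c ∈ Y → B w a b = B w c (a + b - c) := by
    intro a ha b hb c hcY hab hca hcb hd
    have h1 := hRGB Y hY w hρ hc a ha b hb c hcY hab hca hcb
    have e1 : B w a b = inner ℝ (w a + w b) (a + b) := by
      rw [B, inner_add_left, inner_add_right, inner_add_right, hρ a ha, hρ b hb,
        real_inner_comm a (w b)]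
      ring
    have e2 : B w c (a + b - c) = inner ℝ (w c + w (a + b - c)) (c + (a + b - c)) := by
      rw [B, inner_add_left, inner_add_right, inner_add_right, hρ c hcY, hρ _ hd,
        real_inner_comm c (w (a + b - c))]
      ring
    rw [e1, e2, h1]
    congr 1
    abel
  have hBneg : ∀ a ∈ Y, ∀ b ∈ Y, B w a (-b) = -B w a b := by
    intro a _ b hb
    rw [B, B, hodd b hb, inner_neg_right, inner_neg_right]
    ring
  -- three parallelograms
  have p1 : B w f g = B w h (f + g - h) := hpar f hf g hg h hh hfg hhf hhg hkY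
  have p2 : B w f (-g) = B w (h - g) (f - h) := by
    have := hpar f hf (-g) hmg (h - g) hhmg (by rw [inner_neg_right, hfg, neg_zero])
      (by rw [inner_sub_left, hhf, hgf]; norm_num)
      (by rw [inner_neg_right, inner_sub_left, hhg, hgg]; norm_num)
    have e : f + -g - (h - g) = f - h := by abel
    rw [e] at this
    exact this hfmh
  have p3 : B w h (-(f + g - h)) = B w (h - g) (h - f) := by
    have := hpar h hh (-(f + g - h)) hmk (h - g) hhmg
      (by rw [inner_neg_right, inner_sub_right, inner_add_right, hhf, hhg, hhh]; norm_num)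
      (by rw [inner_sub_left, hhh, hgh]; norm_num)
      (by
        rw [inner_neg_right, inner_sub_left, inner_sub_right, inner_sub_right, inner_add_right,
          inner_add_right, hhf, hhg, hhh, hgf, hgg, hgh]
        norm_num)
    have e : h + -(f + g - h) - (h - g) = h - f := by abel
    rw [e] at this
    exact this hhmf
  have e3 : B w (h - g) (h - f) = -B w (h - g) (f - h) := by
    rw [← hBneg _ hhmg _ hfmh]
    congr 1
    abel
  rw [hBneg f hf g hg] at p2
  rw [hBneg h hh _ hkY] at p3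
  linarith

/-- all pairs -/
lemma all (hLPI : SpecLPI) (hCLO : SpecCLO) (hCNT : SpecCNT) (hRGA : SpecRGA) (hRGB : SpecRGB)
    {Y : Finset E} (hY : K240 Y) {w : E → E} (hρ : ∀ r ∈ Y, inner ℝ (w r) r = (0 : ℝ))
    (hc : ∀ r ∈ Y, ∀ s ∈ Y, inner ℝ r s = (2 : ℝ) →
      inner ℝ (w r) s + inner ℝ r (w s) = (0 : ℝ)) {f g : E} (hf : f ∈ Y) (hg : g ∈ Y) :
    inner ℝ (w f) g + inner ℝ f (w g) = (0 : ℝ) := by
  obtain ⟨hneg2, hodd⟩ := hRGA Y hY w hρ hc
  have hff := hY.kiss.nrm f hf
  have hgg := hY.kiss.nrm g hg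
  have hgf : inner ℝ g f = (inner ℝ f g : ℝ) := real_inner_comm f g
  rcases (hLPI Y hY).1 f hf g hg with h | h | h | h | h
  · have e : f = g := by
      rw [← sub_eq_zero, ← inner_self_eq_zero (𝕜 := ℝ), inner_sub_left, inner_sub_right,
        inner_sub_right, hff, hgg, hgf, h]
      norm_num
    subst e
    rw [real_inner_comm (w f) f, hρ f hf]
    norm_num
  · exact hc f hf g hg h
  · exact orth hCLO hCNT hRGA hRGB hY hρ hc hf hg h
  · exact hneg2 f hf g hg h
  · have e : f = -g := by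
      rw [← sub_eq_zero, sub_neg_eq_add, ← inner_self_eq_zero (𝕜 := ℝ), inner_add_left,
        inner_add_right, inner_add_right, hff, hgg, hgf, h]
      norm_num
    subst e
    rw [hodd g hg, inner_neg_left, inner_neg_left, real_inner_comm (w g) g, hρ g hg]
    norm_num

end RIGM

/-- **RIG.** -/
theorem specRIG (hLPI : SpecLPI) (hPOL : SpecPOL) (hCLO : SpecCLO) (hCNT : SpecCNT)
    (hRGA : SpecRGA) (hRGB : SpecRGB) : SpecRIG := by
  intro Y hY w hρ hc hN r hr
  have hall : ∀ f ∈ Y, ∀ g ∈ Y, inner ℝ (w f) g + inner ℝ f (w g) = (0 : ℝ) :=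
    fun f hf g hg => RIGM.all hLPI hCLO hCNT hRGA hRGB hY hρ hc hf hg
  -- `Q a b = ∑ <a,s> <w s, b>`, i.e. `120 <K a, b>`
  set Q : E → E → ℝ := fun a b => ∑ s ∈ Y, inner ℝ a s * inner ℝ (w s) b with hQ
  set K : E → E := fun a => (1 / 120 : ℝ) • ∑ s ∈ Y, (inner ℝ a s : ℝ) • w s with hK
  have hKQ : ∀ a b : E, 120 * (inner ℝ (K a) b : ℝ) = Q a b := by
    intro a b
    simp only [hK, hQ]
    rw [inner_smul_left, sum_inner]
    simp only [inner_smul_left, conj_trivial]
    ring
  -- (*)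
  have hstar : ∀ f ∈ Y, ∀ z : E, inner ℝ (w f) z = -(inner ℝ f (K z) : ℝ) := by
    intro f hf z
    have h1 := hPOL.m11 Y hY (w f) z
    have h2 : ∑ s ∈ Y, inner ℝ (w f) s * inner ℝ z s = -(Q z f) := by
      simp only [hQ]
      rw [← Finset.sum_neg_distrib]
      refine Finset.sum_congr rfl fun s hs => ?_
      have h3 : inner ℝ (w f) s = -(inner ℝ f (w s) : ℝ) := by linarith [hall f hf s hs]
      rw [h3, real_inner_comm (w s) f]
      ring
    rw [h2, ← hKQ] at h1
    rw [real_inner_comm (K z) f]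
    linarith
  have hskew : ∀ a b : E, inner ℝ (K a) b = -(inner ℝ a (K b) : ℝ) := by
    intro a b
    have h1 := hPOL.m11 Y hY a (K b)
    have h2 : Q a b = -(∑ s ∈ Y, inner ℝ a s * inner ℝ (K b) s) := by
      simp only [hQ]
      rw [← Finset.sum_neg_distrib]
      refine Finset.sum_congr rfl fun s hs => ?_
      rw [hstar s hs b, real_inner_comm (K b) s]
      ring
    have h3 := hKQ a b
    rw [h2, h1] at h3
    linarith
  have hsym : ∀ a b : E, inner ℝ (K a) b = (inner ℝ (K b) a : ℝ) := by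
    intro a b
    have h1 := hN a b
    have h2 : ∀ a b : E, ∑ r ∈ Y, inner ℝ (w r) a * inner ℝ r b = Q b a := by
      intro a b
      simp only [hQ]
      refine Finset.sum_congr rfl fun s _ => ?_
      rw [real_inner_comm b s]
      ring
    rw [h2, h2, ← hKQ, ← hKQ] at h1
    linarith
  have hzero : ∀ a b : E, inner ℝ a (K b) = (0 : ℝ) := by
    intro a b
    have h1 := hskew b a
    have h2 := hskew a b
    have h3 := hsym a b
    linarith [real_inner_comm b (K a), real_inner_comm a (K b)]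
  have : inner ℝ (w r) (w r) = (0 : ℝ) := by
    rw [hstar r hr (w r), hzero, neg_zero]
  exact inner_self_eq_zero.1 this

end Pool.Agent.Lib.MP_f1379f_gt.EV
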