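import Pool.Agent.Lib.MP_f1379f_gt.EV.Spec

/-!
# Module STA: quantitative infinitesimal rigidity (helper68)
-/

set_option autoImplicit false

namespace Pool.Agent.Lib.MP_f1379f_gt.EV

open MeasureTheory

namespace STAM

theorem inner_eq (x y : E) : inner ℝ x y = ∑ i, y i * x i := by
  rw [PiLp.inner_apply]
  rfl

theorem expand (Y : Finset E) (w : E → E) (a b : E) :
    ∑ r ∈ Y, inner ℝ (w r) a * inner ℝ r b =
      ∑ i, ∑ j, a i * b j * ∑ r ∈ Y, w r i * r j := by
  calc ∑ r ∈ Y, inner ℝ (w r) a * inner ℝ r b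
      = ∑ r ∈ Y, ∑ i, ∑ j, a i * b j * (w r i * r j) := by
        refine Finset.sum_congr rfl fun r _ => ?_
        rw [inner_eq, inner_eq, Finset.sum_mul_sum]
        refine Finset.sum_congr rfl fun i _ => Finset.sum_congr rfl fun j _ => ?_
        ring
    _ = ∑ i, ∑ j, ∑ r ∈ Y, a i * b j * (w r i * r j) := by
        rw [Finset.sum_comm]
        refine Finset.sum_congr rfl fun i _ => ?_
        rw [Finset.sum_comm]
    _ = ∑ i, ∑ j, a i * b j * ∑ r ∈ Y, w r i * r j := by
        refine Finset.sum_congr rfl fun i _ => Finset.sum_congr rfl fun j _ => ?_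
        rw [Finset.mul_sum]

theorem noRot_iff (Y : Finset E) (w : E → E) : NoRot Y w ↔
    ∀ i j : Fin 8, ∑ r ∈ Y, w r i * r j = ∑ r ∈ Y, w r j * r i := by
  constructor
  · intro h i j
    have := h (EuclideanSpace.single i (1 : ℝ)) (EuclideanSpace.single j (1 : ℝ))
    simpa [EuclideanSpace.inner_single_right] using this
  · intro h a b
    rw [expand, expand, Finset.sum_comm]
    refine Finset.sum_congr rfl fun j _ => Finset.sum_congr rfl fun i _ => ?_
    rw [h j i]
    ring

/-- the third component -/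
noncomputable def T3 (v : {r // r ∈ R} → E) (q : Fin 8 × Fin 8) : ℝ :=
  ∑ r, (v r q.1 * (r : E) q.2 - v r q.2 * (r : E) q.1)

/-- the linear map of the problem -/
noncomputable def T : ({r // r ∈ R} → E) →ₗ[ℝ]
    ({r // r ∈ R} → ℝ) × ({r // r ∈ R} × {r // r ∈ R} → ℝ) × (Fin 8 × Fin 8 → ℝ) where
  toFun v := (fun r => inner ℝ (v r) (r : E),
    fun p => if inner ℝ (p.1 : E) (p.2 : E) = (2 : ℝ) then
      inner ℝ (v p.1) (p.2 : E) + inner ℝ (p.1 : E) (v p.2) else 0,
    T3 v)
  map_add' v v' := by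
    refine Prod.ext ?_ (Prod.ext ?_ ?_)
    · funext r
      simp [inner_add_left]
    · funext p
      simp only [Prod.snd_add, Prod.fst_add, Pi.add_apply]
      split_ifs
      · rw [inner_add_left, inner_add_right]
        ring
      · simp
    · funext q
      simp only [Prod.snd_add, Pi.add_apply, PiLp.add_apply, T3]
      rw [← Finset.sum_add_distrib]
      refine Finset.sum_congr rfl fun r _ => ?_
      ring
  map_smul' c v := by
    refine Prod.ext ?_ (Prod.ext ?_ ?_)
    · funext r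
      simp [inner_smul_left]
    · funext p
      simp only [Prod.smul_snd, Prod.smul_fst, Pi.smul_apply, RingHom.id_apply, smul_eq_mul]
      split_ifs
      · rw [inner_smul_left, inner_smul_right]
        simp only [conj_trivial]
        ring
      · simp
    · funext q
      simp only [Prod.smul_snd, Pi.smul_apply, PiLp.smul_apply, RingHom.id_apply, smul_eq_mul, T3]
      rw [Finset.mul_sum]
      refine Finset.sum_congr rfl fun r _ => ?_
      ring

attribute [irreducible] T3

theorem T_snd (v : {r // r ∈ R} → E) : (T v).2.2 = T3 v := rfl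

theorem T3_eq (w : E → E) (i j : Fin 8) : T3 (fun r => w r) (i, j) =
    ∑ r ∈ R, w r i * r j - ∑ r ∈ R, w r j * r i := by
  unfold T3
  rw [← Finset.sum_sub_distrib]
  exact Finset.sum_coe_sort R fun r => w r i * r j - w r j * r i

end STAM

open STAM in
theorem specSTA (hROT : SpecROT) (hRIG : SpecRIG) : SpecSTA := by
  have hinj : LinearMap.ker T = ⊥ := by
    rw [LinearMap.ker_eq_bot']
    intro v hv
    have h1 : ∀ r : {r // r ∈ R}, inner ℝ (v r) (r : E) = (0 : ℝ) := fun r =>
      congrFun (congrArg Prod.fst hv) r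
    have h2 : ∀ p : {r // r ∈ R} × {r // r ∈ R}, (if inner ℝ (p.1 : E) (p.2 : E) = (2 : ℝ) then
      inner ℝ (v p.1) (p.2 : E) + inner ℝ (p.1 : E) (v p.2) else 0) = (0 : ℝ) := fun p =>
      congrFun (congrArg Prod.fst (congrArg Prod.snd hv)) p
    have h3 : ∀ q : Fin 8 × Fin 8, T3 v q = (0 : ℝ) := fun q => by
      rw [← T_snd, hv]
      rfl
    classical
    obtain ⟨w, hw⟩ : ∃ w : E → E, ∀ r : {r // r ∈ R}, w r = v r :=
      ⟨fun r => if h : r ∈ R then v ⟨r, h⟩ else 0, fun r => dif_pos r.2⟩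
    have hwv : v = fun r : {r // r ∈ R} => w r := funext fun r => (hw r).symm
    have h1' : ∀ r : {r // r ∈ R}, inner ℝ (w r) (r : E) = (0 : ℝ) := fun r => by
      rw [hw]
      exact h1 r
    have key := hRIG R hROT.k240 w (fun r hr => h1' ⟨r, hr⟩) (fun r hr s hs hrs => by
      have := h2 (⟨r, hr⟩, ⟨s, hs⟩)
      rw [hwv, if_pos hrs] at this
      exact this) ((noRot_iff R w).2 fun i j => by
      have := h3 (i, j)
      rw [hwv, T3_eq, sub_eq_zero] at this
      exact this)
    funext r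
    rw [← hw]
    exact key r r.2
  obtain ⟨K, hK, hanti⟩ := LinearMap.exists_antilipschitzWith T hinj
  refine ⟨K, by exact_mod_cast hK, fun w η hη hw1 hw2 hw3 r hr => ?_⟩
  set v : {r // r ∈ R} → E := fun r => w r with hv
  have h1 := hanti.le_mul_dist v 0
  rw [map_zero, dist_zero_right, dist_zero_right] at h1
  have h2 : ‖T v‖ ≤ η := by
    refine max_le ?_ (max_le ?_ ?_)
    · rw [pi_norm_le_iff_of_nonneg hη]
      exact fun r => hw1 r r.2
    · rw [pi_norm_le_iff_of_nonneg hη]
      rintro ⟨r, s⟩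
      show ‖(if inner ℝ (r : E) (s : E) = (2 : ℝ) then
        inner ℝ (v r) (s : E) + inner ℝ (r : E) (v s) else 0 : ℝ)‖ ≤ η
      split_ifs with h
      · exact hw2 r r.2 s s.2 h
      · rw [norm_zero]
        exact hη
    · rw [pi_norm_le_iff_of_nonneg hη]
      rintro ⟨i, j⟩
      rw [T_snd, hv, T3_eq, (noRot_iff R w).1 hw3 i j, sub_self, norm_zero]
      exact hη
  calc ‖w r‖ = ‖v ⟨r, hr⟩‖ := rfl
    _ ≤ ‖v‖ := norm_le_pi_norm v _
    _ ≤ K * ‖T v‖ := h1
    _ ≤ K * η := mul_le_mul_of_nonneg_left h2 K.coe_nonneg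

end Pool.Agent.Lib.MP_f1379f_gt.EV
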