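import Pool.Agent.Lib.MP_f1379f_gt.EV.Spec

/-!
# Module ZBL: the further centres cut off almost nothing (helper68)
-/

set_option autoImplicit false

namespace Pool.Agent.Lib.MP_f1379f_gt.EV

open MeasureTheory

namespace ZBLM

/-- number of points of a packing in the ball of radius 4 -/
theorem card_le {X : Set E} (hX : Packing X) (t : Finset E) (ht : ∀ z ∈ t, z ∈ X ∧ ‖z‖ ≤ 4) :
    t.card ≤ 5 ^ 8 := by
  classical
  have hinj : Function.Injective fun z : E => (1 / 2 : ℝ) • z :=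
    smul_right_injective E (by norm_num : (1 / 2 : ℝ) ≠ 0)
  have h1 := Besicovitch.card_le_of_separated (t.image fun z : E => (1 / 2 : ℝ) • z) (by
    intro c hc
    obtain ⟨z, hz, rfl⟩ := Finset.mem_image.1 hc
    rw [norm_smul]
    have := (ht z hz).2
    norm_num
    linarith) (by
    intro c hc d hd hcd
    obtain ⟨z, hz, rfl⟩ := Finset.mem_image.1 hc
    obtain ⟨w, hw, rfl⟩ := Finset.mem_image.1 hd
    have h2 := hX z (ht z hz).1 w (ht w hw).1 fun h => hcd (by rw [h])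
    rw [dist_eq_norm] at h2
    rw [← smul_sub, norm_smul]
    norm_num
    linarith)
  rw [Finset.card_image_of_injective _ hinj, finrank_euclideanSpace_fin] at h1
  exact h1

theorem finite {X : Set E} (hX : Packing X) : {z : E | z ∈ X ∧ ‖z‖ ≤ 4}.Finite := by
  by_contra hinf
  obtain ⟨t, ht, hc⟩ := Set.Infinite.exists_subset_card_eq hinf (5 ^ 8 + 1)
  have := card_le hX t fun z hz => ht hz
  omega

/-- (a) radius of the cell -/
theorem radius (hCOV : SpecCOV) {δ : ℝ} (h0 : 0 ≤ δ) (h1 : δ ≤ 1 / 100) {x : E → E}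
    (hR : ∀ r ∈ R, inner ℝ r r = (4 : ℝ)) (hx : ∀ r ∈ R, ‖x r - r‖ ≤ δ) {y : E}
    (hy : y ∈ cell1 x) : ‖y‖ ^ 2 ≤ 2 * (1 + 8 * δ) := by
  obtain ⟨r, hr, hyr, h2⟩ := hCOV y
  rw [real_inner_self_eq_norm_sq] at h2
  have hnr : ‖r‖ = 2 := by
    have h3 := hR r hr
    rw [real_inner_self_eq_norm_sq] at h3
    nlinarith [norm_nonneg r]
  have hnx : ‖x r‖ ≤ 2 + δ := by
    have h3 : ‖x r‖ ≤ ‖r‖ + ‖x r - r‖ := by
      have : x r = r + (x r - r) := by abel
      calc ‖x r‖ = ‖r + (x r - r)‖ := by rw [← this]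
        _ ≤ _ := norm_add_le _ _
    have := hx r hr
    linarith
  have h3 : inner ℝ y r ≤ (inner ℝ y (x r) + δ * ‖y‖ : ℝ) := by
    have h4 : inner ℝ y (x r) = (inner ℝ y r + inner ℝ y (x r - r) : ℝ) := by
      rw [← inner_add_right]
      congr 1
      abel
    have h5 := (abs_le.1 (abs_real_inner_le_norm y (x r - r))).1
    have h6 := mul_le_mul_of_nonneg_left (hx r hr) (norm_nonneg y)
    rw [h4]
    linarith
  have h4 := hy r hr
  rw [real_inner_self_eq_norm_sq] at h4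
  have h5 : ‖x r‖ ^ 2 ≤ (2 + δ) ^ 2 := pow_le_pow_left₀ (norm_nonneg _) hnx 2
  set t := ‖y‖ with ht
  have ht0 : 0 ≤ t := norm_nonneg y
  have hM : inner ℝ y r ≤ (2 + 2 * δ + δ ^ 2 / 2 + δ * t : ℝ) := by nlinarith
  have h6 : 2 * t ^ 2 ≤ (2 + 2 * δ + δ ^ 2 / 2 + δ * t) ^ 2 :=
    h2.trans (pow_le_pow_left₀ hyr hM 2)
  have h7 : t ≤ 2 := by
    by_contra h8
    push Not at h8
    have h9 : 2 + 2 * δ + δ ^ 2 / 2 + δ * t ≤ 1.1 * t := by nlinarith
    have h10 : (2 + 2 * δ + δ ^ 2 / 2 + δ * t) ^ 2 ≤ (1.1 * t) ^ 2 :=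
      pow_le_pow_left₀ (by positivity) h9 2
    nlinarith
  have h8 : (2 + 2 * δ + δ ^ 2 / 2 + δ * t) ^ 2 ≤ (2 + 4 * δ + δ ^ 2 / 2) ^ 2 :=
    pow_le_pow_left₀ (by positivity) (by nlinarith) 2
  nlinarith [mul_nonneg h0 h0, mul_nonneg (mul_nonneg h0 h0) h0]

end ZBLM

open ZBLM in
theorem specZBL (hROT : SpecROT) (hCOV : SpecCOV) : SpecZBL := by
  have hR : ∀ r ∈ R, inner ℝ r r = (4 : ℝ) := hROT.k240.kiss.nrm
  set V : ℝ := (volume (Metric.ball (0 : E) 1)).toReal with hV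
  have hV0 : 0 ≤ V := ENNReal.toReal_nonneg
  refine ⟨5 ^ 8 * (32 ^ 4 * V) + 1, 1 / 100, by positivity, by norm_num,
    fun δ X x h0 h1 hX hX0 hx => ?_⟩
  have hxr : ∀ r ∈ R, ‖x r - r‖ ≤ δ := fun r hr => (hx r hr).2
  have hsub : cell1 x \ cell X 0 ⊆ ⋃ z ∈ (finite hX).toFinset,
      Metric.closedBall ((1 / 2 : ℝ) • z) (Real.sqrt (32 * δ)) := by
    rintro y ⟨hy1, hy2⟩
    have hy3 : ∃ z ∈ X, dist y z < dist y 0 := by
      by_contra hcon
      push Not at hcon
      exact hy2 hcon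
    obtain ⟨z, hz, hyz⟩ := hy3
    rw [dist_zero_right, dist_eq_norm] at hyz
    have hyz2 : ‖y - z‖ ^ 2 < ‖y‖ ^ 2 := pow_lt_pow_left₀ hyz (norm_nonneg _) two_ne_zero
    rw [norm_sub_sq_real] at hyz2
    have hz0 : z ≠ 0 := by
      rintro rfl
      rw [sub_zero] at hyz
      exact lt_irrefl _ hyz
    have hz2 : 2 ≤ ‖z‖ := by
      have := hX z hz 0 hX0 hz0
      rwa [dist_zero_right] at this
    have hy4 := radius hCOV h0 h1 hR hxr hy1
    -- inversion
    have hzz : 4 ≤ ‖z‖ ^ 2 := by nlinarith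
    have hz' : (4 / ‖z‖ ^ 2) • z ∈ cell1 x := by
      intro r hr
      have hzr : z ≠ x r := by
        rintro rfl
        have h5 := hy1 r hr
        rw [real_inner_self_eq_norm_sq] at h5
        linarith
      have hr2 : 2 ≤ ‖x r‖ := by
        have h5 : x r ≠ 0 := by
          intro h6
          have h7 := hxr r hr
          rw [h6, zero_sub, norm_neg] at h7
          have h8 := hR r hr
          rw [real_inner_self_eq_norm_sq] at h8
          nlinarith [norm_nonneg r]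
        have := hX _ (hx r hr).1 0 hX0 h5
        rwa [dist_zero_right] at this
      have hd := hX z hz _ (hx r hr).1 hzr
      rw [dist_eq_norm] at hd
      have hd2 : 4 ≤ ‖z - x r‖ ^ 2 := by nlinarith
      rw [norm_sub_sq_real] at hd2
      rw [inner_smul_left, real_inner_self_eq_norm_sq]
      simp only [conj_trivial]
      have hrr : 4 ≤ ‖x r‖ ^ 2 := by nlinarith
      have hpos : 0 < ‖z‖ ^ 2 := by positivity
      rw [div_mul_eq_mul_div, div_le_iff₀ hpos]
      nlinarith [mul_nonneg (sub_nonneg.2 hzz) (sub_nonneg.2 hrr)]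
    have hz'' := radius hCOV h0 h1 hR hxr hz'
    rw [norm_smul, mul_pow, Real.norm_eq_abs, sq_abs] at hz''
    have hpos : 0 < ‖z‖ ^ 2 := by positivity
    have h16 : (4 / ‖z‖ ^ 2) ^ 2 * ‖z‖ ^ 2 = 16 / ‖z‖ ^ 2 := by
      field_simp
      norm_num
    rw [h16, div_le_iff₀ hpos] at hz''
    have hzb : 8 * (1 - 8 * δ) ≤ ‖z‖ ^ 2 := by
      by_contra hcon
      push Not at hcon
      have : 2 * (1 + 8 * δ) * ‖z‖ ^ 2 < 16 := by nlinarith
      linarith
    have hz4 : ‖z‖ ≤ 4 := by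
      have h5 := (abs_le.1 (abs_real_inner_le_norm y z)).2
      have h6 : ‖z‖ < 2 * ‖y‖ := by
        by_contra hcon
        push Not at hcon
        nlinarith
      have h7 : ‖y‖ < 2 := by
        by_contra hcon
        push Not at hcon
        nlinarith
      linarith
    rw [Set.mem_iUnion₂]
    refine ⟨z, by
      rw [Set.Finite.mem_toFinset]
      exact ⟨hz, hz4⟩, ?_⟩
    rw [Metric.mem_closedBall, dist_eq_norm]
    apply Real.le_sqrt_of_sq_le
    rw [norm_sub_sq_real, inner_smul_right, norm_smul, mul_pow]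
    norm_num
    linarith
  refine (measure_mono hsub).trans ((measure_biUnion_finset_le _ _).trans ?_)
  have hball : ∀ z : E, volume (Metric.closedBall ((1 / 2 : ℝ) • z) (Real.sqrt (32 * δ))) =
      ENNReal.ofReal ((32 * δ) ^ 4 * V) := by
    intro z
    rw [Measure.addHaar_closedBall _ _ (Real.sqrt_nonneg _), finrank_euclideanSpace_fin]
    have h5 : Real.sqrt (32 * δ) ^ 8 = (32 * δ) ^ 4 := by
      have := Real.sq_sqrt (show 0 ≤ 32 * δ by positivity)
      calc Real.sqrt (32 * δ) ^ 8 = (Real.sqrt (32 * δ) ^ 2) ^ 4 := by ring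
        _ = _ := by rw [this]
    rw [h5, ENNReal.ofReal_mul (by positivity), hV, ENNReal.ofReal_toReal]
    exact measure_ball_lt_top.ne
  simp only [hball]
  rw [Finset.sum_const, nsmul_eq_mul]
  have hcard : (((finite hX).toFinset.card : ℕ) : ENNReal) ≤ ENNReal.ofReal (5 ^ 8) := by
    have h5 := card_le hX (finite hX).toFinset fun z hz => by
      rw [Set.Finite.mem_toFinset] at hz
      exact hz
    have h6 : ENNReal.ofReal (5 ^ 8) = ((5 ^ 8 : ℕ) : ENNReal) := by
      rw [← ENNReal.ofReal_natCast]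
      norm_num
    rw [h6]
    exact_mod_cast h5
  calc _ ≤ ENNReal.ofReal (5 ^ 8) * ENNReal.ofReal ((32 * δ) ^ 4 * V) :=
        mul_le_mul_left hcard _
    _ = ENNReal.ofReal (5 ^ 8 * ((32 * δ) ^ 4 * V)) := by
        rw [← ENNReal.ofReal_mul (by positivity)]
    _ ≤ _ := by
        apply ENNReal.ofReal_le_ofReal
        have h7 : δ ^ 4 ≤ δ ^ 2 := by
          have : δ ^ 2 ≤ 1 := by nlinarith
          nlinarith [sq_nonneg δ]
        have h8 : 0 ≤ 5 ^ 8 * (32 ^ 4 * V) := by positivity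
        have h9 := mul_le_mul_of_nonneg_left h7 h8
        nlinarith [sq_nonneg δ]

end Pool.Agent.Lib.MP_f1379f_gt.EV
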