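import Pool.Agent.Lib.MP_f1379f_gt.EV.Defs

/-!
# MP_f1379f_gt: exact Specs (complete proofs in the docstrings)

THEOREM (module FIN).  There are ε, c > 0 such that for every packing X of unit balls in R^8 and
every p in X with at least 240 centres x ≠ p, |x - p| ≤ 2 + ε, there is a linear isometry A with
`vol V_X(p) ≥ 16 + c * dist (p + A r, X)` for all 240 minimal vectors r of E8.

Notation in the docstrings: <,> = `inner ℝ`, |x|^2 = <x,x>, R = minimal vectors of E8 (norm^2 4,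
inner products 4, 2, 0, -2, -4), contact pair = <r,s> = 2.
Any Spec may be used as a hypothesis of another module.
-/

set_option autoImplicit false

namespace Pool.Agent.Lib.MP_f1379f_gt.EV

open MeasureTheory

/-! ## Part A: the Delsarte bound 240 and uniqueness of the 240-point kissing configuration -/

/-- GEG (250 lines).  Positive definiteness of the zonal polynomials in dimension 8.
PROOF (Fischer product).  On `MvPolynomial (Fin 8) ℝ` put `[p,q] = ∑_α α! p_α q_α`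
(α! = ∏ i, (α i)!); it is bilinear, symmetric, `[p,p] ≥ 0`, and `[X_i p, q] = [p, ∂_i q]`
(compare coefficients).  Hence with ρ = ∑ X_i^2, Δ = ∑ ∂_i^2: `[ρ p, q] = [p, Δ q]`, and for
`L_x = ∑ x_i X_i`: `[L_x p, q] = [p, ∑ x_i ∂_i q]`, so `[L_x^k, q] = k! q(x)` for q homogeneous of
degree k (Euler: iterate; `∑ x_i ∂_i` applied k times to q is `k! q(x)`; or expand
`L_x^k = ∑ multinomial`: `(L_x^k)_α = k!/α! x^α`).  Let g_k(t) = ∑_j a_j t^(k-2j) and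
`h_x = ∑_j a_j |x|^(2j) ρ^j L_x^(k-2j)`.  Then `Δ h_x = 0`: `Δ(ρ^j L^m) =
2j(8+2m+2j-2) ρ^(j-1) L^m + m(m-1)|x|^2 ρ^j L^(m-2)` and
`a_j m_j (m_j - 1) + a_(j+1) 2(j+1)(8 + 2 m_(j+1) + 2(j+1) - 2) = 0` with m_j = k-2j
(k=2: a_1=-1/8; k=3: -3/10; k=4: -1/2, 1/40; k=5: -5/7, 5/56; k=6: -15/16, 45/224, -5/896).
So `[h_x,h_y] = [L_x^k + ρ(..), h_y] = [L_x^k, h_y] = k! h_y(x) = k! ∑_j a_j |x|^(2j)|y|^(2j)<x,y>^(k-2j)
= k! 4^k g_k(<x,y>/4)` when |x|^2=|y|^2=4, and the double sum is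
`(1/(k! 4^k)) [∑ c_x h_x, ∑ c_x h_x] ≥ 0`.  (k = 0 or gp = 1: a square.)  Do k = 1..6 one by one. -/
def SpecGEG : Prop :=
  ∀ k : ℕ, k ≤ 6 → ∀ (s : Finset E) (c : E → ℝ), (∀ x ∈ s, inner ℝ x x = (4 : ℝ)) →
    0 ≤ ∑ x ∈ s, ∑ y ∈ s, c x * c y * gp k (inner ℝ x y / 4)

/-- LPB (120 lines).  Delsarte bound.
PROOF.  f(t) = (t+1)(t+1/2)^2 t^2 (t-1/2) = g_6 + 3/2 g_5 + 19/16 g_4 + 39/56 g_3 + 15/56 g_2
+ 3/40 g_1 + 3/320 (check by `ring`), f ≤ 0 on [-1,1/2], f(1) = 9/4.  For a kissing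
configuration with N points and t = <y,z>/4: t ≥ -1 always (Cauchy-Schwarz), t ≤ 1/2 for y ≠ z,
t = 1 for y = z.  By GEG with c = 1: `(3/320) N^2 ≤ ∑∑ f(t) ≤ N * 9/4`, so N ≤ 240. -/
def SpecLPB : Prop := ∀ Y : Finset E, Kiss Y → Y.card ≤ 240

/-- LPI (150 lines).  Equality in the Delsarte bound.
PROOF.  If N = 240 then in LPB both inequalities are equalities: so f(<y,z>/4) = 0 for all
y ≠ z in Y (each term is ≤ 0 and the sum is 0): <y,z>/4 ∈ {-1,-1/2,0,1/2}; and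
`∑∑ g_k(<y,z>/4) = 0` for k = 1..6 (each is ≥ 0 by GEG, all coefficients positive). -/
def SpecLPI : Prop :=
  ∀ Y : Finset E, K240 Y →
    (∀ y ∈ Y, ∀ z ∈ Y, inner ℝ y z = (4 : ℝ) ∨ inner ℝ y z = (2 : ℝ) ∨ inner ℝ y z = (0 : ℝ) ∨
      inner ℝ y z = (-2 : ℝ) ∨ inner ℝ y z = (-4 : ℝ)) ∧
    (∀ k : ℕ, 1 ≤ k → k ≤ 6 → ∑ y ∈ Y, ∑ z ∈ Y, gp k (inner ℝ y z / 4) = 0)

/-- MOM (180 lines).  Power moments.
PROOF.  Let |x|^2 = 4.  GEG for the finset `insert x Y` and the coefficients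
`c = (1 on Y) + τ (1 at x)` (add them if x ∈ Y) gives, with LPI,
`0 ≤ τ^2 g_k(1) + 2 τ ∑_y g_k(<x,y>/4)` for all real τ, hence `∑_y g_k(<x,y>/4) = 0`, k = 1..6.
So for t = <x,y>/4: ∑t = 0, ∑t^2 = 240/8 = 30, ∑t^3 = 0, ∑t^4 = 1/2*30 - 240/40 = 9,
∑t^5 = 0, ∑t^6 = 15/16*9 - 45/224*30 + 240*5/896 = 15/4, i.e. the claim for |x|^2 = 4
(480, 144*16, 240*64).  General x ≠ 0: scale to |x|^2 = 4 (homogeneity); x = 0 trivial. -/
def SpecMOM : Prop :=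
  ∀ Y : Finset E, K240 Y → ∀ x : E,
    ∑ y ∈ Y, inner ℝ x y = (0 : ℝ) ∧
    ∑ y ∈ Y, inner ℝ x y ^ 2 = 120 * (inner ℝ x x : ℝ) ∧
    ∑ y ∈ Y, inner ℝ x y ^ 3 = (0 : ℝ) ∧
    ∑ y ∈ Y, inner ℝ x y ^ 4 = 144 * (inner ℝ x x : ℝ) ^ 2 ∧
    ∑ y ∈ Y, inner ℝ x y ^ 5 = (0 : ℝ) ∧
    ∑ y ∈ Y, inner ℝ x y ^ 6 = 240 * (inner ℝ x x : ℝ) ^ 3

/-- POL (180 lines).  Polarised moments.
PROOF.  Polarise MOM: apply the 2nd moment to a+b; the 4th moment to a ± b, a ± b ± c, a ± 2b;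
the 6th moment to a ± b ± c, a ± b, ...: expand `<a+b,y>^4` etc. (inner_add_left, sum_add_distrib)
and take the linear combination isolating the wanted mixed sum, e.g.
m22: (a+b)^4 + (a-b)^4 - 2a^4 - 2b^4 = 12 a^2 b^2;
m211: ((a+b+c)^4 - (a+b-c)^4 - (a-b+c)^4 + (a-b-c)^4 - ...)/24 etc. (or replace b by b ± c in m22:
<a>^2<b+c>^2 - <a>^2<b-c>^2 = 4<a>^2<b><c>);
m42 from the coefficient of s^2 in (a+sb)^6: (a+b)^6 + (a-b)^6 = 2a^6+30a^4b^2+30a^2b^4+2b^6 and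
(a+2b)^6+(a-2b)^6 = 2a^6+120a^4b^2+480a^2b^4+128b^6;
m222: replace b by b ± c in m42-type identities: (a)^2 (b+c)^4 + (a)^2 (b-c)^4 =
2a^2b^4+12a^2b^2c^2+2a^2c^4, and a^2 b^4 is m42 with a, b exchanged. -/
structure SpecPOL : Prop where
  m11 : ∀ Y : Finset E, K240 Y → ∀ a b : E,
    ∑ y ∈ Y, inner ℝ a y * inner ℝ b y = 120 * (inner ℝ a b : ℝ)
  m22 : ∀ Y : Finset E, K240 Y → ∀ a b : E,
    ∑ y ∈ Y, inner ℝ a y ^ 2 * inner ℝ b y ^ 2 =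
      48 * ((inner ℝ a a : ℝ) * inner ℝ b b + 2 * inner ℝ a b ^ 2)
  m211 : ∀ Y : Finset E, K240 Y → ∀ a b c : E,
    ∑ y ∈ Y, inner ℝ a y ^ 2 * (inner ℝ b y * inner ℝ c y) =
      48 * ((inner ℝ a a : ℝ) * inner ℝ b c + 2 * (inner ℝ a b * inner ℝ a c))
  m42 : ∀ Y : Finset E, K240 Y → ∀ a b : E,
    ∑ y ∈ Y, inner ℝ a y ^ 4 * inner ℝ b y ^ 2 =
      48 * ((inner ℝ a a : ℝ) ^ 2 * inner ℝ b b + 4 * (inner ℝ a a * inner ℝ a b ^ 2))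
  m222 : ∀ Y : Finset E, K240 Y → ∀ a b c : E,
    ∑ y ∈ Y, inner ℝ a y ^ 2 * (inner ℝ b y ^ 2 * inner ℝ c y ^ 2) =
      16 * ((inner ℝ a a : ℝ) * inner ℝ b b * inner ℝ c c
        + 2 * (inner ℝ a a * inner ℝ b c ^ 2 + inner ℝ b b * inner ℝ a c ^ 2
          + inner ℝ c c * inner ℝ a b ^ 2)
        + 8 * (inner ℝ a b * inner ℝ b c * inner ℝ a c))

/-- CLO (120 lines).  Y is a root system.
PROOF.  Let u be a vector with |u|^2 = 4 such that <u,w> is one of 4,2,0,-2,-4 for all w ∈ Y.  If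
u ∉ Y then <u,w> ≠ 4 for w ∈ Y (|u-w|^2 = 8-2*4 = 0), so `insert u Y` is a kissing configuration
with 241 points, against LPB.  So u ∈ Y.  Apply to u = -y; to u = y - z if <y,z> = 2 (|u|^2 = 4,
<u,w> = <y,w> - <z,w> is even, and |<u,w>| ≤ 4 by Cauchy-Schwarz); to y + z = y - (-z) if
<y,z> = -2.  `refl`: the reflection of y in s is y - (<y,s>/2) s: by LPI <y,s> ∈
{4,2,0,-2,-4}: y - 2s with y = s, i.e. -s; y - s; y; y + s; y + 2s = s (y = -s). -/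
structure SpecCLO : Prop where
  neg : ∀ Y : Finset E, K240 Y → ∀ y ∈ Y, -y ∈ Y
  sub : ∀ Y : Finset E, K240 Y → ∀ y ∈ Y, ∀ z ∈ Y, inner ℝ y z = (2 : ℝ) → y - z ∈ Y
  add : ∀ Y : Finset E, K240 Y → ∀ y ∈ Y, ∀ z ∈ Y, inner ℝ y z = (-2 : ℝ) → y + z ∈ Y
  refl : ∀ Y : Finset E, K240 Y → ∀ y ∈ Y, ∀ s ∈ Y, y - ((inner ℝ y s : ℝ) / 2) • s ∈ Y

/-- CNT (250 lines).  Consequences of POL, LPI and CLO for K240 Y.
PROOF.  (c56) `∑_y <f,y>^2 = 480`: the terms y = ±f give 32, so 4 * #{<f,y> = ±2} = 448, and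
y -> -y exchanges the signs: #{y : <f,y> = 2} = 56.
(nbr) by m11 `∑_y <f,y> <z,y> = 120 <f,z>` for all z; y = ±f contribute 8<f,z>, y -> -y:
`4 ∑_{<f,y>=2} <z,y> = 112 <f,z>`, so `∑_{<f,y>=2} y = 28 f` (test with all z).
(S) for f ⊥ g in Y: in m222 with (z,f,g) only y with both <f,y>,<g,y> = ±2 contribute
(y = ±f has <g,y> = 0): `16 (P + M) = 256|z|^2 + 128(<z,f>^2+<z,g>^2)`, where P = ∑ <z,y>^2 over
y with <f,y>=<g,y>=±2 (same sign), M the same for opposite signs; in m211 with (z;f,g):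
`4(P - M) = 96 <z,f><z,g>`.  So P = 8|z|^2+4(<z,f>^2+<z,g>^2)+12<z,f><z,g>, and y -> -y halves it.
(com) by (S) with z = f: the sum is 16+2*16 = 48 > 0, so the set is non-empty.
(spn) let <z,y> = 0 for all y ∈ Y with <f,y> = 2 (hence also for <f,y> = -2).  m22:
`∑ <z,y>^2<f,y>^2 = 48(4|z|^2+2<z,f>^2)`; only y = ±f contribute: 2*16*<z,f>^2.  So
192|z|^2 + 64 <z,f>^2 = 0, z = 0.
(orp) let <z,f> = 0 and <z,y> = 0 for all y ∈ Y, <f,y> = 0.  `∑ <z,y>^2 = 120|z|^2`, and by m22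
`4 ∑_{<f,y>=±2} <z,y>^2 = 192 |z|^2`; all y with <z,y> ≠ 0 are of this kind, so 120|z|^2 =
48|z|^2, z = 0.
(con) let P be closed along contact pairs and P f.  Given g ∈ Y: <f,g> = 4: g = f; 2: direct;
0: (com) gives h with <h,f>=<h,g>=2; -2: e = f+g ∈ Y, <e,f>=<e,g>=2; -4: g = -f, choose h ∈ Y with
<h,f> = 2 (c56), then <h,g> = -2 and the previous case applies to h, g. -/
structure SpecCNT : Prop where
  c56 : ∀ Y : Finset E, K240 Y → ∀ f ∈ Y, (Y.filter fun y => inner ℝ f y = (2 : ℝ)).card = 56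
  nbr : ∀ Y : Finset E, K240 Y → ∀ f ∈ Y,
    ∑ y ∈ Y.filter (fun y => inner ℝ f y = (2 : ℝ)), y = (28 : ℝ) • f
  S : ∀ Y : Finset E, K240 Y → ∀ f ∈ Y, ∀ g ∈ Y, inner ℝ f g = (0 : ℝ) → ∀ z : E,
    ∑ t ∈ Y.filter (fun t => inner ℝ t f = (2 : ℝ) ∧ inner ℝ t g = (2 : ℝ)), inner ℝ z t ^ 2 =
      4 * (inner ℝ z z : ℝ) + 2 * (inner ℝ z f ^ 2 + inner ℝ z g ^ 2)
        + 6 * (inner ℝ z f * inner ℝ z g)
  com : ∀ Y : Finset E, K240 Y → ∀ f ∈ Y, ∀ g ∈ Y, inner ℝ f g = (0 : ℝ) →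
    ∃ h ∈ Y, inner ℝ h f = (2 : ℝ) ∧ inner ℝ h g = (2 : ℝ)
  spn : ∀ Y : Finset E, K240 Y → ∀ f ∈ Y, ∀ z : E,
    (∀ y ∈ Y, inner ℝ f y = (2 : ℝ) → inner ℝ z y = (0 : ℝ)) → z = 0
  orp : ∀ Y : Finset E, K240 Y → ∀ f ∈ Y, ∀ z : E, inner ℝ z f = (0 : ℝ) →
    (∀ y ∈ Y, inner ℝ f y = (0 : ℝ) → inner ℝ z y = (0 : ℝ)) → z = 0
  con : ∀ Y : Finset E, K240 Y → ∀ P : E → Prop,
    (∀ f ∈ Y, ∀ g ∈ Y, inner ℝ f g = (2 : ℝ) → P f → P g) → ∀ f ∈ Y, ∀ g ∈ Y, P f → P g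

/-- FRM (250 lines).  Y contains an orthogonal frame.
PROOF.  Let F ⊆ Y be a set of pairwise orthogonal vectors, k = |F| ≤ 7 (F is linearly independent,
so |F| ≤ 8 always).  Claim: some y ∈ Y is orthogonal to F (then induct from F = ∅ to |F| = 8).
For y ∈ Y put M(y) = ∑_{x∈F} <x,y>^2/4.  If y = ±x with x ∈ F then M = 4; otherwise
M(y) = #{x ∈ F : <x,y> ≠ 0} (values ±2 or 0); Bessel: M(y) = |proj_F y|^2 ≤ |y|^2 = 4, so
M(y) ∈ {0,1,2,3,4}, with M = 4 iff y ∈ span F, i.e. (y ≠ ±x) y = (1/2) ∑_{x∈c} ε_x x for a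
4-subset c of F and signs ε.  Moments (MOM, POL with pairwise orthogonal vectors of norm^2 4):
∑M = 120k, ∑M^2 = 144k + 48k(k-1), ∑M^3 = 240k + 144k(k-1) + 16k(k-1)(k-2)
(x=x'=x'': 240*64/64; two equal: 48*16*4/64 = 48, three patterns; distinct: 16*64/64 = 16).
With P(M) = -(M-1)(M-2)(M-3)/6 (P(0)=1, P(1)=P(2)=P(3)=0, P(4)=-1):
N_0 - N_4 = ∑ P(M(y)) = 240 - 116k + 24k(k-1) - (8/3)k(k-1)(k-2), N_j = #{M = j}.
N_4 = 2k + 16 m where m is the number of 4-subsets c of F such that some (1/2)∑_c ε x ∈ Y: by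
`CLO.refl` with s = x ∈ c the sign ε_x can be flipped, so all 16 sign patterns occur.
k = 0,1,2,3: N_0 ≥ 240, 124+2, 56+4, 20+6 > 0; k = 4: N_0 = N_4 ≥ 8; k = 5: N_0 = -10+16m;
k = 6: N_0 = -44+16m; k = 7: N_0 = -110+16m: never 0 because 16 does not divide 10, 44, 110.
(To avoid the full description of N_4 it is enough: 16 | N_4 - 2k, by the action of the group of
sign changes, e.g. partition the y ∈ span F, y ∉ ±F, by the support c = {x : <x,y> ≠ 0}.) -/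
def SpecFRM : Prop :=
  ∀ Y : Finset E, K240 Y →
    ∃ x : Fin 8 → E, (∀ i, x i ∈ Y) ∧ ∀ i j, i ≠ j → inner ℝ (x i) (x j) = (0 : ℝ)

/-- HAM (200 lines).  The extended Hamming code is unique.
PROOF.  Two different blocks share 0 or 2 points (never 1 or 3), so a 3-subset lies in at most one
block; 14 * 4 = 56 = C(8,3): every 3-subset lies in exactly one block.  Let {a,b,c,d} be the block
through some a,b,c; e another point; {a,b,e,f}, {a,c,e,g}, {b,c,e,h} the blocks through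
{a,b,e}, {a,c,e}, {b,c,e}.  a,...,h are 8 different points: f ∉ {c,d} (else three points shared
with the first block), similarly g ∉ {b,d}, h ∉ {a,d}; f = g would put a,e,f in two blocks, etc.
Let π 0..7 = a,b,c,d,e,f,g,h.  Then π{0,1,2,3}, π{0,1,4,5}, π{0,2,4,6}, π{1,2,4,7} are blocks and
by closure under symmetric difference (of blocks sharing 2 points) all other words:
2345=0123+0145, 1346=0123+0246, 1256=0145+0246, 0347=0123+1247, 0257=0145+1247, 0167=0246+1247,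
0356=2345+0246, 1357=2345+1247, 4567=1256+1247, 2367=1346+1247. -/
def SpecHAM : Prop :=
  ∀ C : Finset (Finset (Fin 8)), (∀ c ∈ C, c.card = 4) → C.card = 14 →
    (∀ c ∈ C, ∀ d ∈ C, c ≠ d → (c ∩ d).card = 0 ∨ (c ∩ d).card = 2) →
    (∀ c ∈ C, ∀ d ∈ C, (c ∩ d).card = 2 → symmDiff c d ∈ C) →
    ∃ π : Equiv.Perm (Fin 8), ∀ w ∈ words, w.map π.toEmbedding ∈ C

/-- ROT (200 lines).  The shell of E8 is a kissing configuration with 240 points.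
PROOF.  `x ∈ R ↔ x ∈ shell`: ‖vec n‖^2 = ∑ n_i^2 (EuclideanSpace.norm_eq), and ∑ n_i^2 = 4 forces
|n_i| ≤ 2.  Norms: 4.  For m ≠ n in RZ the vector m - n satisfies InL, is not 0, and every non-zero
n with InL has ∑ n_i^2 ≥ 4 (if some n_i is odd then at least four are: decide the 256 parity
patterns; if all are even then some n_i^2 ≥ 4); so |vec m - vec n|^2 ≥ 4, <vec m, vec n> ≤ 2.
card: vec is injective and RZ.card = 240 (`#eval` confirms; RZ is the disjoint union of the 16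
vectors ±2 e_i and of {n ∈ {-1,0,1}^8 : InL, ∑ n^2 = 4}; `decide +kernel` on 3^8 = 6561 vectors,
or group by support: 14 supports times 16 signs).
`sgn`: if w ∈ words and |n_i| = 1 for i ∈ w, n_i = 0 for i ∉ w, then n ∈ RZ; and conversely every
n ∈ RZ is of this form or ±2 e_i. -/
structure SpecROT : Prop where
  mem : ∀ x : E, x ∈ R ↔ x ∈ shell
  k240 : K240 R
  cases : ∀ n : Fin 8 → ℤ, n ∈ RZ ↔
    ((∃ i, (n i = 2 ∨ n i = -2) ∧ ∀ j, j ≠ i → n j = 0) ∨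
      ∃ w ∈ words, (∀ i ∈ w, n i = 1 ∨ n i = -1) ∧ ∀ i, i ∉ w → n i = 0)

/-- CLS (200 lines).  Uniqueness (Bannai-Sloane): every K240 is an isometric copy of R.
PROOF.  Take the frame x_0..x_7 of FRM (pairwise orthogonal, norm^2 4).  For y ∈ Y, y ≠ ±x_i:
y = ∑ (<y,x_i>/4) x_i, <y,x_i> ∈ {0,±2} and ∑ <y,x_i>^2/4 = 4, so y = (1/2)∑_{i∈c} ε_i x_i with
|c| = 4.  Let C be the set of these supports c.  Flipping signs by `CLO.refl` all 16 sign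
patterns occur on each c ∈ C; 240 = 16 + 16|C|, so |C| = 14.  For c ≠ d in C take all signs +:
<y_c,y_d> = |c ∩ d| ∈ {4,2,0}, so |c∩d| ∈ {0,2} (it is not 4 since c ≠ d); if |c∩d| = 2 then
y_c - y_d ∈ Y has support the symmetric difference.  HAM gives π.  Let A be the linear isometry
with A e_i = (1/2) x_{π i} (orthonormal basis to orthonormal basis).  By `ROT.cases` A(R) ⊆ Y
(±2e_i -> ±x, ∑_{i∈w} ±e_i -> (1/2)∑ ±x_{π i} with support π(w) ∈ C); both have 240 elements. -/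
def SpecCLS : Prop :=
  ∀ Y : Finset E, K240 Y → ∃ A : E ≃ₗᵢ[ℝ] E, ∀ y : E, y ∈ Y ↔ ∃ r ∈ R, A r = y

/-- CMP (150 lines).  Stability of the kissing configuration, by compactness.
PROOF.  Otherwise there are η > 0 and y^(n) : Fin 240 → E with norms in [2, 2+1/(n+1)], mutual
distances ≥ 2 and no A.  All y^(n) lie in a compact set of `Fin 240 → E`; take a convergent
subsequence with limit y: norms 2, distances ≥ 2, so y is injective and its image is a K240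
(|y_i - y_j|^2 = 8 - 2<y_i,y_j> ≥ 4).  CLS: the image is B(R); so for every r ∈ R there is i with
y_i = B r.  For n large |y^(n)_i - y_i| ≤ η for all i, so A = B⁻¹ works for y^(n): contradiction. -/
def SpecCMP : Prop :=
  ∀ η : ℝ, 0 < η → ∃ ε : ℝ, 0 < ε ∧ ∀ y : Fin 240 → E,
    (∀ i, 2 ≤ ‖y i‖ ∧ ‖y i‖ ≤ 2 + ε) → (∀ i j, i ≠ j → 2 ≤ dist (y i) (y j)) →
    ∃ A : E ≃ₗᵢ[ℝ] E, ∀ r ∈ R, ∃ i, ‖A (y i) - r‖ ≤ η

/-! ## Part B: infinitesimal rigidity of a K240 -/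

/-- RGA (120 lines).  PROOF.  Write B(r,s) = <w r,s> + <r,w s>, ρ_r = <w r,r> = 0.
(neg2) <f,g> = -2: e = f+g ∈ Y (CLO.add), <e,f> = <e,g> = 2.  From B(e,f) = 0:
<w e,f> = -<e,w f> = -<g,w f> (ρ_f = 0); from B(e,g) = 0: <w e,g> = -<f,w g>.  Add:
0 = <w e,e> = -B(f,g).
(odd) Let g ∈ Y.  For all f ∈ Y with <f,g> = 2: B(f,g) = 0 and (<f,-g> = -2) B(f,-g) = 0; add:
<f, w g + w(-g)> = 0.  By CNT.spn, w g + w(-g) = 0. -/
def SpecRGA : Prop :=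
  ∀ Y : Finset E, K240 Y → ∀ w : E → E, (∀ r ∈ Y, inner ℝ (w r) r = (0 : ℝ)) →
    (∀ r ∈ Y, ∀ s ∈ Y, inner ℝ r s = (2 : ℝ) → inner ℝ (w r) s + inner ℝ r (w s) = (0 : ℝ)) →
    (∀ r ∈ Y, ∀ s ∈ Y, inner ℝ r s = (-2 : ℝ) → inner ℝ (w r) s + inner ℝ r (w s) = (0 : ℝ)) ∧
    ∀ r ∈ Y, w (-r) = -w r

/-- RGB (150 lines).  PROOF.  Let f ⊥ g in Y, h ∈ Y, <h,f> = <h,g> = 2, k = f+g-h.  f-h ∈ Y
(CLO.sub), <g,f-h> = -2, so k = g+(f-h) ∈ Y; <k,f> = <k,g> = 2, <h,k> = 0.  Let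
D = w f + w g - w h - w k.  If t ∈ Y has <t,f>,<t,g>,<t,h>,<t,k> all = ±2 then by RGA and the
hypothesis <w f,t> = -<f,w t>, etc., so <D,t> = -<f+g-h-k, w t> = 0.  This applies to
(1) t = f-h (products 2,-2,-2,2) and t = f-k = h-g (2,-2,2,-2); (2) every t ∈ Y with
<t,f>=<t,g>=2, t ≠ h,k: <t,h>+<t,k> = <t,f+g> = 4 and both are ≤ 2.
By (1) <D,f>=<D,h>=<D,k>=:α and then <D,g> = α (f+g = h+k).  Formula CNT.S with z = D: the left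
side is <D,h>^2+<D,k>^2 = 2α^2 by (2) (h ≠ k are in the set), the right side is 4|D|^2 + 10α^2.
So 4|D|^2 + 8α^2 = 0 and D = 0. -/
def SpecRGB : Prop :=
  ∀ Y : Finset E, K240 Y → ∀ w : E → E, (∀ r ∈ Y, inner ℝ (w r) r = (0 : ℝ)) →
    (∀ r ∈ Y, ∀ s ∈ Y, inner ℝ r s = (2 : ℝ) → inner ℝ (w r) s + inner ℝ r (w s) = (0 : ℝ)) →
    ∀ f ∈ Y, ∀ g ∈ Y, ∀ h ∈ Y, inner ℝ f g = (0 : ℝ) → inner ℝ h f = (2 : ℝ) →
      inner ℝ h g = (2 : ℝ) → w f + w g = w h + w (f + g - h)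

/-- RIG (200 lines).  Infinitesimal rigidity.
PROOF.  (1) B(f,g) = 0 for f ⊥ g in Y: B(f,g) = <w f + w g, f + g> (ρ = 0), so by RGB
B(f,g) = B(h,k) for h as in CNT.com, k = f+g-h; and B(f,-g) = -B(f,g) by RGA (odd).
RGB for the pair (f,-g) and h' = h-g (<h-g,f> = 2, <h-g,-g> = 2; h-g ∈ Y), k' = f-h:
B(f,-g) = B(h-g,f-h).  RGB for the pair (h,-k) (h ⊥ k) and h'' = h-g (<h-g,h> = 2,
<h-g,-k> = <g,k> = 2), k'' = h-k-(h-g) = g-k = h-f: B(h,-k) = B(h-g,h-f) = -B(h-g,f-h).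
So -B(f,g) = -B(h,k) = B(h,-k) = -B(h-g,f-h) = -B(f,-g) = B(f,g), hence B(f,g) = 0.
(2) So B(r,s) = 0 for all r,s ∈ Y (r = s: ρ; r = -s: odd; ±2: hypothesis, RGA; 0: (1)).
Let K z = (1/120) ∑_s <z,s> w s.  By POL.m11 (z = (1/120) ∑ <z,s> s):
<w r,z> = (1/120)∑<z,s><w r,s> = -(1/120)∑<z,s><r,w s> = -<r,K z>  (*).
Then <K z,z'> = (1/120)∑<z,s><w s,z'> = -(1/120)∑<z,s><s,K z'> = -<z,K z'>: K is skew.
NoRot says 120<K b,a> = ∑<w r,a><r,b> = ∑<w r,b><r,a> = 120<K a,b>: K is symmetric.  So K = 0 and by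
(*) w r = 0. -/
def SpecRIG : Prop :=
  ∀ Y : Finset E, K240 Y → ∀ w : E → E, (∀ r ∈ Y, inner ℝ (w r) r = (0 : ℝ)) →
    (∀ r ∈ Y, ∀ s ∈ Y, inner ℝ r s = (2 : ℝ) → inner ℝ (w r) s + inner ℝ r (w s) = (0 : ℝ)) →
    NoRot Y w → ∀ r ∈ Y, w r = 0

/-- STA (150 lines).  Quantitative form of RIG for Y = R.
PROOF.  The linear map T from (R → E) (functions on the subtype) to
(R → ℝ) × (R × R → ℝ) × (Fin 8 × Fin 8 → ℝ), w ↦ (<w r,r>)_r, (<w r,s>+<r,w s> if <r,s> = 2 else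
0), (∑_r w_r i * r j - w_r j * r i), is injective by RIG and ROT.k240 (NoRot for basis vectors gives
NoRot for all a, b by bilinearity); an injective linear map on a finite-dimensional space is
bounded below (`LinearMap.exists_antilipschitzWith`). -/
def SpecSTA : Prop :=
  ∃ C : ℝ, 0 < C ∧ ∀ (w : E → E) (η : ℝ), 0 ≤ η → (∀ r ∈ R, |(inner ℝ (w r) r : ℝ)| ≤ η) →
    (∀ r ∈ R, ∀ s ∈ R, inner ℝ r s = (2 : ℝ) → |(inner ℝ (w r) s + inner ℝ r (w s) : ℝ)| ≤ η) →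
    NoRot R w → ∀ r ∈ R, ‖w r‖ ≤ C * η

/-- NRM (200 lines).  Optimal rotation.
PROOF.  The set of linear isometries (as 8x8 matrices M with MᵀM = 1) is compact, so
`F(B) = ∑_{r∈R} |B(x r) - r|^2` attains its minimum, at B say; F(B) ≤ F(id).  Let y_r = B(x r).  For
i ≠ j and θ ∈ ℝ let T_θ be the rotation in the (i,j) coordinate plane.  |T_θ y_r - r|^2 =
|y_r|^2 + |r|^2 - 2<T_θ y_r, r>, and ∑_r <T_θ y_r,r> = α cos θ + β sin θ + γ with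
β = ∑_r (y_r i * r j - y_r j * r i) up to sign; it is ≤ its value at θ = 0 for all θ, so β = 0 (derivative
at 0).  So ∑_r y_r i * r j is symmetric in i, j, and so is ∑_r (y_r - r) i * r j; bilinearity gives
NoRot for all a, b.  (Alternative without compactness of the group: polar decomposition.) -/
def SpecNRM : Prop :=
  ∀ x : E → E, ∃ B : E ≃ₗᵢ[ℝ] E,
    ∑ r ∈ R, ‖B (x r) - r‖ ^ 2 ≤ ∑ r ∈ R, ‖x r - r‖ ^ 2 ∧ NoRot R (fun r => B (x r) - r)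

/-! ## Part C: volumes -/

/-- COV (150 lines).  The cell of the 240 vectors has circumradius √2.
PROOF.  Reflections in coordinates preserve R (signs), so assume... direct proof: put
y = (z0+z1, z0-z1, z2+z3, z2-z3, z4+z5, z4-z5, z6+z7, z6-z7) (pair the coordinates such that
{pairs} are compatible with the words: 0123 = union of the pairs 01, 23, etc.), |y|^2 = 2|z|^2.
The 240 numbers <z,r> are exactly the numbers ±y_i±y_j (i<j) and (1/2)∑ ±y_i (even number of minus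
signs): e.g. 2z0 = y0+y1, z0+z1+z2+z3 = y0+y2, z0+z2+z4+z6 = (1/2)∑ y_i.  So the claim is the
inequality for D8 ∪ spinor: for real y with absolute values a1 ≥ a2 ≥ ... ≥ a8 ≥ 0,
max(a1+a2, (1/2)(a1+...+a7-a8))^2 ≥ ∑ a_i^2 (both are among the 240 numbers: for the second choose
signs equal to those of y, and if the number of minus signs is odd flip the smallest).
CASE 1: a1+a2 ≥ (1/2)(a1+...+a7-a8), i.e. a3+...+a7 ≤ a1+a2+a8.  With z_i = a_i-a8 (3≤i≤7):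
∑z_i ≤ a1+a2-4a8, z_i ≤ a2-a8, so ∑_{i≥3} a_i^2 = ∑z_i^2+2a8∑z_i+6a8^2 ≤
(a2+a8)(a1+a2-4a8)+6a8^2, and 2a1a2 - this = (a2-a8)(a1-a2+2a8) ≥ 0.
CASE 2: T = a1+...+a7-a8 ≥ 2(a1+a2).  z_i = a_i-a8 (1≤i≤7), U = T/2-2a8 ≥ z1+z2,
∑z_i = T-6a8 = 2U-2a8 ≤ 2U; T^2/4 - ∑a_i^2 = U^2 - ∑z_i^2, and ∑z_i^2 ≤ z1^2+z2(2U-z1) ≤ U^2
(z2 ≤ min(z1, U-z1); if z1 ≤ U/2: ≤ z1^2+z1(2U-z1) = 2Uz1 ≤ U^2; if z1 ≥ U/2:
≤ z1^2+(U-z1)(2U-z1) = U^2-(U-z1)(2z1-U) ≤ U^2).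
Any other proof of the Spec is welcome. -/
def SpecCOV : Prop :=
  ∀ z : E, ∃ r ∈ R, 0 ≤ (inner ℝ z r : ℝ) ∧ 2 * (inner ℝ z z : ℝ) ≤ inner ℝ z r ^ 2

/-- VOL (250 lines).  The E8 cell has volume 16.
PROOF.  L = {vec n : InL n} is a lattice with basis of determinant ±16, e.g. the rows
(2,0,0,0,0,0,0,0),(0,2,0,..),(0,0,2,0,..),(0,0,0,0,2,0,0,0),(1,1,1,1,0,0,0,0),(1,1,0,0,1,1,0,0),
(1,0,1,0,1,0,1,0),(1,1,1,1,1,1,1,1).  Let V = {y : ∀ r ∈ R, <y,r> ≤ 2}.  V is the Voronoi cell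
of L: for 0 ≠ x ∈ L and y ∈ V: |y|^2 ≤ 2 (COV), |x|^2 = ∑ n_i^2 is divisible by 4 (number of odd
coordinates 0, 4 or 8), if |x|^2 = 4 then x ∈ R; if |x|^2 ≥ 8 then
<y,x> ≤ √2 |x| ≤ |x|^2/2.  Every point of E is in some x + V (nearest lattice point), and
(x + V) ∩ V has measure zero for x ≠ 0 (contained in the hyperplane <y,x> = |x|^2/2).  So V is a
fundamental domain (IsAddFundamentalDomain, a.e.) of the countable group L, as is the half-open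
parallelepiped of the basis (ZSpan.fundamentalDomain), of volume |det| = 16; two fundamental
domains have the same measure (IsAddFundamentalDomain.measure_eq). -/
def SpecVOL : Prop :=
  volume {y : E | ∀ r ∈ R, inner ℝ y r ≤ (2 : ℝ)} = 16

/-- CON (200 lines).  Cones and exponentials.
PROOF.  Let μ_t = volume (C ∩ {<a0,y> < t}) = t^8 μ_1 (scaling, t > 0; t ≤ 0: C ∩ {<a0,y> ≤ 0} ⊆
{0}), finite because |y| ≤ t/κ; hyperplanes have measure 0, so < and ≤ do not matter.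
(1) Layer cake (Tonelli): `∫⁻_C exp(-<a,y>) = ∫⁻_{t>0} exp(-t) volume(C ∩ {<a,y> < t}) dt =
8! volume(C ∩ {<a,y> ≤ 1})` (`∫ t^8 e^{-t} = 8!`), the same for a0; similarly with
`u e^{-u} = ∫_{u}^{∞} (t-1)e^{-t} dt` or by derivative/pushforward: `∫_C <a0,y> exp(-<a0,y>) =
8 * 8! μ_1`.  All functions are integrable on C: |y|^m e^{-κ|y|}.
(2) exp(-u) ≥ exp(-u0)(1-(u-u0)) pointwise with u = <a,y>, u0 = <a0,y>; integrate over C. -/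
structure SpecCON : Prop where
  tan : ∀ (C : Set E) (a0 a : E) (κ : ℝ), MeasurableSet C → (∀ y ∈ C, ∀ t : ℝ, 0 < t → t • y ∈ C) →
    0 < κ → (∀ y ∈ C, κ * ‖y‖ ≤ (inner ℝ a0 y : ℝ)) → (∀ y ∈ C, κ * ‖y‖ ≤ (inner ℝ a y : ℝ)) →
    (volume (C ∩ {y : E | inner ℝ a0 y ≤ (1 : ℝ)})).toReal
        - (1 / 40320) * ∫ y in C, inner ℝ (a - a0) y * Real.exp (-(inner ℝ a0 y : ℝ))
      ≤ (volume (C ∩ {y : E | inner ℝ a y ≤ (1 : ℝ)})).toReal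
  mom : ∀ (C : Set E) (a0 : E) (κ : ℝ), MeasurableSet C → (∀ y ∈ C, ∀ t : ℝ, 0 < t → t • y ∈ C) →
    0 < κ → (∀ y ∈ C, κ * ‖y‖ ≤ (inner ℝ a0 y : ℝ)) →
    ∫ y in C, inner ℝ a0 y * Real.exp (-(inner ℝ a0 y : ℝ)) =
      8 * 40320 * (volume (C ∩ {y : E | inner ℝ a0 y ≤ (1 : ℝ)})).toReal
  int : ∀ (C : Set E) (a0 b : E) (κ : ℝ), MeasurableSet C → 0 < κ →
    (∀ y ∈ C, κ * ‖y‖ ≤ (inner ℝ a0 y : ℝ)) →
    IntegrableOn (fun y : E => inner ℝ b y * Real.exp (-(inner ℝ a0 y : ℝ))) C volume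

/-- SYM (250 lines).  Symmetry of the 240 pyramids.
PROOF.  For s ∈ R the reflection σ_s y = y - (<y,s>/2) s is a linear isometry (`reflection` in the
hyperplane orthogonal to s), it preserves R (CLO.refl), hence σ_s(cone r) = cone(σ_s r), and it
preserves Lebesgue measure.  (cov) COV: on cone r, <y,r> = max_s <y,s> ≥ √2 |y| (≥ |y|).
(eq) If <r,r'> = 2 then s = r-r' ∈ R and σ_s r = r': the pyramids
{y ∈ cone r : <y,r> ≤ 2} and that of r' have the same volume; by CNT.con all 240 have the same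
volume.  Their union is V = {y : ∀ r, <y,r> ≤ 2} (each y ∈ V lies in cone r for a maximiser r) and
they overlap in hyperplanes <y,r-s> = 0, of measure 0.  So each has volume 16/240 = 1/15 (VOL).
(mom) Let b ⊥ r and m(b) = ∫_{cone r} <b,y> exp(-<r,y>/2) dy (integrable, CON.int).  For s ∈ R,
s ⊥ r: σ_s r = r, so σ_s(cone r) = cone r and m(σ_s b) = m(b); i.e. <b,s> m(s) = 0 for all b
(linearity), take b = s: m(s) = 0.  m is linear, m(b) = <b,M> for a vector M; M - (<M,r>/4) r is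
orthogonal to r and to all s ∈ R with s ⊥ r, so it is 0 by CNT.orp, and m(b) = 0 for b ⊥ r. -/
structure SpecSYM : Prop where
  cov : ∀ r ∈ R, ∀ y ∈ cone r, ‖y‖ ≤ (inner ℝ r y : ℝ) ∧ 2 * ‖y‖ ^ 2 ≤ (inner ℝ r y : ℝ) ^ 2
  vol : ∀ r ∈ R, volume (cone r ∩ {y : E | inner ℝ r y ≤ (2 : ℝ)}) = ENNReal.ofReal (1 / 15)
  mom : ∀ r ∈ R, ∀ b : E, inner ℝ b r = (0 : ℝ) →
    ∫ y in cone r, inner ℝ b y * Real.exp (-(inner ℝ ((1 / 2 : ℝ) • r) y : ℝ)) = 0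

/-- PVL (120 lines).  Volume of a displaced pyramid.
PROOF.  CON.tan with C = cone r (closed, a cone), a0 = r/2, κ = 1/4 (SYM.cov: <r/2,y> ≥ |y|/2, and
<a,y> ≥ |y|/2 - |y|/4).  a - a0 = λ r + b with b ⊥ r, λ = <r,a-a0>/4.  The integral of
<a-a0,y> e^{..} is λ ∫ <r,y> e^{..} (SYM.mom) = 2λ ∫ <a0,y> e^{-<a0,y>} = 2λ * 8 * 8! * (1/15)
(CON.mom, SYM.vol: {<r/2,y> ≤ 1} = {<r,y> ≤ 2}).  So the volume is
≥ 1/15 - 16 λ/15 = (1/15)(1 - 4<r,a-a0>). -/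
def SpecPVL : Prop :=
  ∀ r ∈ R, ∀ a : E, ‖a - (1 / 2 : ℝ) • r‖ ≤ 1 / 4 →
    ENNReal.ofReal ((1 / 15) * (1 - 4 * (inner ℝ r (a - (1 / 2 : ℝ) • r) : ℝ)))
      ≤ volume (cone r ∩ {y : E | inner ℝ a y ≤ (1 : ℝ)})

/-- BAD (200 lines).  Two transversal slabs.
PROOF.  For each of the finitely many pairs r ≠ ±s (linearly independent: equal norms) choose a
linear equivalence T : E ≃ (Fin 8 → ℝ) with first coordinates <y,r>, <y,s>; the set is contained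
in T⁻¹([2-5δ,2+5δ]^2 × [-c,c]^6), of volume |det T|⁻¹ (10δ)^2 (2c)^6.  (Or: orthonormal basis
adapted to span(r,s), Fubini.)  Take the maximum of the constants. -/
def SpecBAD : Prop :=
  ∃ C : ℝ, 0 < C ∧ ∀ δ : ℝ, 0 ≤ δ → δ ≤ 1 → ∀ r ∈ R, ∀ s ∈ R, r ≠ s → s ≠ -r →
    volume {y : E | ‖y‖ ≤ 2 ∧ |(inner ℝ y r : ℝ) - 2| ≤ 5 * δ ∧ |(inner ℝ y s : ℝ) - 2| ≤ 5 * δ}
      ≤ ENNReal.ofReal (C * δ ^ 2)

/-- ZBL (250 lines).  The further centres cut off almost nothing.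
PROOF.  cell X 0 = {y : ∀ z ∈ X, <y,z> ≤ |z|^2/2}.  Let y ∈ cell1 x \ cell X 0: there is z ∈ X,
z ≠ 0, <y,z> > |z|^2/2, and z is none of the x r (y ∈ cell1 x).  (a) cell1 x ⊆ ball of radius ϱ,
ϱ^2 ≤ 2(1+8δ): for y ∈ cell1 x take r from COV, √2|y| ≤ <y,r> ≤ <y,x r>+δ|y| ≤
(2+δ)^2/2+δ|y|, so |y|(√2-δ) ≤ 2+2δ+δ^2/2.  (b) inversion: z' = (4/|z|^2) z ∈ cell1 x: from
|z - x r|^2 ≥ 4: <z,x r> ≤ (|z|^2+|x r|^2-4)/2, so
<z',x r> ≤ 2 + 2(|x r|^2-4)/|z|^2 ≤ |x r|^2/2 as |z|^2 ≥ 4 and |x r|^2 ≥ 4 (packing with 0).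
So 4/|z| = |z'| ≤ ϱ: |z|^2 ≥ 16/ϱ^2 ≥ 8(1-8δ).  (c) |y - z/2|^2 = |y|^2 - <y,z> + |z|^2/4 <
|y|^2 - |z|^2/4 ≤ 2(1+8δ) - 2(1-8δ) = 32δ, and |z| ≤ 2|y| ≤ 4.  So the set is contained in the
union over the z ∈ X, |z| ≤ 4, of the balls of radius √(32δ) about z/2: at most 6^8 such z (disjoint
unit balls in the ball of radius 5... ≤ 5^8), each of volume ≤ vol(B_1) (32δ)^4 ≤ C δ^2.
(δ = 0: the set is empty up to measure 0, in fact the strict inequality (c) gives empty.) -/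
def SpecZBL : Prop :=
  ∃ C δ0 : ℝ, 0 < C ∧ 0 < δ0 ∧ ∀ (δ : ℝ) (X : Set E) (x : E → E), 0 ≤ δ → δ ≤ δ0 → Packing X →
    (0 : E) ∈ X → (∀ r ∈ R, x r ∈ X ∧ ‖x r - r‖ ≤ δ) →
    volume (cell1 x \ cell X 0) ≤ ENNReal.ofReal (C * δ ^ 2)

/-- VLB (300 lines).  Lower bound for the volume of the displaced cell.
PROOF.  Put v_r = x r - r, ρ_r = <r,v_r>, a_r = (2/|x r|^2) x r, so {<a_r,y> ≤ 1} =
{<y,x r> ≤ |x r|^2/2}; |x r| ≥ 2 (packing: x r ≠ 0 as δ < 2).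
(1) P_r = cone r ∩ {<a_r,y> ≤ 1}: <r,a_r> = 2(4+ρ)/|x r|^2, |x r|^2 = 4+2ρ+|v|^2 ≥ 4, so
-4(<r,a_r>-2) = 8(ρ+|v|^2)/|x r|^2 ≥ 2ρ - (4ρ^2+2|ρ||v|^2)/4 ≥ 2ρ - 5δ^2 (|ρ| ≤ 2δ, δ ≤ 1) and
|a_r - r/2| ≤ 1/4 for small δ; PVL: volume P_r ≥ (1/15)(1+2ρ_r-5δ^2).
(2) The P_r are a.e. disjoint (cone r ∩ cone s ⊆ hyperplane, r ≠ s).
(3) If y ∈ P_r and y ∉ cell1 x there is s ≠ r, <y,x s> > |x s|^2/2 ≥ 2.  |y| ≤ 2 (SYM.cov:
√2|y| ≤ <r,y> ≤ <y,x r>+δ|y| ≤ (2+δ)^2/2+δ|y|).  <y,r> ≤ <y,x r>+2δ ≤ (2+δ)^2/2+2δ ≤ 2+5δ;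
<y,s> ≥ <y,x s>-2δ ≥ 2-2δ; <y,r> ≥ <y,s> (cone r) and so both are in [2-5δ,2+5δ]; s ≠ -r as
<y,-r> < 0.  So y is in one of the sets of BAD: total measure ≤ 240^2 C δ^2.
(4) cell X 0 ⊇ (⋃ P_r) \ (bad sets) \ (cell1 x \ cell X 0) and ZBL.  Sum:
volume ≥ ∑ (1/15)(1+2ρ_r-5δ^2) - C'δ^2 = 16 + (2/15)∑ρ_r - C''δ^2. -/
def SpecVLB : Prop :=
  ∃ C δ0 : ℝ, 0 < C ∧ 0 < δ0 ∧ ∀ (δ : ℝ) (X : Set E) (x : E → E), 0 ≤ δ → δ ≤ δ0 → Packing X →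
    (0 : E) ∈ X → (∀ r ∈ R, x r ∈ X ∧ ‖x r - r‖ ≤ δ) →
    ENNReal.ofReal (16 + 2 / 15 * ∑ r ∈ R, (inner ℝ r (x r - r) : ℝ) - C * δ ^ 2)
      ≤ volume (cell X 0)

/-! ## Part D: assembly -/

/-- LOC (250 lines).  Local theorem.
PROOF.  ‖x r - r‖ ≤ ε for all r.  NRM gives B; w r = B(x r) - r, NoRot R w,
δ := max ‖w r‖ ≤ √240 ε ≤ 16ε.  X' = B''X is a packing with 0 and x' r = B(x r) ∈ X', and
volume(cell X' 0) = volume(cell X 0) (cell X' 0 = B''(cell X 0), B preserves measure).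
ρ_r = <r,w r>: 4 ≤ |r+w r|^2 = 4+2ρ_r+|w r|^2 gives ρ_r ≥ -δ^2/2.  For a contact pair (r,s):
r+w r ≠ s+w s (δ small), 4 ≤ |r-s+w r-w s|^2 gives q_rs := <r-s,w r-w s> ≥ -2δ^2.
T := ∑ρ_r + 120δ^2 ≥ 0; each |ρ_r| ≤ T + δ^2.  ∑_{ordered contact pairs} q_rs =
2∑_r <∑_{s~r}(r-s), w r> = 2∑_r 28<r,w r> = 56∑ρ_r (CNT.c56, CNT.nbr), so each
|q_rs| ≤ 56T + 26882δ^2.  |<w r,s>+<r,w s>| = |ρ_r+ρ_s-q_rs| ≤ 58T+27000δ^2 =: η.  STA:
δ ≤ C η = 58C T + 27000C δ^2; if δ ≤ 1/(54000C): T ≥ δ/(116C).  VLB: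
volume ≥ 16 + (2/15)(T-120δ^2) - C'δ^2 ≥ 16 + (2/15)δ/(116C) - (16+C')δ^2 ≥ 16 + cδ for δ small,
and c‖w r‖ ≤ cδ. -/
def SpecLOC : Prop :=
  ∃ ε c : ℝ, 0 < ε ∧ 0 < c ∧ ∀ (X : Set E) (x : E → E), Packing X → (0 : E) ∈ X →
    (∀ r ∈ R, x r ∈ X ∧ ‖x r - r‖ ≤ ε) →
    ∃ B : E ≃ₗᵢ[ℝ] E, ∀ r ∈ R,
      ENNReal.ofReal (16 + c * ‖B (x r) - r‖) ≤ volume (cell X 0)

/-- FIN (150 lines).  Final theorem.
PROOF.  Translate p to 0.  CMP with η = ε of LOC; among the ≥ 240 centres choose 240 (injection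
from Fin 240; norms in [2,2+ε'] since X is a packing containing 0); CMP gives A and for r ∈ R an i with
‖A(y i)-r‖ ≤ η; x r := A(y i) ∈ A''X.  LOC for A''X gives B; the isometry of the statement is
(B∘A)⁻¹, and dist(y i, (BA)⁻¹r) = ‖B A y i - r‖.  R = shell by ROT.mem.
(eq) If p + A r ∈ X for all r ∈ shell: translate and rotate to p = 0, A = id, x r = r: by LOC (all
‖x r - r‖ = 0) volume ≥ 16 and cell X 0 ⊆ {y : ∀ r ∈ R, <y,r> ≤ 2} has volume ≤ 16 (VOL). -/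
structure SpecFIN : Prop where
  main : ∃ ε c : ℝ, 0 < ε ∧ 0 < c ∧ ∀ X : Set E, Packing X → ∀ p ∈ X,
    240 ≤ {x : E | x ∈ X ∧ x ≠ p ∧ dist x p ≤ 2 + ε}.encard →
    ∃ A : E ≃ₗᵢ[ℝ] E, ∀ r ∈ shell, ∃ x ∈ X,
      ENNReal.ofReal (16 + c * dist x (p + A r)) ≤ volume (cell X p)
  eq : ∀ X : Set E, Packing X → ∀ p ∈ X, ∀ A : E ≃ₗᵢ[ℝ] E, (∀ r ∈ shell, p + A r ∈ X) →
    volume (cell X p) = 16

end Pool.Agent.Lib.MP_f1379f_gt.EV
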