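import Mathlib

/-!
# MP_f1379f_gt: the E8 Voronoi cell among packings with 240 near contacts (definitions)

Scale: minimal distance 2, so the minimal vectors of E8 have squared norm 4 and the Voronoi cell
has volume 16.  Model of the scaled lattice: integer vectors whose reduction mod 2 lies in the
extended Hamming code.
-/

set_option autoImplicit false

namespace Pool.Agent.Lib.MP_f1379f_gt.EV

open MeasureTheory

/-- Euclidean 8-space. -/
abbrev E := EuclideanSpace ℝ (Fin 8)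

/-- A packing of unit balls (its set of centres). -/
def Packing (X : Set E) : Prop := ∀ x ∈ X, ∀ x' ∈ X, x ≠ x' → 2 ≤ dist x x'

/-- The Voronoi cell of `p`. -/
def cell (X : Set E) (p : E) : Set E := {y | ∀ x ∈ X, dist y p ≤ dist y x}

/-- Parity conditions: `n mod 2` is a word of the extended Hamming code of length 8. -/
def InL (n : Fin 8 → ℤ) : Prop :=
  2 ∣ n 0 + n 1 + n 2 + n 3 ∧ 2 ∣ n 0 + n 1 + n 4 + n 5 ∧ 2 ∣ n 0 + n 2 + n 4 + n 6 ∧
    2 ∣ ∑ i, n i

instance (n : Fin 8 → ℤ) : Decidable (InL n) := by unfold InL; infer_instance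

/-- The vector with integer coordinates `n`. -/
noncomputable def vec (n : Fin 8 → ℤ) : E := WithLp.toLp 2 fun i => (n i : ℝ)

/-- The lattice E8, scaled to minimal distance 2. -/
def E8 : Set E := {x | ∃ n : Fin 8 → ℤ, InL n ∧ x = vec n}

/-- The 240 minimal vectors of the scaled E8. -/
def shell : Set E := {x | x ∈ E8 ∧ ‖x‖ = 2}

/-- The integer coordinates of the minimal vectors. -/
def RZ : Finset (Fin 8 → ℤ) :=
  (Fintype.piFinset fun _ => ({-2, -1, 0, 1, 2} : Finset ℤ)).filter fun n => InL n ∧ ∑ i, n i ^ 2 = 4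

open Classical in
/-- The minimal vectors as a finset (module ROT: `x ∈ R ↔ x ∈ shell`). -/
noncomputable def R : Finset E := RZ.image vec

/-- Kissing configuration: norms 2, distinct points at distance at least 2. -/
structure Kiss (Y : Finset E) : Prop where
  nrm : ∀ y ∈ Y, inner ℝ y y = (4 : ℝ)
  sep : ∀ y ∈ Y, ∀ z ∈ Y, y ≠ z → inner ℝ y z ≤ (2 : ℝ)

/-- Kissing configuration with 240 points. -/
structure K240 (Y : Finset E) : Prop where
  kiss : Kiss Y
  card : Y.card = 240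

/-- The zonal harmonic polynomials of the sphere in dimension 8, leading coefficient 1. -/
noncomputable def gp : ℕ → ℝ → ℝ
  | 1, t => t
  | 2, t => t ^ 2 - 1 / 8
  | 3, t => t ^ 3 - 3 / 10 * t
  | 4, t => t ^ 4 - 1 / 2 * t ^ 2 + 1 / 40
  | 5, t => t ^ 5 - 5 / 7 * t ^ 3 + 5 / 56 * t
  | 6, t => t ^ 6 - 15 / 16 * t ^ 4 + 45 / 224 * t ^ 2 - 5 / 896
  | _, _ => 1

/-- The pyramid cone over the facet of the E8 cell belonging to `r`. -/
def cone (r : E) : Set E := {y | ∀ s ∈ R, inner ℝ y s ≤ (inner ℝ y r : ℝ)}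

/-- The cell cut out by the 240 displaced neighbours `x r`. -/
def cell1 (x : E → E) : Set E := {y | ∀ r ∈ R, inner ℝ y (x r) ≤ (inner ℝ (x r) (x r) : ℝ) / 2}

/-- No infinitesimal rotation part: the matrix `∑ r, w r ⊗ r` is symmetric. -/
def NoRot (Y : Finset E) (w : E → E) : Prop :=
  ∀ a b : E, ∑ r ∈ Y, inner ℝ (w r) a * inner ℝ r b =
    (∑ r ∈ Y, inner ℝ (w r) b * inner ℝ r a : ℝ)

/-- Extended Hamming words of weight 4, as subsets of `Fin 8`. -/
def words : Finset (Finset (Fin 8)) :=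
  {{0,1,2,3}, {4,5,6,7}, {0,1,4,5}, {2,3,6,7}, {0,2,4,6}, {1,3,5,7}, {0,1,6,7}, {2,3,4,5},
   {0,2,5,7}, {1,3,4,6}, {0,3,4,7}, {1,2,5,6}, {0,3,5,6}, {1,2,4,7}}

end Pool.Agent.Lib.MP_f1379f_gt.EV
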