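import Pool.Agent.Lib.MP_f1379f_gt.EV.Spec

/-!
# Module LPB: the Delsarte bound 240
-/

set_option autoImplicit false

namespace Pool.Agent.Lib.MP_f1379f_gt.EV

open MeasureTheory

namespace LPBM

/-- The Delsarte polynomial. -/
noncomputable def ff (t : ℝ) : ℝ := (t + 1) * (t + 1 / 2) ^ 2 * t ^ 2 * (t - 1 / 2)

theorem ff_eq (t : ℝ) : ff t = gp 6 t + 3 / 2 * gp 5 t + 19 / 16 * gp 4 t + 39 / 56 * gp 3 t +
    15 / 56 * gp 2 t + 3 / 40 * gp 1 t + 3 / 320 := by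
  simp only [ff, gp]
  ring

theorem ff_nonpos {t : ℝ} (h1 : -1 ≤ t) (h2 : t ≤ 1 / 2) : ff t ≤ 0 := by
  unfold ff
  have e1 : 0 ≤ t + 1 := by linarith
  have e2 : t - 1 / 2 ≤ 0 := by linarith
  exact mul_nonpos_of_nonneg_of_nonpos
    (mul_nonneg (mul_nonneg e1 (sq_nonneg _)) (sq_nonneg _)) e2

theorem ff_one : ff 1 = 9 / 4 := by
  unfold ff
  norm_num

theorem norm_two {Y : Finset E} (hY : Kiss Y) {y : E} (hy : y ∈ Y) : ‖y‖ = 2 := by
  have h := hY.nrm y hy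
  rw [real_inner_self_eq_norm_sq] at h
  nlinarith [norm_nonneg y]

theorem inner_ge {Y : Finset E} (hY : Kiss Y) {y z : E} (hy : y ∈ Y) (hz : z ∈ Y) :
    (-4 : ℝ) ≤ inner ℝ y z := by
  have h := abs_real_inner_le_norm y z
  rw [norm_two hY hy, norm_two hY hz] at h
  have := (abs_le.1 h).1
  linarith

open Classical in
/-- The excess. -/
noncomputable def hh (y z : E) : ℝ := (if z = y then 9 / 4 else 0) - ff (inner ℝ y z / 4)

theorem hh_nonneg {Y : Finset E} (hY : Kiss Y) {y z : E} (hy : y ∈ Y) (hz : z ∈ Y) :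
    0 ≤ hh y z := by
  unfold hh
  split_ifs with h
  · subst h
    rw [hY.nrm z hz]
    norm_num [ff_one]
  · have h1 := inner_ge hY hy hz
    have h2 := hY.sep y hy z hz (Ne.symm h)
    have := ff_nonpos (t := inner ℝ y z / 4) (by linarith) (by linarith)
    linarith

theorem sum_hh (Y : Finset E) : ∑ y ∈ Y, ∑ z ∈ Y, hh y z =
    9 / 4 * (Y.card : ℝ) - ∑ y ∈ Y, ∑ z ∈ Y, ff (inner ℝ y z / 4) := by
  classical
  unfold hh
  simp only [Finset.sum_sub_distrib]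
  congr 1
  have : ∀ y ∈ Y, ∑ z ∈ Y, (if z = y then (9 / 4 : ℝ) else 0) = 9 / 4 := by
    intro y hy
    rw [Finset.sum_ite_eq' Y y]
    simp [hy]
  rw [Finset.sum_congr rfl this, Finset.sum_const, nsmul_eq_mul]
  ring

/-- The sum of `g_k`. -/
noncomputable def SS (Y : Finset E) (k : ℕ) : ℝ := ∑ y ∈ Y, ∑ z ∈ Y, gp k (inner ℝ y z / 4)

theorem SS_nonneg (hGEG : SpecGEG) {Y : Finset E} (hY : Kiss Y) {k : ℕ} (hk : k ≤ 6) :
    0 ≤ SS Y k := by
  have h := hGEG k hk Y (fun _ => 1) hY.nrm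
  simpa [SS] using h

theorem sum_ff (Y : Finset E) : ∑ y ∈ Y, ∑ z ∈ Y, ff (inner ℝ y z / 4) =
    SS Y 6 + 3 / 2 * SS Y 5 + 19 / 16 * SS Y 4 + 39 / 56 * SS Y 3 + 15 / 56 * SS Y 2 +
      3 / 40 * SS Y 1 + 3 / 320 * (Y.card : ℝ) ^ 2 := by
  have h0 : (3 / 320 : ℝ) * (Y.card : ℝ) ^ 2 = ∑ y ∈ Y, ∑ z ∈ Y, (3 / 320 : ℝ) := by
    simp only [Finset.sum_const, nsmul_eq_mul]
    ring
  rw [h0]
  simp only [SS, Finset.mul_sum, ← Finset.sum_add_distrib]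
  exact Finset.sum_congr rfl fun y _ => Finset.sum_congr rfl fun z _ => ff_eq _

/-- The fundamental identity. -/
theorem fund (Y : Finset E) : (∑ y ∈ Y, ∑ z ∈ Y, hh y z) + (SS Y 6 + 3 / 2 * SS Y 5 +
    19 / 16 * SS Y 4 + 39 / 56 * SS Y 3 + 15 / 56 * SS Y 2 + 3 / 40 * SS Y 1) =
      9 / 4 * (Y.card : ℝ) - 3 / 320 * (Y.card : ℝ) ^ 2 := by
  have h1 := sum_hh Y
  have h2 := sum_ff Y
  linarith

end LPBM

open LPBM

theorem specLPB (hGEG : SpecGEG) : SpecLPB := by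
  intro Y hY
  have h1 := fund Y
  have h2 : 0 ≤ ∑ y ∈ Y, ∑ z ∈ Y, hh y z :=
    Finset.sum_nonneg fun y hy => Finset.sum_nonneg fun z hz => hh_nonneg hY hy hz
  have e1 := SS_nonneg hGEG hY (k := 1) (by norm_num)
  have e2 := SS_nonneg hGEG hY (k := 2) (by norm_num)
  have e3 := SS_nonneg hGEG hY (k := 3) (by norm_num)
  have e4 := SS_nonneg hGEG hY (k := 4) (by norm_num)
  have e5 := SS_nonneg hGEG hY (k := 5) (by norm_num)
  have e6 := SS_nonneg hGEG hY (k := 6) (by norm_num)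
  by_contra hcon
  rw [not_le] at hcon
  have h3 : (240 : ℝ) < Y.card := by exact_mod_cast hcon
  nlinarith

end Pool.Agent.Lib.MP_f1379f_gt.EV
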